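import Pool.Agent.H55.GWP.Defs

/-! WSA: sums over words. -/

set_option autoImplicit false
open Classical
namespace GWP

section wsum
variable {S : Type*} [Fintype S]

theorem wsum_add {A : Type*} [AddCommMonoid A] (n : ℕ) (F H : List S → A) :
    wsum n (fun w => F w + H w) = wsum n F + wsum n H := by
  induction n generalizing F H with
  | zero => rfl
  | succ n ih =>
    simp only [wsum]
    rw [← Finset.sum_add_distrib]
    exact Finset.sum_congr rfl fun s _ => ih _ _

theorem wsum_mul (n : ℕ) (c : ℝ) (F : List S → ℝ) :
    wsum n (fun w => c * F w) = c * wsum n F := by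
  induction n generalizing F with
  | zero => rfl
  | succ n ih =>
    simp only [wsum]
    rw [Finset.mul_sum]
    exact Finset.sum_congr rfl fun s _ => ih _

theorem wsum_map {A B : Type*} [AddCommMonoid A] [AddCommMonoid B] (φ : A →+ B) (n : ℕ)
    (F : List S → A) : φ (wsum n F) = wsum n (fun w => φ (F w)) := by
  induction n generalizing F with
  | zero => rfl
  | succ n ih =>
    simp only [wsum]
    rw [map_sum]
    exact Finset.sum_congr rfl fun s _ => ih _

theorem wsum_congr {A : Type*} [AddCommMonoid A] (n : ℕ) (F H : List S → A)
    (h : ∀ w : List S, w.length = n → F w = H w) : wsum n F = wsum n H := by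
  induction n generalizing F H with
  | zero => exact h [] rfl
  | succ n ih =>
    simp only [wsum]
    exact Finset.sum_congr rfl fun s _ => ih _ _ fun w hw => h (s :: w) (by simp [hw])

theorem wsum_le (n : ℕ) (F H : List S → ℝ)
    (h : ∀ w : List S, w.length = n → F w ≤ H w) : wsum n F ≤ wsum n H := by
  induction n generalizing F H with
  | zero => exact h [] rfl
  | succ n ih =>
    simp only [wsum]
    exact Finset.sum_le_sum fun s _ => ih _ _ fun w hw => h (s :: w) (by simp [hw])

theorem wsum_const (n : ℕ) (c : ℝ) :
    wsum n (fun _ : List S => c) = c * (Fintype.card S : ℝ) ^ n := by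
  induction n with
  | zero => simp [wsum]
  | succ n ih =>
    simp only [wsum]
    rw [ih, Finset.sum_const, Finset.card_univ, nsmul_eq_mul]
    ring

theorem wsum_append {A : Type*} [AddCommMonoid A] (m n : ℕ) (F : List S → A) :
    wsum (m + n) F = wsum m (fun u => wsum n (fun v => F (u ++ v))) := by
  induction m generalizing F with
  | zero => simp [wsum]
  | succ m ih =>
    rw [Nat.succ_add]
    simp only [wsum]
    exact Finset.sum_congr rfl fun s _ => by rw [ih]; rfl

theorem wsum_snoc {A : Type*} [AddCommMonoid A] (n : ℕ) (F : List S → A) :
    wsum (n + 1) F = wsum n (fun w => ∑ s : S, F (w ++ [s])) := by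
  rw [wsum_append]
  rfl

theorem wsum_finset {A ι : Type*} [AddCommMonoid A] (n : ℕ) (t : Finset ι)
    (F : ι → List S → A) :
    wsum n (fun w => ∑ i ∈ t, F i w) = ∑ i ∈ t, wsum n (F i) := by
  induction n generalizing F with
  | zero => rfl
  | succ n ih =>
    simp only [wsum]
    rw [Finset.sum_comm]
    exact Finset.sum_congr rfl fun s _ => ih fun i w => F i (s :: w)

theorem wsum_rev {A : Type*} [AddCommMonoid A] (inv : S → S) (hinv : ∀ s, inv (inv s) = s)
    (n : ℕ) (F : List S → A) :
    wsum n (fun w => F ((w.map inv).reverse)) = wsum n F := by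
  induction n generalizing F with
  | zero => rfl
  | succ n ih =>
    rw [wsum_snoc n F, wsum_finset, wsum]
    have hb : Function.Bijective inv := Function.Involutive.bijective hinv
    rw [← hb.sum_comp (fun s => wsum n (fun w => F (w ++ [s])))]
    refine Finset.sum_congr rfl fun s _ => ?_
    rw [← ih (fun w => F (w ++ [inv s]))]
    exact wsum_congr _ _ _ fun w _ => by simp

theorem finite_words (n : ℕ) (Q : List S → Prop) :
    {w : List S | w.length = n ∧ Q w}.Finite :=
  (List.finite_length_eq S n).subset fun _ hw => hw.1

theorem wsum_ncard (n : ℕ) (Q : List S → Prop) :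
    (({w : List S | w.length = n ∧ Q w}.ncard : ℕ) : ℝ) =
      wsum n (fun w => if Q w then (1 : ℝ) else 0) := by
  induction n generalizing Q with
  | zero =>
    simp only [wsum]
    by_cases h : Q []
    · rw [if_pos h]
      have : {w : List S | w.length = 0 ∧ Q w} = {[]} := by
        ext w
        simp only [Set.mem_setOf_eq, Set.mem_singleton_iff, List.length_eq_zero_iff]
        constructor
        · exact fun h => h.1
        · rintro rfl; exact ⟨rfl, h⟩
      rw [this, Set.ncard_singleton, Nat.cast_one]
    · rw [if_neg h]
      have : {w : List S | w.length = 0 ∧ Q w} = ∅ := by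
        ext w
        simp only [Set.mem_setOf_eq, Set.mem_empty_iff_false, List.length_eq_zero_iff, iff_false]
        rintro ⟨rfl, h'⟩
        exact h h'
      rw [this, Set.ncard_empty, Nat.cast_zero]
  | succ n ih =>
    simp only [wsum]
    rw [Finset.sum_congr rfl fun s _ => (ih (fun w => Q (s :: w))).symm]
    rw [← Nat.cast_sum]
    congr 1
    have hU : {w : List S | w.length = n + 1 ∧ Q w} =
        ((Finset.univ : Finset S).biUnion fun s =>
          ((finite_words n (fun w => Q (s :: w))).toFinset.image (fun w => s :: w)) :
            Finset (List S)) := by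
      ext w
      simp only [Set.mem_setOf_eq, Finset.coe_biUnion, Finset.mem_coe, Finset.mem_univ,
        Set.iUnion_true, Finset.coe_image, Set.Finite.coe_toFinset, Set.mem_iUnion, Set.mem_image]
      constructor
      · rintro ⟨hl, hq⟩
        cases w with
        | nil => simp at hl
        | cons s w => exact ⟨s, w, ⟨by simpa using hl, hq⟩, rfl⟩
      · rintro ⟨s, w', ⟨hl, hq⟩, rfl⟩
        exact ⟨by simp [hl], hq⟩
    rw [hU, Set.ncard_coe_finset, Finset.card_biUnion]
    · refine Finset.sum_congr rfl fun s _ => ?_
      rw [Finset.card_image_of_injective _ (List.cons_injective), Set.ncard_eq_toFinset_card _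
        (finite_words n (fun w => Q (s :: w)))]
    · intro s _ s' _ hne
      refine Finset.disjoint_left.mpr ?_
      intro w hw hw'
      simp only [Finset.mem_image] at hw hw'
      obtain ⟨a, _, ha⟩ := hw
      obtain ⟨b, _, hb⟩ := hw'
      rw [← hb] at ha
      exact hne (List.cons.inj ha).1

/-- the number of words with a prescribed block: summing over words of length `l`, only the
word `s` counts -/
theorem wsum_indicator (s : List S) (c : ℝ) :
    wsum s.length (fun w => if w = s then c else 0) = c := by
  induction s with
  | nil => simp [wsum]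
  | cons a s ih =>
    rw [List.length_cons]
    simp only [wsum]
    rw [Finset.sum_eq_single a]
    · simpa using ih
    · intro b _ hb
      have : (fun w : List S => if b :: w = a :: s then c else 0) = fun _ => 0 := by
        funext w
        rw [if_neg]
        intro h
        exact hb (List.cons.inj h).1
      rw [this, wsum_const, zero_mul]
    · intro h; exact absurd (Finset.mem_univ a) h

end wsum

end GWP
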