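import Pool.Agent.H55.GWP.TRB

/-! AM0: the Bass-Serre tree of an internal amalgam `G = A *_C B`, `C = A ⊓ B` (definitions). -/

set_option autoImplicit false
open Classical
namespace GWP

variable {G : Type*} [Group G]

/-- alternating words: letters alternately in `A ∖ B` and in `B ∖ A` -/
def AltL (A B : Subgroup G) : List G → Prop
  | [] => True
  | x :: l => ((x ∈ A ∧ x ∉ B ∧ ∀ y ∈ l.head?, y ∈ B ∧ y ∉ A) ∨
      (x ∈ B ∧ x ∉ A ∧ ∀ y ∈ l.head?, y ∈ A ∧ y ∉ B)) ∧ AltL A B l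

/-- The Bass-Serre tree: vertices are the cosets of `A` and `B`, edges join `gA` and `gB`. -/
def bsT (A B : Subgroup G) : SimpleGraph ((G ⧸ A) ⊕ (G ⧸ B)) where
  Adj u v := ∃ g : G, (u = Sum.inl (g : G ⧸ A) ∧ v = Sum.inr (g : G ⧸ B)) ∨
    (u = Sum.inr (g : G ⧸ B) ∧ v = Sum.inl (g : G ⧸ A))
  symm := ⟨fun u v ⟨g, h⟩ => ⟨g, h.elim (fun h => Or.inr ⟨h.2, h.1⟩) (fun h => Or.inl ⟨h.2, h.1⟩)⟩⟩
  loopless := ⟨fun u ⟨g, h⟩ => by rcases h with ⟨h1, h2⟩ | ⟨h1, h2⟩ <;> simp_all⟩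

end GWP
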