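import Pool.Agent.H55.GWP.AM0

/-! AM1: the Bass-Serre tree of an internal amalgam `G = A *_C B`, `C = A ⊓ B`.

Connected: `A ⊔ B = ⊤` (induction on a product of elements of `A ∪ B`; `gA ~ gB`).
Acyclic: a non-backtracking closed walk is a sequence of edges (cosets `g_i C`) whose quotients
`g_i⁻¹ g_{i+1}` are alternately in `A ∖ C` and `B ∖ C`; if its first and last vertex agree, the
product of these elements, possibly corrected by an element of `A` (or `B`), is `1 ∈ C`,
contradiction to `hnf`. -/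

set_option autoImplicit false
open Classical
namespace GWP

variable {G : Type*} [Group G]

theorem bs_act (A B : Subgroup G) (g : G) (u v : (G ⧸ A) ⊕ (G ⧸ B))
    (h : (bsT A B).Adj u v) : (bsT A B).Adj (g • u) (g • v) := by
  obtain ⟨k, ⟨h1, h2⟩ | ⟨h1, h2⟩⟩ := h
  · exact ⟨g * k, Or.inl ⟨by rw [h1]; rfl, by rw [h2]; rfl⟩⟩
  · exact ⟨g * k, Or.inr ⟨by rw [h1]; rfl, by rw [h2]; rfl⟩⟩

/-- the neighbours of `gA` and `gB` -/
theorem AM1_adj (A B : Subgroup G) (g : G) : (bsT A B).Adj (Sum.inl (g : G ⧸ A))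
    (Sum.inr (g : G ⧸ B)) := ⟨g, Or.inl ⟨rfl, rfl⟩⟩

/-- equal cosets -/
theorem AM1_coset {A : Subgroup G} {g k : G} (h : (g : G ⧸ A) = (k : G ⧸ A)) :
    ∃ a ∈ A, k = g * a := ⟨g⁻¹ * k, QuotientGroup.eq.mp h, by group⟩

/-- multiplication on the right -/
theorem AM1_mul {A : Subgroup G} (g : G) {a : G} (ha : a ∈ A) : ((g * a : G) : G ⧸ A) = g := by
  rw [QuotientGroup.eq]
  have : (g * a)⁻¹ * g = a⁻¹ := by group
  rw [this]
  exact A.inv_mem ha

/-- right multiplication by an element of `A` or `B` does not leave the component -/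
theorem AM1_reach (A B : Subgroup G) (g x : G) (hx : x ∈ (A : Set G) ∪ B) :
    (bsT A B).Reachable (Sum.inl (g : G ⧸ A)) (Sum.inl ((g * x : G) : G ⧸ A)) := by
  rcases hx with hx | hx
  · rw [AM1_mul g hx]
  · have h1 := AM1_adj A B g
    have h2 := (AM1_adj A B (g * x)).symm
    rw [AM1_mul (A := B) g hx] at h2
    exact h1.reachable.trans h2.reachable

theorem AM1_connected (A B : Subgroup G) (hgen : A ⊔ B = ⊤) : (bsT A B).Connected := by
  have h1 : ∀ g : G, (bsT A B).Reachable (Sum.inl ((1 : G) : G ⧸ A)) (Sum.inl (g : G ⧸ A)) := by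
    intro g
    have hg : g ∈ Subgroup.closure ((A : Set G) ∪ B) := by
      rw [← Subgroup.sup_eq_closure, hgen]
      trivial
    induction hg using Subgroup.closure_induction_right with
    | one => exact SimpleGraph.Reachable.refl _
    | mul_right x _ y hy ih => exact ih.trans (AM1_reach A B x y hy)
    | mul_inv_cancel x _ y hy ih =>
      refine ih.trans (AM1_reach A B x y⁻¹ ?_)
      rcases hy with hy | hy
      · exact Or.inl (A.inv_mem hy)
      · exact Or.inr (B.inv_mem hy)
  have h2 : ∀ v : (G ⧸ A) ⊕ (G ⧸ B),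
      (bsT A B).Reachable (Sum.inl ((1 : G) : G ⧸ A)) v := by
    rintro (v | v)
    · obtain ⟨g, rfl⟩ := QuotientGroup.mk_surjective v
      exact h1 g
    · obtain ⟨g, rfl⟩ := QuotientGroup.mk_surjective v
      exact (h1 g).trans (AM1_adj A B g).reachable
  have : Nonempty ((G ⧸ A) ⊕ (G ⧸ B)) := ⟨Sum.inl ((1 : G) : G ⧸ A)⟩
  exact ⟨fun u v => (h2 u).symm.trans (h2 v)⟩

/-- **The word of a path.** -/
theorem AM1_word (A B : Subgroup G) : ∀ {w v : (G ⧸ A) ⊕ (G ⧸ B)} (p : (bsT A B).Walk w v),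
    p.IsPath → ∀ (u : (G ⧸ A) ⊕ (G ⧸ B)) (k : G), s(u, w) ∉ p.edges →
    ((u = Sum.inl (k : G ⧸ A) → w = Sum.inr (k : G ⧸ B) → ∃ l : List G, AltL A B l ∧
        l.length = p.length ∧ (∀ y ∈ l.head?, y ∈ B ∧ y ∉ A) ∧
        ((v = Sum.inr ((k * l.prod : G) : G ⧸ B) ∧ ∀ y ∈ l.getLast?, y ∈ A ∧ y ∉ B) ∨
          (v = Sum.inl ((k * l.prod : G) : G ⧸ A) ∧ ∀ y ∈ l.getLast?, y ∈ B ∧ y ∉ A))) ∧
      (u = Sum.inr (k : G ⧸ B) → w = Sum.inl (k : G ⧸ A) → ∃ l : List G, AltL A B l ∧
        l.length = p.length ∧ (∀ y ∈ l.head?, y ∈ A ∧ y ∉ B) ∧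
        ((v = Sum.inr ((k * l.prod : G) : G ⧸ B) ∧ ∀ y ∈ l.getLast?, y ∈ A ∧ y ∉ B) ∨
          (v = Sum.inl ((k * l.prod : G) : G ⧸ A) ∧ ∀ y ∈ l.getLast?, y ∈ B ∧ y ∉ A)))) := by
  intro w v p
  induction p with
  | nil =>
    intro _ u k _
    refine ⟨fun _ h => ⟨[], trivial, rfl, by simp, Or.inl ⟨by simpa using h, by simp⟩⟩,
      fun _ h => ⟨[], trivial, rfl, by simp, Or.inr ⟨by simpa using h, by simp⟩⟩⟩
  | @cons w x v h p ih =>
    intro hp u k hu
    rw [SimpleGraph.Walk.cons_isPath_iff] at hp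
    obtain ⟨hp1, hp2⟩ := hp
    have hx : s(w, x) ∉ p.edges := fun hc => hp2 (p.fst_mem_support_of_mem_edges hc)
    have hux : u ≠ x := by
      rintro rfl
      apply hu
      rw [SimpleGraph.Walk.edges_cons]
      exact List.mem_cons.mpr (Or.inl Sym2.eq_swap)
    refine ⟨fun hk hw => ?_, fun hk hw => ?_⟩
    · obtain ⟨j, ⟨h1, h2⟩ | ⟨h1, h2⟩⟩ := h
      · rw [hw] at h1
        cases h1
      · rw [hw] at h1
        obtain ⟨b, hb, rfl⟩ := AM1_coset (Sum.inr_injective h1)
        have hbA : b ∉ A := by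
          intro hbA
          apply hux
          rw [hk, h2, AM1_mul k hbA]
        obtain ⟨l, a1, a2, a3, a4⟩ := (ih hp1 w (k * b) hx).2
          (by rw [hw, AM1_mul k hb]) h2
        refine ⟨b :: l, ⟨Or.inr ⟨hb, hbA, a3⟩, a1⟩, by simp [a2], by simp [hb, hbA], ?_⟩
        rcases a4 with ⟨c1, c2⟩ | ⟨c1, c2⟩
        · left
          refine ⟨by rw [c1, List.prod_cons, mul_assoc], ?_⟩
          cases l with
          | nil =>
            -- the path is trivial, the end is of the other kind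
            simp only [List.length_nil] at a2
            have := SimpleGraph.Walk.eq_of_length_eq_zero a2.symm
            rw [← this, h2] at c1
            cases c1
          | cons y l =>
            intro z hz
            exact c2 z (by simpa using hz)
        · right
          refine ⟨by rw [c1, List.prod_cons, mul_assoc], ?_⟩
          cases l with
          | nil => simp [hb, hbA]
          | cons y l =>
            intro z hz
            exact c2 z (by simpa using hz)
    · obtain ⟨j, ⟨h1, h2⟩ | ⟨h1, h2⟩⟩ := h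
      · rw [hw] at h1
        obtain ⟨b, hb, rfl⟩ := AM1_coset (Sum.inl_injective h1)
        have hbB : b ∉ B := by
          intro hbB
          apply hux
          rw [hk, h2, AM1_mul k hbB]
        obtain ⟨l, a1, a2, a3, a4⟩ := (ih hp1 w (k * b) hx).1
          (by rw [hw, AM1_mul k hb]) h2
        refine ⟨b :: l, ⟨Or.inl ⟨hb, hbB, a3⟩, a1⟩, by simp [a2], by simp [hb, hbB], ?_⟩
        rcases a4 with ⟨c1, c2⟩ | ⟨c1, c2⟩
        · left
          refine ⟨by rw [c1, List.prod_cons, mul_assoc], ?_⟩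
          cases l with
          | nil => simp [hb, hbB]
          | cons y l =>
            intro z hz
            exact c2 z (by simpa using hz)
        · right
          refine ⟨by rw [c1, List.prod_cons, mul_assoc], ?_⟩
          cases l with
          | nil =>
            simp only [List.length_nil] at a2
            have := SimpleGraph.Walk.eq_of_length_eq_zero a2.symm
            rw [← this, h2] at c1
            cases c1
          | cons y l =>
            intro z hz
            exact c2 z (by simpa using hz)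
      · rw [hw] at h1
        cases h1

/-- a letter at the end -/
theorem AM1_snoc (A B : Subgroup G) (a : G) : ∀ l : List G, AltL A B l → l ≠ [] →
    (((a ∈ A ∧ a ∉ B) ∧ (∀ y ∈ l.getLast?, y ∈ B ∧ y ∉ A)) ∨
      ((a ∈ B ∧ a ∉ A) ∧ (∀ y ∈ l.getLast?, y ∈ A ∧ y ∉ B))) → AltL A B (l ++ [a])
  | [], _, h, _ => absurd rfl h
  | [x], hl, _, ha => by
    simp only [List.getLast?_singleton, Option.mem_def, Option.some.injEq, forall_eq'] at ha
    show AltL A B [x, a]
    rcases ha with ⟨h1, h2⟩ | ⟨h1, h2⟩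
    · exact ⟨Or.inr ⟨h2.1, h2.2, by simp [h1]⟩, Or.inl ⟨h1.1, h1.2, by simp⟩, trivial⟩
    · exact ⟨Or.inl ⟨h2.1, h2.2, by simp [h1]⟩, Or.inr ⟨h1.1, h1.2, by simp⟩, trivial⟩
  | x :: y :: l, hl, _, ha => by
    have h1 := AM1_snoc A B a (y :: l) hl.2 (by simp) (by simpa using ha)
    exact ⟨hl.1, h1⟩

theorem bs_tree (A B : Subgroup G) (hgen : A ⊔ B = ⊤)
    (hnf : ∀ l : List G, l ≠ [] → AltL A B l → l.prod ∉ A ⊓ B) : (bsT A B).IsTree := by
  refine ⟨AM1_connected A B hgen, ?_⟩
  intro u c hc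
  cases c with
  | nil => exact hc.ne_nil rfl
  | @cons u w v h p =>
    rw [SimpleGraph.Walk.cons_isCycle_iff] at hc
    obtain ⟨hp, he⟩ := hc
    have hlen : p.length ≠ 0 := by
      intro h0
      have := SimpleGraph.Walk.eq_of_length_eq_zero h0
      rw [this] at h
      exact h.ne rfl
    obtain ⟨k, ⟨h1, h2⟩ | ⟨h1, h2⟩⟩ := h
    · obtain ⟨l, a1, a2, a3, a4⟩ := (AM1_word A B p hp u k he).1 h1 h2
      have hl : l ≠ [] := by
        rintro rfl
        exact hlen a2.symm
      rcases a4 with ⟨c1, c2⟩ | ⟨c1, c2⟩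
      · rw [h1] at c1
        cases c1
      · rw [h1] at c1
        obtain ⟨a, ha, e⟩ := AM1_coset (Sum.inl_injective c1)
        have e' : l.prod = a := mul_left_cancel e
        by_cases hb : a ∈ B
        · exact hnf l hl a1 (by rw [e']; exact ⟨ha, hb⟩)
        · refine hnf (l ++ [a⁻¹]) (by simp) (AM1_snoc A B a⁻¹ l a1 hl (Or.inl ⟨⟨A.inv_mem ha,
            fun hc => hb (by simpa using B.inv_mem hc)⟩, c2⟩)) ?_
          rw [List.prod_append, e']
          simp
    · obtain ⟨l, a1, a2, a3, a4⟩ := (AM1_word A B p hp u k he).2 h1 h2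
      have hl : l ≠ [] := by
        rintro rfl
        exact hlen a2.symm
      rcases a4 with ⟨c1, c2⟩ | ⟨c1, c2⟩
      · rw [h1] at c1
        obtain ⟨a, ha, e⟩ := AM1_coset (Sum.inr_injective c1)
        have e' : l.prod = a := mul_left_cancel e
        by_cases hb : a ∈ A
        · exact hnf l hl a1 (by rw [e']; exact ⟨hb, ha⟩)
        · refine hnf (l ++ [a⁻¹]) (by simp) (AM1_snoc A B a⁻¹ l a1 hl (Or.inr ⟨⟨B.inv_mem ha,
            fun hc => hb (by simpa using A.inv_mem hc)⟩, c2⟩)) ?_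
          rw [List.prod_append, e']
          simp
      · rw [h1] at c1
        cases c1

end GWP
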