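import Pool.Agent.H55.GWP.AM1

/-! AM1b: distances and stabilisers along alternating words. -/

set_option autoImplicit false
open Classical
namespace GWP

variable {G : Type*} [Group G]

/-- the edges of the walk along a word -/
def AM1b_eds (A B : Subgroup G) : G → List G → List (Sym2 ((G ⧸ A) ⊕ (G ⧸ B)))
  | _, [] => []
  | k, x :: l => s(Sum.inl ((k * x : G) : G ⧸ A), Sum.inr ((k * x : G) : G ⧸ B)) ::
      AM1b_eds A B (k * x) l

theorem AM1b_length (A B : Subgroup G) : ∀ (l : List G) (k : G),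
    (AM1b_eds A B k l).length = l.length
  | [], _ => rfl
  | x :: l, k => by
    rw [AM1b_eds, List.length_cons, List.length_cons, AM1b_length A B l (k * x)]

theorem AM1b_get (A B : Subgroup G) : ∀ (l : List G) (k : G) (i : ℕ), i < l.length →
    (AM1b_eds A B k l)[i]? = some s(Sum.inl ((k * (l.take (i + 1)).prod : G) : G ⧸ A),
      Sum.inr ((k * (l.take (i + 1)).prod : G) : G ⧸ B))
  | [], _, i, h => by simp at h
  | x :: l, k, 0, _ => by simp [AM1b_eds]
  | x :: l, k, i + 1, h => by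
    have h1 := AM1b_get A B l (k * x) i (by simpa using h)
    rw [AM1b_eds, List.getElem?_cons_succ, h1, List.take_succ_cons, List.prod_cons, mul_assoc]

theorem AM1b_ne (A B : Subgroup G) {k y : G} (h : ¬ (y ∈ A ∧ y ∈ B)) :
    (s(Sum.inl (k : G ⧸ A), Sum.inr (k : G ⧸ B)) : Sym2 ((G ⧸ A) ⊕ (G ⧸ B))) ≠
      s(Sum.inl ((k * y : G) : G ⧸ A), Sum.inr ((k * y : G) : G ⧸ B)) := by
  intro hc
  rw [Sym2.eq_iff] at hc
  rcases hc with ⟨h1, h2⟩ | ⟨h1, _⟩
  · have h1' := QuotientGroup.eq.mp (Sum.inl_injective h1)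
    have h2' := QuotientGroup.eq.mp (Sum.inr_injective h2)
    have e : k⁻¹ * (k * y) = y := by group
    rw [e] at h1' h2'
    exact h ⟨h1', h2'⟩
  · cases h1

theorem AM1b_chain (A B : Subgroup G) : ∀ (l : List G) (k : G), AltL A B l →
    List.IsChain (· ≠ ·) (AM1b_eds A B k l)
  | [], _, _ => List.IsChain.nil
  | [x], _, _ => List.IsChain.singleton _
  | x :: y :: l, k, h => by
    have h1 := AM1b_chain A B (y :: l) (k * x) h.2
    rw [AM1b_eds]
    rw [AM1b_eds] at h1 ⊢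
    refine List.IsChain.cons_cons ?_ h1
    apply AM1b_ne
    intro hy
    rcases h.2.1 with ⟨_, c, _⟩ | ⟨_, c, _⟩
    · exact c hy.2
    · exact c hy.1

/-- the walk along a word -/
theorem AM1b_walk (A B : Subgroup G) : ∀ (l : List G) (k : G), AltL A B l →
    ((∀ y ∈ l.head?, y ∈ A) → ∃ (v : (G ⧸ A) ⊕ (G ⧸ B))
      (p : (bsT A B).Walk (Sum.inl (k : G ⧸ A)) v), p.edges = AM1b_eds A B k l ∧
      (∀ y ∈ l.getLast?, y ∈ B → v = Sum.inl ((k * l.prod : G) : G ⧸ A))) ∧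
    ((∀ y ∈ l.head?, y ∈ B) → ∃ (v : (G ⧸ A) ⊕ (G ⧸ B))
      (p : (bsT A B).Walk (Sum.inr (k : G ⧸ B)) v), p.edges = AM1b_eds A B k l ∧
      (∀ y ∈ l.getLast?, y ∈ B → v = Sum.inl ((k * l.prod : G) : G ⧸ A)))
  | [], k, _ => ⟨fun _ => ⟨_, SimpleGraph.Walk.nil, rfl, by simp⟩,
      fun _ => ⟨_, SimpleGraph.Walk.nil, rfl, by simp⟩⟩
  | x :: l, k, h => by
    have ih := AM1b_walk A B l (k * x) h.2
    refine ⟨fun hx => ?_, fun hx => ?_⟩
    · have hxA : x ∈ A := hx x (by simp)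
      rcases h.1 with ⟨_, c, hl⟩ | ⟨_, c, _⟩
      · obtain ⟨v, p, h1, h2⟩ := ih.2 fun y hy => (hl y hy).1
        have e : (Sum.inl ((k * x : G) : G ⧸ A) : (G ⧸ A) ⊕ (G ⧸ B)) = Sum.inl (k : G ⧸ A) := by
          rw [AM1_mul k hxA]
        have hadj : (bsT A B).Adj (Sum.inl (k : G ⧸ A)) (Sum.inr ((k * x : G) : G ⧸ B)) := by
          rw [← e]
          exact AM1_adj A B (k * x)
        refine ⟨v, SimpleGraph.Walk.cons hadj p, ?_, ?_⟩
        · rw [SimpleGraph.Walk.edges_cons, h1, AM1b_eds, e]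
        · intro y hy hyB
          cases l with
          | nil =>
            simp only [List.getLast?_singleton, Option.mem_def, Option.some.injEq] at hy
            rw [← hy] at hyB
            exact absurd hyB c
          | cons z l =>
            rw [h2 y (by simpa using hy) hyB, List.prod_cons, List.prod_cons, List.prod_cons,
              mul_assoc]
      · exact absurd hxA c
    · have hxB : x ∈ B := hx x (by simp)
      rcases h.1 with ⟨_, c, _⟩ | ⟨_, c, hl⟩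
      · exact absurd hxB c
      · obtain ⟨v, p, h1, h2⟩ := ih.1 fun y hy => (hl y hy).1
        have e : (Sum.inr ((k * x : G) : G ⧸ B) : (G ⧸ A) ⊕ (G ⧸ B)) = Sum.inr (k : G ⧸ B) := by
          rw [AM1_mul k hxB]
        have hadj : (bsT A B).Adj (Sum.inr (k : G ⧸ B)) (Sum.inl ((k * x : G) : G ⧸ A)) := by
          rw [← e]
          exact (AM1_adj A B (k * x)).symm
        refine ⟨v, SimpleGraph.Walk.cons hadj p, ?_, ?_⟩
        · rw [SimpleGraph.Walk.edges_cons, h1, AM1b_eds, e, Sym2.eq_swap]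
        · intro y hy hyB
          cases l with
          | nil =>
            have hp : p.edges = [] := by rw [h1]; rfl
            have hp' : p.length = 0 := by rw [← SimpleGraph.Walk.length_edges, hp]; rfl
            rw [← SimpleGraph.Walk.eq_of_length_eq_zero hp', List.prod_cons, List.prod_nil,
              mul_one]
          | cons z l =>
            rw [h2 y (by simpa using hy) hyB, List.prod_cons, List.prod_cons, List.prod_cons,
              mul_assoc]

/-- the path along a word -/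
theorem AM1b_path (A B : Subgroup G) (hT : (bsT A B).IsTree) (l : List G)
    (hl : AltL A B l) (hhead : ∀ x ∈ l.head?, x ∈ A) (hlast : ∀ x ∈ l.getLast?, x ∈ B) :
    ∃ p : (bsT A B).Walk (Sum.inl ((1 : G) : G ⧸ A)) (Sum.inl (l.prod : G ⧸ A)),
      p.IsPath ∧ p.edges = AM1b_eds A B 1 l := by
  cases l with
  | nil => exact ⟨SimpleGraph.Walk.nil, SimpleGraph.Walk.IsPath.nil, rfl⟩
  | cons x l =>
    obtain ⟨v, p, h1, h2⟩ := (AM1b_walk A B (x :: l) 1 hl).1 hhead
    have hy := List.getLast?_eq_getLast_of_ne_nil (l := x :: l) (by simp)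
    have h3 := h2 _ hy (hlast _ hy)
    rw [one_mul] at h3
    subst h3
    exact ⟨p, (hT.isAcyclic.isPath_iff_isChain p).mpr (by rw [h1]; exact AM1b_chain A B _ 1 hl), h1⟩

/-- The alternating word `a₁ b₁ … aₙ bₙ` (`2n` letters) moves the vertex `A` by `2n`, and the
geodesic passes through the edges `x₁ ⋯ x_i C`. -/
theorem bs_dist (A B : Subgroup G) (hgen : A ⊔ B = ⊤)
    (hnf : ∀ l : List G, l ≠ [] → AltL A B l → l.prod ∉ A ⊓ B) (l : List G)
    (hl : AltL A B l) (hhead : ∀ x ∈ l.head?, x ∈ A) (hlast : ∀ x ∈ l.getLast?, x ∈ B) :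
    (bsT A B).dist (Sum.inl ((1 : G) : G ⧸ A)) (Sum.inl (l.prod : G ⧸ A)) = l.length := by
  have hT := bs_tree A B hgen hnf
  obtain ⟨p, hp, he⟩ := AM1b_path A B hT l hl hhead hlast
  obtain ⟨q, hq⟩ := hT.connected.exists_walk_length_eq_dist (Sum.inl ((1 : G) : G ⧸ A))
    (Sum.inl (l.prod : G ⧸ A))
  have hq' := q.isPath_of_length_eq_dist hq
  have h := congrArg Subtype.val (hT.isAcyclic.path_unique ⟨p, hp⟩ ⟨q, hq'⟩)
  have h' : p = q := h
  rw [← hq, ← h', ← SimpleGraph.Walk.length_edges, he, AM1b_length]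

/-- An element fixing both ends of the geodesic fixes the intermediate vertices, so it is in
`x₁ ⋯ x_i C (x₁ ⋯ x_i)⁻¹` for every `1 ≤ i ≤ 2n`. -/
theorem bs_fix (A B : Subgroup G) (hgen : A ⊔ B = ⊤)
    (hnf : ∀ l : List G, l ≠ [] → AltL A B l → l.prod ∉ A ⊓ B) (l : List G)
    (hl : AltL A B l) (hhead : ∀ x ∈ l.head?, x ∈ A) (hlast : ∀ x ∈ l.getLast?, x ∈ B)
    (x : G) (h1 : x • (Sum.inl ((1 : G) : G ⧸ A) : (G ⧸ A) ⊕ (G ⧸ B)) =
      Sum.inl ((1 : G) : G ⧸ A))
    (h2 : x • (Sum.inl (l.prod : G ⧸ A) : (G ⧸ A) ⊕ (G ⧸ B)) = Sum.inl (l.prod : G ⧸ A))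
    (i : ℕ) (hi : 1 ≤ i) (hi' : i ≤ l.length) :
    (l.take i).prod⁻¹ * x * (l.take i).prod ∈ A ⊓ B := by
  have hT := bs_tree A B hgen hnf
  obtain ⟨p, hp, he⟩ := AM1b_path A B hT l hl hhead hlast
  -- the automorphism
  obtain ⟨f, hf⟩ : ∃ f : bsT A B →g bsT A B, ∀ v, f v = x • v :=
    ⟨⟨fun v => x • v, fun h => bs_act A B x _ _ h⟩, fun _ => rfl⟩
  have hinj : Function.Injective f := fun u v h => by
    rw [hf, hf] at h
    exact MulAction.injective x h
  have hq := SimpleGraph.Walk.map_isPath_of_injective hinj hp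
  have e1 : f (Sum.inl ((1 : G) : G ⧸ A)) = Sum.inl ((1 : G) : G ⧸ A) := by rw [hf]; exact h1
  have e2 : f (Sum.inl (l.prod : G ⧸ A)) = Sum.inl (l.prod : G ⧸ A) := by rw [hf]; exact h2
  have hq' : ((p.map f).copy e1 e2).IsPath := by
    rw [SimpleGraph.Walk.isPath_copy]
    exact hq
  have h := congrArg Subtype.val (hT.isAcyclic.path_unique ⟨_, hq'⟩ ⟨p, hp⟩)
  have h' : (p.map f).copy e1 e2 = p := h
  have h3 : p.edges.map (Sym2.map f) = p.edges := by
    rw [← SimpleGraph.Walk.edges_map, ← SimpleGraph.Walk.edges_copy (p.map f) e1 e2, h']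
  rw [he] at h3
  obtain ⟨j, rfl⟩ : ∃ j, i = j + 1 := ⟨i - 1, by omega⟩
  have h4 := AM1b_get A B l 1 j (by omega)
  have h5 := congrArg (fun t => t[j]?) h3
  simp only [List.getElem?_map] at h5
  rw [h4] at h5
  simp only [Option.map_some, Option.some.injEq, Sym2.map_mk] at h5
  rw [one_mul, hf, hf] at h5
  obtain ⟨k, hk⟩ : ∃ k, k = (l.take (j + 1)).prod := ⟨_, rfl⟩
  rw [← hk] at h5 ⊢
  have c1 : x • (Sum.inl (k : G ⧸ A) : (G ⧸ A) ⊕ (G ⧸ B)) = Sum.inl ((x * k : G) : G ⧸ A) := rfl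
  have c2 : x • (Sum.inr (k : G ⧸ B) : (G ⧸ A) ⊕ (G ⧸ B)) = Sum.inr ((x * k : G) : G ⧸ B) := rfl
  rw [c1, c2, Sym2.eq_iff] at h5
  rcases h5 with ⟨d1, d2⟩ | ⟨d1, _⟩
  · have d1' := QuotientGroup.eq.mp (Sum.inl_injective d1.symm)
    have d2' := QuotientGroup.eq.mp (Sum.inr_injective d2.symm)
    have e : k⁻¹ * x * k = k⁻¹ * (x * k) := by group
    rw [e]
    exact ⟨d1', d2'⟩
  · cases d1

end GWP
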