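import Pool.Agent.H55.GWP.AM1b

/-! AM2: an axis with finite stabilisers in the Bass-Serre tree.

Write `g = c x₁ ⋯ x_r` with `c ∈ C` and `x` alternating (every element of `G` is of this form,
`A ⊔ B = ⊤`); choose an alternating word `y` of even length `2n ≥ 2`, first letter `a₁` (`∈ A ∖ C`),
last letter in `B ∖ C`, which contains `x₁ ⋯ x_r` as a block of consecutive letters at the places
`i+1, …, i+r`, `i ≥ 1` (fill in with `a₁`, `b`), and let `h = y.prod`.  `h^n` is the product of the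
repeated word, so `bs_dist` gives the axis.  An `x` fixing `p` and `h p` satisfies (`bs_fix` for `i`
and `i + r`): `z = (y.take i).prod⁻¹ x (y.take i).prod ∈ C` and `(x₁⋯x_r)⁻¹ z (x₁⋯x_r) ∈ C`, i.e.
`c z c⁻¹` is in the finite set of `hg`.
Index: `(a₂ b)^n ≠ h^m` for `n ≥ 1` and all integers `m`: `h^(-m) (a₂ b)^n` is the product of an
alternating word (`a₁⁻¹ a₂ ∈ A ∖ B` for `m > 0`), so the powers of `a₂ b` are in different left
cosets of `⟨h⟩`. -/

set_option autoImplicit false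
open Classical
namespace GWP

variable {G : Type*} [Group G]

/-- the relation of neighbouring letters -/
def AM2_R (A B : Subgroup G) (x y : G) : Prop :=
  ((x ∈ A ∧ x ∉ B) ∧ (y ∈ B ∧ y ∉ A)) ∨ ((x ∈ B ∧ x ∉ A) ∧ (y ∈ A ∧ y ∉ B))

theorem AM2_alt (A B : Subgroup G) : ∀ l : List G, AltL A B l ↔
    (∀ x ∈ l, (x ∈ A ∧ x ∉ B) ∨ (x ∈ B ∧ x ∉ A)) ∧ List.IsChain (AM2_R A B) l
  | [] => by simp [AltL]
  | [x] => by
    simp only [AltL, List.head?_nil, Option.mem_def, reduceCtorEq, false_implies, implies_true,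
      and_true, List.mem_singleton, forall_eq, List.isChain_singleton]
  | x :: y :: l => by
    have ih := AM2_alt A B (y :: l)
    have e : AltL A B (x :: y :: l) ↔ ((x ∈ A ∧ x ∉ B ∧ ∀ z ∈ (y :: l).head?, z ∈ B ∧ z ∉ A) ∨
      (x ∈ B ∧ x ∉ A ∧ ∀ z ∈ (y :: l).head?, z ∈ A ∧ z ∉ B)) ∧ AltL A B (y :: l) := Iff.rfl
    rw [e, ih, List.isChain_cons_cons]
    simp only [List.head?_cons, Option.mem_def, Option.some.injEq, forall_eq', List.mem_cons,
      forall_eq_or_imp]
    unfold AM2_R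
    tauto

theorem AM2_append {A B : Subgroup G} {l l' : List G} (h : AltL A B l) (h' : AltL A B l')
    (hr : ∀ x ∈ l.getLast?, ∀ y ∈ l'.head?, AM2_R A B x y) : AltL A B (l ++ l') := by
  rw [AM2_alt] at h h' ⊢
  refine ⟨fun x hx => ?_, ?_⟩
  · rcases List.mem_append.mp hx with hx | hx
    · exact h.1 x hx
    · exact h'.1 x hx
  · rw [List.isChain_append]
    exact ⟨h.2, h'.2, hr⟩

theorem AM2_inv {A B : Subgroup G} {l : List G} (h : AltL A B l) :
    AltL A B (l.map (fun x => x⁻¹)).reverse := by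
  rw [AM2_alt] at h ⊢
  refine ⟨fun x hx => ?_, ?_⟩
  · rw [List.mem_reverse, List.mem_map] at hx
    obtain ⟨y, hy, rfl⟩ := hx
    simpa using h.1 y hy
  · rw [List.isChain_reverse, List.isChain_map]
    refine h.2.imp fun x y hxy => ?_
    unfold AM2_R at hxy ⊢
    simp only [inv_mem_iff]
    tauto

/-- words with first letter in `A` and last letter in `B` -/
def AM2_good (A B : Subgroup G) (l : List G) : Prop :=
  AltL A B l ∧ (∀ x ∈ l.head?, x ∈ A ∧ x ∉ B) ∧ (∀ x ∈ l.getLast?, x ∈ B ∧ x ∉ A)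

theorem AM2_good_append {A B : Subgroup G} {l l' : List G} (h : AM2_good A B l)
    (h' : AM2_good A B l') : AM2_good A B (l ++ l') := by
  refine ⟨AM2_append h.1 h'.1 fun x hx y hy => Or.inr ⟨h.2.2 x hx, h'.2.1 y hy⟩,
    fun x hx => ?_, fun x hx => ?_⟩
  · cases l with
    | nil => exact h'.2.1 x (by simpa using hx)
    | cons z l => exact h.2.1 x (by simpa using hx)
  · rw [List.getLast?_append] at hx
    cases e : l'.getLast? with
    | none =>
      rw [e] at hx
      exact h.2.2 x (by simpa using hx)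
    | some z =>
      rw [e] at hx
      exact h'.2.2 x (by rw [e]; simpa using hx)

theorem AM2_good_nil (A B : Subgroup G) : AM2_good A B ([] : List G) :=
  ⟨trivial, by simp, by simp⟩

theorem AM2_good_pow {A B : Subgroup G} {l : List G} (h : AM2_good A B l) : ∀ n : ℕ,
    AM2_good A B (List.replicate n l).flatten
  | 0 => AM2_good_nil A B
  | n + 1 => by
    rw [List.replicate_succ, List.flatten_cons]
    exact AM2_good_append h (AM2_good_pow h n)

theorem AM2_prod_pow (l : List G) (n : ℕ) :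
    (List.replicate n l).flatten.prod = l.prod ^ n := by
  induction n with
  | zero => simp
  | succ n ih => rw [List.replicate_succ, List.flatten_cons, List.prod_append, ih, pow_succ']

omit [Group G] in
theorem AM2_length_pow (l : List G) (n : ℕ) :
    (List.replicate n l).flatten.length = n * l.length := by
  simp

/-- the symmetric property -/
theorem AM2_swap {A B : Subgroup G} {l : List G} (h : AltL A B l) : AltL B A l := by
  rw [AM2_alt] at h ⊢
  refine ⟨fun x hx => (h.1 x hx).symm, h.2.imp fun x y hxy => ?_⟩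
  exact hxy.symm

/-- one letter in front -/
theorem AM2_step {A B : Subgroup G} {x c : G} {l : List G} (hx : x ∈ A) (hc : c ∈ A)
    (hl : AltL A B l) : ∃ (c' : G) (l' : List G), c' ∈ A ⊓ B ∧ AltL A B l' ∧
      x * (c * l.prod) = c' * l'.prod := by
  have hy : x * c ∈ A := A.mul_mem hx hc
  by_cases hB : x * c ∈ B
  · exact ⟨x * c, l, ⟨hy, hB⟩, hl, by group⟩
  cases l with
  | nil =>
    exact ⟨1, [x * c], (A ⊓ B).one_mem, ⟨Or.inl ⟨hy, hB, by simp⟩, trivial⟩, by simp⟩
  | cons z l =>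
    rcases hl.1 with ⟨h1, h2, h3⟩ | ⟨h1, h2, h3⟩
    · have hz : x * c * z ∈ A := A.mul_mem hy h1
      by_cases hzB : x * c * z ∈ B
      · exact ⟨x * c * z, l, ⟨hz, hzB⟩, hl.2, by rw [List.prod_cons]; group⟩
      · refine ⟨1, (x * c * z) :: l, (A ⊓ B).one_mem, ⟨Or.inl ⟨hz, hzB, h3⟩, hl.2⟩, ?_⟩
        rw [List.prod_cons, List.prod_cons]
        group
    · refine ⟨1, (x * c) :: z :: l, (A ⊓ B).one_mem, ⟨Or.inl ⟨hy, hB, ?_⟩, hl⟩, ?_⟩
      · intro y hy'
        simp only [List.head?_cons, Option.mem_def, Option.some.injEq] at hy'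
        rw [← hy']
        exact ⟨h1, h2⟩
      · rw [List.prod_cons (a := x * c)]
        group

theorem alt_normal_form (A B : Subgroup G) (hgen : A ⊔ B = ⊤) (g : G) :
    ∃ (c : G) (l : List G), c ∈ A ⊓ B ∧ AltL A B l ∧ g = c * l.prod := by
  have step : ∀ x ∈ (A : Set G) ∪ B, ∀ g : G, (∃ (c : G) (l : List G), c ∈ A ⊓ B ∧ AltL A B l ∧
      g = c * l.prod) → ∃ (c : G) (l : List G), c ∈ A ⊓ B ∧ AltL A B l ∧ x * g = c * l.prod := by
    rintro x (hx | hx) g ⟨c, l, hc, hl, rfl⟩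
    · exact AM2_step hx hc.1 hl
    · obtain ⟨c', l', h1, h2, h3⟩ := AM2_step (A := B) (B := A) hx hc.2 (AM2_swap hl)
      exact ⟨c', l', ⟨h1.2, h1.1⟩, AM2_swap h2, h3⟩
  have hg : g ∈ Subgroup.closure ((A : Set G) ∪ B) := by
    rw [← Subgroup.sup_eq_closure, hgen]
    trivial
  induction hg using Subgroup.closure_induction_left with
  | one => exact ⟨1, [], (A ⊓ B).one_mem, trivial, by simp⟩
  | mul_left y hy x _ ih => exact step y hy x ih
  | inv_mul_cancel y hy x _ ih =>
    refine step y⁻¹ ?_ x ih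
    rcases hy with hy | hy
    · exact Or.inl (A.inv_mem hy)
    · exact Or.inr (B.inv_mem hy)

/-- **The word of the axis.** -/
theorem AM2_word {A B : Subgroup G} {a b : G} (ha : a ∈ A ∧ a ∉ B) (hb : b ∈ B ∧ b ∉ A)
    {w : List G} (hw : AltL A B w) : ∃ (u v : List G), AM2_good A B (a :: u ++ w ++ v) := by
  have ha1 : AltL A B [a] := ⟨Or.inl ⟨ha.1, ha.2, by simp⟩, trivial⟩
  have hb1 : AltL A B [b] := ⟨Or.inr ⟨hb.1, hb.2, by simp⟩, trivial⟩
  have hab : AltL A B [a, b] := ⟨Or.inl ⟨ha.1, ha.2, by simp [hb]⟩, hb1⟩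
  -- the beginning
  obtain ⟨u, hu⟩ : ∃ u, AltL A B (a :: u ++ w) := by
    cases w with
    | nil => exact ⟨[], by simpa using ha1⟩
    | cons z w =>
      rcases hw.1 with ⟨h1, h2, _⟩ | ⟨h1, h2, _⟩
      · refine ⟨[b], AM2_append hab hw ?_⟩
        intro x hx y hy
        simp only [List.getLast?_cons_cons, List.getLast?_singleton, Option.mem_def,
          Option.some.injEq, List.head?_cons] at hx hy
        rw [← hx, ← hy]
        exact Or.inr ⟨hb, h1, h2⟩
      · refine ⟨[], AM2_append ha1 hw ?_⟩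
        intro x hx y hy
        simp only [List.getLast?_singleton, Option.mem_def,
          Option.some.injEq, List.head?_cons] at hx hy
        rw [← hx, ← hy]
        exact Or.inl ⟨ha, h1, h2⟩
  have hhead : ∀ v : List G, ∀ x ∈ (a :: u ++ w ++ v).head?, x ∈ A ∧ x ∉ B := by
    intro v x hx
    simp only [List.cons_append, List.head?_cons, Option.mem_def, Option.some.injEq] at hx
    rw [← hx]
    exact ha
  have hne : a :: u ++ w ≠ [] := by simp
  have hlast := List.getLast?_eq_getLast_of_ne_nil hne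
  have hk := ((AM2_alt A B _).mp hu).1 _ (List.getLast_mem hne)
  rcases hk with hk | hk
  · refine ⟨u, [b], AM2_append hu hb1 ?_, hhead _, ?_⟩
    · intro x hx y hy
      rw [hlast] at hx
      simp only [Option.mem_def, Option.some.injEq, List.head?_cons] at hx hy
      rw [← hx, ← hy]
      exact Or.inl ⟨hk, hb⟩
    · intro x hx
      rw [List.getLast?_append] at hx
      simp only [List.getLast?_singleton, Option.some_or, Option.mem_def,
        Option.some.injEq] at hx
      rw [← hx]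
      exact hb
  · refine ⟨u, [], by simpa using hu, hhead _, ?_⟩
    intro x hx
    rw [List.append_nil, hlast] at hx
    simp only [Option.mem_def, Option.some.injEq] at hx
    rw [← hx]
    exact hk

theorem amalgam_axis (A B : Subgroup G) (hgen : A ⊔ B = ⊤)
    (hnf : ∀ l : List G, l ≠ [] → AltL A B l → l.prod ∉ A ⊓ B)
    (a₁ a₂ b : G) (h1 : a₁ ∈ A) (h1' : a₁ ∉ B) (h2 : a₂ ∈ A) (h2' : a₂ ∉ B)
    (h12 : a₁⁻¹ * a₂ ∉ B) (hb : b ∈ B) (hb' : b ∉ A)
    (g : G) (hg : {c : G | c ∈ A ⊓ B ∧ g⁻¹ * c * g ∈ A ⊓ B}.Finite) :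
    ∃ h : G,
      0 < (bsT A B).dist (Sum.inl ((1 : G) : G ⧸ A))
        (h • (Sum.inl ((1 : G) : G ⧸ A) : (G ⧸ A) ⊕ (G ⧸ B))) ∧
      (∀ n : ℕ, (bsT A B).dist (Sum.inl ((1 : G) : G ⧸ A))
        (h ^ n • (Sum.inl ((1 : G) : G ⧸ A) : (G ⧸ A) ⊕ (G ⧸ B))) =
          n * (bsT A B).dist (Sum.inl ((1 : G) : G ⧸ A))
            (h • (Sum.inl ((1 : G) : G ⧸ A) : (G ⧸ A) ⊕ (G ⧸ B)))) ∧
      {x : G | x • (Sum.inl ((1 : G) : G ⧸ A) : (G ⧸ A) ⊕ (G ⧸ B)) =
          Sum.inl ((1 : G) : G ⧸ A) ∧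
        x • h ^ 1 • (Sum.inl ((1 : G) : G ⧸ A) : (G ⧸ A) ⊕ (G ⧸ B)) =
          h ^ 1 • (Sum.inl ((1 : G) : G ⧸ A) : (G ⧸ A) ⊕ (G ⧸ B))}.Finite ∧
      (Subgroup.zpowers h).index = 0 := by
  obtain ⟨c, w, hc, hw, hgw⟩ := alt_normal_form A B hgen g
  obtain ⟨u, v, hy⟩ := AM2_word ⟨h1, h1'⟩ ⟨hb, hb'⟩ hw
  obtain ⟨y, hyd⟩ : ∃ y, y = a₁ :: u ++ w ++ v := ⟨_, rfl⟩
  rw [← hyd] at hy
  have hsm : ∀ k : G, k • (Sum.inl ((1 : G) : G ⧸ A) : (G ⧸ A) ⊕ (G ⧸ B)) =
      Sum.inl (k : G ⧸ A) := by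
    intro k
    have : k • (Sum.inl ((1 : G) : G ⧸ A) : (G ⧸ A) ⊕ (G ⧸ B)) =
      Sum.inl ((k * 1 : G) : G ⧸ A) := rfl
    rw [this, mul_one]
  have hdist : ∀ l : List G, AM2_good A B l → (bsT A B).dist (Sum.inl ((1 : G) : G ⧸ A))
      (Sum.inl (l.prod : G ⧸ A)) = l.length := fun l hl =>
    bs_dist A B hgen hnf l hl.1 (fun x hx => (hl.2.1 x hx).1) fun x hx => (hl.2.2 x hx).1
  have hylen : 0 < y.length := by
    rw [hyd]
    simp
  have hpow : ∀ n : ℕ, y.prod ^ n = (List.replicate n y).flatten.prod := fun n =>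
    (AM2_prod_pow y n).symm
  refine ⟨y.prod, ?_, ?_, ?_, ?_⟩
  · rw [hsm, hdist y hy]
    exact hylen
  · intro n
    rw [hsm, hsm, hdist y hy, hpow, hdist _ (AM2_good_pow hy n), AM2_length_pow]
  · -- the stabiliser
    refine Set.Finite.subset (hg.image fun f => ((a₁ :: u).prod * c⁻¹) * f *
      ((a₁ :: u).prod * c⁻¹)⁻¹) ?_
    rintro x ⟨hx1, hx2⟩
    rw [pow_one, hsm] at hx2
    have hfix := bs_fix A B hgen hnf y hy.1 (fun x hx => (hy.2.1 x hx).1)
      (fun x hx => (hy.2.2 x hx).1) x hx1 hx2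
    have k1 := hfix (a₁ :: u).length (by simp) (by rw [hyd]; simp)
    have k2 := hfix (a₁ :: u ++ w).length (by simp) (by rw [hyd]; simp)
    have t1 : y.take (a₁ :: u).length = a₁ :: u := by
      rw [hyd, List.append_assoc, List.take_left]
    have t2 : y.take (a₁ :: u ++ w).length = a₁ :: u ++ w := by
      rw [hyd, List.take_left]
    rw [t1] at k1
    rw [t2, List.prod_append] at k2
    obtain ⟨U, hU⟩ : ∃ U, U = (a₁ :: u).prod := ⟨_, rfl⟩
    rw [← hU] at k1 k2 ⊢
    have hwg : w.prod = c⁻¹ * g := by rw [hgw]; group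
    rw [hwg] at k2
    refine ⟨c * (U⁻¹ * x * U) * c⁻¹, ⟨?_, ?_⟩, ?_⟩
    · exact (A ⊓ B).mul_mem ((A ⊓ B).mul_mem hc k1) ((A ⊓ B).inv_mem hc)
    · have e : g⁻¹ * (c * (U⁻¹ * x * U) * c⁻¹) * g = (U * (c⁻¹ * g))⁻¹ * x * (U * (c⁻¹ * g)) := by
        group
      rw [e]
      exact k2
    · show U * c⁻¹ * (c * (U⁻¹ * x * U) * c⁻¹) * (U * c⁻¹)⁻¹ = x
      group
  · -- the index
    have hab : AM2_good A B [a₂, b] := by
      refine ⟨⟨Or.inl ⟨h2, h2', by simp [hb, hb']⟩, Or.inr ⟨hb, hb', by simp⟩, trivial⟩,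
        by simp [h2, h2'], by simp [hb, hb']⟩
    have hprod : ∀ k : ℕ, (a₂ * b) ^ k = (List.replicate k [a₂, b]).flatten.prod := by
      intro k
      rw [AM2_prod_pow]
      simp
    have key : ∀ k : ℕ, 1 ≤ k → (a₂ * b) ^ k ∉ Subgroup.zpowers y.prod := by
      rintro k hk ⟨j, hj⟩
      have hj' : y.prod ^ j = (a₂ * b) ^ k := hj
      obtain ⟨k', rfl⟩ : ∃ k', k = k' + 1 := ⟨k - 1, by omega⟩
      have hgk := AM2_good_pow hab (k' + 1)
      have hgk' := AM2_good_pow hab k'
      rcases le_or_gt j 0 with hj0 | hj0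
      · -- `h ^ (-j) * (a₂ b) ^ k = 1`
        obtain ⟨m, rfl⟩ : ∃ m : ℕ, j = -(m : ℤ) := ⟨j.natAbs, by omega⟩
        refine hnf ((List.replicate m y).flatten ++ (List.replicate (k' + 1) [a₂, b]).flatten)
          ?_ (AM2_good_append (AM2_good_pow hy m) hgk).1 ?_
        · rw [List.replicate_succ (n := k')]
          simp
        · rw [List.prod_append, ← hpow, ← hprod, ← hj', zpow_neg, zpow_natCast, mul_inv_cancel]
          exact (A ⊓ B).one_mem
      · obtain ⟨m, rfl⟩ : ∃ m : ℕ, j = ((m + 1 : ℕ) : ℤ) := ⟨j.natAbs - 1, by omega⟩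
        rw [zpow_natCast] at hj'
        obtain ⟨Y', hY'⟩ : ∃ Y', (List.replicate (m + 1) y).flatten = a₁ :: Y' := by
          rw [List.replicate_succ, List.flatten_cons, hyd]
          exact ⟨_, by simp only [List.cons_append]; rfl⟩
        have hYg := AM2_good_pow hy (m + 1)
        rw [hY'] at hYg
        have hYl : AltL A B Y' := hYg.1.2
        have hYh : ∀ z ∈ Y'.head?, z ∈ B ∧ z ∉ A := by
          rcases hYg.1.1 with ⟨_, _, h⟩ | ⟨_, h, _⟩
          · exact h
          · exact absurd h1 h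
        have hin := AM2_inv hYl
        have hlast : ∀ z ∈ ((Y'.map (fun x => x⁻¹)).reverse).getLast?, z ∈ B ∧ z ∉ A := by
          intro z hz
          rw [List.getLast?_reverse, List.head?_map] at hz
          simp only [Option.mem_def, Option.map_eq_some_iff] at hz
          obtain ⟨z', hz', rfl⟩ := hz
          simpa using hYh z' hz'
        have hmid : AltL A B ((a₁⁻¹ * a₂) :: b :: (List.replicate k' [a₂, b]).flatten) := by
          refine ⟨Or.inl ⟨A.mul_mem (A.inv_mem h1) h2, h12, by simp [hb, hb']⟩,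
            Or.inr ⟨hb, hb', hgk'.2.1⟩, hgk'.1⟩
        refine hnf ((Y'.map (fun x => x⁻¹)).reverse ++
          ((a₁⁻¹ * a₂) :: b :: (List.replicate k' [a₂, b]).flatten)) (by simp)
          (AM2_append hin hmid ?_) ?_
        · intro x hx z hz
          simp only [List.head?_cons, Option.mem_def, Option.some.injEq] at hz
          rw [← hz]
          exact Or.inr ⟨hlast x hx, A.mul_mem (A.inv_mem h1) h2, h12⟩
        · have e1 : (Y'.map (fun x => x⁻¹)).reverse.prod = Y'.prod⁻¹ :=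
            (List.prod_inv_reverse Y').symm
          have e2 : y.prod ^ (m + 1) = a₁ * Y'.prod := by
            rw [hpow, hY', List.prod_cons]
          have e3 : (a₂ * b) ^ (k' + 1) = a₂ * (b * (List.replicate k' [a₂, b]).flatten.prod) := by
            rw [hprod, List.replicate_succ]
            simp
          rw [List.prod_append, e1, List.prod_cons, List.prod_cons]
          have e4 : Y'.prod⁻¹ * (a₁⁻¹ * a₂ * (b * (List.replicate k' [a₂, b]).flatten.prod)) = 1 := by
            have e5 : a₁ * Y'.prod = a₂ * (b * (List.replicate k' [a₂, b]).flatten.prod) := by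
              rw [← e2, ← e3, hj']
            have e6 : Y'.prod⁻¹ * (a₁⁻¹ * a₂ * (b * (List.replicate k' [a₂, b]).flatten.prod)) =
                (a₁ * Y'.prod)⁻¹ * (a₂ * (b * (List.replicate k' [a₂, b]).flatten.prod)) := by
              group
            rw [e6, ← e5, inv_mul_cancel]
          rw [e4]
          exact (A ⊓ B).one_mem
    rw [Subgroup.index_eq_zero_iff_infinite]
    refine Infinite.of_injective (fun n : ℕ => (((a₂ * b) ^ n : G) : G ⧸ Subgroup.zpowers y.prod))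
      ?_
    have main : ∀ n m : ℕ, n < m → (((a₂ * b) ^ n : G) : G ⧸ Subgroup.zpowers y.prod) ≠
        (((a₂ * b) ^ m : G) : G ⧸ Subgroup.zpowers y.prod) := by
      intro n m hnm hc
      rw [QuotientGroup.eq] at hc
      refine key (m - n) (by omega) ?_
      have e : ((a₂ * b) ^ n)⁻¹ * (a₂ * b) ^ m = (a₂ * b) ^ (m - n) := by
        rw [inv_mul_eq_iff_eq_mul, ← pow_add]
        congr 1
        omega
      rwa [e] at hc
    intro n m hnm
    rcases lt_trichotomy n m with h | h | h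
    · exact absurd hnm (main n m h)
    · exact h
    · exact absurd hnm.symm (main m n h)

end GWP
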