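import Pool.Agent.H55.GWP.FIN
import Pool.Agent.H55.GWP.AM2

/-! AM3: amalgams and free products. -/

set_option autoImplicit false
open Classical
namespace GWP

/-- Internal amalgams with a weakly malnormal amalgamated subgroup. -/
theorem amalgam_generic {G : Type*} [Group G] (A B : Subgroup G) (hgen : A ⊔ B = ⊤)
    (hnf : ∀ l : List G, l ≠ [] → AltL A B l → l.prod ∉ A ⊓ B)
    (a₁ a₂ b : G) (h1 : a₁ ∈ A) (h1' : a₁ ∉ B) (h2 : a₂ ∈ A) (h2' : a₂ ∉ B)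
    (h12 : a₁⁻¹ * a₂ ∉ B) (hb : b ∈ B) (hb' : b ∉ A)
    (g : G) (hg : {c : G | c ∈ A ⊓ B ∧ g⁻¹ * c * g ∈ A ⊓ B}.Finite)
    {k : ℕ} (rels : Set (FreeGroup (Fin k))) (φ : FreeGroup (Fin k) →* G)
    (hφ : Function.Surjective φ) (hrels : ∀ r ∈ rels, φ r = 1) :
    ∃ f : List (Fin k × Bool) →. Bool,
      Partrec f ∧
      (∀ w : List (Fin k × Bool), ∀ b ∈ f w,
        (b = true ↔ FreeGroup.mk w ∈ Subgroup.normalClosure rels)) ∧
      (∃ C κ : ℝ, 0 < C ∧ 0 < κ ∧ κ < 1 ∧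
        ∀ n : ℕ, ({w : List (Fin k × Bool) | w.length = n ∧ ¬ (f w).Dom}.ncard : ℝ) ≤
          C * κ ^ n * ({w : List (Fin k × Bool) | w.length = n}.ncard : ℝ)) ∧
      Filter.Tendsto
        (fun n : ℕ =>
          ({w : List (Fin k × Bool) | w.length ≤ n ∧ (f w).Dom}.ncard : ℝ) /
            ({w : List (Fin k × Bool) | w.length ≤ n}.ncard : ℝ))
        Filter.atTop (nhds 1) := by
  obtain ⟨h, hh1, hh2, hh3, hh4⟩ := amalgam_axis A B hgen hnf a₁ a₂ b h1 h1' h2 h2' h12 hb hb' g hg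
  exact tree_generic (bs_tree A B hgen hnf) (bs_act A B) rels φ hφ hrels h _ hh1 hh2 1 le_rfl
    hh3 hh4

end GWP
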