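import Pool.Agent.H55.GWP.AM0

/-! FPR: normal form in the free product `Monoid.Coprod A B` (notation `A ∗ B`) of two groups.
Map to `Monoid.CoprodI` of the family `Bool → Type` (`true ↦ A`, `false ↦ B`) by
`Monoid.Coprod.lift`, and use that the product of a non-empty reduced word
(`Monoid.CoprodI.Word`) is not `1`; the element of the intersection of the two factors
is `1` because `fst` kills it. -/

set_option autoImplicit false
open Classical
namespace GWP

open Monoid.Coprod in
theorem coprod_inf (A B : Type) [Group A] [Group B] (x : Monoid.Coprod A B)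
    (h1 : x ∈ MonoidHom.range (inl : A →* Monoid.Coprod A B))
    (h2 : x ∈ MonoidHom.range (inr : B →* Monoid.Coprod A B)) : x = 1 := by
  obtain ⟨a, rfl⟩ := h1
  obtain ⟨b, hb⟩ := h2
  have h3 : fst (inr b : Monoid.Coprod A B) = fst (inl a : Monoid.Coprod A B) := by rw [hb]
  rw [fst_apply_inl, fst_apply_inr] at h3
  rw [← h3, map_one]

/-- the family of the two factors -/
def FPR_fam (A B : Type) : Bool → Type
  | true => A
  | false => B

instance FPR_inst (A B : Type) [Group A] [Group B] : ∀ b, Group (FPR_fam A B b)
  | true => (inferInstance : Group A)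
  | false => (inferInstance : Group B)

open Monoid.Coprod in
/-- the map to the indexed free product -/
noncomputable def FPR_map (A B : Type) [Group A] [Group B] :
    Monoid.Coprod A B →* Monoid.CoprodI (FPR_fam A B) :=
  Monoid.Coprod.lift (Monoid.CoprodI.of (M := FPR_fam A B) (i := true) : A →* _)
    (Monoid.CoprodI.of (M := FPR_fam A B) (i := false) : B →* _)

open Monoid.Coprod in
theorem FPR_word (A B : Type) [Group A] [Group B] (l : List (Monoid.Coprod A B))
    (halt : AltL (MonoidHom.range (inl : A →* Monoid.Coprod A B))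
      (MonoidHom.range (inr : B →* Monoid.Coprod A B)) l) :
    ∃ w : Monoid.CoprodI.Word (FPR_fam A B), w.prod = FPR_map A B l.prod ∧
      (l = [] → w.fstIdx = none) ∧
      ∀ x ∈ l.head?,
        (x ∉ MonoidHom.range (inr : B →* Monoid.Coprod A B) → w.fstIdx = some true) ∧
        (x ∉ MonoidHom.range (inl : A →* Monoid.Coprod A B) → w.fstIdx = some false) := by
  induction l with
  | nil =>
    exact ⟨Monoid.CoprodI.Word.empty, by simp, fun _ => rfl, by simp⟩
  | cons x l ih =>
    obtain ⟨w, hw1, hw2, hw3⟩ := ih halt.2
    rcases halt.1 with ⟨hxA, hxB, hy⟩ | ⟨hxB, hxA, hy⟩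
    · obtain ⟨a, rfl⟩ := hxA
      have ha : a ≠ 1 := by
        rintro rfl
        exact hxB ⟨1, by simp⟩
      have hidx : w.fstIdx ≠ some true := by
        cases l with
        | nil => rw [hw2 rfl]; simp
        | cons y l =>
          have h1 := hy y rfl
          rw [(hw3 y rfl).2 h1.2]
          simp
      refine ⟨Monoid.CoprodI.Word.cons (M := FPR_fam A B) (i := true) a w hidx ha, ?_, by simp, ?_⟩
      · refine (Monoid.CoprodI.Word.prod_cons (M := FPR_fam A B) true a w ha hidx).trans ?_
        rw [hw1, List.prod_cons, map_mul]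
        congr 1
      · intro z hz
        have hz' : inl a = z := by simpa using hz
        subst hz'
        exact ⟨fun _ => Monoid.CoprodI.Word.fstIdx_cons (M := FPR_fam A B) (i := true) a w hidx ha,
          fun h => absurd ⟨a, rfl⟩ h⟩
    · obtain ⟨b, rfl⟩ := hxB
      have hb : b ≠ 1 := by
        rintro rfl
        exact hxA ⟨1, by simp⟩
      have hidx : w.fstIdx ≠ some false := by
        cases l with
        | nil => rw [hw2 rfl]; simp
        | cons y l =>
          have h1 := hy y rfl
          rw [(hw3 y rfl).1 h1.2]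
          simp
      refine ⟨Monoid.CoprodI.Word.cons (M := FPR_fam A B) (i := false) b w hidx hb, ?_, by simp,
        ?_⟩
      · refine (Monoid.CoprodI.Word.prod_cons (M := FPR_fam A B) false b w hb hidx).trans ?_
        rw [hw1, List.prod_cons, map_mul]
        congr 1
      · intro z hz
        have hz' : inr b = z := by simpa using hz
        subst hz'
        exact ⟨fun h => absurd ⟨b, rfl⟩ h,
          fun _ => Monoid.CoprodI.Word.fstIdx_cons (M := FPR_fam A B) (i := false) b w hidx hb⟩

open Monoid.Coprod in
theorem coprod_nf (A B : Type) [Group A] [Group B]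
    (l : List (Monoid.Coprod A B)) (hl : l ≠ [])
    (halt : AltL (MonoidHom.range (inl : A →* Monoid.Coprod A B))
      (MonoidHom.range (inr : B →* Monoid.Coprod A B)) l) :
    l.prod ∉ MonoidHom.range (inl : A →* Monoid.Coprod A B) ⊓
      MonoidHom.range (inr : B →* Monoid.Coprod A B) := by
  intro hmem
  have h1 : l.prod = 1 := coprod_inf A B _ hmem.1 hmem.2
  obtain ⟨w, hw1, hw2, hw3⟩ := FPR_word A B l halt
  rw [h1, map_one] at hw1
  have h2 : w = Monoid.CoprodI.Word.empty := by
    apply (Monoid.CoprodI.Word.equiv (M := FPR_fam A B)).symm.injective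
    show w.prod = Monoid.CoprodI.Word.prod Monoid.CoprodI.Word.empty
    rw [hw1, Monoid.CoprodI.Word.prod_empty]
  cases l with
  | nil => exact hl rfl
  | cons x l =>
    have h3 := hw3 x rfl
    have h4 : w.fstIdx = none := by rw [h2]; rfl
    rcases halt.1 with ⟨_, hxB, _⟩ | ⟨_, hxA, _⟩
    · rw [h3.1 hxB] at h4
      simp at h4
    · rw [h3.2 hxA] at h4
      simp at h4

end GWP
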