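import Pool.Agent.H55.GWP.AM3
import Pool.Agent.H55.GWP.FPR

/-! AM4: free products. By symmetry (exchange the roles in
`amalgam_generic`) assume that `A` has at least three elements. -/

set_option autoImplicit false
open Classical
namespace GWP

theorem AM4_symm {G : Type*} [Group G] (A B : Subgroup G) (l : List G) (h : AltL A B l) :
    AltL B A l := by
  induction l with
  | nil => trivial
  | cons x l ih => exact ⟨h.1.symm, ih h.2⟩

theorem AM4_two {A : Type} [Group A] [Nontrivial A] (h : Nat.card A ≠ 2) :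
    ∃ a₁ a₂ : A, a₁ ≠ 1 ∧ a₂ ≠ 1 ∧ a₁ ≠ a₂ := by
  obtain ⟨a, ha⟩ := exists_ne (1 : A)
  by_contra hcon
  push Not at hcon
  apply h
  rw [Nat.card_eq_two_iff]
  refine ⟨1, a, ha.symm, ?_⟩
  ext x
  simp only [Set.mem_insert_iff, Set.mem_singleton_iff, Set.mem_univ, iff_true]
  by_cases hx : x = 1
  · exact Or.inl hx
  · exact Or.inr (hcon x a hx ha)

open Monoid.Coprod in
theorem AM4_inl {A B : Type} [Group A] [Group B] (a : A) (ha : a ≠ 1) :
    (inl a : Monoid.Coprod A B) ∉ MonoidHom.range (inr : B →* Monoid.Coprod A B) := by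
  intro h
  have h1 := coprod_inf A B (inl a) ⟨a, rfl⟩ h
  have h2 : fst (inl a : Monoid.Coprod A B) = fst (1 : Monoid.Coprod A B) := by rw [h1]
  rw [fst_apply_inl, map_one] at h2
  exact ha h2

open Monoid.Coprod in
theorem AM4_inr {A B : Type} [Group A] [Group B] (b : B) (hb : b ≠ 1) :
    (inr b : Monoid.Coprod A B) ∉ MonoidHom.range (inl : A →* Monoid.Coprod A B) := by
  intro h
  have h1 := coprod_inf A B (inr b) h ⟨b, rfl⟩
  have h2 : snd (inr b : Monoid.Coprod A B) = snd (1 : Monoid.Coprod A B) := by rw [h1]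
  rw [snd_apply_inr, map_one] at h2
  exact hb h2

theorem coprod_generic (A B : Type) [Group A] [Group B] [Nontrivial A] [Nontrivial B]
    (hcard : ¬ (Nat.card A = 2 ∧ Nat.card B = 2))
    {k : ℕ} (rels : Set (FreeGroup (Fin k))) (φ : FreeGroup (Fin k) →* Monoid.Coprod A B)
    (hφ : Function.Surjective φ) (hrels : ∀ r ∈ rels, φ r = 1) :
    ∃ f : List (Fin k × Bool) →. Bool,
      Partrec f ∧
      (∀ w : List (Fin k × Bool), ∀ b ∈ f w,
        (b = true ↔ FreeGroup.mk w ∈ Subgroup.normalClosure rels)) ∧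
      (∃ C κ : ℝ, 0 < C ∧ 0 < κ ∧ κ < 1 ∧
        ∀ n : ℕ, ({w : List (Fin k × Bool) | w.length = n ∧ ¬ (f w).Dom}.ncard : ℝ) ≤
          C * κ ^ n * ({w : List (Fin k × Bool) | w.length = n}.ncard : ℝ)) ∧
      Filter.Tendsto
        (fun n : ℕ =>
          ({w : List (Fin k × Bool) | w.length ≤ n ∧ (f w).Dom}.ncard : ℝ) /
            ({w : List (Fin k × Bool) | w.length ≤ n}.ncard : ℝ))
        Filter.atTop (nhds 1) := by
  by_cases hA : Nat.card A = 2
  · have hB : Nat.card B ≠ 2 := fun h => hcard ⟨hA, h⟩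
    obtain ⟨b₁, b₂, hb1, hb2, hb12⟩ := AM4_two hB
    obtain ⟨a, ha⟩ := exists_ne (1 : A)
    refine amalgam_generic (MonoidHom.range (Monoid.Coprod.inr : B →* Monoid.Coprod A B))
      (MonoidHom.range (Monoid.Coprod.inl : A →* Monoid.Coprod A B))
      (by rw [sup_comm]; exact Monoid.Coprod.range_inl_sup_range_inr) ?_
      (Monoid.Coprod.inr b₁) (Monoid.Coprod.inr b₂) (Monoid.Coprod.inl a)
      ⟨b₁, rfl⟩ (AM4_inr b₁ hb1) ⟨b₂, rfl⟩ (AM4_inr b₂ hb2) ?_ ⟨a, rfl⟩ (AM4_inl a ha) 1 ?_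
      rels φ hφ hrels
    · intro l hl halt
      rw [inf_comm]
      exact coprod_nf A B l hl (AM4_symm _ _ l halt)
    · rw [← map_inv, ← map_mul]
      apply AM4_inr
      intro h
      exact hb12 (inv_mul_eq_one.1 h)
    · refine (Set.finite_singleton (1 : Monoid.Coprod A B)).subset ?_
      rintro c ⟨hc, _⟩
      exact coprod_inf A B c hc.2 hc.1
  · obtain ⟨a₁, a₂, ha1, ha2, ha12⟩ := AM4_two hA
    obtain ⟨b, hb⟩ := exists_ne (1 : B)
    refine amalgam_generic (MonoidHom.range (Monoid.Coprod.inl : A →* Monoid.Coprod A B))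
      (MonoidHom.range (Monoid.Coprod.inr : B →* Monoid.Coprod A B))
      Monoid.Coprod.range_inl_sup_range_inr (fun l hl halt => coprod_nf A B l hl halt)
      (Monoid.Coprod.inl a₁) (Monoid.Coprod.inl a₂) (Monoid.Coprod.inr b)
      ⟨a₁, rfl⟩ (AM4_inl a₁ ha1) ⟨a₂, rfl⟩ (AM4_inl a₂ ha2) ?_ ⟨b, rfl⟩ (AM4_inr b hb) 1 ?_
      rels φ hφ hrels
    · rw [← map_inv, ← map_mul]
      apply AM4_inl
      intro h
      exact ha12 (inv_mul_eq_one.1 h)
    · refine (Set.finite_singleton (1 : Monoid.Coprod A B)).subset ?_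
      rintro c ⟨hc, _⟩
      exact coprod_inf A B c hc.1 hc.2

end GWP
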