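import Pool.Agent.H55.GWP.NRA

/-! NRB: `NR` is 1-Lipschitz and superadditive up to the Gromov product (centre `p` of the triangle `x, o, y`: `NR x o ≤ NR x p + d(p, o)`, `NR o y ≤ NR p y + d(p, o)`, `NR x p + NR p y ≤ NR x y` as `K ≥ 1`). -/

set_option autoImplicit false
open Classical
namespace GWP

variable {V : Type*} {T : SimpleGraph V}

/-- bounds for `NR` when the geodesic is split at `p` -/
theorem NRB_split (hT : T.IsTree) (K : ℕ) (Rig : V → V → Prop) (x y p : V)
    (h : T.dist x p + T.dist p y = T.dist x y) :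
    NR hT K Rig x p ≤ NR hT K Rig x y ∧
      NR hT K Rig x y ≤ NR hT K Rig x p + T.dist p y := by
  unfold NR
  rw [tpath_split hT x y p h]
  refine ⟨cntR_append_ge _ _ _ _, (cntR_append_le _ _ _ _).trans ?_⟩
  rw [List.length_dropLast, tpath_length]
  omega

/-- Changing an end point by distance `d` changes `NR` by at most `d`. -/
theorem NR_lipschitz (hT : T.IsTree) (K : ℕ) (Rig : V → V → Prop) (x y y' : V) :
    |(NR hT K Rig x y : ℝ) - NR hT K Rig x y'| ≤ T.dist y y' := by
  obtain ⟨p, h1, h2, h3⟩ := exists_center hT x y y'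
  obtain ⟨a1, a2⟩ := NRB_split hT K Rig x y p h1
  obtain ⟨b1, b2⟩ := NRB_split hT K Rig x y' p h3
  have hc : T.dist p y = T.dist y p := SimpleGraph.dist_comm
  rw [abs_sub_le_iff]
  constructor
  · rw [sub_le_iff_le_add]
    have : NR hT K Rig x y ≤ T.dist y y' + NR hT K Rig x y' := by omega
    exact_mod_cast this
  · rw [sub_le_iff_le_add]
    have : NR hT K Rig x y' ≤ T.dist y y' + NR hT K Rig x y := by omega
    exact_mod_cast this

theorem NRB_super (K : ℕ) (hK : 1 ≤ K) (Rig : V → V → Prop) (p : V) (A B : List V) :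
    cntR K Rig (A ++ [p]) + cntR K Rig (p :: B) ≤ cntR K Rig (A ++ p :: B) := by
  induction A with
  | nil =>
    have : cntR K Rig [p] = 0 := by
      obtain ⟨k, rfl⟩ : ∃ k, K = k + 1 := ⟨K - 1, by omega⟩
      simp [cntR]
    simp [this]
  | cons v A ih =>
    have e1 : cntR K Rig (v :: A ++ [p]) = cntR K Rig (A ++ [p]) +
        (if ∃ u, (v :: (A ++ [p]))[K]? = some u ∧ Rig v u then 1 else 0) := rfl
    have e2 : cntR K Rig (v :: A ++ p :: B) = cntR K Rig (A ++ p :: B) +
        (if ∃ u, (v :: (A ++ p :: B))[K]? = some u ∧ Rig v u then 1 else 0) := rfl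
    have : (if ∃ u, (v :: (A ++ [p]))[K]? = some u ∧ Rig v u then 1 else 0) ≤
        (if ∃ u, (v :: (A ++ p :: B))[K]? = some u ∧ Rig v u then 1 else 0) := by
      by_cases h : ∃ u, (v :: (A ++ [p]))[K]? = some u ∧ Rig v u
      · have h' : ∃ u, (v :: (A ++ p :: B))[K]? = some u ∧ Rig v u := by
          obtain ⟨u, h1, h2⟩ := h
          refine ⟨u, ?_, h2⟩
          have hp : (v :: (A ++ p :: B)) = (v :: (A ++ [p])) ++ B := by simp
          rw [hp, List.getElem?_append_left (List.getElem?_eq_some_iff.mp h1).1]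
          exact h1
        rw [if_pos h, if_pos h']
      · rw [if_neg h]; omega
    omega

/-- Superadditivity up to the Gromov product. -/
theorem NR_tripod (hT : T.IsTree) (K : ℕ) (hK : 1 ≤ K) (Rig : V → V → Prop)
    (hs : ∀ u v, Rig u v ↔ Rig v u) (x o y : V) :
    (NR hT K Rig x o : ℝ) + NR hT K Rig o y ≤ NR hT K Rig x y + 2 * gro T o x y := by
  obtain ⟨p, h1, h2, h3⟩ := exists_center hT x o y
  have a2 := (NRB_split hT K Rig x o p h1).2
  have b2 := (NRB_split hT K Rig y o p (by
    have e1 : T.dist y p = T.dist p y := SimpleGraph.dist_comm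
    have e2 : T.dist p o = T.dist o p := SimpleGraph.dist_comm
    have e3 : T.dist y o = T.dist o y := SimpleGraph.dist_comm
    omega)).2
  rw [NR_symm hT K Rig hs y o, NR_symm hT K Rig hs y p] at b2
  have hsup : NR hT K Rig p y + NR hT K Rig x p ≤ NR hT K Rig x y := by
    unfold NR
    rw [tpath_split hT x y p h3]
    have hne : tpath hT p y ≠ [] := by
      intro h0
      have := tpath_length hT p y
      rw [h0] at this; simp at this
    have hl : (tpath hT p y).getLast hne = p := by
      have := tpath_last hT p y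
      rw [List.getLast?_eq_some_getLast hne] at this
      exact Option.some.inj this
    have hA : tpath hT p y = (tpath hT p y).dropLast ++ [p] := by
      conv_lhs => rw [← List.dropLast_append_getLast hne]
      rw [hl]
    obtain ⟨B, hB⟩ : ∃ B, tpath hT x p = p :: B := by
      have := tpath_head hT x p
      obtain ⟨B, hB⟩ := List.head?_eq_some_iff.mp this
      exact ⟨B, hB⟩
    have := NRB_super K hK Rig p (tpath hT p y).dropLast B
    rw [← hA, ← hB] at this
    exact this
  have hg : 2 * gro T o x y = (T.dist p o : ℝ) + T.dist p o := by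
    unfold gro
    have e1 : T.dist x o = T.dist o x := SimpleGraph.dist_comm
    have e2 : T.dist p o = T.dist o p := SimpleGraph.dist_comm
    have h1' : (T.dist x p : ℝ) + T.dist p o = T.dist o x := by
      rw [← e1]; exact_mod_cast h1
    have h2' : (T.dist p o : ℝ) + T.dist p y = T.dist o y := by
      rw [e2]; exact_mod_cast h2
    have h3' : (T.dist x p : ℝ) + T.dist p y = T.dist x y := by exact_mod_cast h3
    linarith
  rw [hg]
  have : NR hT K Rig x o + NR hT K Rig o y ≤ NR hT K Rig x y + (T.dist p o + T.dist p o) := by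
    omega
  exact_mod_cast this

end GWP
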