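import Pool.Agent.H55.GWP.NRA

/-! NRC: windows on a geodesic are counted. -/

set_option autoImplicit false
open Classical
namespace GWP

variable {V : Type*} {T : SimpleGraph V}

/-- Windows at disjoint places add up: if the window `(u, v)` is on the geodesic from `x` to
`y` then it is counted. -/
theorem NR_ge_card (hT : T.IsTree) (K : ℕ) (Rig : V → V → Prop) (x y : V)
    (W : Finset (V × V))
    (hW : ∀ q ∈ W, Rig q.1 q.2 ∧ T.dist q.1 q.2 = K ∧
      T.dist x q.2 + K + T.dist q.1 y = T.dist x y) :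
    W.card ≤ NR hT K Rig x y := by
  unfold NR
  rw [NRA_card]
  have key : ∀ q ∈ W, (tpath hT x y)[T.dist y q.1]? = some q.1 ∧
      (tpath hT x y)[T.dist y q.1 + K]? = some q.2 := by
    intro q hq
    obtain ⟨_, h2, h3⟩ := hW q hq
    have t1 : T.dist x y ≤ T.dist x q.2 + T.dist q.2 y := hT.connected.dist_triangle
    have t2 : T.dist q.2 y ≤ T.dist q.2 q.1 + T.dist q.1 y := hT.connected.dist_triangle
    have t3 : T.dist x y ≤ T.dist x q.1 + T.dist q.1 y := hT.connected.dist_triangle
    have t4 : T.dist x q.1 ≤ T.dist x q.2 + T.dist q.2 q.1 := hT.connected.dist_triangle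
    have c1 : T.dist q.2 q.1 = T.dist q.1 q.2 := SimpleGraph.dist_comm
    have c2 : T.dist q.1 y = T.dist y q.1 := SimpleGraph.dist_comm
    have c3 : T.dist q.2 y = T.dist y q.2 := SimpleGraph.dist_comm
    refine ⟨tpath_get_of hT x y q.1 (by omega), ?_⟩
    have := tpath_get_of hT x y q.2 (by omega)
    rw [show T.dist y q.1 + K = T.dist y q.2 by omega]
    exact this
  refine Finset.card_le_card_of_injOn (fun q => T.dist y q.1) ?_ ?_
  · intro q hq
    have hq' : q ∈ W := hq
    obtain ⟨k1, k2⟩ := key q hq'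
    simp only [Finset.coe_filter, Finset.mem_range, Set.mem_ofPred_eq]
    exact ⟨(List.getElem?_eq_some_iff.mp k1).1, q.1, q.2, k1, k2, (hW q hq').1⟩
  · intro q hq q' hq' h
    have h' : T.dist y q.1 = T.dist y q'.1 := h
    obtain ⟨k1, k2⟩ := key q hq
    obtain ⟨l1, l2⟩ := key q' hq'
    rw [h'] at k1 k2
    rw [k1] at l1
    rw [k2] at l2
    exact Prod.ext (Option.some.inj l1) (Option.some.inj l2)

end GWP
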