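import Pool.Agent.H55.GWP.NRA
import Pool.Agent.H55.GWP.NRB
import Pool.Agent.H55.GWP.NRC

/-! NRF: the number of rigid windows of a geodesic. -/
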