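import Pool.Agent.H55.GWP.INV
import Pool.Agent.H55.GWP.NRF

/-! MMB: elementary bounds for the potential: main transitions and forgetting of contents. -/

set_option autoImplicit false
open Classical
namespace GWP

variable {S G V : Type*} [Fintype S] [Group G] [MulAction G V]

theorem MMB_wt_pos (b : ℝ) (len : G → ℕ) (hb : 0 < b) (D : List (Item V G)) :
    0 < wt b len D := by
  unfold wt
  apply List.prod_pos
  intro x hx
  obtain ⟨it, _, rfl⟩ := List.mem_map.1 hx
  positivity

theorem MMB_wt_cons (b : ℝ) (len : G → ℕ) (it : Item V G) (D : List (Item V G)) :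
    wt b len (it :: D) = b ^ len it.con * wt b len D := by
  unfold wt
  rw [List.map_cons, List.prod_cons]

theorem pot_pos (K : ℕ) (Rig : V → V → Prop) (len : G → ℕ) (α Q b : ℝ) (hQ : 0 < Q)
    (hb : 0 < b) (D : List (Item V G)) : 0 < pot K Rig len α Q b D := by
  unfold pot
  have := MMB_wt_pos b len hb D
  positivity

theorem MMB_verts_mul (it : Item V G) (g u : G) (l : List (Item V G)) :
    verts u (it.mul g :: l) = verts (g * u) (it :: l) := by
  cases it with
  | edge p q c =>
    show ((c * g * u)⁻¹ • q) :: verts (c * g * u) l = ((c * (g * u))⁻¹ • q) :: verts (c * (g * u)) l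
    rw [mul_assoc]
  | hole q c =>
    show [(c * g * u)⁻¹ • q] = [(c * (g * u))⁻¹ • q]
    rw [mul_assoc]

theorem MMB_verts_shift (D : List (Item V G)) : ∀ (u h : G),
    verts (u * h) D = (verts u D).map (fun v => h⁻¹ • v) := by
  induction D with
  | nil => intro u h; rfl
  | cons it D ih =>
    intro u h
    cases it with
    | edge p q c =>
      show ((c * (u * h))⁻¹ • q) :: verts (c * (u * h)) D =
        List.map (fun v => h⁻¹ • v) (((c * u)⁻¹ • q) :: verts (c * u) D)
      rw [List.map_cons, ← mul_assoc, ih (c * u) h, mul_inv_rev, mul_smul]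
    | hole q c =>
      show [(c * (u * h))⁻¹ • q] = List.map (fun v => h⁻¹ • v) [(c * u)⁻¹ • q]
      rw [← mul_assoc, mul_inv_rev, mul_smul]
      rfl

theorem MMB_seg_mul (it : Item V G) (g : G) (l : List (Item V G)) :
    seg (it.mul g :: l) = (seg (it :: l)).map (fun v => g⁻¹ • v) := by
  unfold seg
  rw [MMB_verts_mul, mul_one, ← one_mul g, MMB_verts_shift, one_mul]

theorem MMB_win_mul (K : ℕ) (it : Item V G) (g : G) (l : List (Item V G)) :
    win K (Rigid G) (it.mul g :: l) = win K (Rigid G) (it :: l) := by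
  unfold win
  rw [MMB_seg_mul]
  congr 1
  apply propext
  constructor
  · rintro ⟨x, y, hx, hy, hr⟩
    rw [List.getElem?_map, Option.map_eq_some_iff] at hx hy
    obtain ⟨x', hx', rfl⟩ := hx
    obtain ⟨y', hy', rfl⟩ := hy
    exact ⟨x', y', hx', hy', (Rigid_smul g⁻¹ x' y').1 hr⟩
  · rintro ⟨x, y, hx, hy, hr⟩
    refine ⟨g⁻¹ • x, g⁻¹ • y, ?_, ?_, (Rigid_smul g⁻¹ x y).2 hr⟩
    · rw [List.getElem?_map, hx]; rfl
    · rw [List.getElem?_map, hy]; rfl

/-- `cnt` does not depend on the content of the top item (invariance of `Rigid`). -/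
theorem cnt_top (K : ℕ) (it : Item V G) (g : G) (l : List (Item V G)) :
    cnt K (Rigid G) (it.mul g :: l) = cnt K (Rigid G) (it :: l) := by
  unfold cnt
  rw [MMB_win_mul]

theorem MMB_holes_mul (it : Item V G) (g : G) (l : List (Item V G)) :
    holes (it.mul g :: l) = holes (it :: l) := by
  cases it <;> rfl

theorem MMB_holes_edge (p q : V) (c : G) (l : List (Item V G)) :
    holes (Item.edge p q c :: l) = holes l := by
  rw [holes, if_neg (show ¬ (Item.edge p q c).isHole from fun h => h), add_zero]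

theorem MMB_holes_hole (q : V) (c : G) (l : List (Item V G)) :
    holes (Item.hole q c :: l) = holes l + 1 := by
  rw [holes, if_pos (show (Item.hole q c).isHole from trivial)]

theorem MMB_con_mul (it : Item V G) (g : G) : (it.mul g).con = it.con * g := by
  cases it <;> rfl

/-- comparison of potentials -/
theorem MMB_pot_le (K : ℕ) (Rig : V → V → Prop) (len : G → ℕ) (α Q b c : ℝ) (n : ℕ)
    (hα : 0 < α) (hQ : 0 < Q) (hb : 0 < b) (hc : 0 ≤ c) (D D' : List (Item V G))
    (hcnt : cnt K Rig D ≤ cnt K Rig D' + n) (hh : holes D' = holes D)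
    (hw : wt b len D' ≤ c * wt b len D) :
    pot K Rig len α Q b D' ≤ Real.exp (α * n) * c * pot K Rig len α Q b D := by
  unfold pot
  rw [hh]
  have h1 : Real.exp (-(α * (cnt K Rig D' : ℝ))) ≤
      Real.exp (α * n) * Real.exp (-(α * (cnt K Rig D : ℝ))) := by
    rw [← Real.exp_add]
    apply Real.exp_le_exp.2
    have h2 : (cnt K Rig D : ℝ) ≤ cnt K Rig D' + n := by exact_mod_cast hcnt
    nlinarith
  have h3 : 0 < Q ^ holes D := by positivity
  have h4 := MMB_wt_pos b len hb D'
  have h5 := MMB_wt_pos b len hb D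
  calc Real.exp (-(α * (cnt K Rig D' : ℝ))) * Q ^ holes D * wt b len D'
      ≤ (Real.exp (α * n) * Real.exp (-(α * (cnt K Rig D : ℝ)))) * Q ^ holes D *
        (c * wt b len D) := by
        apply mul_le_mul _ hw h4.le (by positivity)
        exact mul_le_mul_of_nonneg_right h1 h3.le
    _ = _ := by ring

theorem mm_bound (U : Setup S G V) (K L s0 : ℕ) (hK : 1 ≤ K) (α Q b : ℝ) (hα : 0 < α)
    (hQ : 1 ≤ Q) (hb : 1 ≤ b) (a c : V) (i : Op V S) (D : List (Item V G))
    (hi : OpsOK U a [i] c) (h : Inv U a D) :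
    pot K (Rigid G) (wlen U.e) α Q b (mm (parOf U K L s0) i D) ≤
      Real.exp α * b * pot K (Rigid G) (wlen U.e) α Q b D := by
  have hb0 : 0 < b := by linarith
  have hQ0 : 0 < Q := by linarith
  have hpos := pot_pos K (Rigid G) (wlen U.e) α Q b hQ0 hb0 D
  have hexp : 1 ≤ Real.exp α := Real.one_le_exp hα.le
  -- push
  have hpush : ∀ x x' : V, pot K (Rigid G) (wlen U.e) α Q b (.edge x x' 1 :: D) ≤
      Real.exp α * b * pot K (Rigid G) (wlen U.e) α Q b D := by
    intro x x'
    have h1 := MMB_pot_le K (Rigid G) (wlen U.e) α Q b 1 0 hα hQ0 hb0 zero_le_one D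
      (.edge x x' 1 :: D) (by rw [cnt]; omega) (MMB_holes_edge x x' 1 D) (by
        rw [MMB_wt_cons]
        show b ^ wlen U.e (1 : G) * _ ≤ _
        rw [wlen_one, pow_zero])
    rw [Nat.cast_zero, mul_zero, Real.exp_zero, one_mul, one_mul] at h1
    refine h1.trans ?_
    have h2 : 1 ≤ Real.exp α * b := by nlinarith
    nlinarith
  -- append
  have hmul : ∀ (n m : ℕ) (it : Item V G) (g : G) (l : List (Item V G)),
      wlen U.e g ≤ m →
      cnt K (Rigid G) D ≤ cnt K (Rigid G) (it :: l) + n → holes (it :: l) = holes D →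
      wt b (wlen U.e) (it :: l) * b ^ m ≤ b * wt b (wlen U.e) D →
      n ≤ 1 →
      pot K (Rigid G) (wlen U.e) α Q b (it.mul g :: l) ≤
      Real.exp α * b * pot K (Rigid G) (wlen U.e) α Q b D := by
    intro n m it g l hg hc hh hw hn
    have h1 := MMB_pot_le K (Rigid G) (wlen U.e) α Q b b n hα hQ0 hb0 hb0.le D
      (it.mul g :: l) (by rw [cnt_top]; exact hc) (by rw [MMB_holes_mul]; exact hh) (by
        refine le_trans ?_ hw
        rw [MMB_wt_cons, MMB_wt_cons, MMB_con_mul]
        have h2 : wlen U.e (it.con * g) ≤ wlen U.e it.con + m :=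
          (wlen_mul U.e U.gen it.con g).trans (by omega)
        have h3 : b ^ wlen U.e (it.con * g) ≤ b ^ (wlen U.e it.con + m) :=
          pow_le_pow_right₀ hb h2
        rw [pow_add] at h3
        have h4 := MMB_wt_pos b (wlen U.e) hb0 l
        calc b ^ wlen U.e (it.con * g) * wt b (wlen U.e) l ≤
            (b ^ wlen U.e it.con * b ^ m) * wt b (wlen U.e) l :=
              mul_le_mul_of_nonneg_right h3 h4.le
          _ = _ := by ring)
    refine h1.trans ?_
    apply mul_le_mul_of_nonneg_right _ hpos.le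
    apply mul_le_mul_of_nonneg_right _ hb0.le
    apply Real.exp_le_exp.2
    have h5 : (n : ℝ) ≤ 1 := by exact_mod_cast hn
    nlinarith
  cases i with
  | mv x x' =>
    match D, h, hpush, hmul with
    | [], h, hpush, hmul => exact hpush x x'
    | [.edge p q c], h, hpush, hmul => exact hpush x x'
    | .hole q c :: l, h, hpush, hmul => exact hpush x x'
    | .edge p q c' :: it :: l, h, hpush, hmul =>
      show pot K (Rigid G) (wlen U.e) α Q b (if c' • x' = p then it.mul c' :: l else
        Item.edge x x' 1 :: Item.edge p q c' :: it :: l) ≤ _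
      split_ifs with hc
      · apply hmul 1 (wlen U.e c') it c' l le_rfl _ _ _ le_rfl
        · rw [cnt]
          have := win_le_one K (Rigid G) (Item.edge p q c' :: it :: l)
          omega
        · rw [MMB_holes_edge]
        · rw [MMB_wt_cons b (wlen U.e) (Item.edge p q c')]
          show _ ≤ b * (b ^ wlen U.e c' * _)
          have h4 := MMB_wt_pos b (wlen U.e) hb0 (it :: l)
          have h5 : 0 < b ^ wlen U.e c' := by positivity
          have h6 : 0 < b ^ wlen U.e c' * wt b (wlen U.e) (it :: l) := by positivity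
          nlinarith
      · exact hpush x x'
  | ap s =>
    match D, h, hpush, hmul with
    | [], h, hpush, hmul => exact absurd h.wf (by simp [WF])
    | it :: l, h, hpush, hmul =>
      show pot K (Rigid G) (wlen U.e) α Q b (it.mul (U.e s) :: l) ≤ _
      apply hmul 0 1 it (U.e s) l (wlen_letter U.e s) (by omega) rfl _ (by omega)
      rw [pow_one, mul_comm]

theorem MMB_win_hole (K : ℕ) (hK : 1 ≤ K) (Rig : V → V → Prop) (q : V) (c : G)
    (l : List (Item V G)) : win K Rig (.hole q c :: l) = 0 := by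
  unfold win
  rw [if_neg]
  rintro ⟨x, y, _, hy, _⟩
  have h1 : seg (.hole q c :: l) = [(c * 1)⁻¹ • q] := rfl
  rw [h1] at hy
  have h2 : ([(c * 1)⁻¹ • q] : List V)[K]? = none := by
    apply List.getElem?_eq_none
    simpa using hK
  rw [h2] at hy
  exact absurd hy (by simp)

theorem ovf_bound (U : Setup S G V) (K : ℕ) (hK : 1 ≤ K) (α b δ : ℝ) (hα : 0 < α)
    (hb : 1 < b) (hδ : 0 < δ) (Q : ℝ) (hQ : 1 ≤ Q) :
    ∃ L₁ : ℕ, ∀ L : ℕ, L₁ ≤ L → ∀ (a : V) (it : Item V G) (l : List (Item V G)),
      ¬ (wlen U.e it.con ≤ L) →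
      pot K (Rigid G) (wlen U.e) α Q b (ovfTop a it ++ l) ≤
        δ * pot K (Rigid G) (wlen U.e) α Q b (it :: l) := by
  have hb0 : 0 < b := by linarith
  have hQ0 : 0 < Q := by linarith
  obtain ⟨n, hn⟩ := pow_unbounded_of_one_lt (Q / δ) hb
  refine ⟨n, ?_⟩
  intro L hL a it l hit
  have h1 : b ^ n ≤ b ^ wlen U.e it.con := pow_le_pow_right₀ hb.le (by omega)
  have h2 : Q ≤ δ * b ^ wlen U.e it.con := by
    rw [div_lt_iff₀ hδ] at hn
    nlinarith
  have hw := MMB_wt_pos b (wlen U.e) hb0 l
  cases it with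
  | hole q c =>
    show pot K (Rigid G) (wlen U.e) α Q b (.hole a 1 :: l) ≤ _
    unfold pot
    have e1 : cnt K (Rigid G) (.hole a 1 :: l) = cnt K (Rigid G) (.hole q c :: l) := by
      rw [cnt, cnt, MMB_win_hole K hK, MMB_win_hole K hK]
    have e2 : holes (Item.hole a 1 :: l) = holes (Item.hole q c :: l) := by
      rw [MMB_holes_hole, MMB_holes_hole]
    rw [e1, e2, MMB_wt_cons, MMB_wt_cons]
    show _ * _ * (b ^ wlen U.e (1 : G) * _) ≤ δ * (_ * _ * (b ^ wlen U.e c * _))
    rw [wlen_one, pow_zero, one_mul]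
    have h2 : Q ≤ δ * b ^ wlen U.e c := h2
    have h3 : 0 < Real.exp (-(α * (cnt K (Rigid G) (Item.hole q c :: l) : ℝ))) *
      Q ^ holes (Item.hole q c :: l) * wt b (wlen U.e) l := by positivity
    nlinarith
  | edge p q c =>
    show pot K (Rigid G) (wlen U.e) α Q b (.hole a 1 :: .edge p q 1 :: l) ≤ _
    unfold pot
    have e1 : cnt K (Rigid G) (.hole a 1 :: .edge p q 1 :: l) =
        cnt K (Rigid G) (.edge p q c :: l) := by
      rw [cnt, MMB_win_hole K hK, add_zero]
      have := cnt_top K (.edge p q 1) c l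
      rw [← this]
      show cnt K (Rigid G) (.edge p q (1 * c) :: l) = _
      rw [one_mul]
    have e2 : holes (Item.hole a 1 :: .edge p q 1 :: l) = holes (Item.edge p q c :: l) + 1 := by
      rw [MMB_holes_hole, MMB_holes_edge, MMB_holes_edge]
    rw [e1, e2, MMB_wt_cons, MMB_wt_cons, MMB_wt_cons]
    show _ * _ * (b ^ wlen U.e (1 : G) * (b ^ wlen U.e (1 : G) * _)) ≤
      δ * (_ * _ * (b ^ wlen U.e c * _))
    rw [wlen_one, pow_zero, one_mul, one_mul, pow_succ]
    have h2 : Q ≤ δ * b ^ wlen U.e c := h2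
    have h3 : 0 < Real.exp (-(α * (cnt K (Rigid G) (Item.edge p q c :: l) : ℝ))) *
      Q ^ holes (Item.edge p q c :: l) * wt b (wlen U.e) l := by positivity
    nlinarith

end GWP
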