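import Pool.Agent.H55.GWP.INV
import Pool.Agent.H55.GWP.NRF
import Pool.Agent.H55.GWP.MMB

/-! BLK: the main run over a block of letters, compared with the true tree.
For a state with invariants at the local vertex `a` the list `seg D` is the geodesic
`tpath x a` from the base vertex `x` of the top segment (in current coordinates) to `a`.
A move keeps `x` and changes `a` to `a'`; appending `s` replaces `x` by `(e s)⁻¹ x` and
`e s • o` by `o`.  The rest of the state (below the top hole) does not change, and the product of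
the `b ^ len` increases by at most a factor `b` for each letter. -/

set_option autoImplicit false
open Classical
namespace GWP

variable {S G V : Type*} [Fintype S] [Group G] [MulAction G V]

omit [Fintype S] in
theorem BLK_verts_mul (u v : G) (D : List (Item V G)) :
    verts (u * v) D = (verts u D).map (v⁻¹ • ·) := by
  induction D generalizing u with
  | nil => simp [verts]
  | cons it D ih =>
    cases it with
    | edge p q c =>
      simp only [verts, List.map_cons]
      rw [← ih (c * u), mul_assoc, ← mul_smul, ← mul_inv_rev, mul_assoc]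
    | hole q c =>
      simp only [verts, List.map_cons, List.map_nil]
      rw [← mul_smul, ← mul_inv_rev, mul_assoc]

omit [Fintype S] in
theorem BLK_verts_item (u g : G) (it : Item V G) (l : List (Item V G)) :
    verts u (it.mul g :: l) = verts (g * u) (it :: l) := by
  cases it <;> simp [verts, Item.mul, mul_assoc]

omit [Fintype S] in
theorem BLK_verts_head (u : G) (it : Item V G) (l : List (Item V G)) :
    (verts u (it :: l)).head? = some ((it.con * u)⁻¹ • it.pos) := by
  cases it <;> simp [verts, Item.con, Item.pos]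

omit [Fintype S] in
theorem BLK_verts_ne (u : G) (D : List (Item V G)) (h : D ≠ []) : verts u D ≠ [] := by
  cases D with
  | nil => exact absurd rfl h
  | cons it l =>
    intro h0
    have := BLK_verts_head u it l
    rw [h0] at this
    simp at this

theorem BLK_NB (U : Setup S G V) (D : List (Item V G)) (h : WF U.T D) (u : G) :
    NB U.T (verts u D) := by
  induction D generalizing u with
  | nil => exact absurd h (by simp [WF])
  | cons it D ih =>
    cases it with
    | hole q c => simp [verts, NB]
    | edge p q c =>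
      cases D with
      | nil => exact absurd h (by simp [WF])
      | cons it' l =>
        obtain ⟨h1, h2, h3, h4⟩ := h
        have ih' := ih h4 (c * u)
        have hp : (it'.con * (c * u))⁻¹ • it'.pos = (c * u)⁻¹ • p := by
          rw [mul_inv_rev, mul_smul, ← h2, inv_smul_smul]
        cases it' with
        | hole q' c' =>
          simp only [Item.con, Item.pos] at hp
          simp only [verts, NB, and_true]
          refine ⟨?_, by simp⟩
          rw [hp]
          exact U.act _ _ _ h1.symm
        | edge p' q' c' =>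
          simp only [Item.con, Item.pos] at hp
          have hl : l ≠ [] := by
            rintro rfl
            exact h4
          obtain ⟨it2, l2, rfl⟩ := List.exists_cons_of_ne_nil hl
          obtain ⟨g1, g2, g3, g4⟩ := h4
          have e1 : verts u (.edge p q c :: .edge p' q' c' :: it2 :: l2) =
              ((c * u)⁻¹ • q) :: ((c' * (c * u))⁻¹ • q') :: verts (c' * (c * u)) (it2 :: l2) := rfl
          have e2 : verts (c * u) (.edge p' q' c' :: it2 :: l2) =
              ((c' * (c * u))⁻¹ • q') :: verts (c' * (c * u)) (it2 :: l2) := rfl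
          rw [e1]
          refine ⟨?_, ?_, ?_⟩
          · rw [hp]
            exact U.act _ _ _ h1.symm
          · intro x hx hxe
            rw [BLK_verts_head] at hx
            have hx' : (it2.con * (c' * (c * u)))⁻¹ • it2.pos = x := by simpa using hx
            rw [mul_inv_rev, mul_smul, ← g2, inv_smul_smul, mul_inv_rev, mul_smul] at hx'
            have h5 := h3 (by simp [Item.isHole])
            apply h5
            simp only [Item.con, Item.low]
            have h6 : q = c'⁻¹ • p' := by
              apply (MulAction.injective ((c * u)⁻¹))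
              show (c * u)⁻¹ • q = (c * u)⁻¹ • (c'⁻¹ • p')
              rw [hxe, hx']
            rw [h6, smul_inv_smul]
          · rw [← e2]; exact ih'

theorem seg_eq_tpath (U : Setup S G V) (a : V) (D : List (Item V G)) (h : Inv U a D) :
    ∃ x : V, (seg D).getLast? = some x ∧ seg D = tpath U.tree x a := by
  have hne : D ≠ [] := by
    rintro rfl
    exact absurd h.wf (by simp [WF])
  have h1 := BLK_NB U D h.wf 1
  have h2 := BLK_verts_ne 1 D hne
  have h0 := seg_zero U a D h
  refine ⟨(seg D).getLast h2, List.getLast?_eq_getLast_of_ne_nil h2, ?_⟩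
  refine NB_eq_tpath U.tree _ h1 _ _ ?_ (List.getLast?_eq_getLast_of_ne_nil h2)
  rw [List.head?_eq_getElem?]
  exact h0

/-- the part of the state below the top hole -/
noncomputable def BLK_below : List (Item V G) → List (Item V G)
  | [] => []
  | .edge _ _ _ :: l => BLK_below l
  | .hole _ _ :: l => l

omit [Fintype S] in
theorem BLK_cntR_map (K : ℕ) (g : G) (l : List V) :
    cntR K (Rigid G) (l.map (g • ·)) = cntR K (Rigid G) l := by
  induction l with
  | nil => rfl
  | cons v l ih =>
    simp only [List.map_cons, cntR]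
    rw [ih]
    congr 1
    have h1 : (g • v :: l.map (g • ·)) = (v :: l).map (g • ·) := rfl
    rw [h1]
    refine if_congr ?_ rfl rfl
    constructor
    · rintro ⟨u, hu, hr⟩
      rw [List.getElem?_map, Option.map_eq_some_iff] at hu
      obtain ⟨w, hw, rfl⟩ := hu
      exact ⟨w, hw, (Rigid_smul g v w).mp hr⟩
    · rintro ⟨u, hu, hr⟩
      refine ⟨g • u, ?_, (Rigid_smul g v u).mpr hr⟩
      rw [List.getElem?_map, hu]
      rfl

omit [Fintype S] in
theorem BLK_cnt (K : ℕ) (hK : 1 ≤ K) (D : List (Item V G)) :
    cnt K (Rigid G) D = cntR K (Rigid G) (seg D) + cnt K (Rigid G) (BLK_below D) := by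
  induction D with
  | nil => simp [cnt, seg, verts, cntR, BLK_below]
  | cons it D ih =>
    cases it with
    | hole q c =>
      have h1 : seg (.hole q c :: D) = [(c * 1)⁻¹ • q] := rfl
      have hK0 : K ≠ 0 := by omega
      have h2 : win K (Rigid G) (.hole q c :: D) = 0 := by
        unfold win
        rw [if_neg]
        rintro ⟨x, y, _, hy, _⟩
        rw [h1, List.getElem?_singleton, if_neg hK0] at hy
        simp at hy
      have h3 : cntR K (Rigid G) [(c * 1)⁻¹ • q] = 0 := by
        simp only [cntR]
        rw [if_neg]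
        rintro ⟨u, hu, _⟩
        rw [List.getElem?_singleton, if_neg hK0] at hu
        simp at hu
      simp only [cnt, BLK_below]
      rw [h2, h1, h3]
      ring
    | edge p q c =>
      have h1 : seg (.edge p q c :: D) = ((c * 1)⁻¹ • q) :: verts (c * 1) D := rfl
      have h2 : verts (c * 1) D = (seg D).map (c⁻¹ • ·) := by
        rw [mul_one]
        have := BLK_verts_mul 1 c D
        rw [one_mul] at this
        exact this
      simp only [cnt, BLK_below]
      rw [ih, h1]
      simp only [cntR]
      rw [h2, BLK_cntR_map]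
      have h3 : win K (Rigid G) (.edge p q c :: D) = if ∃ u, (((c * 1)⁻¹ • q) ::
          (seg D).map (c⁻¹ • ·))[K]? = some u ∧ Rigid G ((c * 1)⁻¹ • q) u then 1 else 0 := by
        unfold win
        rw [h1, h2]
        refine if_congr ?_ rfl rfl
        constructor
        · rintro ⟨x, y, hx, hy, hr⟩
          have : (c * 1)⁻¹ • q = x := by simpa using hx
          exact ⟨y, hy, this ▸ hr⟩
        · rintro ⟨u, hu, hr⟩
          exact ⟨_, u, rfl, hu, hr⟩
      rw [h3]
      ring

omit [Fintype S] in
theorem BLK_below_mul (it : Item V G) (g : G) (l : List (Item V G)) :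
    BLK_below (it.mul g :: l) = BLK_below (it :: l) := by
  cases it <;> rfl

omit [Fintype S] in
theorem BLK_holes_mul (it : Item V G) (g : G) (l : List (Item V G)) :
    holes (it.mul g :: l) = holes (it :: l) := by
  cases it <;> simp [holes, Item.mul, Item.isHole]

omit [Fintype S] in
theorem BLK_con_mul (it : Item V G) (g : G) : (it.mul g).con = it.con * g := by
  cases it <;> rfl

omit [Fintype S] in
theorem BLK_last_mul (it : Item V G) (g : G) (l : List (Item V G)) (x : V)
    (h : (seg (it :: l)).getLast? = some x) :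
    (seg (it.mul g :: l)).getLast? = some (g⁻¹ • x) := by
  unfold seg at h ⊢
  rw [BLK_verts_item, mul_one]
  have h1 := BLK_verts_mul 1 g (it :: l)
  rw [one_mul] at h1
  rw [h1, List.getLast?_map, h]
  rfl

omit [Fintype S] in
theorem BLK_push (a a' : V) (D : List (Item V G)) (hne : D ≠ []) (x : V)
    (h : (seg D).getLast? = some x) :
    (seg (.edge a a' 1 :: D)).getLast? = some x := by
  have h1 : seg (.edge a a' 1 :: D) = ((1 * 1 : G)⁻¹ • a') :: verts (1 * 1) D := rfl
  rw [h1, mul_one]
  obtain ⟨v, l, hv⟩ := List.exists_cons_of_ne_nil (BLK_verts_ne (1 : G) D hne)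
  unfold seg at h
  rw [hv] at h ⊢
  rw [List.getLast?_cons_cons]
  exact h

omit [Fintype S] in
theorem BLK_pop (p q : V) (c : G) (it : Item V G) (l : List (Item V G)) (x : V)
    (h : (seg (.edge p q c :: it :: l)).getLast? = some x) :
    (seg (it.mul c :: l)).getLast? = some x := by
  have h1 : seg (.edge p q c :: it :: l) = ((c * 1)⁻¹ • q) :: verts (c * 1) (it :: l) := rfl
  unfold seg at h ⊢
  rw [BLK_verts_item]
  unfold seg at h1
  rw [h1] at h
  obtain ⟨v, l', hv⟩ := List.exists_cons_of_ne_nil (BLK_verts_ne (c * 1) (it :: l) (by simp))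
  rw [hv] at h ⊢
  rw [List.getLast?_cons_cons] at h
  exact h

/-- the product of the appended letters -/
def BLK_ap (e : S → G) : Op V S → G
  | .mv _ _ => 1
  | .ap s => e s

/-- the number of appended letters -/
def BLK_n : Op V S → ℕ
  | .mv _ _ => 0
  | .ap _ => 1

theorem BLK_wt_mul (U : Setup S G V) (b : ℝ) (hb : 1 ≤ b) (it : Item V G) (g : G)
    (l : List (Item V G)) :
    wt b (wlen U.e) (it.mul g :: l) ≤ b ^ wlen U.e g * wt b (wlen U.e) (it :: l) := by
  unfold wt
  rw [List.map_cons, List.map_cons, List.prod_cons, List.prod_cons, BLK_con_mul, ← mul_assoc]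
  have hb0 : (0 : ℝ) ≤ b := by linarith
  refine mul_le_mul_of_nonneg_right ?_ ?_
  · rw [← pow_add]
    refine pow_le_pow_right₀ hb ?_
    have := wlen_mul U.e U.gen it.con g
    omega
  · apply List.prod_nonneg
    intro y hy
    rw [List.mem_map] at hy
    obtain ⟨z, _, rfl⟩ := hy
    positivity

theorem BLK_wt_nonneg (U : Setup S G V) (b : ℝ) (hb : 1 ≤ b) (l : List (Item V G)) :
    0 ≤ wt b (wlen U.e) l := by
  unfold wt
  apply List.prod_nonneg
  intro y hy
  rw [List.mem_map] at hy
  obtain ⟨z, _, rfl⟩ := hy
  have hb0 : (0 : ℝ) ≤ b := by linarith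
  positivity

theorem BLK_mm (U : Setup S G V) (K L s0 : ℕ) (b : ℝ) (hb : 1 ≤ b) (i : Op V S)
    (D : List (Item V G)) (hne : D ≠ []) (x : V) (hx : (seg D).getLast? = some x) :
    mm (parOf U K L s0) i D ≠ [] ∧
    (seg (mm (parOf U K L s0) i D)).getLast? = some ((BLK_ap U.e i)⁻¹ • x) ∧
    BLK_below (mm (parOf U K L s0) i D) = BLK_below D ∧
    holes (mm (parOf U K L s0) i D) = holes D ∧
    wt b (wlen U.e) (mm (parOf U K L s0) i D) ≤ b ^ BLK_n i * wt b (wlen U.e) D := by
  have hb0 : (0 : ℝ) ≤ b := by linarith
  have push : ∀ (a a' : V) (D : List (Item V G)), D ≠ [] → (seg D).getLast? = some x →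
      (Item.edge a a' 1 :: D) ≠ [] ∧ (seg (Item.edge a a' 1 :: D)).getLast? = some ((1 : G)⁻¹ • x) ∧
      BLK_below (Item.edge a a' 1 :: D) = BLK_below D ∧
      holes (Item.edge a a' 1 :: D) = holes D ∧
      wt b (wlen U.e) (Item.edge a a' 1 :: D) ≤ b ^ 0 * wt b (wlen U.e) D := by
    intro a a' D hne hx
    refine ⟨by simp, ?_, rfl, by simp [holes, Item.isHole], ?_⟩
    · rw [inv_one, one_smul]
      exact BLK_push a a' D hne x hx
    · unfold wt
      rw [List.map_cons, List.prod_cons]
      have : wlen U.e (Item.edge a a' (1 : G)).con = 0 := wlen_one U.e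
      rw [this]
  obtain ⟨it, l, rfl⟩ := List.exists_cons_of_ne_nil hne
  cases i with
  | ap s =>
    have h1 : mm (parOf U K L s0) (.ap s) (it :: l) = it.mul (U.e s) :: l := rfl
    rw [h1]
    refine ⟨by simp, BLK_last_mul it _ l x hx, BLK_below_mul it _ l, BLK_holes_mul it _ l, ?_⟩
    refine (BLK_wt_mul U b hb it _ l).trans ?_
    refine mul_le_mul_of_nonneg_right ?_ (BLK_wt_nonneg U b hb _)
    exact pow_le_pow_right₀ hb (wlen_letter U.e s)
  | mv a a' =>
    cases it with
    | hole q c => exact push a a' _ hne hx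
    | edge p q c =>
      cases l with
      | nil => exact push a a' _ hne hx
      | cons it' l =>
        have h1 : mm (parOf U K L s0) (.mv a a') (.edge p q c :: it' :: l) =
          if c • a' = p then it'.mul c :: l else .edge a a' 1 :: .edge p q c :: it' :: l := rfl
        rw [h1]
        by_cases hc : c • a' = p
        · rw [if_pos hc]
          refine ⟨by simp, ?_, ?_, ?_, ?_⟩
          · show _ = some ((1 : G)⁻¹ • x)
            rw [inv_one, one_smul]
            exact BLK_pop p q c it' l x hx
          · rw [BLK_below_mul]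
            rfl
          · rw [BLK_holes_mul]
            simp [holes, Item.isHole]
          · refine (BLK_wt_mul U b hb it' c l).trans ?_
            show _ ≤ b ^ 0 * _
            rw [pow_zero, one_mul]
            unfold wt
            rw [List.map_cons (a := Item.edge p q c), List.prod_cons (a := b ^ _)]
            exact le_refl _
        · rw [if_neg hc]
          exact push a a' _ hne hx

/-- product and number over a list -/
def BLK_aps (e : S → G) : List (Op V S) → G
  | [] => 1
  | i :: is => BLK_ap e i * BLK_aps e is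

/-- number over a list -/
def BLK_ns : List (Op V S) → ℕ
  | [] => 0
  | i :: is => BLK_n i + BLK_ns is

theorem BLK_run (U : Setup S G V) (K L s0 : ℕ) (b : ℝ) (hb : 1 ≤ b) (is : List (Op V S)) :
    ∀ (D : List (Item V G)), D ≠ [] → ∀ x : V, (seg D).getLast? = some x →
    mmRun (parOf U K L s0) is D ≠ [] ∧
    (seg (mmRun (parOf U K L s0) is D)).getLast? = some ((BLK_aps U.e is)⁻¹ • x) ∧
    BLK_below (mmRun (parOf U K L s0) is D) = BLK_below D ∧
    holes (mmRun (parOf U K L s0) is D) = holes D ∧
    wt b (wlen U.e) (mmRun (parOf U K L s0) is D) ≤ b ^ BLK_ns is * wt b (wlen U.e) D := by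
  induction is with
  | nil =>
    intro D hne x hx
    refine ⟨hne, ?_, rfl, rfl, ?_⟩
    · show _ = some ((1 : G)⁻¹ • x)
      rw [inv_one, one_smul]
      exact hx
    · show _ ≤ b ^ 0 * _
      rw [pow_zero, one_mul]
      exact le_refl _
  | cons i is ih =>
    intro D hne x hx
    obtain ⟨h1, h2, h3, h4, h5⟩ := BLK_mm U K L s0 b hb i D hne x hx
    obtain ⟨g1, g2, g3, g4, g5⟩ := ih _ h1 _ h2
    refine ⟨g1, ?_, g3.trans h3, g4.trans h4, ?_⟩
    · show _ = some ((BLK_ap U.e i * BLK_aps U.e is)⁻¹ • x)
      rw [mul_inv_rev, mul_smul]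
      exact g2
    · show _ ≤ b ^ (BLK_n i + BLK_ns is) * _
      refine g5.trans ?_
      rw [add_comm, pow_add, mul_assoc]
      exact mul_le_mul_of_nonneg_left h5 (pow_nonneg (by linarith) _)

omit [Fintype S] in
theorem BLK_moves (e : S → G) (l : List V) : BLK_aps e (moves l) = 1 ∧
    BLK_ns (moves l : List (Op V S)) = 0 := by
  induction l with
  | nil => exact ⟨rfl, rfl⟩
  | cons a l ih =>
    cases l with
    | nil => exact ⟨rfl, rfl⟩
    | cons a' l =>
      constructor
      · show BLK_ap e (.mv a a') * BLK_aps e (moves (a' :: l)) = 1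
        rw [ih.1]
        exact one_mul 1
      · show BLK_n (.mv a a' : Op V S) + BLK_ns (moves (a' :: l)) = 0
        rw [ih.2]
        rfl

omit [Fintype S] in
theorem BLK_append (e : S → G) (is js : List (Op V S)) :
    BLK_aps e (is ++ js) = BLK_aps e is * BLK_aps e js ∧
    BLK_ns (is ++ js) = BLK_ns is + BLK_ns js := by
  induction is with
  | nil => exact ⟨(one_mul _).symm, (Nat.zero_add _).symm⟩
  | cons i is ih =>
    constructor
    · show BLK_ap e i * BLK_aps e (is ++ js) = BLK_ap e i * BLK_aps e is * BLK_aps e js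
      rw [ih.1, mul_assoc]
    · show BLK_n i + BLK_ns (is ++ js) = BLK_n i + BLK_ns is + BLK_ns js
      rw [ih.2, Nat.add_assoc]

theorem BLK_ops (U : Setup S G V) (w : List S) : BLK_aps U.e (opsW U w) = ev U.e w ∧
    BLK_ns (opsW U w) = w.length := by
  induction w with
  | nil => exact ⟨rfl, rfl⟩
  | cons s w ih =>
    have h1 : opsW U (s :: w) = moves (tpath U.tree (U.e s • U.o) U.o) ++ ([.ap s] ++ opsW U w) := by
      unfold opsW
      rw [List.flatMap_cons]
      unfold opsL
      rw [List.append_assoc]
    obtain ⟨m1, m2⟩ := BLK_moves (S := S) U.e (tpath U.tree (U.e s • U.o) U.o)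
    constructor
    · rw [h1, (BLK_append U.e _ _).1, m1, (BLK_append U.e _ _).1, ih.1]
      show 1 * ((U.e s * 1) * ev U.e w) = ev U.e (s :: w)
      rw [one_mul, mul_one]
      simp [ev]
    · rw [h1, (BLK_append U.e _ _).2, m2, (BLK_append U.e _ _).2, ih.2]
      show 0 + (1 + 0 + w.length) = _
      rw [List.length_cons]
      omega

theorem BLK_split (U : Setup S G V) (a c : V) (i : Op V S) (is : List (Op V S))
    (h : OpsOK U a (i :: is) c) : ∃ b, OpsOK U a [i] b ∧ OpsOK U b is c := by
  cases i with
  | mv x x' =>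
    obtain ⟨h1, h2, h3, h4, h5⟩ := h
    exact ⟨x', ⟨h1, h2, h3, h4, rfl⟩, h5⟩
  | ap s => exact ⟨U.o, ⟨h.1, rfl⟩, h.2⟩

theorem BLK_inv (U : Setup S G V) (K L s0 : ℕ) (is : List (Op V S)) :
    ∀ (a c : V) (D : List (Item V G)), OpsOK U a is c → Inv U a D →
      Inv U c (mmRun (parOf U K L s0) is D) := by
  induction is with
  | nil =>
    intro a c D h hD
    have : a = c := h
    exact this ▸ hD
  | cons i is ih =>
    intro a c D h hD
    obtain ⟨b, h1, h2⟩ := BLK_split U a c i is h
    exact ih b c _ h2 (mm_inv U K L s0 a b i D h1 hD)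

theorem main_block (U : Setup S G V) (K L s0 : ℕ) (hK : 1 ≤ K) (α Q b : ℝ) (hα : 0 < α)
    (hQ : 1 ≤ Q) (hb : 1 ≤ b) (D : List (Item V G)) (h : Inv U U.o D) (x : V)
    (hx : (seg D).getLast? = some x) (w : List S) :
    pot K (Rigid G) (wlen U.e) α Q b (mmRun (parOf U K L s0) (opsW U w) D) ≤
      b ^ w.length * Real.exp (-(α * ((NR U.tree K (Rigid G) x (ev U.e w • U.o) : ℝ) -
        NR U.tree K (Rigid G) x U.o))) * pot K (Rigid G) (wlen U.e) α Q b D := by
  have _ := hα
  have hne : D ≠ [] := by
    rintro rfl
    exact absurd h.wf (by simp [WF])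
  have hinv := BLK_inv U K L s0 (opsW U w) U.o U.o D (opsW_ok U w) h
  obtain ⟨g1, g2, g3, g4, g5⟩ := BLK_run U K L s0 b hb (opsW U w) D hne x hx
  rw [(BLK_ops U w).1] at g2
  rw [(BLK_ops U w).2] at g5
  obtain ⟨x1, hx1, hs1⟩ := seg_eq_tpath U U.o D h
  obtain ⟨x2, hx2, hs2⟩ := seg_eq_tpath U U.o _ hinv
  rw [hx] at hx1
  rw [g2] at hx2
  have e1 : x = x1 := by simpa using hx1
  have e2 : (ev U.e w)⁻¹ • x = x2 := by simpa using hx2
  subst e1
  have c1 : cnt K (Rigid G) D = NR U.tree K (Rigid G) x U.o + cnt K (Rigid G) (BLK_below D) := by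
    rw [BLK_cnt K hK D, hs1]
    rfl
  have c2 : cnt K (Rigid G) (mmRun (parOf U K L s0) (opsW U w) D) =
      NR U.tree K (Rigid G) x (ev U.e w • U.o) + cnt K (Rigid G) (BLK_below D) := by
    rw [BLK_cnt K hK, hs2, g3]
    congr 1
    have := NR_smul U.tree U.act K (Rigid G) Rigid_smul (ev U.e w)⁻¹ x (ev U.e w • U.o)
    rw [inv_smul_smul] at this
    rw [← e2]
    exact this
  unfold pot
  rw [g4, c2, c1]
  have hQ0 : (0 : ℝ) < Q := by linarith
  have e3 : Real.exp (-(α * ((NR U.tree K (Rigid G) x (ev U.e w • U.o) +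
      cnt K (Rigid G) (BLK_below D) : ℕ) : ℝ))) =
      Real.exp (-(α * ((NR U.tree K (Rigid G) x (ev U.e w • U.o) : ℝ) -
        NR U.tree K (Rigid G) x U.o))) *
      Real.exp (-(α * ((NR U.tree K (Rigid G) x U.o + cnt K (Rigid G) (BLK_below D) : ℕ) : ℝ))) := by
    rw [← Real.exp_add]
    congr 1
    push_cast
    ring
  rw [e3]
  have h6 : 0 ≤ Real.exp (-(α * ((NR U.tree K (Rigid G) x (ev U.e w • U.o) : ℝ) -
        NR U.tree K (Rigid G) x U.o))) *
      Real.exp (-(α * ((NR U.tree K (Rigid G) x U.o + cnt K (Rigid G) (BLK_below D) : ℕ) : ℝ))) *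
      Q ^ holes D := by positivity
  calc _ ≤ Real.exp (-(α * ((NR U.tree K (Rigid G) x (ev U.e w • U.o) : ℝ) -
        NR U.tree K (Rigid G) x U.o))) *
      Real.exp (-(α * ((NR U.tree K (Rigid G) x U.o + cnt K (Rigid G) (BLK_below D) : ℕ) : ℝ))) *
      Q ^ holes D * (b ^ w.length * wt b (wlen U.e) D) := mul_le_mul_of_nonneg_left g5 h6
    _ = _ := by ring

end GWP
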