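import Pool.Agent.H55.GWP.NRF

/-! CL0: cutting lists. -/

set_option autoImplicit false
open Classical
namespace GWP

variable {V : Type*}

theorem CL0_aux (K : ℕ) (hK : 1 ≤ K) (Rig : V → V → Prop) (l l' : List V) (v : V) :
    cntR K Rig (l ++ v :: l') ≤
      cntR K Rig (l ++ [v]) + cntR K Rig (v :: l') + min l.length (K - 1) := by
  induction l with
  | nil => simp
  | cons a m ih =>
    have e1 : cntR K Rig (a :: m ++ v :: l') = cntR K Rig (m ++ v :: l') +
        (if ∃ u, (a :: (m ++ v :: l'))[K]? = some u ∧ Rig a u then 1 else 0) := rfl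
    have e2 : cntR K Rig (a :: m ++ [v]) = cntR K Rig (m ++ [v]) +
        (if ∃ u, (a :: (m ++ [v]))[K]? = some u ∧ Rig a u then 1 else 0) := rfl
    rw [e1, e2, List.length_cons]
    by_cases hKm : K ≤ m.length + 1
    · have h1 : (a :: (m ++ v :: l'))[K]? = (a :: (m ++ [v]))[K]? := by
        obtain ⟨k, rfl⟩ : ∃ k, K = k + 1 := ⟨K - 1, by omega⟩
        simp only [List.getElem?_cons_succ]
        rcases Nat.lt_or_ge k m.length with h | h
        · rw [List.getElem?_append_left h, List.getElem?_append_left h]
        · have : k = m.length := by omega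
          subst this
          simp
      rw [h1]
      have h2 : min m.length (K - 1) ≤ min (m.length + 1) (K - 1) := by omega
      omega
    · have h3 : min (m.length + 1) (K - 1) = m.length + 1 := by omega
      have h4 : min m.length (K - 1) = m.length := by omega
      split_ifs <;> omega

/-- cutting a list at a vertex loses at most `K - 1` windows -/
theorem cntR_split (K : ℕ) (hK : 1 ≤ K) (Rig : V → V → Prop) (l l' : List V) (v : V) :
    cntR K Rig (l ++ v :: l') ≤ cntR K Rig (l ++ [v]) + cntR K Rig (v :: l') + (K - 1) := by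
  have := CL0_aux K hK Rig l l' v
  omega

theorem cntR_single (K : ℕ) (hK : 1 ≤ K) (Rig : V → V → Prop) (v : V) :
    cntR K Rig [v] = 0 := by
  obtain ⟨k, rfl⟩ : ∃ k, K = k + 1 := ⟨K - 1, by omega⟩
  simp [cntR]

end GWP
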