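import Pool.Agent.H55.GWP.INV
import Pool.Agent.H55.GWP.NRF

/-! CLA: uniform bounds for the number and the length of the possible group elements of a claim
with contents of length `≤ s0`.

With `topW = E ++ it :: _`, `lowW = E' ++ it' :: _` (`E`, `E'` lists of `K` edges, `win_items`):
`y0 = a ∈ V0`, `yK = (cprod E)⁻¹ • e.low` (`e` = last of `E`, `seg_get_low`),
`topProd K lowW • z0 = e'.low`, and `zK = (c₀')⁻¹ • q₀'`, so `topProd K lowW • zK` is the image of
a vertex of `V0` under an element of length `≤ 2 K s0`.  All these vertices are in the finite set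
`Y = {x • v | wlen x ≤ 2 K s0 + s0, v ∈ V0}`.  For `(y0, yK)` rigid and any `(p, q)` the set
`{γ | γ y0 = p, γ yK = q}` is finite (a coset of the stabiliser); take the maxima over `Y^4`. -/

set_option autoImplicit false
open Classical
namespace GWP

variable {S G V : Type*} [Fintype S] [Group G] [MulAction G V]

/-- elements mapping a rigid pair to a given pair -/
theorem coset_finite (y0 yK p q : V) (h : Rigid G y0 yK) :
    {γ : G | γ • y0 = p ∧ γ • yK = q}.Finite := by
  by_cases hne : ∃ γ0 : G, γ0 • y0 = p ∧ γ0 • yK = q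
  · obtain ⟨γ0, h0, h1⟩ := hne
    apply (Set.Finite.image (fun g => γ0 * g) h).subset
    rintro γ ⟨h2, h3⟩
    refine ⟨γ0⁻¹ * γ, ⟨?_, ?_⟩, by simp⟩
    · rw [mul_smul, h2, ← h0, inv_smul_smul]
    · rw [mul_smul, h3, ← h1, inv_smul_smul]
  · apply Set.Finite.subset Set.finite_empty
    rintro γ hγ
    exact hne ⟨γ, hγ⟩

theorem CLA_inv (U : Setup S G V) (g : G) : wlen U.e g⁻¹ ≤ wlen U.e g := by
  obtain ⟨w, hw, hg⟩ := wlen_spec U.e U.gen g
  have h1 := ev_rev U.e U.inv U.e_inv w
  rw [hg] at h1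
  rw [← h1, ← hw]
  apply (wlen_ev U.e _).trans
  simp

theorem CLA_cprod (U : Setup S G V) (s : ℕ) (E : List (Item V G))
    (hE : ∀ x ∈ E, wlen U.e x.con ≤ s) : wlen U.e (cprod E) ≤ E.length * s := by
  induction E with
  | nil =>
    simp only [cprod, List.map_nil, List.reverse_nil, List.prod_nil, List.length_nil, zero_mul]
    exact (wlen_one U.e).le
  | cons x E ih =>
    have h1 : cprod (x :: E) = cprod E * x.con := by
      simp [cprod]
    rw [h1]
    apply (wlen_mul U.e U.gen _ _).trans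
    have h2 := ih (fun y hy => hE y (List.mem_cons_of_mem _ hy))
    have h3 := hE x List.mem_cons_self
    rw [List.length_cons, Nat.add_mul, one_mul]
    omega

/-- the finite set of vertices -/
def CLA_Y (U : Setup S G V) (B : ℕ) : Set V := {y | ∃ x : G, wlen U.e x ≤ B ∧ ∃ v ∈ V0 U, x • v = y}

theorem CLA_Y_finite (U : Setup S G V) (B : ℕ) : (CLA_Y U B).Finite := by
  have h1 := (wlen_ball_finite U.e U.gen B).prod (V0_finite U)
  apply (h1.image (fun p => p.1 • p.2)).subset
  rintro y ⟨x, hx, v, hv, rfl⟩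
  exact ⟨(x, v), ⟨hx, hv⟩, rfl⟩

/-- the end points of a top window -/
theorem CLA_win (U : Setup S G V) (K : ℕ) (hK : 1 ≤ K) (s0 : ℕ) (D : List (Item V G))
    (hwf : WF U.T D) (hV : InV0 U D) (hw : win K (Rigid G) D = 1)
    (hs : ∀ x ∈ D.take K, wlen U.e x.con ≤ s0) :
    ∃ y0 yK : V, (seg D)[0]? = some y0 ∧ (seg D)[K]? = some yK ∧ Rigid G y0 yK ∧
      y0 ∈ CLA_Y U s0 ∧ yK ∈ CLA_Y U (K * s0) ∧ ((D.take K).map Item.con).reverse.prod • yK ∈
        CLA_Y U 0 ∧ wlen U.e ((D.take K).map Item.con).reverse.prod ≤ K * s0 := by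
  obtain ⟨E, rest, it, hD, hEl, hE⟩ := win_items K _ D hw
  obtain ⟨y0, yK, h0, h1, hr⟩ := (win_eq_one K _ D).1 hw
  have htake : D.take K = E := by
    rw [hD, ← hEl, List.take_left]
  have hcp : wlen U.e (cprod E) ≤ K * s0 := by
    rw [← hEl]
    apply CLA_cprod
    intro x hx
    apply hs
    rw [htake]
    exact hx
  refine ⟨y0, yK, h0, h1, hr, ?_, ?_, ?_, ?_⟩
  · -- the first vertex
    cases hE1 : E with
    | nil =>
      rw [hE1] at hEl
      simp at hEl
      omega
    | cons x E1 =>
      have h2 := seg_get [] (E1 ++ it :: rest) x (by simp)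
      have h3 : D = [] ++ x :: (E1 ++ it :: rest) := by
        rw [hD, hE1]
        rfl
      rw [h3] at h0
      rw [List.length_nil] at h2
      rw [h2] at h0
      have h4 := Option.some.inj h0
      refine ⟨x.con⁻¹, ?_, x.pos, ?_, ?_⟩
      · apply (CLA_inv U _).trans
        apply hs
        rw [htake, hE1]
        exact List.mem_cons_self
      · exact (hV x (by rw [h3]; simp)).2
      · rw [← h4]
        simp [cprod]
  · obtain ⟨E1, e, rfl⟩ : ∃ E1 e, E = E1 ++ [e] := by
      have hne : E ≠ [] := by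
        rintro rfl
        simp at hEl
        omega
      exact ⟨E.dropLast, E.getLast hne, (List.dropLast_append_getLast hne).symm⟩
    have h3 : D = E1 ++ e :: it :: rest := by
      rw [hD]
      simp
    have h2 : (seg D)[K]? = some ((cprod (E1 ++ [e]))⁻¹ • e.low) := by
      have h5 := seg_get (E1 ++ [e]) rest it hE
      rw [hEl, ← hD] at h5
      rw [h5]
      have h6 : WF U.T (e :: it :: rest) := WF_suffix U.T E1 _ (by simp) (by rw [← h3]; exact hwf)
      have h7 : ¬ e.isHole := hE e (by simp)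
      cases e with
      | hole q c => exact absurd trivial h7
      | edge p q c =>
        have h8 : it.con • p = it.pos := h6.2.1
        rw [← h8, inv_smul_smul]
        rfl
    rw [h2] at h1
    have h4 := Option.some.inj h1
    refine ⟨(cprod (E1 ++ [e]))⁻¹, (CLA_inv U _).trans hcp, e.low, ?_, h4⟩
    exact (hV e (by rw [h3]; simp)).1
  · obtain ⟨E1, e, rfl⟩ : ∃ E1 e, E = E1 ++ [e] := by
      have hne : E ≠ [] := by
        rintro rfl
        simp at hEl
        omega
      exact ⟨E.dropLast, E.getLast hne, (List.dropLast_append_getLast hne).symm⟩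
    have h3 : D = E1 ++ e :: it :: rest := by
      rw [hD]
      simp
    have h2 : (seg D)[K]? = some ((cprod (E1 ++ [e]))⁻¹ • e.low) := by
      have h5 := seg_get (E1 ++ [e]) rest it hE
      rw [hEl, ← hD] at h5
      rw [h5]
      have h6 : WF U.T (e :: it :: rest) := WF_suffix U.T E1 _ (by simp) (by rw [← h3]; exact hwf)
      have h7 : ¬ e.isHole := hE e (by simp)
      cases e with
      | hole q c => exact absurd trivial h7
      | edge p q c =>
        have h8 : it.con • p = it.pos := h6.2.1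
        rw [← h8, inv_smul_smul]
        rfl
    rw [h2] at h1
    have h4 := Option.some.inj h1
    refine ⟨1, (wlen_one U.e).le, e.low, (hV e (by rw [h3]; simp)).1, ?_⟩
    rw [← h4, htake, one_smul]
    show e.low = cprod (E1 ++ [e]) • (cprod (E1 ++ [e]))⁻¹ • e.low
    rw [smul_inv_smul]
  · rw [htake]
    exact hcp

theorem gam_bound (U : Setup S G V) (K : ℕ) (hK : 1 ≤ K) (s0 : ℕ) :
    ∃ C₀ Φ : ℕ, ∀ (L : ℕ) (a : V) (D₁ l : List (Item V G)), Inv U a (D₁ ++ l) →
      win K (Rigid G) (D₁ ++ l) = 1 → win K (Rigid G) l = 1 →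
      (∀ x ∈ (D₁ ++ l).take K ++ l.take K, wlen U.e x.con ≤ s0) →
      (listOf (gam (parOf U K L s0) ((D₁ ++ l).take (K + 1)) (l.take (K + 1)))).length ≤ C₀ ∧
      ∀ γ ∈ gam (parOf U K L s0) ((D₁ ++ l).take (K + 1)) (l.take (K + 1)),
        wlen U.e γ ≤ Φ := by
  set B : ℕ := K * s0 + s0 with hB
  set Y : Set V := CLA_Y U B with hY
  have hYf : Y.Finite := CLA_Y_finite U B
  set A : Set G := ⋃ t ∈ {t : (V × V) × (V × V) | t ∈ (Y ×ˢ Y) ×ˢ (Y ×ˢ Y) ∧ Rigid G t.1.1 t.1.2},
    {γ : G | γ • t.1.1 = t.2.1 ∧ γ • t.1.2 = t.2.2} with hA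
  have hAf : A.Finite := by
    apply Set.Finite.biUnion
    · exact ((hYf.prod hYf).prod (hYf.prod hYf)).subset (fun t ht => ht.1)
    · intro t ht
      exact coset_finite _ _ _ _ ht.2
  have hmono : ∀ {b c : ℕ}, b ≤ c → CLA_Y U b ⊆ CLA_Y U c := by
    rintro b c hbc y ⟨x, hx, hv⟩
    exact ⟨x, hx.trans hbc, hv⟩
  refine ⟨hAf.toFinset.card, hAf.toFinset.sup (wlen U.e), ?_⟩
  intro L a D₁ l hinv hw1 hw2 hs
  have hne : l ≠ [] := by
    rintro rfl
    have h1 := (win_eq_one K _ _).1 hw2
    obtain ⟨x, y, h2, _⟩ := h1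
    simp [seg, verts] at h2
  obtain ⟨y0, yK, h1, h2, h3, h4, h5, _, _⟩ := CLA_win U K hK s0 (D₁ ++ l) hinv.wf hinv.inV0 hw1
    (fun x hx => hs x (List.mem_append_left _ hx))
  obtain ⟨zK, z0, h6, h7, _, h8, _, h9, h10⟩ := CLA_win U K hK s0 l
    (WF_suffix U.T D₁ l hne hinv.wf) (fun x hx => hinv.inV0 x (List.mem_append_right _ hx)) hw2
    (fun x hx => hs x (List.mem_append_right _ hx))
  have hsub : gam (parOf U K L s0) ((D₁ ++ l).take (K + 1)) (l.take (K + 1)) ⊆ A := by
    rintro γ ⟨y0', yK', z0', zK', k1, k2, k3, k4, k5, k6⟩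
    have e0 : (seg ((D₁ ++ l).take (K + 1)))[0]? = (seg (D₁ ++ l))[0]? := by
      rw [seg_take, List.getElem?_take, if_pos (by omega)]
    have e1 : (seg ((D₁ ++ l).take (K + 1)))[K]? = (seg (D₁ ++ l))[K]? := by
      rw [seg_take, List.getElem?_take, if_pos (by omega)]
    have e2 : (seg (l.take (K + 1)))[0]? = (seg l)[0]? := by
      rw [seg_take, List.getElem?_take, if_pos (by omega)]
    have e3 : (seg (l.take (K + 1)))[K]? = (seg l)[K]? := by
      rw [seg_take, List.getElem?_take, if_pos (by omega)]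
    have k2' : (seg ((D₁ ++ l).take (K + 1)))[K]? = some yK' := k2
    have k4' : (seg (l.take (K + 1)))[K]? = some z0' := k4
    rw [e0, h1] at k1
    rw [e1, h2] at k2'
    rw [e2, h6] at k3
    rw [e3, h7] at k4'
    have m1 := Option.some.inj k1
    have m2 := Option.some.inj k2'
    have m3 := Option.some.inj k3
    have m4 := Option.some.inj k4'
    subst m1 m2 m3 m4
    have hp : topProd (parOf U K L s0).K (l.take (K + 1)) =
        ((l.take K).map Item.con).reverse.prod := by
      show (((l.take (K + 1)).take K).map Item.con).reverse.prod = _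
      rw [List.take_take, min_eq_left (by omega)]
    rw [hp] at k5 k6
    rw [hA]
    simp only [Set.mem_iUnion]
    refine ⟨((y0, yK), (((l.take K).map Item.con).reverse.prod • z0,
      ((l.take K).map Item.con).reverse.prod • zK)), ⟨⟨⟨?_, ?_⟩, ⟨?_, ?_⟩⟩, h3⟩, k5, k6⟩
    · exact hmono (by omega) h4
    · exact hmono (by omega) h5
    · exact hmono (by omega) h9
    · obtain ⟨x, hx, v, hv, hxv⟩ := h8
      refine ⟨((l.take K).map Item.con).reverse.prod * x, ?_, v, hv, ?_⟩
      · apply (wlen_mul U.e U.gen _ _).trans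
        omega
      · show _ = ((l.take K).map Item.con).reverse.prod • zK
        rw [mul_smul, hxv]
  constructor
  · unfold listOf
    split
    · rename_i hfin
      rw [Finset.length_toList]
      apply Finset.card_le_card
      intro x hx
      rw [Set.Finite.mem_toFinset] at hx ⊢
      exact hsub hx
    · simp
  · intro γ hγ
    exact Finset.le_sup (f := wlen U.e) (by
      rw [Set.Finite.mem_toFinset]
      exact hsub hγ)

end GWP
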