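import Pool.Agent.H55.GWP.CLM

/-! CLB: the total potential of all claims in a state is a small multiple of the potential.

Sum `claim_sum_le` over the suffixes `l` of `D` used by claims, grouped by `s = holes D - holes l`
(`1 ≤ s ≤ holes D`); only suffixes with `win l = 1` contribute (otherwise `claimTop = []`, `win_take`),
at most `3 K s + 2 K + 1` of them for each `s` (`tails_count` with `M = 3 K s + 2 K`).  With
`E = ∑_{s ≥ 1} (3 K s + 2 K + 1) exp(α (3 K s + 3 K)) Q^(1-s)`, bounded independently of `Q ≥ 2 exp(3 K α)`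
(say), the total is at most `(E C₀ b^Φ / Q + E C₀ b^Φ / b^L + E / b^{s0}) pot D`: choose `s0` (so that
`E / b^{s0} ≤ δ/3`), then `C₀, Φ` from `gam_bound`, then `Q₁`, then `L₁`. -/

set_option autoImplicit false
open Classical
namespace GWP

theorem CLB_flat {X Y : Type*} (T : List X) (f : X → List Y) (h : Y → ℝ) :
    ((T.flatMap f).map h).sum = (T.map (fun x => ((f x).map h).sum)).sum := by
  induction T with
  | nil => simp
  | cons t T ih =>
    rw [List.flatMap_cons, List.map_append, List.sum_append, ih, List.map_cons, List.sum_cons]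

theorem CLB_swap {X : Type*} (T : List X) (H : ℕ) (F : ℕ → X → ℝ) :
    (T.map (fun l => ∑ s ∈ Finset.range H, F s l)).sum =
      ∑ s ∈ Finset.range H, (T.map (F s)).sum := by
  induction T with
  | nil => simp
  | cons t T ih =>
    simp only [List.map_cons, List.sum_cons]
    rw [ih, Finset.sum_add_distrib]

theorem CLB_ind {X : Type*} (T : List X) (P : X → Prop) [DecidablePred P] (c : ℝ) :
    (T.map (fun l => if P l then c else 0)).sum =
      ((T.filter (fun l => decide (P l))).length : ℝ) * c := by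
  induction T with
  | nil => simp
  | cons t T ih =>
    simp only [List.map_cons, List.sum_cons]
    rw [ih]
    by_cases h : P t
    · rw [if_pos h, List.filter_cons_of_pos (by simpa using h), List.length_cons]
      push_cast
      ring
    · rw [if_neg h, List.filter_cons_of_neg (by simpa using h)]
      ring

theorem CLB_geo (K : ℝ) (H : ℕ) :
    ∑ s ∈ Finset.range H, (3 * K * (s + 1) + 2 * K + 1) * (1 / 2 : ℝ) ^ s =
      (16 * K + 2) - (6 * K * H + 16 * K + 2) * (1 / 2 : ℝ) ^ H := by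
  induction H with
  | zero => simp
  | succ n ih =>
    rw [Finset.sum_range_succ, ih, pow_succ]
    push_cast
    ring

variable {S G V : Type*} [Fintype S] [Group G] [MulAction G V]

theorem CLB_sum (U : Setup S G V) (K : ℕ) (hK : 1 ≤ K) (s0 C₀ Φ L : ℕ) (α b Q : ℝ) (hα : 0 < α)
    (hb : 1 < b) (hQ1 : 1 ≤ Q) (hQ : 2 * Real.exp (3 * K * α) ≤ Q)
    (a : V) (D : List (Item V G)) (hI : Inv U a D)
    (hG : ∀ (D₁ l : List (Item V G)), Inv U a (D₁ ++ l) →
      win K (Rigid G) (D₁ ++ l) = 1 → win K (Rigid G) l = 1 →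
      (∀ x ∈ (D₁ ++ l).take K ++ l.take K, wlen U.e x.con ≤ s0) →
      (listOf (gam (parOf U K L s0) ((D₁ ++ l).take (K + 1)) (l.take (K + 1)))).length ≤ C₀ ∧
      ∀ γ ∈ gam (parOf U K L s0) ((D₁ ++ l).take (K + 1)) (l.take (K + 1)),
        wlen U.e γ ≤ Φ) :
    ((claims (parOf U K L s0) a D).map (pot K (Rigid G) (wlen U.e) α Q b)).sum ≤
      Real.exp (3 * K * α) ^ 2 * (16 * K + 2) *
        (C₀ * b ^ Φ / Q + C₀ * b ^ Φ / b ^ L + 1 / b ^ s0) *
        pot K (Rigid G) (wlen U.e) α Q b D := by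
  have hQ0 : 0 < Q := by linarith
  have hb0 : 0 < b := by linarith
  have hP := pot_pos K (Rigid G) (wlen U.e) α Q b hQ0 hb0 D
  set x := Real.exp (3 * K * α) with hx
  have hx0 : 0 < x := Real.exp_pos _
  set W : ℝ := C₀ * b ^ Φ / Q + C₀ * b ^ Φ / b ^ L + 1 / b ^ s0 with hW
  have hW0 : 0 ≤ W := by positivity
  set c : ℕ → ℝ := fun s => x ^ 2 * (1 / 2 : ℝ) ^ s * W *
    pot K (Rigid G) (wlen U.e) α Q b D with hc
  have hc0 : ∀ s, 0 ≤ c s := fun s => by
    show 0 ≤ x ^ 2 * (1 / 2 : ℝ) ^ s * W * pot K (Rigid G) (wlen U.e) α Q b D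
    positivity
  unfold claims
  rw [CLB_flat]
  have h1 : ∀ l ∈ D.tails, ((((fun l => if holes l < holes D ∧
        cnt K (Rigid G) D ≤ cnt K (Rigid G) l + 3 * K * (holes D - holes l) + 2 * K then
      (claimTop (parOf U K L s0) a (D.take (K + 1)) (l.take (K + 1))).map (· ++ l.drop (K + 1))
    else []) : List (Item V G) → List (List (Item V G))) l).map
        (pot K (Rigid G) (wlen U.e) α Q b)).sum ≤
      ∑ s ∈ Finset.range (holes D), (if (win K (Rigid G) l = 1 ∧
        cnt K (Rigid G) D ≤ cnt K (Rigid G) l + (3 * K * (s + 1) + 2 * K)) then c s else 0) := by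
    intro l hl
    have hs0 : 0 ≤ ∑ s ∈ Finset.range (holes D), (if (win K (Rigid G) l = 1 ∧
        cnt K (Rigid G) D ≤ cnt K (Rigid G) l + (3 * K * (s + 1) + 2 * K)) then c s else 0) := by
      apply Finset.sum_nonneg
      intro s hs
      split
      · exact hc0 s
      · exact le_rfl
    show (((if holes l < holes D ∧
        cnt K (Rigid G) D ≤ cnt K (Rigid G) l + 3 * K * (holes D - holes l) + 2 * K then
      (claimTop (parOf U K L s0) a (D.take (K + 1)) (l.take (K + 1))).map (· ++ l.drop (K + 1))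
    else [])).map (pot K (Rigid G) (wlen U.e) α Q b)).sum ≤ _
    by_cases hcond : holes l < holes D ∧
        cnt K (Rigid G) D ≤ cnt K (Rigid G) l + 3 * K * (holes D - holes l) + 2 * K
    swap
    · rw [if_neg hcond]
      simpa using hs0
    rw [if_pos hcond]
    by_cases hwl : win K (Rigid G) l = 1
    swap
    · have h1 : claimTop (parOf U K L s0) a (D.take (K + 1)) (l.take (K + 1)) = [] := by
        unfold claimTop
        rw [if_neg]
        show ¬ (win K (Rigid G) _ = 1 ∧ win K (Rigid G) _ = 1)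
        rw [win_take, win_take]
        exact fun h => hwl h.2
      rw [h1]
      simpa using hs0
    obtain ⟨D₁, rfl⟩ := (List.mem_tails _ _).1 hl
    obtain ⟨hlt, hcn⟩ := hcond
    obtain ⟨s, hs⟩ : ∃ s, holes (D₁ ++ l) = holes l + (s + 1) :=
      ⟨holes (D₁ ++ l) - holes l - 1, by omega⟩
    have hcn' : cnt K (Rigid G) (D₁ ++ l) ≤ cnt K (Rigid G) l + 3 * K * (s + 1) + 2 * K := by
      have : holes (D₁ ++ l) - holes l = s + 1 := by omega
      rw [this] at hcn
      exact hcn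
    have h2 := claim_sum_le U K hK s0 C₀ Φ L α Q b hα hQ1 hb a D₁ l hI (s + 1) (by omega) hs
      hcn' (hG D₁ l hI)
    have h3 : Real.exp (α * (3 * K * ((s + 1 : ℕ) : ℝ) + 3 * K)) *
        (C₀ * b ^ Φ / Q ^ (s + 1) + C₀ * b ^ Φ / b ^ L * (Q / Q ^ (s + 1)) +
          Q / Q ^ (s + 1) / b ^ s0) *
        pot K (Rigid G) (wlen U.e) α Q b (D₁ ++ l) ≤ c s := by
      have h4 : Real.exp (α * (3 * K * ((s + 1 : ℕ) : ℝ) + 3 * K)) = x ^ 2 * x ^ s := by
        rw [← pow_add, hx, ← Real.exp_nat_mul]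
        congr 1
        push_cast
        ring
      have h5 : C₀ * b ^ Φ / Q ^ (s + 1) + C₀ * b ^ Φ / b ^ L * (Q / Q ^ (s + 1)) +
          Q / Q ^ (s + 1) / b ^ s0 = W / Q ^ s := by
        rw [hW, pow_succ]
        field_simp
      rw [h4, h5]
      show _ ≤ x ^ 2 * (1 / 2 : ℝ) ^ s * W * pot K (Rigid G) (wlen U.e) α Q b (D₁ ++ l)
      have h6 : x ^ s / Q ^ s ≤ (1 / 2 : ℝ) ^ s := by
        rw [← div_pow]
        apply pow_le_pow_left₀ (by positivity)
        rw [div_le_div_iff₀ hQ0 (by norm_num)]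
        linarith
      calc x ^ 2 * x ^ s * (W / Q ^ s) * pot K (Rigid G) (wlen U.e) α Q b (D₁ ++ l)
          = x ^ 2 * (x ^ s / Q ^ s) * W * pot K (Rigid G) (wlen U.e) α Q b (D₁ ++ l) := by ring
        _ ≤ _ := by gcongr
    refine (h2.trans h3).trans ?_
    have h7 : (if (win K (Rigid G) l = 1 ∧ cnt K (Rigid G) (D₁ ++ l) ≤
        cnt K (Rigid G) l + (3 * K * (s + 1) + 2 * K)) then c s else 0) = c s := by
      rw [if_pos]
      exact ⟨hwl, by omega⟩
    have h8 := Finset.single_le_sum (s := Finset.range (holes (D₁ ++ l)))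
      (f := fun s => (if (win K (Rigid G) l = 1 ∧ cnt K (Rigid G) (D₁ ++ l) ≤
        cnt K (Rigid G) l + (3 * K * (s + 1) + 2 * K)) then c s else 0)) (a := s)
      (fun i _ => by
        show 0 ≤ (if (win K (Rigid G) l = 1 ∧ cnt K (Rigid G) (D₁ ++ l) ≤
          cnt K (Rigid G) l + (3 * K * (i + 1) + 2 * K)) then c i else 0)
        split
        · exact hc0 i
        · exact le_rfl) (by rw [Finset.mem_range]; omega)
    rw [h7] at h8
    exact h8
  refine (List.sum_le_sum h1).trans ?_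
  rw [CLB_swap D.tails (holes D) (fun s l => if (win K (Rigid G) l = 1 ∧
        cnt K (Rigid G) D ≤ cnt K (Rigid G) l + (3 * K * (s + 1) + 2 * K)) then c s else 0)]
  have h2 : ∀ s ∈ Finset.range (holes D), (D.tails.map (fun l => if (win K (Rigid G) l = 1 ∧
        cnt K (Rigid G) D ≤ cnt K (Rigid G) l + (3 * K * (s + 1) + 2 * K)) then c s else 0)).sum ≤
      ((3 * K * (s + 1) + 2 * K + 1) * (1 / 2 : ℝ) ^ s) *
        (x ^ 2 * W * pot K (Rigid G) (wlen U.e) α Q b D) := by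
    intro s hs
    rw [CLB_ind D.tails (fun l => (win K (Rigid G) l = 1 ∧
        cnt K (Rigid G) D ≤ cnt K (Rigid G) l + (3 * K * (s + 1) + 2 * K))) (c s)]
    have h3 := tails_count K (Rigid G) (3 * K * (s + 1) + 2 * K) D
    have h4 : (((D.tails.filter (fun l => decide (win K (Rigid G) l = 1 ∧
        cnt K (Rigid G) D ≤ cnt K (Rigid G) l + (3 * K * (s + 1) + 2 * K)))).length : ℕ) : ℝ) ≤
        3 * K * (s + 1) + 2 * K + 1 := by
      exact_mod_cast h3
    refine (mul_le_mul_of_nonneg_right h4 (hc0 s)).trans (le_of_eq ?_)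
    show (3 * K * (s + 1) + 2 * K + 1) * (x ^ 2 * (1 / 2 : ℝ) ^ s * W *
      pot K (Rigid G) (wlen U.e) α Q b D) = _
    ring
  refine (Finset.sum_le_sum h2).trans ?_
  rw [← Finset.sum_mul, CLB_geo]
  have h5 : 0 ≤ (6 * K * (holes D : ℝ) + 16 * K + 2) * (1 / 2 : ℝ) ^ holes D := by positivity
  have h6 : 0 ≤ x ^ 2 * W * pot K (Rigid G) (wlen U.e) α Q b D := by positivity
  calc _ ≤ (16 * K + 2) * (x ^ 2 * W * pot K (Rigid G) (wlen U.e) α Q b D) := by
        apply mul_le_mul_of_nonneg_right _ h6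
        linarith
    _ = _ := by ring

theorem claims_bound (U : Setup S G V) (K : ℕ) (hK : 1 ≤ K) (α b δ : ℝ) (hα : 0 < α)
    (hb : 1 < b) (hδ : 0 < δ) :
    ∃ s0 : ℕ, ∃ Q₁ : ℝ, ∀ Q : ℝ, Q₁ ≤ Q → 1 ≤ Q → ∃ L₁ : ℕ, ∀ L : ℕ, L₁ ≤ L →
      ∀ (a : V) (D : List (Item V G)), Inv U a D →
        ((claims (parOf U K L s0) a D).map
          (pot K (Rigid G) (wlen U.e) α Q b)).sum ≤
          δ * pot K (Rigid G) (wlen U.e) α Q b D := by
  have hb0 : 0 < b := by linarith
  set E : ℝ := Real.exp (3 * K * α) ^ 2 * (16 * K + 2) with hE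
  have hE0 : 0 < E := by positivity
  obtain ⟨s0, hs0⟩ := pow_unbounded_of_one_lt (3 * E / δ) hb
  obtain ⟨C₀, Φ, hG⟩ := gam_bound U K hK s0
  refine ⟨s0, max (2 * Real.exp (3 * K * α)) (3 * E * (C₀ * b ^ Φ) / δ), fun Q hQ hQ1 => ?_⟩
  obtain ⟨L₁, hL₁⟩ := pow_unbounded_of_one_lt (3 * E * (C₀ * b ^ Φ) / δ) hb
  refine ⟨L₁, fun L hL a D hI => ?_⟩
  have hQ0 : 0 < Q := by linarith
  have hP := pot_pos K (Rigid G) (wlen U.e) α Q b hQ0 hb0 D
  have h := CLB_sum U K hK s0 C₀ Φ L α b Q hα hb hQ1 ((le_max_left _ _).trans hQ) a D hI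
    (fun D₁ l hI' => hG L a D₁ l hI')
  refine h.trans ?_
  apply mul_le_mul_of_nonneg_right _ hP.le
  rw [← hE]
  have h1 : E * (C₀ * b ^ Φ / Q) ≤ δ / 3 := by
    have h2 := (le_max_right _ _).trans hQ
    rw [div_le_iff₀ hδ] at h2
    rw [← mul_div_assoc, div_le_iff₀ hQ0]
    linarith
  have h2 : E * (C₀ * b ^ Φ / b ^ L) ≤ δ / 3 := by
    have h3 : b ^ L₁ ≤ b ^ L := pow_le_pow_right₀ hb.le hL
    have h4 := hL₁.le.trans h3
    rw [div_le_iff₀ hδ] at h4
    rw [← mul_div_assoc, div_le_iff₀ (by positivity)]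
    linarith
  have h3 : E * (1 / b ^ s0) ≤ δ / 3 := by
    have h4 := hs0.le
    rw [div_le_iff₀ hδ] at h4
    rw [← mul_div_assoc, div_le_iff₀ (by positivity)]
    linarith
  calc E * (C₀ * b ^ Φ / Q + C₀ * b ^ Φ / b ^ L + 1 / b ^ s0)
      = E * (C₀ * b ^ Φ / Q) + E * (C₀ * b ^ Φ / b ^ L) + E * (1 / b ^ s0) := by ring
    _ ≤ δ := by linarith

end GWP
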