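import Pool.Agent.H55.GWP.CL0

/-! CLC: a closed concatenation of `s + 1` geodesic segments without matches has at most
`3 K s` rigid windows.

Proof.  More general statement by induction: let `P_0, …, P_{n-1}` be non-backtracking lists with
at least two vertices each, linked, closed, without matches, and let `f` be the number of junctions
(last vertex of `P_i` = first vertex of `P_{i+1}`) at which the concatenation backtracks (the
vertex before the last of `P_i` equals the second of `P_{i+1}`) or which are not known to be
smooth.  Then the number of rigid windows is at most `(K - 1) (n + 2 f)`; here `n = s + 1`, `f = s`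
gives `(K-1)(3 s + 1)`; save the constant `4` by treating the end `n = 2` exactly (then both lists
are reverses of each other, no rigid windows): `(K - 1) (n + 2 f - 4)`.
Step: as the concatenation is closed and not trivial, it is not non-backtracking (`NB_unique`), so
some junction backtracks; take a maximal cancellation there (the longest common prefix of
`P_i.reverse` and `P_{i+1}`, `c ≥ 1` edges).  A window inside the cancelled part of `P_i` is the
reverse of a window of `P_{i+1}`, hence not rigid; so if a list vanishes completely, it has no
rigid windows, and if a part remains then at most `K - 1` rigid windows are lost.  If both remain,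
the junction is smooth: `f` drops by `1` and at most `2 (K - 1)` windows are lost.  If exactly one
vanishes `n` drops by one, `f` does not increase, and at most `K - 1` windows are lost; if both
vanish nothing is lost, `n` drops by two and `f` does not increase.  Cut lists inherit `NoMatch`.
(Alternative: read the segments one by one and keep the reduced path as a list of blocks.)
Lists with a single vertex have no windows (`K ≥ 1`) and can be dropped first. -/

set_option autoImplicit false
open Classical
namespace GWP

variable {V : Type*} {T : SimpleGraph V}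

/-- no match of a window of `P` with the reverse of a window of `P'` -/
def CLC_M (K : ℕ) (Rig : V → V → Prop) (P P' : List V) : Prop :=
  ∀ (a b : ℕ) (x y : V), P[a]? = some x → P[a + K]? = some y → P'[b]? = some y →
    P'[b + K]? = some x → ¬ Rig x y

/-- linked lists from `x` to `y` -/
def CLC_L : V → List (List V) → V → Prop
  | x, [], y => x = y
  | x, P :: l, y => P.head? = some x ∧ ∃ z, P.getLast? = some z ∧ CLC_L z l y

/-- is there backtracking at the junction -/
noncomputable def CLC_j (P : List V) (o : Option (List V)) : ℕ :=
  if ∃ P', o = some P' ∧ P.reverse[1]? = P'[1]? then 1 else 0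

/-- number of junctions with backtracking -/
noncomputable def CLC_n : List (List V) → ℕ
  | [] => 0
  | P :: l => CLC_n l + CLC_j P l.head?

theorem CLC_j_le (P : List V) (o : Option (List V)) : CLC_j P o ≤ 1 := by
  unfold CLC_j
  split_ifs <;> omega

theorem CLC_j_none (P : List V) : CLC_j P none = 0 := by
  simp [CLC_j]

theorem CLC_j_some (P P' : List V) : CLC_j P (some P') =
    if P.reverse[1]? = P'[1]? then 1 else 0 := by
  simp [CLC_j]

theorem CLC_zero (K : ℕ) (Rig : V → V → Prop) (l : List V)
    (h : ∀ a x y, l[a]? = some x → l[a + K]? = some y → ¬ Rig x y) : cntR K Rig l = 0 := by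
  induction l with
  | nil => rfl
  | cons v l ih =>
    have h1 := ih (fun a x y hx hy => h (a + 1) x y (by simpa using hx)
      (by rw [show a + 1 + K = (a + K) + 1 by ring]; simpa using hy))
    have h2 : ¬ ∃ u, (v :: l)[K]? = some u ∧ Rig v u := by
      rintro ⟨u, hu, hr⟩
      exact h 0 v u (by simp) (by simpa using hu) hr
    simp only [cntR, h1, h2, if_false]

theorem CLC_M_mono (K : ℕ) (Rig : V → V → Prop) (P P' Q Q' : List V) (h : CLC_M K Rig P P')
    (h1 : Q <:+: P) (h2 : Q' <:+: P') : CLC_M K Rig Q Q' := by
  obtain ⟨A, B, rfl⟩ := h1
  obtain ⟨A', B', rfl⟩ := h2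
  have key : ∀ (A Q B : List V) (i : ℕ) (x : V), Q[i]? = some x →
      (A ++ Q ++ B)[A.length + i]? = some x := by
    intro A Q B i x hx
    have hi : i < Q.length := by
      by_contra hc
      rw [List.getElem?_eq_none (by omega)] at hx
      exact absurd hx (by simp)
    rw [List.append_assoc, List.getElem?_append_right (by omega), Nat.add_sub_cancel_left,
      List.getElem?_append_left hi, hx]
  intro a b x y ha hb hc hd
  exact h (A.length + a) (A'.length + b) x y (key _ _ _ _ _ ha)
    (by rw [add_assoc]; exact key _ _ _ _ _ hb) (key _ _ _ _ _ hc)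
    (by rw [add_assoc]; exact key _ _ _ _ _ hd)

theorem CLC_rev (X : List V) (a : ℕ) (x : V) (h : X.reverse[a]? = some x) :
    a < X.length ∧ X[X.length - 1 - a]? = some x := by
  have hi : a < X.length := by
    by_contra hc
    rw [List.getElem?_eq_none (by simpa using hc)] at h
    exact absurd h (by simp)
  refine ⟨hi, ?_⟩
  rw [List.getElem?_reverse hi] at h
  exact h

/-- cancelled parts contain no rigid windows -/
theorem CLC_can (K : ℕ) (Rig : V → V → Prop) (hs : ∀ u v, Rig u v ↔ Rig v u) (X : List V)
    (h : CLC_M K Rig X.reverse X) : cntR K Rig X.reverse = 0 ∧ cntR K Rig X = 0 := by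
  constructor
  · refine CLC_zero K Rig _ (fun a x y hx hy => ?_)
    obtain ⟨h1, h2⟩ := CLC_rev X a x hx
    obtain ⟨h3, h4⟩ := CLC_rev X (a + K) y hy
    refine h a (X.length - 1 - (a + K)) x y hx hy h4 ?_
    rw [show X.length - 1 - (a + K) + K = X.length - 1 - a by omega]
    exact h2
  · refine CLC_zero K Rig _ (fun a x y hx hy hr => ?_)
    have hy' : X.reverse.reverse[a + K]? = some y := by rw [List.reverse_reverse]; exact hy
    have hx' : X.reverse.reverse[a]? = some x := by rw [List.reverse_reverse]; exact hx
    obtain ⟨h1, h2⟩ := CLC_rev X.reverse a x hx'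
    obtain ⟨h3, h4⟩ := CLC_rev X.reverse (a + K) y hy'
    rw [List.length_reverse] at h1 h2 h3 h4
    refine h (X.length - 1 - (a + K)) a y x h4 ?_ hx hy ((hs _ _).1 hr)
    rw [show X.length - 1 - (a + K) + K = X.length - 1 - a by omega]
    exact h2

theorem CLC_lcp (P P' : List V) : ∃ X R1 R2, P = X ++ R1 ∧ P' = X ++ R2 ∧
    (R1 ≠ [] → R2 ≠ [] → R1[0]? ≠ R2[0]?) := by
  induction P generalizing P' with
  | nil => exact ⟨[], [], P', rfl, rfl, fun h => absurd rfl h⟩
  | cons a P ih =>
    cases P' with
    | nil => exact ⟨[], a :: P, [], rfl, rfl, fun _ h => absurd rfl h⟩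
    | cons b P' =>
      by_cases hab : a = b
      · obtain ⟨X, R1, R2, h1, h2, h3⟩ := ih P'
        exact ⟨a :: X, R1, R2, by rw [h1]; rfl, by rw [h2, hab]; rfl, h3⟩
      · exact ⟨[], a :: P, b :: P', rfl, rfl, fun _ _ h => hab (by simpa using h)⟩

theorem CLC_join (L : List V) (a z b : V) (R : List V) (h1 : NB T (L ++ [a, z]))
    (h2 : NB T (z :: b :: R)) (hab : a ≠ b) : NB T (L ++ a :: z :: b :: R) := by
  induction L with
  | nil =>
    refine ⟨h1.1, ?_, h2⟩
    intro x hx
    simp only [List.head?_cons, Option.mem_def, Option.some.injEq] at hx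
    rw [← hx]
    exact hab
  | cons c L ih =>
    cases L with
    | nil =>
      refine ⟨h1.1, ?_, ih h1.2.2⟩
      intro x hx
      exact h1.2.1 x (by simpa using hx)
    | cons d L =>
      refine ⟨h1.1, ?_, ih h1.2.2⟩
      intro x hx
      refine h1.2.1 x ?_
      cases L with
      | nil => simpa using hx
      | cons e L => simpa using hx

theorem CLC_L_append (A B : List (List V)) (x y : V) :
    CLC_L x (A ++ B) y ↔ ∃ z, CLC_L x A z ∧ CLC_L z B y := by
  induction A generalizing x with
  | nil =>
    constructor
    · intro h; exact ⟨x, rfl, h⟩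
    · rintro ⟨z, h, h'⟩
      have : x = z := h
      rw [this]; exact h'
  | cons P A ih =>
    constructor
    · rintro ⟨h1, z, h2, h3⟩
      obtain ⟨w, h4, h5⟩ := (ih z).1 h3
      exact ⟨w, ⟨h1, z, h2, h4⟩, h5⟩
    · rintro ⟨w, ⟨h1, z, h2, h4⟩, h5⟩
      exact ⟨h1, z, h2, (ih z).2 ⟨w, h4, h5⟩⟩

theorem CLC_n_append (A : List (List V)) (P : List V) (B : List (List V)) :
    CLC_n (A ++ P :: B) = CLC_n (A ++ [P]) + CLC_n (P :: B) := by
  induction A with
  | nil => simp [CLC_n, CLC_j_none]
  | cons Q A ih =>
    have e : (A ++ P :: B).head? = (A ++ [P]).head? := by cases A <;> rfl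
    simp only [List.cons_append, CLC_n, e] at ih ⊢
    omega

theorem CLC_n_last (A : List (List V)) (P Q : List V) (h : P[1]? = Q[1]?) :
    CLC_n (A ++ [P]) = CLC_n (A ++ [Q]) := by
  induction A with
  | nil => simp [CLC_n, CLC_j_none]
  | cons R A ih =>
    have e : CLC_j R (A ++ [P]).head? = CLC_j R (A ++ [Q]).head? := by
      cases A with
      | nil => simp [CLC_j_some, h]
      | cons S A => simp
    simp only [List.cons_append, CLC_n, ih, e]

theorem CLC_n_first (P Q : List V) (B : List (List V)) (h : P.reverse[1]? = Q.reverse[1]?) :
    CLC_n (P :: B) = CLC_n (Q :: B) := by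
  simp only [CLC_n, CLC_j, h]

theorem CLC_n_cons_le (P : List V) (B : List (List V)) : CLC_n (P :: B) ≤ CLC_n B + 1 := by
  have := CLC_j_le P B.head?
  simp only [CLC_n]
  omega

theorem CLC_n_le_cons (P : List V) (B : List (List V)) : CLC_n B ≤ CLC_n (P :: B) := by
  simp only [CLC_n]
  omega

theorem CLC_n_snoc_le (A : List (List V)) (P : List V) : CLC_n (A ++ [P]) ≤ CLC_n A + 1 := by
  induction A with
  | nil => simp [CLC_n, CLC_j_none]
  | cons R A ih =>
    cases A with
    | nil =>
      have := CLC_j_le R (some P)
      simp only [List.cons_append, List.nil_append, CLC_n, List.head?_nil, CLC_j_none,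
        List.head?_cons]
      omega
    | cons S A =>
      simp only [List.cons_append, CLC_n, List.head?_cons] at ih ⊢
      omega

theorem CLC_n_le_snoc (A : List (List V)) (P : List V) : CLC_n A ≤ CLC_n (A ++ [P]) := by
  induction A with
  | nil => simp [CLC_n]
  | cons R A ih =>
    cases A with
    | nil =>
      simp [CLC_n, CLC_j_none]
    | cons S A =>
      simp only [List.cons_append, CLC_n, List.head?_cons] at ih ⊢
      omega

theorem CLC_n_app_le (A B : List (List V)) : CLC_n (A ++ B) ≤ CLC_n A + CLC_n B + 1 := by
  cases B with
  | nil => simp; omega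
  | cons P B =>
    have h1 := CLC_n_append A P B
    have h2 := CLC_n_snoc_le A P
    omega

theorem CLC_ex (segs : List (List V)) (h : CLC_n segs ≠ 0) : ∃ A P P' B,
    segs = A ++ P :: P' :: B ∧ P.reverse[1]? = P'[1]? := by
  induction segs with
  | nil => exact absurd rfl h
  | cons P l ih =>
    by_cases hc : ∃ P', l.head? = some P' ∧ P.reverse[1]? = P'[1]?
    · obtain ⟨P', h1, h2⟩ := hc
      cases l with
      | nil => simp at h1
      | cons Q l =>
        simp only [List.head?_cons, Option.some.injEq] at h1
        exact ⟨[], P, Q, l, rfl, by rw [h1]; exact h2⟩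
    · simp only [CLC_n, CLC_j, hc, if_false, add_zero] at h
      obtain ⟨A, Q, Q', B, h1, h2⟩ := ih h
      exact ⟨P :: A, Q, Q', B, by rw [h1]; rfl, h2⟩

theorem CLC_smooth (l : List (List V)) (P : List V) (x y : V) (h : CLC_n (P :: l) = 0)
    (hNB : ∀ Q ∈ P :: l, NB T Q ∧ 2 ≤ Q.length) (hL : CLC_L x (P :: l) y) :
    ∃ m, NB T m ∧ m.head? = some x ∧ m.getLast? = some y ∧ 2 ≤ m.length ∧ m[1]? = P[1]? := by
  induction l generalizing P x with
  | nil =>
    obtain ⟨h1, z, h2, h3⟩ := hL
    have h3' : z = y := h3
    exact ⟨P, (hNB P (by simp)).1, h1, by rw [h2, h3'], (hNB P (by simp)).2, rfl⟩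
  | cons P' l ih =>
    obtain ⟨h1, z, h2, h3⟩ := hL
    have hn : CLC_n (P' :: l) = 0 := by
      have := CLC_n_le_cons P (P' :: l)
      omega
    obtain ⟨m, m1, m2, m3, m4, m5⟩ := ih P' z hn (fun Q hQ => hNB Q (by simp [List.mem_cons.1 hQ]))
      h3
    have hne : P.reverse[1]? ≠ P'[1]? := by
      intro hc
      have : CLC_n (P :: P' :: l) = CLC_n (P' :: l) + 1 := by
        simp [CLC_n, CLC_j_some, hc]
      omega
    obtain ⟨hP1, hP2⟩ := hNB P (by simp)
    rcases hr : P.reverse with _ | ⟨z', _ | ⟨a, L⟩⟩
    · have := congrArg List.length hr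
      rw [List.length_reverse, List.length_nil] at this
      omega
    · have := congrArg List.length hr
      rw [List.length_reverse, List.length_singleton] at this
      omega
    have hP : P = L.reverse ++ [a, z'] := by
      have := congrArg List.reverse hr
      simpa using this
    have hz : z' = z := by
      rw [hP] at h2
      simpa using h2
    rcases m with _ | ⟨z'', _ | ⟨b, R⟩⟩
    · simp at m4
    · simp at m4
    have hz2 : z'' = z := by simpa using m2
    subst hz2
    subst hz
    have hab : a ≠ b := by
      intro hc
      apply hne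
      rw [← m5, hr]
      simp [hc]
    refine ⟨L.reverse ++ a :: z' :: b :: R, CLC_join _ _ _ _ _ (hP ▸ hP1) m1 hab, ?_, ?_, ?_, ?_⟩
    · rw [hP] at h1
      cases hL : L.reverse with
      | nil => rw [hL] at h1; simpa using h1
      | cons c L' => rw [hL] at h1; simpa using h1
    · rw [List.getLast?_append]
      rw [List.getLast?_cons_cons] at m3
      rw [List.getLast?_cons_cons, List.getLast?_cons_cons, m3]
      simp
    · simp only [List.length_append, List.length_cons]
      omega
    · rw [hP, show L.reverse ++ a :: z' :: b :: R = (L.reverse ++ [a, z']) ++ b :: R by simp,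
        List.getElem?_append_left (by simp)]

theorem CLC_closed (hT : T.IsTree) (segs : List (List V)) (o : V) (hne : segs ≠ [])
    (hNB : ∀ Q ∈ segs, NB T Q ∧ 2 ≤ Q.length) (hL : CLC_L o segs o) : CLC_n segs ≠ 0 := by
  intro h
  cases segs with
  | nil => exact hne rfl
  | cons P l =>
    obtain ⟨m, m1, m2, m3, m4, -⟩ := CLC_smooth l P o o h hNB hL
    have := NB_unique hT m [o] m1 trivial (by rw [m2]; rfl) (by rw [m3]; rfl)
    rw [this] at m4
    simp at m4

theorem CLC_pw (R : List V → List V → Prop) (A B : List (List V)) (P P' : List V)
    (h : (A ++ P :: P' :: B).Pairwise R) :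
    A.Pairwise R ∧ B.Pairwise R ∧ (∀ a ∈ A, R a P) ∧ (∀ a ∈ A, R a P') ∧
      (∀ a ∈ A, ∀ b ∈ B, R a b) ∧ R P P' ∧ (∀ b ∈ B, R P b) ∧ (∀ b ∈ B, R P' b) := by
  rw [List.pairwise_append, List.pairwise_cons, List.pairwise_cons] at h
  obtain ⟨h1, ⟨h2, h3, h4⟩, h5⟩ := h
  exact ⟨h1, h4, fun a ha => h5 a ha P (by simp), fun a ha => h5 a ha P' (by simp),
    fun a ha b hb => h5 a ha b (by simp [hb]), h2 P' (by simp), fun b hb => h2 b (by simp [hb]),
    h3⟩

theorem CLC_main (hT : T.IsTree) (K : ℕ) (hK : 1 ≤ K) (Rig : V → V → Prop)
    (hs : ∀ u v, Rig u v ↔ Rig v u) (o : V) : ∀ (N : ℕ) (segs : List (List V)),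
      (segs.map List.length).sum ≤ N → segs ≠ [] → (∀ P ∈ segs, NB T P ∧ 2 ≤ P.length) →
      CLC_L o segs o → segs.Pairwise (CLC_M K Rig) →
      (segs.map (cntR K Rig)).sum + 4 * (K - 1) ≤ (K - 1) * (segs.length + 2 * CLC_n segs) := by
  intro N
  induction N with
  | zero =>
    intro segs h1 h2 h3 _ _
    exfalso
    cases segs with
    | nil => exact h2 rfl
    | cons P l =>
      have := (h3 P (by simp)).2
      simp only [List.map_cons, List.sum_cons] at h1
      omega
  | succ N ih =>
    intro segs h1 h2 h3 h4 h5
    obtain ⟨A, P, P', B, rfl, hbt⟩ := CLC_ex segs (CLC_closed hT segs o h2 h3 h4)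
    obtain ⟨x, hA, hP1, y, hP2, hP'1, z, hP'2, hB⟩ := (CLC_L_append _ _ _ _).1 h4
    obtain ⟨X, R1, R2, e1, e2, e3⟩ := CLC_lcp P.reverse P'
    obtain ⟨pA, pB, pAP, pAP', pAB, pPP', pPB, pP'B⟩ := CLC_pw _ A B P P' h5
    obtain ⟨nP, lP⟩ := h3 P (by simp)
    obtain ⟨nP', lP'⟩ := h3 P' (by simp)
    have h3A : ∀ Q ∈ A, NB T Q ∧ 2 ≤ Q.length := fun Q hQ => h3 Q (by simp [hQ])
    have h3B : ∀ Q ∈ B, NB T Q ∧ 2 ≤ Q.length := fun Q hQ => h3 Q (by simp [hQ])
    have hX2 : 2 ≤ X.length := by
      have lPr : 2 ≤ P.reverse.length := by rw [List.length_reverse]; exact lP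
      rw [e1] at lPr hbt
      have q0 : P.reverse[0]? = some y := by
        rw [← List.head?_eq_getElem?, List.head?_reverse, hP2]
      have q1 : P'[0]? = some y := by
        rw [← List.head?_eq_getElem?, hP'1]
      rw [e1] at q0
      rw [e2] at hbt q1 lP'
      rcases X with _ | ⟨c, _ | ⟨d, X⟩⟩
      · exfalso
        refine e3 ?_ ?_ ?_
        · rintro rfl; simp at lPr
        · rintro rfl; simp at lP'
        · simp only [List.nil_append] at q0 q1
          rw [q0, q1]
      · exfalso
        refine e3 ?_ ?_ ?_
        · rintro rfl; simp at lPr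
        · rintro rfl; simp at lP'
        · simpa using hbt
      · simp
    obtain ⟨X', w, rfl⟩ : ∃ X' w, X = X' ++ [w] := by
      rcases List.eq_nil_or_concat X with h | ⟨X', w, h⟩
      · rw [h] at hX2; simp at hX2
      · exact ⟨X', w, by simpa using h⟩
    have hX' : 1 ≤ X'.length := by
      rw [List.length_append, List.length_singleton] at hX2
      omega
    have eP : P = (R1.reverse ++ [w]) ++ X'.reverse := by
      have := congrArg List.reverse e1
      simpa using this
    have eP' : P' = X' ++ w :: R2 := by
      rw [e2]; simp
    have hM : CLC_M K Rig (X' ++ [w]).reverse (X' ++ [w]) := by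
      refine CLC_M_mono K Rig P P' _ _ pPP' ⟨R1.reverse, [], ?_⟩ ⟨[], R2, ?_⟩
      · rw [eP]; simp
      · rw [eP']; simp
    obtain ⟨c1, c2⟩ := CLC_can K Rig hs _ hM
    have c1' : cntR K Rig (w :: X'.reverse) = 0 := by
      rw [← c1]; simp
    have d1 : cntR K Rig P ≤ cntR K Rig (R1.reverse ++ [w]) + (K - 1) := by
      have := cntR_split K hK Rig R1.reverse X'.reverse w
      rw [c1'] at this
      have e : P = R1.reverse ++ w :: X'.reverse := by rw [eP]; simp
      rw [e]
      omega
    have d2 : cntR K Rig P' ≤ cntR K Rig (w :: R2) + (K - 1) := by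
      have := cntR_split K hK Rig X' R2 w
      rw [c2] at this
      rw [eP']
      omega
    have infQ : (R1.reverse ++ [w]) <:+: P := ⟨[], X'.reverse, by rw [eP]; simp⟩
    have infQ' : (w :: R2) <:+: P' := ⟨X', [], by rw [eP']; simp⟩
    have nQ : NB T (R1.reverse ++ [w]) := by
      refine NB_append_left _ X'.reverse ?_ (by simp)
      rw [← eP]; exact nP
    have nQ' : NB T (w :: R2) := by
      refine NB_append_right X' _ ?_ (by simp)
      rw [← eP']; exact nP'
    have lenP : P.length = R1.length + 1 + X'.length := by
      rw [eP]; simp; omega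
    have lenP' : P'.length = R2.length + 1 + X'.length := by
      rw [eP']; simp; omega
    have hn0 : CLC_n (A ++ P :: P' :: B) = CLC_n (A ++ [P]) + CLC_n (P' :: B) + 1 := by
      rw [CLC_n_append]
      have : CLC_n (P :: P' :: B) = CLC_n (P' :: B) + 1 := by
        rw [CLC_n, List.head?_cons, CLC_j_some, if_pos hbt]
      omega
    simp only [List.map_append, List.map_cons, List.sum_append, List.sum_cons,
      List.length_append, List.length_cons] at h1 ⊢
    rw [hn0]
    set k := K - 1 with hk
    by_cases hR1 : R1 = []
    · have hxw : w = x := by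
        rw [eP, hR1] at hP1
        simpa using hP1
      have cP : cntR K Rig P = 0 := by
        rw [eP, hR1]; simpa using c1'
      by_cases hR2 : R2 = []
      · -- both vanish
        have hwz : w = z := by
          rw [eP', hR2] at hP'2
          simpa using hP'2
        have cP' : cntR K Rig P' = 0 := by
          rw [eP', hR2]; simpa using c2
        rw [cP, cP']
        by_cases hAB : A ++ B = []
        · obtain ⟨hA0, hB0⟩ := List.append_eq_nil_iff.1 hAB
          subst hA0
          subst hB0
          simp [CLC_n, CLC_j_none]
          omega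
        · have hL : CLC_L o (A ++ B) o :=
            (CLC_L_append _ _ _ _).2 ⟨x, hA, by rw [← hxw, hwz]; exact hB⟩
          have := ih (A ++ B) (by
            simp only [List.map_append, List.sum_append]; omega) hAB
            (fun Q hQ => by
              rcases List.mem_append.1 hQ with h | h
              · exact h3A Q h
              · exact h3B Q h) hL (List.pairwise_append.2 ⟨pA, pB, pAB⟩)
          simp only [List.map_append, List.sum_append, List.length_append] at this
          have f1 := CLC_n_app_le A B
          have f2 := CLC_n_le_snoc A P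
          have f3 := CLC_n_le_cons P' B
          have g : k * (A.length + B.length + 2 * CLC_n (A ++ B)) ≤
              k * (A.length + (B.length + 1 + 1) +
                2 * (CLC_n (A ++ [P]) + CLC_n (P' :: B) + 1)) :=
            Nat.mul_le_mul_left k (by omega)
          omega
      · -- only the first one vanishes
        have hL : CLC_L o (A ++ (w :: R2) :: B) o := by
          refine (CLC_L_append _ _ _ _).2 ⟨x, hA, by rw [hxw]; rfl, z, ?_, hB⟩
          rw [← hP'2, eP', List.getLast?_append]
          cases hc : (w :: R2).getLast? with
          | none => simp at hc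
          | some c => rfl
        have := ih (A ++ (w :: R2) :: B) (by
            simp only [List.map_append, List.sum_append, List.map_cons, List.sum_cons,
              List.length_cons]
            omega) (by simp)
            (fun Q hQ => by
              rcases List.mem_append.1 hQ with h | h
              · exact h3A Q h
              · rcases List.mem_cons.1 h with h | h
                · rw [h]
                  refine ⟨nQ', ?_⟩
                  have := List.length_pos_iff.2 hR2
                  rw [List.length_cons]; omega
                · exact h3B Q h) hL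
            (List.pairwise_append.2 ⟨pA, List.pairwise_cons.2 ⟨fun b hb =>
              CLC_M_mono K Rig P' b _ _ (pP'B b hb) infQ' (List.infix_refl b), pB⟩,
              fun a ha b hb => by
                rcases List.mem_cons.1 hb with h | h
                · rw [h]
                  exact CLC_M_mono K Rig a P' _ _ (pAP' a ha) (List.infix_refl a) infQ'
                · exact pAB a ha b h⟩)
        simp only [List.map_append, List.sum_append, List.length_append, List.map_cons,
          List.sum_cons, List.length_cons] at this
        have f1 := CLC_n_append A (w :: R2) B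
        have f2 := CLC_n_snoc_le A (w :: R2)
        have f3 := CLC_n_le_snoc A P
        have f4 : CLC_n ((w :: R2) :: B) = CLC_n (P' :: B) := by
          refine CLC_n_first _ _ _ ?_
          rw [eP', List.reverse_append, List.getElem?_append_left]
          have := List.length_pos_iff.2 hR2
          rw [List.length_reverse, List.length_cons]; omega
        have g : k * (A.length + (B.length + 1) + 2 * CLC_n (A ++ (w :: R2) :: B) + 1) ≤
            k * (A.length + (B.length + 1 + 1) +
              2 * (CLC_n (A ++ [P]) + CLC_n (P' :: B) + 1)) :=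
          Nat.mul_le_mul_left k (by omega)
        rw [Nat.mul_add k _ 1] at g
        omega
    · have hPx : (R1.reverse ++ [w]).head? = some x := by
        rw [← hP1, eP]
        cases hR : R1.reverse with
        | nil => exact absurd (List.reverse_eq_nil_iff.1 hR) hR1
        | cons c R => rfl
      have lR1 := List.length_pos_iff.2 hR1
      have g4 : CLC_n (A ++ [R1.reverse ++ [w]]) = CLC_n (A ++ [P]) := by
        refine CLC_n_last _ _ _ ?_
        rw [eP]
        refine (List.getElem?_append_left ?_).symm
        rw [List.length_append, List.length_reverse, List.length_singleton]; omega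
      by_cases hR2 : R2 = []
      · -- only the second one vanishes
        have hwz : w = z := by
          rw [eP', hR2] at hP'2
          simpa using hP'2
        have cP' : cntR K Rig P' = 0 := by
          rw [eP', hR2]; simpa using c2
        have hL : CLC_L o (A ++ (R1.reverse ++ [w]) :: B) o :=
          (CLC_L_append _ _ _ _).2 ⟨x, hA, hPx, z, by rw [← hwz]; simp, hB⟩
        have := ih (A ++ (R1.reverse ++ [w]) :: B) (by
            simp only [List.map_append, List.sum_append, List.map_cons, List.sum_cons,
              List.length_append, List.length_reverse, List.length_singleton]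
            omega) (by simp)
            (fun Q hQ => by
              rcases List.mem_append.1 hQ with h | h
              · exact h3A Q h
              · rcases List.mem_cons.1 h with h | h
                · rw [h]
                  refine ⟨nQ, ?_⟩
                  rw [List.length_append, List.length_reverse, List.length_singleton]; omega
                · exact h3B Q h) hL
            (List.pairwise_append.2 ⟨pA, List.pairwise_cons.2 ⟨fun b hb =>
              CLC_M_mono K Rig P b _ _ (pPB b hb) infQ (List.infix_refl b), pB⟩,
              fun a ha b hb => by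
                rcases List.mem_cons.1 hb with h | h
                · rw [h]
                  exact CLC_M_mono K Rig a P _ _ (pAP a ha) (List.infix_refl a) infQ
                · exact pAB a ha b h⟩)
        simp only [List.map_append, List.sum_append, List.length_append, List.map_cons,
          List.sum_cons, List.length_cons] at this
        have f1 := CLC_n_append A (R1.reverse ++ [w]) B
        have f2 := CLC_n_cons_le (R1.reverse ++ [w]) B
        have f3 := CLC_n_le_cons P' B
        have g : k * (A.length + (B.length + 1) +
              2 * CLC_n (A ++ (R1.reverse ++ [w]) :: B) + 1) ≤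
            k * (A.length + (B.length + 1 + 1) +
              2 * (CLC_n (A ++ [P]) + CLC_n (P' :: B) + 1)) :=
          Nat.mul_le_mul_left k (by omega)
        rw [Nat.mul_add k _ 1] at g
        omega
      · have lR2 := List.length_pos_iff.2 hR2
        have hL : CLC_L o (A ++ (R1.reverse ++ [w]) :: (w :: R2) :: B) o := by
          refine (CLC_L_append _ _ _ _).2 ⟨x, hA, hPx, w, by simp, rfl, z, ?_, hB⟩
          rw [← hP'2, eP', List.getLast?_append]
          cases hc : (w :: R2).getLast? with
          | none => simp at hc
          | some c => rfl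
        have := ih (A ++ (R1.reverse ++ [w]) :: (w :: R2) :: B) (by
            simp only [List.map_append, List.sum_append, List.map_cons, List.sum_cons,
              List.length_append, List.length_reverse, List.length_cons, List.length_nil]
            omega) (by simp)
            (fun Q hQ => by
              rcases List.mem_append.1 hQ with h | h
              · exact h3A Q h
              · rcases List.mem_cons.1 h with h | h
                · rw [h]
                  refine ⟨nQ, ?_⟩
                  rw [List.length_append, List.length_reverse, List.length_singleton]; omega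
                · rcases List.mem_cons.1 h with h | h
                  · rw [h]
                    refine ⟨nQ', ?_⟩
                    rw [List.length_cons]; omega
                  · exact h3B Q h) hL
            (List.pairwise_append.2 ⟨pA, List.pairwise_cons.2 ⟨fun b hb => by
                rcases List.mem_cons.1 hb with h | h
                · rw [h]
                  exact CLC_M_mono K Rig P P' _ _ pPP' infQ infQ'
                · exact CLC_M_mono K Rig P b _ _ (pPB b h) infQ (List.infix_refl b),
                List.pairwise_cons.2 ⟨fun b hb =>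
                  CLC_M_mono K Rig P' b _ _ (pP'B b hb) infQ' (List.infix_refl b), pB⟩⟩,
              fun a ha b hb => by
                rcases List.mem_cons.1 hb with h | h
                · rw [h]
                  exact CLC_M_mono K Rig a P _ _ (pAP a ha) (List.infix_refl a) infQ
                · rcases List.mem_cons.1 h with h | h
                  · rw [h]
                    exact CLC_M_mono K Rig a P' _ _ (pAP' a ha) (List.infix_refl a) infQ'
                  · exact pAB a ha b h⟩)
        simp only [List.map_append, List.sum_append, List.length_append, List.map_cons,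
          List.sum_cons, List.length_cons] at this
        have f1 := CLC_n_append A (R1.reverse ++ [w]) ((w :: R2) :: B)
        have f4 : CLC_n ((w :: R2) :: B) = CLC_n (P' :: B) := by
          refine CLC_n_first _ _ _ ?_
          rw [eP', List.reverse_append, List.getElem?_append_left]
          rw [List.length_reverse, List.length_cons]; omega
        have f2 : CLC_n ((R1.reverse ++ [w]) :: (w :: R2) :: B) = CLC_n ((w :: R2) :: B) := by
          rw [CLC_n, List.head?_cons, CLC_j_some, if_neg, add_zero]
          intro hc
          apply e3 hR1 hR2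
          simpa using hc
        have g : k * (A.length + (B.length + 1 + 1) +
              2 * CLC_n (A ++ (R1.reverse ++ [w]) :: (w :: R2) :: B) + 2) ≤
            k * (A.length + (B.length + 1 + 1) +
              2 * (CLC_n (A ++ [P]) + CLC_n (P' :: B) + 1)) :=
          Nat.mul_le_mul_left k (by omega)
        rw [Nat.mul_add k _ 2] at g
        omega

theorem CLC_n_lt (l : List (List V)) (h : l ≠ []) : CLC_n l + 1 ≤ l.length := by
  induction l with
  | nil => exact absurd rfl h
  | cons P l ih =>
    cases l with
    | nil => simp [CLC_n, CLC_j_none]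
    | cons Q l =>
      have h1 := ih (by simp)
      have h2 := CLC_n_cons_le P (Q :: l)
      rw [List.length_cons]
      omega

theorem CLC_linked (l : List (List V)) (P : List V) (x y : V) (hNB : ∀ Q ∈ P :: l, NB T Q)
    (hL : Linked (P :: l)) (hx : P.head? = some x)
    (hy : ∃ Q ∈ (P :: l).getLast?, Q.getLast? = some y) : CLC_L x (P :: l) y := by
  induction l generalizing P x with
  | nil =>
    obtain ⟨Q, hQ, hQy⟩ := hy
    have : P = Q := by simpa using hQ
    rw [← this] at hQy
    exact ⟨hx, y, hQy, rfl⟩
  | cons P' l ih =>
    obtain ⟨h1, h2⟩ := hL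
    obtain ⟨Q, hQ, hQy⟩ := hy
    rw [List.getLast?_cons_cons] at hQ
    have hne : P ≠ [] := by
      rintro rfl
      exact hNB [] (by simp)
    cases hz : P.getLast? with
    | none => exact absurd (List.getLast?_eq_none_iff.1 hz) hne
    | some z =>
      exact ⟨hx, z, hz, ih P' z (fun Q hQ => hNB Q (by simp [List.mem_cons.1 hQ])) h2
        (by rw [← h1, hz]) ⟨Q, hQ, hQy⟩⟩

theorem CLC_L_filter (l : List (List V)) (x y : V) (h : CLC_L x l y) :
    CLC_L x (l.filter (fun P => 2 ≤ P.length)) y := by
  induction l generalizing x with
  | nil => exact h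
  | cons P l ih =>
    obtain ⟨h1, z, h2, h3⟩ := h
    rw [List.filter_cons]
    split_ifs with hc
    · exact ⟨h1, z, h2, ih z h3⟩
    · have : x = z := by
        rcases P with _ | ⟨a, _ | ⟨b, P⟩⟩
        · simp at h1
        · simp only [List.head?_cons, Option.some.injEq] at h1
          simp only [List.getLast?_singleton, Option.some.injEq] at h2
          rw [← h1, ← h2]
        · simp at hc
      rw [this]
      exact ih z h3

theorem CLC_sum_filter (K : ℕ) (hK : 1 ≤ K) (Rig : V → V → Prop) (l : List (List V)) :
    ((l.filter (fun P => 2 ≤ P.length)).map (cntR K Rig)).sum = (l.map (cntR K Rig)).sum := by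
  induction l with
  | nil => rfl
  | cons P l ih =>
    rw [List.filter_cons]
    split_ifs with hc
    · rw [List.map_cons, List.sum_cons, ih, List.map_cons, List.sum_cons]
    · have : cntR K Rig P = 0 := by
        rcases P with _ | ⟨a, _ | ⟨b, P⟩⟩
        · rfl
        · exact cntR_single K hK Rig a
        · simp at hc
      rw [ih, List.map_cons, List.sum_cons, this, zero_add]

theorem closed_count (hT : T.IsTree) (K : ℕ) (hK : 1 ≤ K) (Rig : V → V → Prop)
    (hs : ∀ u v, Rig u v ↔ Rig v u) (segs : List (List V)) (o : V)
    (hNB : ∀ P ∈ segs, NB T P) (hL : Linked segs)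
    (hhead : ∃ P ∈ segs.head?, P.head? = some o) (hlast : ∃ P ∈ segs.getLast?, P.getLast? = some o)
    (hNM : NoMatch K Rig segs) :
    (segs.map (cntR K Rig)).sum ≤ 3 * K * (segs.length - 1) := by
  have hL0 : CLC_L o segs o := by
    cases segs with
    | nil => simp at hhead
    | cons P l =>
      obtain ⟨Q, hQ, hQo⟩ := hhead
      have : P = Q := by simpa using hQ
      rw [← this] at hQo
      exact CLC_linked l P o o hNB hL hQo hlast
  have hPW : segs.Pairwise (CLC_M K Rig) := by
    rw [List.pairwise_iff_getElem]
    intro i j hi hj hij a b x y h1 h2 h3 h4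
    exact hNM i j hij _ _ (List.getElem?_eq_getElem hi) (List.getElem?_eq_getElem hj)
      a b x y h1 h2 h3 h4
  have hL1 := CLC_L_filter segs o o hL0
  have hPW1 : (segs.filter (fun P => 2 ≤ P.length)).Pairwise (CLC_M K Rig) :=
    hPW.sublist List.filter_sublist
  have hNB1 : ∀ Q ∈ segs.filter (fun P => 2 ≤ P.length), NB T Q ∧ 2 ≤ Q.length := by
    intro Q hQ
    rw [List.mem_filter] at hQ
    exact ⟨hNB Q hQ.1, by simpa using hQ.2⟩
  have hlen : (segs.filter (fun P => 2 ≤ P.length)).length ≤ segs.length :=
    List.length_filter_le _ _
  rw [← CLC_sum_filter K hK Rig segs]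
  generalize segs.filter (fun P => 2 ≤ P.length) = l at *
  by_cases hl : l = []
  · rw [hl]; simp
  · have h1 := CLC_main hT K hK Rig hs o _ l le_rfl hl hNB1 hL1 hPW1
    have h2 := CLC_n_lt l hl
    obtain ⟨k, rfl⟩ : ∃ k, K = k + 1 := ⟨K - 1, by omega⟩
    obtain ⟨n, hn⟩ : ∃ n, l.length = n + 1 := ⟨l.length - 1, by
      have := List.length_pos_iff.2 hl
      omega⟩
    rw [hn] at h1 h2 hlen
    have h3 : n ≤ segs.length - 1 := by omega
    have h4 : CLC_n l ≤ n := by omega
    rw [Nat.add_sub_cancel] at h1
    have h5 : k * (n + 1 + 2 * CLC_n l) ≤ k * (n + 1 + 2 * n) :=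
      Nat.mul_le_mul_left k (by omega)
    have h6 : 3 * (k + 1) * n ≤ 3 * (k + 1) * (segs.length - 1) :=
      Nat.mul_le_mul_left _ h3
    nlinarith

end GWP
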