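import Pool.Agent.H55.GWP.INV
import Pool.Agent.H55.GWP.MMB

/-! CLT: how many suffixes with a rigid top window there are, and monotonicity of `cnt`,
`holes`, `wt` along suffixes.  Two different suffixes with `win = 1` have different `cnt`. -/

set_option autoImplicit false
open Classical
namespace GWP

variable {V G : Type*} [Group G] [MulAction G V]

theorem CLT_win_le (K : ℕ) (Rig : V → V → Prop) (D : List (Item V G)) : win K Rig D ≤ 1 := by
  unfold win
  split_ifs <;> simp

theorem CLT_win_nil (K : ℕ) (Rig : V → V → Prop) : win K Rig ([] : List (Item V G)) = 0 := by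
  unfold win
  rw [if_neg]
  rintro ⟨x, y, h, _⟩
  simp [seg, verts] at h

theorem CLT_cnt_cons (K : ℕ) (Rig : V → V → Prop) (it : Item V G) (l : List (Item V G)) :
    cnt K Rig (it :: l) = cnt K Rig l + win K Rig (it :: l) := rfl

theorem cnt_suffix (K : ℕ) (Rig : V → V → Prop) (D₁ l : List (Item V G)) :
    cnt K Rig l ≤ cnt K Rig (D₁ ++ l) ∧ cnt K Rig (D₁ ++ l) ≤ cnt K Rig l + D₁.length := by
  induction D₁ with
  | nil => simp
  | cons it D ih =>
    rw [List.cons_append, CLT_cnt_cons, List.length_cons]
    have h1 := CLT_win_le K Rig (it :: (D ++ l))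
    omega

theorem holes_suffix (D₁ l : List (Item V G)) : holes l ≤ holes (D₁ ++ l) := by
  induction D₁ with
  | nil => simp
  | cons it D ih =>
    rw [List.cons_append]
    change holes l ≤ holes (D ++ l) + (if it.isHole then 1 else 0)
    omega

theorem holes_edges (E l : List (Item V G)) (hE : ∀ x ∈ E, ¬ x.isHole) :
    holes (E ++ l) = holes l := by
  induction E with
  | nil => simp
  | cons it D ih =>
    rw [List.cons_append]
    change holes (D ++ l) + (if it.isHole then 1 else 0) = holes l
    rw [if_neg (hE it (by simp)), add_zero]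
    exact ih fun x hx => hE x (List.mem_cons_of_mem _ hx)

theorem wt_append (b : ℝ) (len : G → ℕ) (D₁ l : List (Item V G)) :
    wt b len (D₁ ++ l) = wt b len D₁ * wt b len l := by
  unfold wt
  rw [List.map_append, List.prod_append]

theorem wt_ge_one (b : ℝ) (hb : 1 ≤ b) (len : G → ℕ) (D : List (Item V G)) :
    1 ≤ wt b len D := by
  induction D with
  | nil => simp [wt]
  | cons it D ih =>
    have h1 : wt b len (it :: D) = b ^ len it.con * wt b len D := by
      unfold wt
      rw [List.map_cons, List.prod_cons]
    rw [h1]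
    exact one_le_mul_of_one_le_of_one_le (one_le_pow₀ hb) ih

/-- a long content makes the weight large -/
theorem wt_ge (b : ℝ) (hb : 1 ≤ b) (len : G → ℕ) (D : List (Item V G)) (x : Item V G)
    (hx : x ∈ D) : b ^ len x.con ≤ wt b len D := by
  obtain ⟨s, t, rfl⟩ := List.append_of_mem hx
  have h1 : wt b len (x :: t) = b ^ len x.con * wt b len t := by
    unfold wt
    rw [List.map_cons, List.prod_cons]
  rw [wt_append, h1]
  have h2 := wt_ge_one b hb len s
  have h3 := wt_ge_one b hb len t
  have h4 : 0 ≤ b ^ len x.con := pow_nonneg (by linarith) _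
  calc b ^ len x.con = 1 * (b ^ len x.con * 1) := by ring
    _ ≤ wt b len s * (b ^ len x.con * wt b len t) :=
      mul_le_mul h2 (mul_le_mul_of_nonneg_left h3 h4) (by positivity) (by linarith)

theorem CLT_tails (K : ℕ) (Rig : V → V → Prop) (M c : ℕ) (D : List (Item V G)) :
    (D.tails.filter (fun l => decide (win K Rig l = 1 ∧ c ≤ cnt K Rig l + M))).length
      ≤ cnt K Rig D + M + 1 - c := by
  induction D with
  | nil =>
    change (List.filter (fun l => decide (win K Rig l = 1 ∧ c ≤ cnt K Rig l + M))
      [([] : List (Item V G))]).length ≤ _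
    rw [List.filter_cons]
    have h1 : ¬ (win K Rig ([] : List (Item V G)) = 1 ∧ c ≤ cnt K Rig ([] : List (Item V G)) + M) := by
      rw [CLT_win_nil]
      rintro ⟨h, _⟩
      exact absurd h (by norm_num)
    rw [if_neg (by simpa using h1)]
    simp
  | cons it D ih =>
    rw [List.tails_cons, List.filter_cons]
    have h0 := CLT_cnt_cons K Rig it D
    have h1 := CLT_win_le K Rig (it :: D)
    by_cases h2 : win K Rig (it :: D) = 1 ∧ c ≤ cnt K Rig (it :: D) + M
    · rw [if_pos (by simpa using h2), List.length_cons]
      have h3 := h2.2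
      have h4 := h2.1
      omega
    · rw [if_neg (by simpa using h2)]
      omega

theorem tails_count (K : ℕ) (Rig : V → V → Prop) (M : ℕ) (D : List (Item V G)) :
    (D.tails.filter (fun l => decide (win K Rig l = 1 ∧ cnt K Rig D ≤ cnt K Rig l + M))).length
      ≤ M + 1 := by
  have h1 := CLT_tails K Rig M (cnt K Rig D) D
  omega

end GWP
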