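import Pool.Agent.H55.GWP.CLA
import Pool.Agent.H55.GWP.CLT

/-! CLM: the potential of the results of one claim.

`D = D₁ ++ l`, `s = holes D - holes l ≥ 1`, `l = E ++ it :: rest` (`E` = `K` edges), the result is
`nrmTop … (it.mul γ) ++ rest` (`γ` in `gam`) or `ovfTop a it ++ rest`.
`cnt` of the result is `≥ cnt l - K ≥ cnt D - 3 K s - 3 K` (`cnt_top`, `cnt_suffix`; the window at a
hole is never counted, `K ≥ 1`), holes `≤ holes D - s` (`+ 1` after forgetting an edge content).
Known content kept: weight `≤ b^Φ wt D`.  Known but too long (`> L`): `wlen it.con ≥ L - Φ`, weight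
`≤ wt D * b^Φ / b^L`.  Some content `> s0`: the items of the windows are removed, weight
`≤ wt D / b^{s0}`. -/

set_option autoImplicit false
open Classical
namespace GWP

variable {S G V : Type*} [Fintype S] [Group G] [MulAction G V]

omit [Group G] [MulAction G V] in
theorem CLM_holes_append (D₁ l : List (Item V G)) :
    holes (D₁ ++ l) = holes D₁ + holes l := by
  induction D₁ with
  | nil => simp [holes]
  | cons d D₁ ih =>
    rw [List.cons_append]
    simp only [holes]
    rw [ih]
    omega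

omit [Group G] [MulAction G V] in
theorem CLM_holes_zero (E : List (Item V G)) (hE : ∀ x ∈ E, ¬ x.isHole) : holes E = 0 := by
  induction E with
  | nil => rfl
  | cons e E ih =>
    simp only [holes]
    rw [ih (fun x hx => hE x (by simp [hx])), if_neg (hE e (by simp))]

theorem CLM_pot (K : ℕ) (len : G → ℕ) (α Q b : ℝ) (hα : 0 ≤ α) (hQ : 0 < Q) (hb : 0 < b)
    (R D : List (Item V G)) (m : ℕ) (f1 f2 : ℝ)
    (hc : cnt K (Rigid G) D ≤ cnt K (Rigid G) R + m)
    (h1 : Q ^ holes R ≤ f1 * Q ^ holes D) (h2 : wt b len R ≤ f2 * wt b len D) :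
    pot K (Rigid G) len α Q b R ≤
      Real.exp (α * m) * (f1 * f2) * pot K (Rigid G) len α Q b D := by
  have hwR : 0 < wt b len R := by
    unfold wt
    apply List.prod_pos
    intro x hx
    rw [List.mem_map] at hx
    obtain ⟨y, hy, rfl⟩ := hx
    positivity
  have he : Real.exp (-(α * cnt K (Rigid G) R)) ≤
      Real.exp (α * m) * Real.exp (-(α * cnt K (Rigid G) D)) := by
    rw [← Real.exp_add]
    apply Real.exp_le_exp.2
    have : (cnt K (Rigid G) D : ℝ) ≤ cnt K (Rigid G) R + m := by exact_mod_cast hc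
    nlinarith
  have hq : 0 < Q ^ holes R := by positivity
  unfold pot
  calc Real.exp (-(α * cnt K (Rigid G) R)) * Q ^ holes R * wt b len R
      ≤ (Real.exp (α * m) * Real.exp (-(α * cnt K (Rigid G) D))) * (f1 * Q ^ holes D) *
        (f2 * wt b len D) := by
        apply mul_le_mul (mul_le_mul he h1 hq.le (by positivity)) h2 hwR.le
        apply mul_nonneg (by positivity)
        exact hq.le.trans h1
    _ = _ := by ring

omit [Fintype S] in
theorem CLM_win_hole (K : ℕ) (hK : 1 ≤ K) (Rig : V → V → Prop) (q : V) (c : G)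
    (l : List (Item V G)) : win K Rig (.hole q c :: l) = 0 := by
  unfold win
  rw [if_neg]
  rintro ⟨x, y, hx, hy, h⟩
  obtain ⟨k, rfl⟩ : ∃ k, K = k + 1 := ⟨K - 1, by omega⟩
  simp [seg, verts] at hy

theorem CLM_cnt_ovf (K : ℕ) (hK : 1 ≤ K) (a : V) (it : Item V G) (l : List (Item V G)) :
    cnt K (Rigid G) (ovfTop a it ++ l) = cnt K (Rigid G) (it :: l) := by
  cases it with
  | hole q c =>
    show cnt K (Rigid G) (.hole a 1 :: l) = _
    simp only [cnt]
    rw [CLM_win_hole K hK, CLM_win_hole K hK]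
  | edge p q c =>
    have h := cnt_top K (.edge p q 1) c l
    have h1 : cnt K (Rigid G) (.hole a 1 :: .edge p q 1 :: l) =
        cnt K (Rigid G) (.edge p q (1 : G) :: l) + 0 := by
      rw [← CLM_win_hole K hK (Rigid G) a (1 : G) (.edge p q 1 :: l)]
      rfl
    show cnt K (Rigid G) (.hole a 1 :: .edge p q 1 :: l) = _
    rw [h1, ← h]
    simp [Item.mul]

omit [MulAction G V] in
theorem CLM_holes_ovf (a : V) (it : Item V G) (l : List (Item V G)) :
    holes (ovfTop a it ++ l) ≤ holes (it :: l) + 1 := by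
  cases it with
  | hole q c => simp [ovfTop, holes, Item.isHole]
  | edge p q c => simp [ovfTop, holes, Item.isHole]

omit [MulAction G V] in
theorem CLM_wt_ovf (b : ℝ) (len : G → ℕ) (h1 : len 1 = 0) (a : V) (it : Item V G)
    (l : List (Item V G)) : wt b len (ovfTop a it ++ l) = wt b len l := by
  cases it with
  | hole q c => simp [ovfTop, wt, Item.con, h1]
  | edge p q c => simp [ovfTop, wt, Item.con, h1]

theorem CLM_holes_mul (it : Item V G) (g : G) (l : List (Item V G)) :
    holes (it.mul g :: l) = holes (it :: l) := by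
  cases it <;> simp [holes, Item.mul, Item.isHole]

theorem CLM_con_mul (it : Item V G) (g : G) : (it.mul g).con = it.con * g := by
  cases it <;> rfl

theorem CLM_wt_cons (b : ℝ) (len : G → ℕ) (it : Item V G) (l : List (Item V G)) :
    wt b len (it :: l) = b ^ len it.con * wt b len l := by
  simp [wt]

theorem CLM_one (U : Setup S G V) (K : ℕ) (hK : 1 ≤ K) (Φ L : ℕ)
    (α Q b : ℝ) (hα : 0 < α) (hQ : 1 ≤ Q) (hb : 1 < b) (a : V) (D rest : List (Item V G))
    (it : Item V G) (γ : G) (m s : ℕ) (hh : holes D = holes (it :: rest) + s)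
    (hc : cnt K (Rigid G) D ≤ cnt K (Rigid G) (it :: rest) + m)
    (hw : wt b (wlen U.e) (it :: rest) ≤ wt b (wlen U.e) D)
    (hγ : wlen U.e γ ≤ Φ) :
    pot K (Rigid G) (wlen U.e) α Q b (nrmTop (wlen U.e) L a (it.mul γ) ++ rest) ≤
      Real.exp (α * m) * (b ^ Φ / Q ^ s + b ^ Φ / b ^ L * (Q / Q ^ s)) *
        pot K (Rigid G) (wlen U.e) α Q b D := by
  have hQ0 : 0 < Q := by linarith
  have hb0 : 0 < b := by linarith
  have hP := pot_pos K (Rigid G) (wlen U.e) α Q b hQ0 hb0 D
  have hwr := wt_ge_one b hb.le (wlen U.e) rest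
  unfold nrmTop
  by_cases hL : wlen U.e (it.mul γ).con ≤ L
  · rw [if_pos hL]
    have h := CLM_pot K (wlen U.e) α Q b hα.le hQ0 hb0 ([it.mul γ] ++ rest) D m (1 / Q ^ s)
      (b ^ Φ) (by
        rw [List.singleton_append, cnt_top]; exact hc) (by
        rw [List.singleton_append, CLM_holes_mul, hh, pow_add]
        apply le_of_eq
        field_simp) (by
        rw [List.singleton_append, CLM_wt_cons, CLM_con_mul]
        have h1 : b ^ wlen U.e (it.con * γ) ≤ b ^ wlen U.e it.con * b ^ Φ := by
          rw [← pow_add]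
          apply pow_le_pow_right₀ hb.le
          have := wlen_mul U.e U.gen it.con γ
          omega
        rw [CLM_wt_cons] at hw
        calc b ^ wlen U.e (it.con * γ) * wt b (wlen U.e) rest
            ≤ (b ^ wlen U.e it.con * b ^ Φ) * wt b (wlen U.e) rest := by gcongr
          _ = b ^ Φ * (b ^ wlen U.e it.con * wt b (wlen U.e) rest) := by ring
          _ ≤ b ^ Φ * wt b (wlen U.e) D := by gcongr)
    refine h.trans ?_
    gcongr
    have : 0 ≤ b ^ Φ / b ^ L * (Q / Q ^ s) := by positivity
    have h2 : 1 / Q ^ s * b ^ Φ = b ^ Φ / Q ^ s := by ring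
    linarith
  · rw [if_neg hL]
    have h := CLM_pot K (wlen U.e) α Q b hα.le hQ0 hb0 (ovfTop a (it.mul γ) ++ rest) D m
      (Q / Q ^ s) (b ^ Φ / b ^ L) (by
        rw [CLM_cnt_ovf K hK, cnt_top]; exact hc) (by
        have h1 := CLM_holes_ovf a (it.mul γ) rest
        rw [CLM_holes_mul] at h1
        calc Q ^ holes (ovfTop a (it.mul γ) ++ rest) ≤ Q ^ (holes (it :: rest) + 1) :=
              pow_le_pow_right₀ hQ h1
          _ = Q / Q ^ s * Q ^ holes D := by
              rw [hh, pow_add, pow_add]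
              field_simp) (by
        rw [CLM_wt_ovf b _ (wlen_one U.e)]
        rw [CLM_con_mul] at hL
        have h1 : b ^ L ≤ b ^ wlen U.e it.con * b ^ Φ := by
          rw [← pow_add]
          apply pow_le_pow_right₀ hb.le
          have := wlen_mul U.e U.gen it.con γ
          omega
        rw [CLM_wt_cons] at hw
        rw [div_mul_eq_mul_div, le_div_iff₀ (by positivity)]
        calc wt b (wlen U.e) rest * b ^ L
            ≤ wt b (wlen U.e) rest * (b ^ wlen U.e it.con * b ^ Φ) := by gcongr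
          _ = b ^ Φ * (b ^ wlen U.e it.con * wt b (wlen U.e) rest) := by ring
          _ ≤ b ^ Φ * wt b (wlen U.e) D := by gcongr)
    refine h.trans ?_
    gcongr
    have : 0 ≤ b ^ Φ / Q ^ s := by positivity
    have h2 : Q / Q ^ s * (b ^ Φ / b ^ L) = b ^ Φ / b ^ L * (Q / Q ^ s) := by ring
    linarith

theorem CLM_forget (U : Setup S G V) (K : ℕ) (hK : 1 ≤ K) (s0 : ℕ)
    (α Q b : ℝ) (hα : 0 < α) (hQ : 1 ≤ Q) (hb : 1 < b) (a : V) (D rest : List (Item V G))
    (it : Item V G) (m s : ℕ) (hh : holes D = holes (it :: rest) + s)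
    (hc : cnt K (Rigid G) D ≤ cnt K (Rigid G) (it :: rest) + m)
    (hw : b ^ s0 * wt b (wlen U.e) rest ≤ wt b (wlen U.e) D) :
    pot K (Rigid G) (wlen U.e) α Q b (ovfTop a it ++ rest) ≤
      Real.exp (α * m) * (Q / Q ^ s / b ^ s0) *
        pot K (Rigid G) (wlen U.e) α Q b D := by
  have hQ0 : 0 < Q := by linarith
  have hb0 : 0 < b := by linarith
  have hP := pot_pos K (Rigid G) (wlen U.e) α Q b hQ0 hb0 D
  have h := CLM_pot K (wlen U.e) α Q b hα.le hQ0 hb0 (ovfTop a it ++ rest) D m
      (Q / Q ^ s) (1 / b ^ s0) (by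
        rw [CLM_cnt_ovf K hK]; exact hc) (by
        have h1 := CLM_holes_ovf a it rest
        calc Q ^ holes (ovfTop a it ++ rest) ≤ Q ^ (holes (it :: rest) + 1) :=
              pow_le_pow_right₀ hQ h1
          _ = Q / Q ^ s * Q ^ holes D := by
              rw [hh, pow_add, pow_add]
              field_simp) (by
        rw [CLM_wt_ovf b _ (wlen_one U.e), div_mul_eq_mul_div, le_div_iff₀ (by positivity)]
        linarith)
  refine h.trans (le_of_eq ?_)
  ring

theorem claim_sum_le (U : Setup S G V) (K : ℕ) (hK : 1 ≤ K) (s0 C₀ Φ : ℕ) (L : ℕ)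
    (α Q b : ℝ) (hα : 0 < α) (hQ : 1 ≤ Q) (hb : 1 < b) (a : V) (D₁ l : List (Item V G))
    (hI : Inv U a (D₁ ++ l)) (s : ℕ) (hs : 1 ≤ s) (hh : holes (D₁ ++ l) = holes l + s)
    (hc : cnt K (Rigid G) (D₁ ++ l) ≤ cnt K (Rigid G) l + 3 * K * s + 2 * K)
    (hbd : win K (Rigid G) (D₁ ++ l) = 1 → win K (Rigid G) l = 1 →
      (∀ x ∈ (D₁ ++ l).take K ++ l.take K, wlen U.e x.con ≤ s0) →
      (listOf (gam (parOf U K L s0) ((D₁ ++ l).take (K + 1)) (l.take (K + 1)))).length ≤ C₀ ∧
      ∀ γ ∈ gam (parOf U K L s0) ((D₁ ++ l).take (K + 1)) (l.take (K + 1)),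
        wlen U.e γ ≤ Φ) :
    (((claimTop (parOf U K L s0) a ((D₁ ++ l).take (K + 1)) (l.take (K + 1))).map
        (· ++ l.drop (K + 1))).map (pot K (Rigid G) (wlen U.e) α Q b)).sum ≤
      Real.exp (α * (3 * K * s + 3 * K)) *
        (C₀ * b ^ Φ / Q ^ s + C₀ * b ^ Φ / b ^ L * (Q / Q ^ s) + Q / Q ^ s / b ^ s0) *
        pot K (Rigid G) (wlen U.e) α Q b (D₁ ++ l) := by
  have hQ0 : 0 < Q := by linarith
  have hb0 : 0 < b := by linarith
  have hP := pot_pos K (Rigid G) (wlen U.e) α Q b hQ0 hb0 (D₁ ++ l)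
  have hR : 0 ≤ Real.exp (α * (3 * K * s + 3 * K)) *
        (C₀ * b ^ Φ / Q ^ s + C₀ * b ^ Φ / b ^ L * (Q / Q ^ s) + Q / Q ^ s / b ^ s0) *
        pot K (Rigid G) (wlen U.e) α Q b (D₁ ++ l) := by positivity
  by_cases hwin : win K (Rigid G) (D₁ ++ l) = 1 ∧ win K (Rigid G) l = 1
  swap
  · have h1 : claimTop (parOf U K L s0) a ((D₁ ++ l).take (K + 1)) (l.take (K + 1)) = [] := by
      unfold claimTop
      rw [if_neg]
      show ¬ (win K (Rigid G) _ = 1 ∧ win K (Rigid G) _ = 1)
      rw [win_take, win_take]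
      exact hwin
    rw [h1]
    simpa using hR
  obtain ⟨hw1, hw2⟩ := hwin
  obtain ⟨E, rest, it, hl, hEK, hE⟩ := win_items K (Rigid G) l hw2
  obtain ⟨E', rest', it', hD, hEK', hE'⟩ := win_items K (Rigid G) (D₁ ++ l) hw1
  have hdrop : l.drop (K + 1) = rest := by
    rw [hl, ← hEK, List.drop_append]
    simp
  have htk : l.take (K + 1) = E ++ [it] := by
    rw [hl, ← hEK, List.take_append]
    simp
  have htk' : l.take K = E := by
    rw [hl, ← hEK]
    simp
  have hcnt : cnt K (Rigid G) (D₁ ++ l) ≤ cnt K (Rigid G) (it :: rest) +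
      (3 * K * s + 3 * K) := by
    have h1 := (cnt_suffix K (Rigid G) E (it :: rest)).2
    rw [← hl, hEK] at h1
    omega
  have hhol : holes (D₁ ++ l) = holes (it :: rest) + s := by
    rw [hh, hl, holes_edges E _ hE]
  have hwl : wt b (wlen U.e) l = wt b (wlen U.e) E * wt b (wlen U.e) (it :: rest) := by
    rw [hl, wt_append]
  have hwE := wt_ge_one b hb.le (wlen U.e) E
  have hwD := wt_ge_one b hb.le (wlen U.e) D₁
  have hwr := wt_ge_one b hb.le (wlen U.e) rest
  have hwi := wt_ge_one b hb.le (wlen U.e) (it :: rest)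
  have hwll := wt_ge_one b hb.le (wlen U.e) l
  have hw : wt b (wlen U.e) (it :: rest) ≤ wt b (wlen U.e) (D₁ ++ l) := by
    rw [wt_append, hwl]
    nlinarith [mul_nonneg (sub_nonneg.2 hwD) (sub_nonneg.2 hwE)]
  have hit : 1 ≤ b ^ wlen U.e it.con := one_le_pow₀ hb.le
  have hri : wt b (wlen U.e) rest ≤ wt b (wlen U.e) (it :: rest) := by
    rw [CLM_wt_cons]
    nlinarith
  have hcT : claimTop (parOf U K L s0) a ((D₁ ++ l).take (K + 1)) (l.take (K + 1)) =
      if ∀ x ∈ (D₁ ++ l).take K ++ l.take K, wlen U.e x.con ≤ s0 then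
        (listOf (gam (parOf U K L s0) ((D₁ ++ l).take (K + 1)) (l.take (K + 1)))).map
          (fun γ => nrmTop (wlen U.e) L a (it.mul γ))
      else [ovfTop a it] := by
    unfold claimTop
    rw [if_pos]
    · have h1 : (l.take (K + 1)).drop K = [it] := by
        rw [htk, ← hEK]; simp
      have h2 : ((D₁ ++ l).take (K + 1)).take K = (D₁ ++ l).take K := by
        rw [List.take_take]; simp
      have h3 : (l.take (K + 1)).take K = l.take K := by
        rw [List.take_take]; simp
      show (match (l.take (K + 1)).drop K with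
        | it :: _ =>
            if ∀ x ∈ ((D₁ ++ l).take (K + 1)).take K ++ (l.take (K + 1)).take K,
                wlen U.e x.con ≤ s0 then
              (listOf (gam (parOf U K L s0) ((D₁ ++ l).take (K + 1)) (l.take (K + 1)))).map
                (fun γ => nrmTop (wlen U.e) L a (it.mul γ))
            else [ovfTop a it]
        | [] => []) = _
      rw [h1, h2, h3]
    · show (win K (Rigid G) _ = 1 ∧ win K (Rigid G) _ = 1)
      rw [win_take, win_take]
      exact ⟨hw1, hw2⟩
  rw [hcT, hdrop]
  have hcast : Real.exp (α * ((3 * K * s + 3 * K : ℕ) : ℝ)) =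
      Real.exp (α * (3 * K * s + 3 * K)) := by
    push_cast; rfl
  by_cases hkn : ∀ x ∈ (D₁ ++ l).take K ++ l.take K, wlen U.e x.con ≤ s0
  · rw [if_pos hkn]
    obtain ⟨hb1, hb2⟩ := hbd hw1 hw2 hkn
    set B : ℝ := Real.exp (α * (3 * K * s + 3 * K)) *
      (b ^ Φ / Q ^ s + b ^ Φ / b ^ L * (Q / Q ^ s)) *
        pot K (Rigid G) (wlen U.e) α Q b (D₁ ++ l) with hB
    have hB0 : 0 ≤ B := by positivity
    set Ls := listOf (gam (parOf U K L s0) ((D₁ ++ l).take (K + 1)) (l.take (K + 1))) with hLs
    have hsum : (((Ls.map (fun γ => nrmTop (wlen U.e) L a (it.mul γ))).map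
        (· ++ rest)).map (pot K (Rigid G) (wlen U.e) α Q b)).sum ≤
        (((Ls.map (fun γ => nrmTop (wlen U.e) L a (it.mul γ))).map
        (· ++ rest)).map (pot K (Rigid G) (wlen U.e) α Q b)).length • B := by
      apply List.sum_le_card_nsmul
      intro x hx
      simp only [List.map_map, List.mem_map, Function.comp] at hx
      obtain ⟨γ, hγ, rfl⟩ := hx
      have hγ' : γ ∈ gam (parOf U K L s0) ((D₁ ++ l).take (K + 1)) (l.take (K + 1)) := by
        rw [hLs] at hγ
        unfold listOf at hγ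
        split at hγ
        · simpa using hγ
        · simp at hγ
      have h1 := CLM_one U K hK Φ L α Q b hα hQ hb a (D₁ ++ l) rest it γ
        (3 * K * s + 3 * K) s hhol hcnt hw (hb2 γ hγ')
      rw [hcast] at h1
      exact h1
    refine hsum.trans ?_
    simp only [List.length_map]
    rw [nsmul_eq_mul]
    have h2 : (Ls.length : ℝ) ≤ C₀ := by exact_mod_cast hb1
    calc (Ls.length : ℝ) * B ≤ C₀ * B := by gcongr
      _ ≤ _ := by
        rw [hB]
        have h3 : 0 ≤ Real.exp (α * (3 * K * s + 3 * K)) * (Q / Q ^ s / b ^ s0) *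
          pot K (Rigid G) (wlen U.e) α Q b (D₁ ++ l) := by positivity
        refine (le_add_of_nonneg_right h3).trans (le_of_eq ?_)
        ring
  · rw [if_neg hkn]
    have hlong : b ^ s0 * wt b (wlen U.e) rest ≤ wt b (wlen U.e) (D₁ ++ l) := by
      push_neg at hkn
      obtain ⟨x, hx, hxs⟩ := hkn
      have hbs : b ^ s0 ≤ b ^ wlen U.e x.con := pow_le_pow_right₀ hb.le hxs.le
      rw [List.mem_append] at hx
      rcases hx with hx | hx
      · have hx1 : x ∈ D₁ := by
          by_cases hlen : K ≤ D₁.length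
          · rw [List.take_append_of_le_length hlen] at hx
            exact List.mem_of_mem_take hx
          · exfalso
            have h1 : holes D₁ = 0 := by
              apply CLM_holes_zero
              intro y hy
              apply hE'
              have h2 : E' = (D₁ ++ l).take K := by
                rw [hD, ← hEK']; simp
              rw [h2, List.take_append]
              rw [List.mem_append]
              left
              rw [List.take_of_length_le (by omega)]
              exact hy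
            have h2 := CLM_holes_append D₁ l
            omega
        have h1 := wt_ge b hb.le (wlen U.e) D₁ x hx1
        rw [wt_append, hwl]
        have h2 : b ^ s0 ≤ wt b (wlen U.e) D₁ := hbs.trans h1
        have h3 : wt b (wlen U.e) rest ≤ wt b (wlen U.e) E * wt b (wlen U.e) (it :: rest) := by
          nlinarith
        exact mul_le_mul h2 h3 (by linarith) (by linarith)
      · rw [htk'] at hx
        have h1 := wt_ge b hb.le (wlen U.e) E x hx
        have h2 : b ^ s0 ≤ wt b (wlen U.e) E := hbs.trans h1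
        rw [wt_append, hwl]
        have h3 : b ^ s0 * wt b (wlen U.e) rest ≤
            wt b (wlen U.e) E * wt b (wlen U.e) (it :: rest) :=
          mul_le_mul h2 hri (by linarith) (by linarith)
        have h4 : 0 ≤ wt b (wlen U.e) E * wt b (wlen U.e) (it :: rest) := by
          apply mul_nonneg <;> linarith
        nlinarith
    have h1 := CLM_forget U K hK s0 α Q b hα hQ hb a (D₁ ++ l) rest it
      (3 * K * s + 3 * K) s hhol hcnt hlong
    rw [hcast] at h1
    simp only [List.map_cons, List.map_nil, List.sum_cons, List.sum_nil, add_zero]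
    refine h1.trans ?_
    gcongr
    have : 0 ≤ C₀ * b ^ Φ / Q ^ s + C₀ * b ^ Φ / b ^ L * (Q / Q ^ s) := by positivity
    linarith

end GWP
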