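import Mathlib

/-! CMP1: a generic finite-table stack machine has a computable acceptance problem.

All tables are functions on lists over `Fin M` that are only applied to lists of bounded length
(`take`), so they are primitive recursive (`primrec_take`: induction on the bound, case
distinction on the head, finitely many heads).  Write `run` as a fold of
`Ds ↦ Ds.flatMap (step i)`. -/

set_option autoImplicit false
namespace GWP

theorem CMP1_take2 (M : ℕ) {A B : Type} [Primcodable A] [Primcodable B] (n : ℕ) :
    ∀ g : A → List (Fin M) → B, (∀ l, Primrec (fun a => g a l)) →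
      Primrec (fun p : A × List (Fin M) => g p.1 (p.2.take n)) := by
  induction n with
  | zero =>
    intro g hg
    simpa using (hg []).comp Primrec.fst
  | succ n ih =>
    intro g hg
    have h1 : ∀ x : Fin M, Primrec (fun p : A × List (Fin M) => g p.1 (x :: p.2.take n)) :=
      fun x => ih (fun a l => g a (x :: l)) (fun l => hg (x :: l))
    have h2 : Primrec₂ (fun (x : Fin M) (p : A × List (Fin M)) => g p.1 (x :: p.2.take n)) :=
      Primrec.fin_curry₁.2 h1
    have h3 : Primrec₂ (fun (p : A × List (Fin M)) (q : Fin M × List (Fin M)) =>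
        g p.1 (q.1 :: q.2.take n)) :=
      (h2.comp (Primrec.fst.comp Primrec.snd)
        (Primrec.pair (Primrec.fst.comp Primrec.fst) (Primrec.snd.comp Primrec.snd))).to₂
    have h4 := Primrec.list_casesOn (f := fun p : A × List (Fin M) => p.2)
      (g := fun p : A × List (Fin M) => g p.1 [])
      (h := fun (p : A × List (Fin M)) (q : Fin M × List (Fin M)) =>
        g p.1 (q.1 :: q.2.take n)) Primrec.snd ((hg []).comp Primrec.fst) h3
    refine h4.of_eq ?_
    rintro ⟨a, l⟩
    cases l with
    | nil => rfl
    | cons x l => rfl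

/-- any function of the first `n` symbols is primitive recursive -/
theorem primrec_take (M n : ℕ) {B : Type} [Primcodable B] (g : List (Fin M) → B) :
    Primrec (fun l : List (Fin M) => g (l.take n)) := by
  have h := CMP1_take2 M (A := Unit) n (fun _ l => g l) (fun l => Primrec.const _)
  exact h.comp (Primrec.pair (Primrec.const ()) Primrec.id)

theorem CMP1_take22 (M : ℕ) {B : Type} [Primcodable B] (n n' : ℕ)
    (g : List (Fin M) → List (Fin M) → B) :
    Primrec (fun p : List (Fin M) × List (Fin M) => g (p.1.take n) (p.2.take n')) :=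
  CMP1_take2 M (A := List (Fin M)) n' (fun a l => g (a.take n) l)
    (fun l => primrec_take M n (fun a => g a l))

theorem CMP1_tails {α : Type} [Primcodable α] : Primrec (List.tails : List α → List (List α)) := by
  have h := Primrec.list_rec (α := List α) (β := α) (σ := List (List α)) (f := fun l => l)
    (g := fun _ => [[]]) (h := fun _ q => (q.1 :: q.2.1) :: q.2.2)
    Primrec.id (Primrec.const _)
    ((Primrec.list_cons.comp
      (Primrec.list_cons.comp (Primrec.fst.comp Primrec.snd)
        (Primrec.fst.comp (Primrec.snd.comp Primrec.snd)))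
      (Primrec.snd.comp (Primrec.snd.comp Primrec.snd))).to₂)
  refine h.of_eq ?_
  intro l
  induction l with
  | nil => rfl
  | cons x l ih =>
    simp only [List.tails] at ih ⊢
    rw [← ih]

/-- A finite-table stack machine: stack alphabet `Fin M`, operations `Fin m`. -/
structure FM (M m : ℕ) where
  K : ℕ
  isH : Fin M → Bool
  wn : List (Fin M) → ℕ
  top : Fin m → List (Fin M) → List (Fin M)
  cl : Fin m → List (Fin M) → List (Fin M) → List (List (Fin M))

namespace FM

variable {M m : ℕ} (F : FM M m)

/-- number of holes -/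
def holes (D : List (Fin M)) : ℕ := (D.filter F.isH).length

/-- number of counted windows -/
def cnt : List (Fin M) → ℕ
  | [] => 0
  | x :: l => cnt l + F.wn ((x :: l).take (F.K + 1))

/-- main transition -/
def main (i : Fin m) (D : List (Fin M)) : List (Fin M) := F.top i (D.take 2) ++ D.drop 2

/-- claims -/
def claims (i : Fin m) (D : List (Fin M)) : List (List (Fin M)) :=
  D.tails.flatMap (fun l =>
    if F.holes l < F.holes D ∧
        F.cnt D ≤ F.cnt l + 3 * F.K * (F.holes D - F.holes l) + 2 * F.K then
      (F.cl i (D.take (F.K + 1)) (l.take (F.K + 1))).map (· ++ l.drop (F.K + 1))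
    else [])

/-- all transitions -/
def step (i : Fin m) (D : List (Fin M)) : List (List (Fin M)) :=
  F.main i D :: F.claims i (F.main i D)

/-- all runs -/
def run : List (Fin m) → List (Fin M) → List (List (Fin M))
  | [], D => [D]
  | i :: is, D => (F.step i D).flatMap (run is)

/-- acceptance -/
def acc (D : List (Fin M)) : Prop := F.cnt D ≤ 3 * F.K * (F.holes D - 1)

theorem CMP1_holes_primrec : Primrec F.holes := by
  have h1 : PrimrecPred (fun x : Fin M => F.isH x = true) :=
    Primrec.primrecPred (by simpa using (Primrec.dom_finite F.isH))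
  have h2 := Primrec.list_length.comp (Primrec.listFilter h1)
  refine h2.of_eq ?_
  intro l
  simp [holes]

theorem CMP1_cnt_primrec : Primrec F.cnt := by
  have hw : Primrec (fun l : List (Fin M) => F.wn (l.take (F.K + 1))) :=
    primrec_take M (F.K + 1) F.wn
  have h := Primrec.list_rec (α := List (Fin M)) (β := Fin M) (σ := ℕ) (f := fun l => l)
    (g := fun _ => 0) (h := fun _ q => q.2.2 + F.wn ((q.1 :: q.2.1).take (F.K + 1)))
    Primrec.id (Primrec.const _)
    ((Primrec.nat_add.comp (Primrec.snd.comp (Primrec.snd.comp Primrec.snd))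
      (hw.comp (Primrec.list_cons.comp (Primrec.fst.comp Primrec.snd)
        (Primrec.fst.comp (Primrec.snd.comp Primrec.snd))))).to₂)
  refine h.of_eq ?_
  intro l
  induction l with
  | nil => rfl
  | cons x l ih =>
    simp only [cnt] at ih ⊢
    rw [← ih]

theorem CMP1_main_primrec (i : Fin m) : Primrec (F.main i) := by
  have h1 : Primrec (fun D : List (Fin M) => F.top i (D.take 2)) := primrec_take M 2 (F.top i)
  have h2 : Primrec (fun D : List (Fin M) => D.drop 2) :=
    Primrec.list_drop.comp (Primrec.const 2) Primrec.id
  exact Primrec.list_append.comp h1 h2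

theorem CMP1_claims_primrec (i : Fin m) : Primrec (F.claims i) := by
  have hH := F.CMP1_holes_primrec
  have hC := F.CMP1_cnt_primrec
  have hcl : Primrec (fun p : List (Fin M) × List (Fin M) =>
      F.cl i (p.1.take (F.K + 1)) (p.2.take (F.K + 1))) :=
    CMP1_take22 M (F.K + 1) (F.K + 1) (F.cl i)
  have hmap : Primrec (fun p : List (Fin M) × List (Fin M) =>
      (F.cl i (p.1.take (F.K + 1)) (p.2.take (F.K + 1))).map (· ++ p.2.drop (F.K + 1))) := by
    refine Primrec.list_map hcl ?_
    exact (Primrec.list_append.comp Primrec.snd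
      (Primrec.list_drop.comp (Primrec.const (F.K + 1)) (Primrec.snd.comp Primrec.fst))).to₂
  have hHD := hH.comp (Primrec.fst (α := List (Fin M)) (β := List (Fin M)))
  have hHl := hH.comp (Primrec.snd (α := List (Fin M)) (β := List (Fin M)))
  have hCD := hC.comp (Primrec.fst (α := List (Fin M)) (β := List (Fin M)))
  have hCl := hC.comp (Primrec.snd (α := List (Fin M)) (β := List (Fin M)))
  have hcond : PrimrecPred (fun p : List (Fin M) × List (Fin M) =>
      F.holes p.2 < F.holes p.1 ∧
        F.cnt p.1 ≤ F.cnt p.2 + 3 * F.K * (F.holes p.1 - F.holes p.2) + 2 * F.K) := by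
    refine PrimrecPred.and ?_ ?_
    · exact Primrec.nat_lt.comp hHl hHD
    · refine Primrec.nat_le.comp hCD ?_
      exact Primrec.nat_add.comp (Primrec.nat_add.comp hCl
        (Primrec.nat_mul.comp (Primrec.const (3 * F.K)) (Primrec.nat_sub.comp hHD hHl)))
        (Primrec.const (2 * F.K))
  have hite : Primrec (fun p : List (Fin M) × List (Fin M) =>
      if F.holes p.2 < F.holes p.1 ∧
        F.cnt p.1 ≤ F.cnt p.2 + 3 * F.K * (F.holes p.1 - F.holes p.2) + 2 * F.K then
      (F.cl i (p.1.take (F.K + 1)) (p.2.take (F.K + 1))).map (· ++ p.2.drop (F.K + 1))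
      else []) :=
    Primrec.ite hcond hmap (Primrec.const [])
  exact Primrec.list_flatMap CMP1_tails hite.to₂

theorem CMP1_step_primrec : Primrec₂ F.step := by
  refine Primrec.fin_curry₁.2 (fun i => ?_)
  exact Primrec.list_cons.comp (F.CMP1_main_primrec i)
    ((F.CMP1_claims_primrec i).comp (F.CMP1_main_primrec i))

theorem CMP1_run_fold (is : List (Fin m)) : ∀ Ds : List (List (Fin M)),
    is.foldl (fun Ds i => Ds.flatMap (F.step i)) Ds = Ds.flatMap (F.run is) := by
  induction is with
  | nil =>
    intro Ds
    simp [run]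
  | cons i is ih =>
    intro Ds
    rw [List.foldl_cons, ih, List.flatMap_assoc]
    rfl

theorem CMP1_run_primrec : Primrec₂ F.run := by
  have h := Primrec.list_foldl (α := List (Fin m) × List (Fin M)) (β := Fin m)
    (σ := List (List (Fin M))) (f := fun p => p.1) (g := fun p => [p.2])
    (h := fun _ q => q.1.flatMap (F.step q.2)) Primrec.fst
    (Primrec.list_cons.comp Primrec.snd (Primrec.const []))
    ((Primrec.list_flatMap (Primrec.fst.comp Primrec.snd)
      (F.CMP1_step_primrec.comp (Primrec.snd.comp (Primrec.snd.comp Primrec.fst))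
        Primrec.snd).to₂).to₂)
  have h2 : Primrec (fun p : List (Fin m) × List (Fin M) => F.run p.1 p.2) := by
    refine h.of_eq ?_
    rintro ⟨is, D⟩
    show is.foldl (fun Ds i => Ds.flatMap (F.step i)) [D] = F.run is D
    rw [CMP1_run_fold]
    simp
  exact h2.to₂

theorem CMP1_acc_primrec : PrimrecPred F.acc := by
  refine Primrec.nat_le.comp F.CMP1_cnt_primrec ?_
  exact Primrec.nat_mul.comp (Primrec.const (3 * F.K))
    (Primrec.nat_sub.comp F.CMP1_holes_primrec (Primrec.const 1))

theorem CMP1_computable {A : Type} [Primcodable A] {p : A → Prop} (h : PrimrecPred p) :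
    ComputablePred p := by
  obtain ⟨hd, h⟩ := h
  exact ⟨hd, h.to_comp⟩

theorem computable {k : ℕ} (ops : Fin k × Bool → List (Fin m)) (x0 : List (Fin M)) :
    ComputablePred (fun w : List (Fin k × Bool) => ∃ D ∈ F.run (w.flatMap ops) x0, F.acc D) := by
  have hops : Primrec ops := Primrec.dom_finite ops
  have hw : Primrec (fun w : List (Fin k × Bool) => w.flatMap ops) :=
    Primrec.list_flatMap Primrec.id (hops.comp Primrec.snd).to₂
  have hr : Primrec (fun w : List (Fin k × Bool) => F.run (w.flatMap ops) x0) :=
    F.CMP1_run_primrec.comp hw (Primrec.const x0)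
  have hp : PrimrecPred (fun w : List (Fin k × Bool) => ∃ D ∈ F.run (w.flatMap ops) x0, F.acc D) :=
    (PrimrecPred.exists_mem_list F.CMP1_acc_primrec).comp hr
  exact CMP1_computable hp

end FM

end GWP
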