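import Pool.Agent.H55.GWP.SEG

/-! INB: claims preserve the invariants.  With `low = l.take (K+1) = E ++ [it]`, `E` edges,
`(seg low)[K]? = some (topProd⁻¹ • it.con⁻¹ • it.pos)` (`seg_get`), `(seg top)[0]? = some a` (`seg_zero`), so for
`γ ∈ gam`: `γ • a = it.con⁻¹ • it.pos`, i.e. `(it.mul γ).con • a = it.pos`. -/

set_option autoImplicit false
open Classical
namespace GWP

variable {S G V : Type*} [Fintype S] [Group G] [MulAction G V]

theorem INB_WF_mul (T : SimpleGraph V) (it : Item V G) (g : G) (R : List (Item V G))
    (h : WF T (it :: R)) : WF T (it.mul g :: R) := by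
  cases it with
  | edge p q c =>
    cases R with
    | nil => exact h
    | cons x R => exact h
  | hole q c =>
    cases R with
    | nil => exact h
    | cons x R => exact h

theorem INB_WF_ovf (T : SimpleGraph V) (a : V) (it : Item V G) (R : List (Item V G))
    (h : WF T (it :: R)) : WF T (ovfTop a it ++ R) := by
  cases it with
  | edge p q c =>
    cases R with
    | nil => exact h
    | cons x R => exact h
  | hole q c =>
    cases R with
    | nil => exact h
    | cons x R => exact h

theorem INB_ovf_inv (U : Setup S G V) (a : V) (it : Item V G) (R : List (Item V G))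
    (ha : a ∈ V0 U) (h : WF U.T (it :: R)) (h0 : InV0 U (it :: R)) :
    Inv U a (ovfTop a it ++ R) := by
  refine ⟨INB_WF_ovf U.T a it R h, ?_, ?_⟩
  · intro x hx
    have : x = Item.hole a 1 := by
      cases it with
      | edge p q c => simpa [ovfTop] using hx.symm
      | hole q c => simpa [ovfTop] using hx.symm
    subst this
    show (1 : G) • a = a
    exact one_smul G a
  · intro x hx
    have hit := h0 it List.mem_cons_self
    cases it with
    | edge p q c =>
      rcases List.mem_cons.1 hx with rfl | hx
      · exact ⟨ha, ha⟩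
      · rcases List.mem_cons.1 hx with rfl | hx
        · exact hit
        · exact h0 x (List.mem_cons_of_mem _ hx)
    | hole q c =>
      rcases List.mem_cons.1 hx with rfl | hx
      · exact ⟨ha, ha⟩
      · exact h0 x (List.mem_cons_of_mem _ hx)

theorem INB_nrm_inv (U : Setup S G V) (len : G → ℕ) (L : ℕ) (a : V) (it : Item V G)
    (R : List (Item V G)) (ha : a ∈ V0 U) (h : WF U.T (it :: R)) (h0 : InV0 U (it :: R))
    (hat : it.con • a = it.pos) : Inv U a (nrmTop len L a it ++ R) := by
  unfold nrmTop
  split_ifs with hL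
  · refine ⟨h, ?_, h0⟩
    intro x hx
    have : x = it := by simpa using hx.symm
    subst this
    exact hat
  · exact INB_ovf_inv U a it R ha h h0

theorem INB_mem_listOf {α : Type*} (s : Set α) (x : α) (h : x ∈ listOf s) : x ∈ s := by
  unfold listOf at h
  by_cases hs : s.Finite
  · rw [dif_pos hs] at h
    simpa using h
  · rw [dif_neg hs] at h
    exact absurd h List.not_mem_nil

theorem claims_inv (U : Setup S G V) (K L s0 : ℕ) (hK : 1 ≤ K) (a : V) (D : List (Item V G))
    (ha : a ∈ V0 U) (h : Inv U a D) :
    ∀ D' ∈ claims (parOf U K L s0) a D, Inv U a D' := by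
  intro D' hD'
  unfold claims at hD'
  rw [List.mem_flatMap] at hD'
  obtain ⟨l, hl, hD'⟩ := hD'
  rw [List.mem_tails] at hl
  obtain ⟨D₁, hDl⟩ := hl
  split_ifs at hD' with hc
  swap
  · simp at hD'
  obtain ⟨r, hr, rfl⟩ := List.mem_map.1 hD'
  have hPK : (parOf U K L s0).K = K := rfl
  rw [hPK] at hr ⊢
  unfold claimTop at hr
  by_cases hw : win (parOf U K L s0).K (parOf U K L s0).Rig (D.take (K + 1)) = 1 ∧
      win (parOf U K L s0).K (parOf U K L s0).Rig (l.take (K + 1)) = 1
  swap
  · rw [if_neg hw] at hr
    exact absurd hr List.not_mem_nil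
  rw [if_pos hw] at hr
  obtain ⟨hw1, hw2⟩ := hw
  rw [hPK] at hw1 hw2
  obtain ⟨E, rest, it, hlow, hEK, hE⟩ := win_items K _ (l.take (K + 1)) hw2
  have hrest : rest = [] := by
    have h1 := congrArg List.length hlow
    rw [List.length_take, List.length_append, List.length_cons, hEK] at h1
    have h2 : rest.length = 0 := by omega
    exact List.length_eq_zero_iff.1 h2
  subst hrest
  have hlsplit : l = E ++ it :: l.drop (K + 1) := by
    conv_lhs => rw [← List.take_append_drop (K + 1) l, hlow]
    simp
  have hlne : l ≠ [] := by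
    rw [hlsplit]
    simp
  have hWFl : WF U.T l := WF_suffix U.T D₁ l hlne (by rw [hDl]; exact h.wf)
  have hWFit : WF U.T (it :: l.drop (K + 1)) := by
    apply WF_suffix U.T E _ (by simp)
    rw [← hlsplit]
    exact hWFl
  have hmem : ∀ x ∈ it :: l.drop (K + 1), x ∈ D := by
    intro x hx
    rw [← hDl, List.mem_append]
    right
    rw [hlsplit, List.mem_append]
    exact Or.inr hx
  have hV0 : InV0 U (it :: l.drop (K + 1)) := fun x hx => h.inV0 x (hmem x hx)
  have hdrop : (l.take (K + 1)).drop (parOf U K L s0).K = [it] := by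
    rw [hPK, hlow, ← hEK]
    simp
  rw [hdrop] at hr
  simp only at hr
  split_ifs at hr with hs
  · obtain ⟨γ, hγ, rfl⟩ := List.mem_map.1 hr
    have hγ2 := INB_mem_listOf _ _ hγ
    obtain ⟨y0, yK, z0, zK, h1, h2, h3, h4, h5, h6⟩ := hγ2
    rw [hPK] at h2 h4 h5 h6
    have hy0 : y0 = a := by
      rw [seg_take] at h1
      have h7 := seg_zero U a D h
      have h8 : ((seg D).take (K + 1))[0]? = (seg D)[0]? := by
        rw [List.getElem?_take]
        simp
      rw [h8, h7] at h1
      exact (Option.some.inj h1).symm
    have hz0 : z0 = (cprod E)⁻¹ • (it.con)⁻¹ • it.pos := by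
      rw [hlow] at h4
      have h7 := seg_get E [] it hE
      rw [hEK, h4] at h7
      exact Option.some.inj h7
    have htop : topProd K (l.take (K + 1)) = cprod E := by
      unfold topProd cprod
      rw [hlow, ← hEK]
      simp
    rw [hy0, hz0, htop, smul_inv_smul] at h5
    have hat : (it.mul γ).con • a = (it.mul γ).pos := by
      have h9 : (it.mul γ).con = it.con * γ := by cases it <;> rfl
      have h10 : (it.mul γ).pos = it.pos := by cases it <;> rfl
      rw [h9, h10, mul_smul, h5, smul_inv_smul]
    apply INB_nrm_inv U _ _ a (it.mul γ) _ ha (INB_WF_mul U.T it γ _ hWFit) _ hat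
    intro x hx
    rcases List.mem_cons.1 hx with rfl | hx
    · have h10 := hV0 it List.mem_cons_self
      have h11 : (it.mul γ).pos = it.pos := by cases it <;> rfl
      have h12 : (it.mul γ).low = it.low := by cases it <;> rfl
      rw [h11, h12]
      exact h10
    · exact hV0 x (List.mem_cons_of_mem _ hx)
  · have hr2 : r = ovfTop a it := by simpa using hr
    rw [hr2]
    exact INB_ovf_inv U a it _ ha hWFit hV0

end GWP
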