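import Pool.Agent.H55.GWP.INV0
import Pool.Agent.H55.GWP.INB

/-! INC: contents stay of length `≤ L`; the local vertices are a finite set. -/

set_option autoImplicit false
open Classical
namespace GWP

variable {S G V : Type*} [Fintype S] [Group G] [MulAction G V]

theorem INC_ovf (U : Setup S G V) (L : ℕ) (a : V) (it : Item V G) :
    ∀ x ∈ ovfTop a it, wlen U.e x.con ≤ L := by
  intro x hx
  have h1 : x.con = 1 := by
    cases it with
    | edge p q c =>
      simp only [ovfTop, List.mem_cons, List.not_mem_nil, or_false] at hx
      rcases hx with rfl | rfl <;> rfl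
    | hole q c =>
      simp only [ovfTop, List.mem_cons, List.not_mem_nil, or_false] at hx
      rw [hx]
      rfl
  rw [h1, wlen_one]
  exact Nat.zero_le _

theorem INC_nrm (U : Setup S G V) (L : ℕ) (a : V) (it : Item V G) :
    ∀ x ∈ nrmTop (wlen U.e) L a it, wlen U.e x.con ≤ L := by
  intro x hx
  unfold nrmTop at hx
  split_ifs at hx with hL
  · have : x = it := by simpa using hx
    rw [this]
    exact hL
  · exact INC_ovf U L a it x hx

theorem INC_mm_tail (P : Par S G V) (i : Op V S) (D : List (Item V G)) (y : Item V G)
    (l : List (Item V G)) (h : mm P i D = y :: l) : ∀ x ∈ l, x ∈ D := by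
  match i, D with
  | .mv a a', [] =>
    have h1 : [Item.edge a a' 1] = y :: l := h
    simp only [List.cons.injEq] at h1
    rw [← h1.2]
    simp
  | .mv a a', [.edge p q c] =>
    have h1 : [Item.edge a a' 1, .edge p q c] = y :: l := h
    simp only [List.cons.injEq] at h1
    rw [← h1.2]
    simp
  | .mv a a', .hole q c :: D =>
    have h1 : Item.edge a a' 1 :: .hole q c :: D = y :: l := h
    simp only [List.cons.injEq] at h1
    rw [← h1.2]
    exact fun x hx => hx
  | .mv a a', .edge p q c :: it :: D =>
    have h1 : (if c • a' = p then it.mul c :: D else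
        Item.edge a a' 1 :: Item.edge p q c :: it :: D) = y :: l := h
    split_ifs at h1 with hc
    · simp only [List.cons.injEq] at h1
      rw [← h1.2]
      exact fun x hx => List.mem_cons_of_mem _ (List.mem_cons_of_mem _ hx)
    · simp only [List.cons.injEq] at h1
      rw [← h1.2]
      exact fun x hx => hx
  | .ap s, [] =>
    have h1 : [] = y :: l := h
    simp at h1
  | .ap s, it :: D =>
    have h1 : it.mul (P.e s) :: D = y :: l := h
    simp only [List.cons.injEq] at h1
    rw [← h1.2]
    exact fun x hx => List.mem_cons_of_mem _ hx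

theorem INC_main (U : Setup S G V) (K L s0 : ℕ) (i : Op V S)
    (D : List (Item V G)) (h : LenLe (wlen U.e) L D) :
    LenLe (wlen U.e) L (mainOp (parOf U K L s0) i D) := by
  unfold mainOp
  rcases hm : mm (parOf U K L s0) i D with _ | ⟨y, l⟩
  · intro x hx
    exact absurd hx List.not_mem_nil
  · intro x hx
    have hx : x ∈ nrmTop (wlen U.e) L (cur (parOf U K L s0) i) y ++ l := hx
    rcases List.mem_append.1 hx with hx | hx
    · exact INC_nrm U L _ y x hx
    · exact h x (INC_mm_tail _ i D y l hm x hx)

theorem stepOp_len (U : Setup S G V) (K L s0 : ℕ) (i : Op V S)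
    (D : List (Item V G)) (h : LenLe (wlen U.e) L D) :
    ∀ D' ∈ stepOp (parOf U K L s0) i D, LenLe (wlen U.e) L D' := by
  intro D' hD'
  have hm := INC_main U K L s0 i D h
  rcases List.mem_cons.1 hD' with rfl | hD'
  · exact hm
  · generalize mainOp (parOf U K L s0) i D = D1 at hm hD'
    unfold claims at hD'
    rw [List.mem_flatMap] at hD'
    obtain ⟨l, hl, hD'⟩ := hD'
    rw [List.mem_tails] at hl
    split_ifs at hD' with hc
    swap
    · exact absurd hD' List.not_mem_nil
    obtain ⟨r, hr, rfl⟩ := List.mem_map.1 hD'
    intro x hx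
    rcases List.mem_append.1 hx with hx | hx
    swap
    · exact hm x (hl.subset (List.mem_of_mem_drop hx))
    unfold claimTop at hr
    split_ifs at hr with hw hs
    · rcases hd : (l.take ((parOf U K L s0).K + 1)).drop (parOf U K L s0).K with _ | ⟨it, rr⟩
      · rw [hd] at hr
        exact absurd hr List.not_mem_nil
      · rw [hd] at hr
        obtain ⟨γ, _, rfl⟩ := List.mem_map.1 hr
        exact INC_nrm U L _ _ x hx
    · rcases hd : (l.take ((parOf U K L s0).K + 1)).drop (parOf U K L s0).K with _ | ⟨it, rr⟩
      · rw [hd] at hr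
        exact absurd hr List.not_mem_nil
      · rw [hd] at hr
        have hr2 : r = ovfTop (cur (parOf U K L s0) i) it := by simpa using hr
        rw [hr2] at hx
        exact INC_ovf U L _ _ x hx
    · exact absurd hr List.not_mem_nil

theorem V0_finite (U : Setup S G V) : (V0 U).Finite := by
  have h1 : (⋃ s : S, {v | v ∈ tpath U.tree (U.e s • U.o) U.o}).Finite :=
    Set.finite_iUnion (fun s => List.finite_toSet _)
  refine ((Set.finite_singleton U.o).union h1).subset ?_
  rintro v (rfl | ⟨s, hs⟩)
  · exact Or.inl rfl
  · exact Or.inr (Set.mem_iUnion.2 ⟨s, hs⟩)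

end GWP
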