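import Pool.Agent.H55.GWP.INA
import Pool.Agent.H55.GWP.INB
import Pool.Agent.H55.GWP.INC

/-! INV: all transitions preserve the invariants. -/

set_option autoImplicit false
open Classical
namespace GWP

variable {S G V : Type*} [Fintype S] [Group G] [MulAction G V]

theorem stepOp_inv (U : Setup S G V) (K L s0 : ℕ) (hK : 1 ≤ K) (a b : V) (i : Op V S)
    (D : List (Item V G)) (hi : OpsOK U a [i] b) (h : Inv U a D) :
    ∀ D' ∈ stepOp (parOf U K L s0) i D, Inv U b D' := by
  intro D' hD'
  have hm : Inv U b (mainOp (parOf U K L s0) i D) :=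
    chk_inv U K L s0 a b i _ hi (mm_inv U K L s0 a b i D hi h)
  have hcur : cur (parOf U K L s0) i = b ∧ b ∈ V0 U := by
    cases i with
    | mv x x' =>
      obtain ⟨h1, h2, h3, h4, h5⟩ := hi
      have h5 : x' = b := h5
      subst h5
      exact ⟨rfl, h4⟩
    | ap s =>
      obtain ⟨h1, h2⟩ := hi
      have h2 : U.o = b := h2
      subst h2
      exact ⟨rfl, Or.inl rfl⟩
  rcases List.mem_cons.1 hD' with rfl | hD'
  · exact hm
  · rw [hcur.1] at hD'
    exact claims_inv U K L s0 hK b _ hcur.2 hm D' hD'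

theorem runOps_inv (U : Setup S G V) (K L s0 : ℕ) (hK : 1 ≤ K) (a b : V) (is : List (Op V S))
    (D : List (Item V G)) (hi : OpsOK U a is b) (h : Inv U a D) :
    ∀ D' ∈ runOps (parOf U K L s0) is D, Inv U b D' := by
  induction is generalizing a D with
  | nil =>
    intro D' hD'
    have h1 : a = b := hi
    have h2 : D' = D := by simpa [runOps] using hD'
    subst h1
    subst h2
    exact h
  | cons i is ih =>
    intro D' hD'
    have hc : ∃ c, OpsOK U a [i] c ∧ OpsOK U c is b := by
      cases i with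
      | mv y y' =>
        obtain ⟨h1, h2, h3, h4, h5⟩ := hi
        exact ⟨y', ⟨h1, h2, h3, h4, rfl⟩, h5⟩
      | ap s =>
        obtain ⟨h1, h2⟩ := hi
        exact ⟨U.o, ⟨h1, rfl⟩, h2⟩
    obtain ⟨c, hc1, hc2⟩ := hc
    unfold runOps at hD'
    obtain ⟨D1, hD1, hD2⟩ := List.mem_flatMap.1 hD'
    exact ih c D1 hc2 (stepOp_inv U K L s0 hK a c i D hc1 h D1 hD1) D' hD2

end GWP
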