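import Pool.Agent.H55.GWP.CMP1
import Pool.Agent.H55.GWP.INV
import Pool.Agent.H55.GWP.MMB

/-! CMP2: the machine of a setup is a finite-table machine.

The alphabet `A = {it | it.low ∈ V0, it.pos ∈ V0, wlen it.con ≤ L}` is finite (`V0_finite`,
`wlen_ball_finite`); choose `enc : Item V G → Fin M`, `dec : Fin M → Item V G` with
`dec (enc it) = it` for `it ∈ A` and `dec` with values in `A`.  Operations: the elements of
`opsL U s`, `s : S`, a finite set.  All states of runs from `init` stay in the alphabet
(`stepOp_inv`, `stepOp_len`; the main transition depends on the two top items only, `claimTop` on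
`take (K + 1)`, `win` on `take (K + 1)`).  Tables: conjugate by `enc`/`dec`. -/

set_option autoImplicit false
open Classical
namespace GWP

variable {G V : Type*} [Group G] [MulAction G V] {k : ℕ}

theorem mainOp_take {S : Type*} (P : Par S G V) (i : Op V S) (D : List (Item V G)) :
    mainOp P i D = mainOp P i (D.take 2) ++ D.drop 2 := by
  unfold mainOp
  match i, D with
  | .mv a a', [] => simp [mm, chk]
  | .mv a a', [.hole q c] => simp [mm, chk]
  | .mv a a', [.edge p q c] => simp [mm, chk]
  | .mv a a', .hole q c :: y :: l => simp [mm, chk]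
  | .mv a a', .edge p q c :: y :: l =>
    simp only [mm, List.take_succ_cons, List.take_zero, List.drop_succ_cons, List.drop_zero]
    by_cases h : c • a' = p
    · simp [h, chk]
    · simp [h, chk]
  | .ap s, [] => simp [mm, chk]
  | .ap s, [x] => simp [mm, chk]
  | .ap s, x :: y :: l => simp [mm, chk]

/-! ### The finite alphabet -/

/-- the alphabet -/
def CMP2_A {S : Type*} [Fintype S] (U : Setup S G V) (L : ℕ) : Set (Item V G) :=
  {it | it.low ∈ V0 U ∧ it.pos ∈ V0 U ∧ wlen U.e it.con ≤ L}

theorem CMP2_A_finite {S : Type*} [Fintype S] (U : Setup S G V) (L : ℕ) :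
    (CMP2_A U L).Finite := by
  have hV := V0_finite U
  have hB : {g : G | wlen U.e g ≤ L}.Finite := wlen_ball_finite U.e U.gen L
  have h1 := ((hV.prod (hV.prod hB)).image
    (fun p : V × V × G => Item.edge p.1 p.2.1 p.2.2))
  have h2 := ((hV.prod hB).image (fun p : V × G => Item.hole p.1 p.2))
  refine (h1.union h2).subset ?_
  rintro it ⟨h3, h4, h5⟩
  cases it with
  | edge p q c =>
    left
    exact ⟨(p, q, c), ⟨h3, h4, h5⟩, rfl⟩
  | hole q c =>
    right
    exact ⟨(q, c), ⟨h4, h5⟩, rfl⟩

/-! ### The table machine of a coding -/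

section coding

variable {S : Type*} {M m : ℕ}

/-- table machine from a coding -/
noncomputable def CMP2_FM (P : Par S G V) (dec : Fin M → Item V G) (enc : Item V G → Fin M)
    (od : Fin m → Op V S) : FM M m where
  K := P.K
  isH x := decide (dec x).isHole
  wn l := win P.K P.Rig (l.map dec)
  top i l := (mainOp P (od i) (l.map dec)).map enc
  cl i l l' := (claimTop P (cur P (od i)) (l.map dec) (l'.map dec)).map (fun r => r.map enc)

variable (P : Par S G V) (dec : Fin M → Item V G) (enc : Item V G → Fin M)
    (od : Fin m → Op V S)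

theorem CMP2_holes (D : List (Fin M)) :
    (CMP2_FM P dec enc od).holes D = holes (D.map dec) := by
  induction D with
  | nil => rfl
  | cons x D ih =>
    unfold FM.holes at ih ⊢
    rw [List.map_cons, holes, ← ih]
    by_cases h : (dec x).isHole
    · have h2 : (CMP2_FM P dec enc od).isH x = true := by
        show decide _ = true
        exact decide_eq_true h
      rw [List.filter_cons_of_pos (by simpa using h2), if_pos h]
      simp
    · have h2 : (CMP2_FM P dec enc od).isH x = false := by
        show decide _ = false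
        exact decide_eq_false h
      rw [List.filter_cons_of_neg (by simpa using h2), if_neg h]
      simp

theorem CMP2_cnt (D : List (Fin M)) :
    (CMP2_FM P dec enc od).cnt D = cnt P.K P.Rig (D.map dec) := by
  induction D with
  | nil => rfl
  | cons x D ih =>
    rw [FM.cnt, List.map_cons, cnt, ih]
    congr 1
    show win P.K P.Rig (((x :: D).take (P.K + 1)).map dec) = _
    rw [List.map_take, List.map_cons, win_take]

theorem CMP2_main (i : Fin m) (x : List (Fin M))
    (h : ∀ it ∈ mainOp P (od i) (x.map dec), dec (enc it) = it) :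
    ((CMP2_FM P dec enc od).main i x).map dec = mainOp P (od i) (x.map dec) := by
  have e : ((CMP2_FM P dec enc od).main i x).map dec =
      (((mainOp P (od i) ((x.take 2).map dec)).map enc ++ x.drop 2)).map dec := rfl
  rw [mainOp_take] at h
  rw [e, mainOp_take P (od i) (x.map dec)]
  rw [List.map_append, List.map_take, List.map_drop, List.map_map]
  congr 1
  conv_rhs => rw [← List.map_id (mainOp P (od i) ((x.map dec).take 2))]
  apply List.map_congr_left
  intro it hit
  exact h it (List.mem_append_left _ hit)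

/-- the claims of one suffix -/
noncomputable def CMP2_cb (P : Par S G V) (a : V) (D l : List (Item V G)) :
    List (List (Item V G)) :=
  if holes l < holes D ∧
        cnt P.K P.Rig D ≤ cnt P.K P.Rig l + 3 * P.K * (holes D - holes l) + 2 * P.K then
      (claimTop P a (D.take (P.K + 1)) (l.take (P.K + 1))).map (· ++ l.drop (P.K + 1))
    else []

theorem CMP2_claims_eq (a : V) (D : List (Item V G)) :
    claims P a D = D.tails.flatMap (CMP2_cb P a D) := rfl

/-- the claims of one suffix, table machine -/
def CMP2_fb (F : FM M m) (i : Fin m) (D l : List (Fin M)) : List (List (Fin M)) :=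
  if F.holes l < F.holes D ∧
        F.cnt D ≤ F.cnt l + 3 * F.K * (F.holes D - F.holes l) + 2 * F.K then
      (F.cl i (D.take (F.K + 1)) (l.take (F.K + 1))).map (· ++ l.drop (F.K + 1))
    else []

theorem CMP2_fclaims_eq (F : FM M m) (i : Fin m) (D : List (Fin M)) :
    F.claims i D = D.tails.flatMap (CMP2_fb F i D) := rfl

theorem CMP2_fb_cb (i : Fin m) (x l : List (Fin M))
    (h : ∀ D' ∈ CMP2_cb P (cur P (od i)) (x.map dec) (l.map dec),
      ∀ it ∈ D', dec (enc it) = it) :
    (CMP2_fb (CMP2_FM P dec enc od) i x l).map (List.map dec) =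
      CMP2_cb P (cur P (od i)) (x.map dec) (l.map dec) := by
  unfold CMP2_fb
  rw [CMP2_holes, CMP2_holes, CMP2_cnt, CMP2_cnt]
  have hK : (CMP2_FM P dec enc od).K = P.K := rfl
  have hcl : (CMP2_FM P dec enc od).cl i (x.take ((CMP2_FM P dec enc od).K + 1))
      (l.take ((CMP2_FM P dec enc od).K + 1)) =
      (claimTop P (cur P (od i)) ((x.take (P.K + 1)).map dec) ((l.take (P.K + 1)).map dec)).map
        (fun r => r.map enc) := rfl
  rw [hcl, hK]
  unfold CMP2_cb at h ⊢
  split_ifs at h ⊢ with hc
  · rw [List.map_take, List.map_take, List.map_map, List.map_map]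
    apply List.map_congr_left
    intro r hr
    have h1 := h _ (List.mem_map_of_mem hr)
    show List.map dec (r.map enc ++ l.drop (P.K + 1)) = r ++ (l.map dec).drop (P.K + 1)
    rw [List.map_append, List.map_map, List.map_drop]
    congr 1
    conv_rhs => rw [← List.map_id r]
    apply List.map_congr_left
    intro it hit
    exact h1 it (List.mem_append_left _ hit)
  · rfl

theorem CMP2_claims (i : Fin m) (x : List (Fin M))
    (h : ∀ D' ∈ claims P (cur P (od i)) (x.map dec), ∀ it ∈ D', dec (enc it) = it) :
    ((CMP2_FM P dec enc od).claims i x).map (List.map dec) =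
      claims P (cur P (od i)) (x.map dec) := by
  rw [CMP2_claims_eq] at h ⊢
  rw [CMP2_fclaims_eq, List.map_tails, List.map_flatMap, List.flatMap_map]
  apply List.flatMap_congr
  intro l hl
  apply CMP2_fb_cb
  intro D' hD'
  apply h D'
  rw [List.mem_flatMap]
  refine ⟨l.map dec, ?_, hD'⟩
  rw [List.map_tails]
  exact List.mem_map_of_mem hl

theorem CMP2_step (i : Fin m) (x : List (Fin M))
    (h : ∀ D' ∈ stepOp P (od i) (x.map dec), ∀ it ∈ D', dec (enc it) = it) :
    ((CMP2_FM P dec enc od).step i x).map (List.map dec) = stepOp P (od i) (x.map dec) := by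
  have h1 := CMP2_main P dec enc od i x (h _ (by unfold stepOp; exact List.mem_cons_self))
  unfold FM.step
  rw [List.map_cons, h1]
  have h2 := CMP2_claims P dec enc od i ((CMP2_FM P dec enc od).main i x) (by
    rw [h1]
    intro D' hD'
    exact h D' (by unfold stepOp; exact List.mem_cons_of_mem _ hD'))
  rw [h2, h1]
  rfl

theorem CMP2_run [Fintype S] (U : Setup S G V) (K L s0 : ℕ) (hK : 1 ≤ K)
    (hd : ∀ x, dec x ∈ CMP2_A U L) (hde : ∀ it ∈ CMP2_A U L, dec (enc it) = it)
    (is : List (Fin m)) :
    ∀ (a b : V) (x : List (Fin M)), OpsOK U a (is.map od) b → Inv U a (x.map dec) →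
      ((CMP2_FM (parOf U K L s0) dec enc od).run is x).map (List.map dec) =
        runOps (parOf U K L s0) (is.map od) (x.map dec) := by
  induction is with
  | nil =>
    intro a b x _ _
    rfl
  | cons i is ih =>
    intro a b x hi hx
    have hc : ∃ c, OpsOK U a [od i] c ∧ OpsOK U c (is.map od) b := by
      rw [List.map_cons] at hi
      generalize od i = j at hi
      cases j with
      | mv y y' =>
        obtain ⟨h1, h2, h3, h4, h5⟩ := hi
        exact ⟨y', ⟨h1, h2, h3, h4, rfl⟩, h5⟩
      | ap s =>
        obtain ⟨h1, h2⟩ := hi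
        exact ⟨U.o, ⟨h1, rfl⟩, h2⟩
    obtain ⟨c, hc1, hc2⟩ := hc
    have hinv := stepOp_inv U K L s0 hK a c (od i) (x.map dec) hc1 hx
    have hlen := stepOp_len U K L s0 (od i) (x.map dec) (by
      intro it hit
      obtain ⟨y, _, rfl⟩ := List.mem_map.1 hit
      exact (hd y).2.2)
    have hA : ∀ D' ∈ stepOp (parOf U K L s0) (od i) (x.map dec), ∀ it ∈ D',
        dec (enc it) = it := by
      intro D' hD' it hit
      have h1 := (hinv D' hD').inV0 it hit
      exact hde it ⟨h1.1, h1.2, hlen D' hD' it hit⟩
    have hstep := CMP2_step (parOf U K L s0) dec enc od i x hA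
    rw [FM.run, List.map_cons, runOps, ← hstep, List.map_flatMap, List.flatMap_map]
    apply List.flatMap_congr
    intro y hy
    have hy2 : y.map dec ∈ stepOp (parOf U K L s0) (od i) (x.map dec) := by
      rw [← hstep]
      exact List.mem_map_of_mem hy
    exact ih c b y hc2 (hinv _ hy2)

end coding

theorem CMP2_lift {α β : Type*} (f : α → β) (l : List β) (h : ∀ x ∈ l, ∃ i, f i = x) :
    ∃ l' : List α, l'.map f = l := by
  induction l with
  | nil => exact ⟨[], rfl⟩
  | cons x l ih =>
    obtain ⟨l', hl'⟩ := ih (fun y hy => h y (List.mem_cons_of_mem _ hy))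
    obtain ⟨i, hi⟩ := h x List.mem_cons_self
    exact ⟨i :: l', by rw [List.map_cons, hl', hi]⟩

theorem exists_table (U : Setup (Fin k × Bool) G V) (K L s0 : ℕ) (hK : 1 ≤ K) :
    ∃ (M m : ℕ) (F : FM M m) (ops : Fin k × Bool → List (Fin m)) (x0 : List (Fin M)),
      ∀ w : List (Fin k × Bool),
        (Acc U K L s0 w ↔ ∃ D ∈ F.run (w.flatMap ops) x0, F.acc D) := by
  have hfin : Finite (CMP2_A U L) := CMP2_A_finite U L
  obtain ⟨M, ⟨eqv⟩⟩ := Finite.exists_equiv_fin (CMP2_A U L)
  have hinit : (Item.hole U.o (1 : G) : Item V G) ∈ CMP2_A U L := by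
    refine ⟨Or.inl rfl, Or.inl rfl, ?_⟩
    show wlen U.e (1 : G) ≤ L
    rw [wlen_one]
    exact Nat.zero_le _
  let dec : Fin M → Item V G := fun x => (eqv.symm x : Item V G)
  let enc : Item V G → Fin M := fun it =>
    if h : it ∈ CMP2_A U L then eqv ⟨it, h⟩ else eqv ⟨_, hinit⟩
  have hd : ∀ x, dec x ∈ CMP2_A U L := fun x => (eqv.symm x).2
  have hde : ∀ it ∈ CMP2_A U L, dec (enc it) = it := by
    intro it hit
    show ((eqv.symm (if h : it ∈ CMP2_A U L then eqv ⟨it, h⟩ else eqv ⟨_, hinit⟩) :
      CMP2_A U L) : Item V G) = it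
    rw [dif_pos hit, Equiv.symm_apply_apply]
  -- operations
  set O : List (Op V (Fin k × Bool)) :=
    (Finset.univ : Finset (Fin k × Bool)).toList.flatMap (opsL U) with hO
  let od : Fin O.length → Op V (Fin k × Bool) := fun i => O.get i
  have hops : ∀ s : Fin k × Bool, ∃ l' : List (Fin O.length), l'.map od = opsL U s := by
    intro s
    apply CMP2_lift
    intro x hx
    have h1 : x ∈ O := by
      rw [hO, List.mem_flatMap]
      exact ⟨s, by simp, hx⟩
    exact List.mem_iff_get.1 h1
  choose ops hops using hops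
  have hw : ∀ w : List (Fin k × Bool), (w.flatMap ops).map od = opsW U w := by
    intro w
    rw [List.map_flatMap, opsW]
    apply List.flatMap_congr
    intro s _
    exact hops s
  have hx0 : [enc (Item.hole U.o (1 : G))].map dec = init U := by
    rw [List.map_cons, hde _ hinit]
    rfl
  refine ⟨M, O.length, CMP2_FM (parOf U K L s0) dec enc od, ops,
    [enc (Item.hole U.o (1 : G))], ?_⟩
  intro w
  have hrun := CMP2_run dec enc od U K L s0 hK hd hde (w.flatMap ops) U.o U.o
    [enc (Item.hole U.o (1 : G))] (by rw [hw]; exact opsW_ok U w)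
    (by rw [hx0]; exact init_inv U)
  rw [hw, hx0] at hrun
  unfold Acc
  rw [← hrun]
  have hacc : ∀ D : List (Fin M), (CMP2_FM (parOf U K L s0) dec enc od).acc D ↔
      accept (parOf U K L s0) (D.map dec) := by
    intro D
    unfold FM.acc accept
    rw [CMP2_cnt, CMP2_holes]
    rfl
  constructor
  · rintro ⟨D, hD, hD2⟩
    obtain ⟨y, hy, rfl⟩ := List.mem_map.1 hD
    exact ⟨y, hy, (hacc y).2 hD2⟩
  · rintro ⟨y, hy, hy2⟩
    exact ⟨y.map dec, List.mem_map_of_mem hy, (hacc y).1 hy2⟩

theorem acc_computable (U : Setup (Fin k × Bool) G V) (K L s0 : ℕ) (hK : 1 ≤ K) :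
    ComputablePred (fun w : List (Fin k × Bool) => Acc U K L s0 w) := by
  obtain ⟨M, m, F, ops, x0, h⟩ := exists_table U K L s0 hK
  have h1 := F.computable ops x0
  have h2 : (fun w : List (Fin k × Bool) => Acc U K L s0 w) =
      (fun w : List (Fin k × Bool) => ∃ D ∈ F.run (w.flatMap ops) x0, F.acc D) :=
    funext fun w => propext (h w)
  rw [h2]
  exact h1

end GWP
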