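import Pool.Agent.H55.GWP.WSM

/-! DEC: from a computable exponentially small superset of the word problem to a partial
algorithm: answer no outside the set, diverge on the set. -/

set_option autoImplicit false
open Classical
namespace GWP

theorem DEC_tendsto (C κ : ℝ) (hC : 0 < C) (hκ0 : 0 < κ) (hκ : κ < 1) (m : ℝ) (hm : 2 ≤ m)
    (b t : ℕ → ℝ) (hb0 : ∀ n, 0 ≤ b n) (ht : ∀ n, m ^ n ≤ t n)
    (hb : ∀ n, b n ≤ ∑ j ∈ Finset.range (n + 1), C * κ ^ j * m ^ j) :
    Filter.Tendsto (fun n => (t n - b n) / t n) Filter.atTop (nhds 1) := by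
  set ρ : ℝ := max κ (1 / 2) with hρ
  have hρ0 : 0 < ρ := lt_of_lt_of_le hκ0 (le_max_left _ _)
  have hρ1 : ρ < 1 := max_lt hκ (by norm_num)
  have hmp : 0 < m := by linarith
  have htp : ∀ n, 0 < t n := fun n => lt_of_lt_of_le (pow_pos hmp n) (ht n)
  have hle : ∀ n : ℕ, b n / t n ≤ C * (((n : ℝ) + 1) * ρ ^ n) := by
    intro n
    have h1 : b n / t n ≤ b n / m ^ n :=
      div_le_div_of_nonneg_left (hb0 n) (pow_pos hmp n) (ht n)
    have h2 : b n / m ^ n ≤ C * (((n : ℝ) + 1) * ρ ^ n) := by
      rw [div_le_iff₀ (pow_pos hmp n)]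
      apply (hb n).trans
      have h3 : C * (((n : ℝ) + 1) * ρ ^ n) * m ^ n =
          ∑ j ∈ Finset.range (n + 1), C * (ρ ^ n * m ^ n) := by
        rw [Finset.sum_const, Finset.card_range, nsmul_eq_mul]
        push_cast
        ring
      rw [h3]
      apply Finset.sum_le_sum
      intro j hj
      rw [Finset.mem_range] at hj
      rw [mul_assoc]
      apply mul_le_mul_of_nonneg_left _ hC.le
      have h4 : m ^ n = m ^ j * m ^ (n - j) := by
        rw [← pow_add]
        congr 1
        omega
      have h5 : ρ ^ n = ρ ^ j * ρ ^ (n - j) := by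
        rw [← pow_add]
        congr 1
        omega
      have h6 : κ ^ j ≤ ρ ^ j := pow_le_pow_left₀ hκ0.le (le_max_left _ _) j
      have h7 : 1 ≤ (ρ * m) ^ (n - j) := by
        apply one_le_pow₀
        have h8 : (1 / 2 : ℝ) ≤ ρ := le_max_right _ _
        nlinarith
      rw [h4, h5]
      have h9 : ρ ^ j * ρ ^ (n - j) * (m ^ j * m ^ (n - j)) =
          (ρ ^ j * m ^ j) * (ρ * m) ^ (n - j) := by
        rw [mul_pow]
        ring
      rw [h9]
      have h10 : κ ^ j * m ^ j ≤ ρ ^ j * m ^ j :=
        mul_le_mul_of_nonneg_right h6 (pow_pos hmp j).le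
      apply h10.trans
      exact le_mul_of_one_le_right (mul_nonneg (pow_pos hρ0 j).le (pow_pos hmp j).le) h7
    exact h1.trans h2
  have hlim : Filter.Tendsto (fun n : ℕ => C * (((n : ℝ) + 1) * ρ ^ n)) Filter.atTop
      (nhds 0) := by
    have h1 := tendsto_self_mul_const_pow_of_lt_one hρ0.le hρ1
    have h2 := tendsto_pow_atTop_nhds_zero_of_lt_one hρ0.le hρ1
    have h3 := (h1.add h2).const_mul C
    rw [add_zero, mul_zero] at h3
    refine h3.congr ?_
    intro n
    ring
  have h0 : Filter.Tendsto (fun n => b n / t n) Filter.atTop (nhds 0) :=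
    squeeze_zero (fun n => div_nonneg (hb0 n) (htp n).le) hle hlim
  have h1 := h0.const_sub 1
  rw [sub_zero] at h1
  refine h1.congr ?_
  intro n
  rw [sub_div, div_self (htp n).ne']

theorem generic_of_exp {k : ℕ} (hk : 1 ≤ k) (rels : Set (FreeGroup (Fin k)))
    (A : List (Fin k × Bool) → Prop) (hA : ComputablePred A)
    (hs : ∀ w, FreeGroup.mk w ∈ Subgroup.normalClosure rels → A w)
    (C κ : ℝ) (hC : 0 < C) (hκ0 : 0 < κ) (hκ : κ < 1)
    (hb : ∀ n : ℕ, wsum n (fun w : List (Fin k × Bool) => if A w then (1 : ℝ) else 0) ≤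
      C * κ ^ n * (Fintype.card (Fin k × Bool) : ℝ) ^ n) :
    ∃ f : List (Fin k × Bool) →. Bool,
      Partrec f ∧
      (∀ w : List (Fin k × Bool), ∀ b ∈ f w,
        (b = true ↔ FreeGroup.mk w ∈ Subgroup.normalClosure rels)) ∧
      (∀ n : ℕ, ({w : List (Fin k × Bool) | w.length = n ∧ ¬ (f w).Dom}.ncard : ℝ) ≤
        C * κ ^ n * ({w : List (Fin k × Bool) | w.length = n}.ncard : ℝ)) ∧
      Filter.Tendsto
        (fun n : ℕ =>
          ({w : List (Fin k × Bool) | w.length ≤ n ∧ (f w).Dom}.ncard : ℝ) /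
            ({w : List (Fin k × Bool) | w.length ≤ n}.ncard : ℝ))
        Filter.atTop (nhds 1) := by
  obtain ⟨hD, hc⟩ := hA
  set f : List (Fin k × Bool) →. Bool :=
    fun w => cond (@decide (A w) (hD w)) Part.none (Part.some false) with hf
  have hdom : ∀ w, (f w).Dom ↔ ¬ A w := by
    intro w
    rw [hf]
    by_cases h : A w
    · simp [h]
    · simp [h]
  have hcard : ∀ n : ℕ, ({w : List (Fin k × Bool) | w.length = n}.ncard : ℝ) =
      (Fintype.card (Fin k × Bool) : ℝ) ^ n := by
    intro n
    have h1 := wsum_ncard (S := Fin k × Bool) n (fun _ => True)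
    simp only [and_true, if_true] at h1
    rw [h1, wsum_const, one_mul]
  have hbad : ∀ n : ℕ, ({w : List (Fin k × Bool) | w.length = n ∧ A w}.ncard : ℝ) ≤
      C * κ ^ n * (Fintype.card (Fin k × Bool) : ℝ) ^ n := by
    intro n
    rw [wsum_ncard]
    exact hb n
  refine ⟨f, ?_, ?_, ?_, ?_⟩
  · exact Partrec.cond hc Partrec.none (Computable.const false).partrec
  · intro w b hb'
    have h1 : ¬ A w := (hdom w).1 (Part.dom_iff_mem.2 ⟨b, hb'⟩)
    have h2 : f w = Part.some false := by
      rw [hf]
      simp [h1]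
    rw [h2, Part.mem_some_iff] at hb'
    subst hb'
    constructor
    · intro h
      exact absurd h (by simp)
    · intro h
      exact absurd (hs w h) h1
  · intro n
    rw [hcard]
    have h1 : {w : List (Fin k × Bool) | w.length = n ∧ ¬ (f w).Dom} =
        {w : List (Fin k × Bool) | w.length = n ∧ A w} := by
      ext w
      simp only [Set.mem_setOf_eq, hdom, not_not]
    rw [h1]
    exact hbad n
  · have hfin : ∀ n : ℕ, {w : List (Fin k × Bool) | w.length ≤ n}.Finite :=
      fun n => List.finite_length_le _ n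
    have hsplit : ∀ n : ℕ, ({w : List (Fin k × Bool) | w.length ≤ n ∧ (f w).Dom}.ncard : ℝ) =
        ({w : List (Fin k × Bool) | w.length ≤ n}.ncard : ℝ) -
          ({w : List (Fin k × Bool) | w.length ≤ n ∧ A w}.ncard : ℝ) := by
      intro n
      have h1 : {w : List (Fin k × Bool) | w.length ≤ n ∧ (f w).Dom} =
          {w : List (Fin k × Bool) | w.length ≤ n} \
            {w : List (Fin k × Bool) | w.length ≤ n ∧ A w} := by
        ext w
        simp only [Set.mem_setOf_eq, hdom, Set.mem_diff]
        tauto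
      have hsub : {w : List (Fin k × Bool) | w.length ≤ n ∧ A w} ⊆
          {w : List (Fin k × Bool) | w.length ≤ n} := fun w hw => hw.1
      rw [h1, Set.ncard_sdiff hsub ((hfin n).subset hsub),
        Nat.cast_sub (Set.ncard_le_ncard hsub (hfin n))]
    have hB : ∀ n : ℕ, ({w : List (Fin k × Bool) | w.length ≤ n ∧ A w}.ncard : ℝ) ≤
        ∑ j ∈ Finset.range (n + 1), C * κ ^ j * (Fintype.card (Fin k × Bool) : ℝ) ^ j := by
      intro n
      induction n with
      | zero =>
        have h1 : {w : List (Fin k × Bool) | w.length ≤ 0 ∧ A w} =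
            {w : List (Fin k × Bool) | w.length = 0 ∧ A w} := by
          ext w
          simp only [Set.mem_setOf_eq, Nat.le_zero]
        rw [h1, Finset.sum_range_one]
        exact hbad 0
      | succ n ih =>
        have h1 : {w : List (Fin k × Bool) | w.length ≤ n + 1 ∧ A w} =
            {w : List (Fin k × Bool) | w.length ≤ n ∧ A w} ∪
              {w : List (Fin k × Bool) | w.length = n + 1 ∧ A w} := by
          ext w
          simp only [Set.mem_setOf_eq, Set.mem_union]
          constructor
          · rintro ⟨h2, h3⟩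
            rcases Nat.lt_or_ge n w.length with h4 | h4
            · exact Or.inr ⟨by omega, h3⟩
            · exact Or.inl ⟨h4, h3⟩
          · rintro (⟨h2, h3⟩ | ⟨h2, h3⟩)
            · exact ⟨by omega, h3⟩
            · exact ⟨by omega, h3⟩
        rw [Finset.sum_range_succ, h1]
        have h2 := Set.ncard_union_le {w : List (Fin k × Bool) | w.length ≤ n ∧ A w}
          {w : List (Fin k × Bool) | w.length = n + 1 ∧ A w}
        have h3 : (({w : List (Fin k × Bool) | w.length ≤ n ∧ A w} ∪
              {w : List (Fin k × Bool) | w.length = n + 1 ∧ A w}).ncard : ℝ) ≤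
            ({w : List (Fin k × Bool) | w.length ≤ n ∧ A w}.ncard : ℝ) +
              ({w : List (Fin k × Bool) | w.length = n + 1 ∧ A w}.ncard : ℝ) := by
          exact_mod_cast h2
        exact h3.trans (add_le_add ih (hbad (n + 1)))
    have ht : ∀ n : ℕ, (Fintype.card (Fin k × Bool) : ℝ) ^ n ≤
        ({w : List (Fin k × Bool) | w.length ≤ n}.ncard : ℝ) := by
      intro n
      rw [← hcard]
      have hsub : {w : List (Fin k × Bool) | w.length = n} ⊆
          {w : List (Fin k × Bool) | w.length ≤ n} := fun w hw => le_of_eq hw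
      exact_mod_cast Set.ncard_le_ncard hsub (hfin n)
    have hm : (2 : ℝ) ≤ (Fintype.card (Fin k × Bool) : ℝ) := by
      rw [Fintype.card_prod, Fintype.card_fin, Fintype.card_bool]
      exact_mod_cast (by omega : 2 ≤ k * 2)
    have h1 := DEC_tendsto C κ hC hκ0 hκ _ hm
      (fun n => ({w : List (Fin k × Bool) | w.length ≤ n ∧ A w}.ncard : ℝ))
      (fun n => ({w : List (Fin k × Bool) | w.length ≤ n}.ncard : ℝ))
      (fun n => Nat.cast_nonneg _) ht hB
    refine h1.congr ?_
    intro n
    rw [hsplit]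

end GWP
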