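import Pool.Agent.H55.GWP.SCH
import Pool.Agent.H55.GWP.DEC

/-! COC: a subgroup of infinite index with computably enumerable complement that contains the
relators gives a generic algorithm. -/

set_option autoImplicit false
open Classical
namespace GWP

/-- weighted averages of a null sequence with exponentially growing weights -/
theorem COC_avg (m : ℝ) (hm : 2 ≤ m) (p : ℕ → ℝ) (hp0 : ∀ n, 0 ≤ p n)
    (hp : Filter.Tendsto p Filter.atTop (nhds 0)) :
    Filter.Tendsto (fun n : ℕ => (∑ j ∈ Finset.range (n + 1), p j * m ^ j) / m ^ n)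
      Filter.atTop (nhds 0) := by
  have hmp : 0 < m := by linarith
  -- recursion `u (n+1) = u n / m + p (n+1)`
  set u : ℕ → ℝ := fun n => (∑ j ∈ Finset.range (n + 1), p j * m ^ j) / m ^ n with hu
  have hrec : ∀ n, u (n + 1) = u n / m + p (n + 1) := by
    intro n
    simp only [hu]
    rw [Finset.sum_range_succ _ (n + 1), add_div]
    congr 1
    · rw [pow_succ, div_div]
    · rw [mul_div_assoc, div_self (pow_pos hmp _).ne', mul_one]
  have hu0 : ∀ n, 0 ≤ u n := fun n =>
    div_nonneg (Finset.sum_nonneg fun j _ => mul_nonneg (hp0 j) (pow_pos hmp j).le)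
      (pow_pos hmp n).le
  rw [Metric.tendsto_atTop]
  intro ε hε
  obtain ⟨J, hJ⟩ := (Metric.tendsto_atTop.1 hp) (ε / 4) (by positivity)
  have hJ' : ∀ n, J ≤ n → p n < ε / 4 := by
    intro n hn
    have := hJ n hn
    rw [Real.dist_eq, sub_zero] at this
    exact (abs_lt.1 this).2
  -- `u (J + k) ≤ u J / 2 ^ k + ε / 2`
  have hk : ∀ k : ℕ, u (J + k) ≤ u J / 2 ^ k + ε / 2 := by
    intro k
    induction k with
    | zero => simp; linarith
    | succ k ih =>
      have h1 := hrec (J + k)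
      have h2 := hJ' (J + k + 1) (by omega)
      have h3 : u (J + k) / m ≤ u (J + k) / 2 :=
        div_le_div_of_nonneg_left (hu0 _) (by norm_num) hm
      have h4 : u J / 2 ^ (k + 1) = u J / 2 ^ k / 2 := by
        rw [pow_succ, div_mul_eq_div_div]
      rw [← add_assoc, h1, h4]
      linarith
  obtain ⟨k₀, hk₀⟩ : ∃ k₀ : ℕ, ∀ k, k₀ ≤ k → u J / 2 ^ k < ε / 2 := by
    have h5 : Filter.Tendsto (fun k : ℕ => u J * (1 / 2 : ℝ) ^ k) Filter.atTop (nhds 0) := by
      have := (tendsto_pow_atTop_nhds_zero_of_lt_one (r := (1 / 2 : ℝ)) (by norm_num)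
        (by norm_num)).const_mul (u J)
      simpa using this
    obtain ⟨k₀, hk₀⟩ := (Metric.tendsto_atTop.1 h5) (ε / 2) (by positivity)
    refine ⟨k₀, fun k hk => ?_⟩
    have := hk₀ k hk
    rw [Real.dist_eq, sub_zero] at this
    have h6 := (abs_lt.1 this).2
    have h7 : u J / 2 ^ k = u J * (1 / 2 : ℝ) ^ k := by
      rw [one_div, inv_pow]
      rfl
    rw [h7]
    exact h6
  refine ⟨J + k₀, fun n hn => ?_⟩
  obtain ⟨k, rfl⟩ : ∃ k, n = J + k := ⟨n - J, by omega⟩
  rw [Real.dist_eq, sub_zero, abs_of_nonneg (hu0 _)]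
  have := hk k
  have := hk₀ k (by omega)
  show u (J + k) < ε
  linarith

theorem COC_density {k : ℕ} (hk : 1 ≤ k) (A : List (Fin k × Bool) → Prop) (p : ℕ → ℝ)
    (hp0 : ∀ n, 0 ≤ p n) (hp : Filter.Tendsto p Filter.atTop (nhds 0))
    (hbad : ∀ n : ℕ, ({w : List (Fin k × Bool) | w.length = n ∧ A w}.ncard : ℝ) ≤
      p n * (Fintype.card (Fin k × Bool) : ℝ) ^ n) :
    Filter.Tendsto
        (fun n : ℕ =>
          ({w : List (Fin k × Bool) | w.length ≤ n ∧ ¬ A w}.ncard : ℝ) /
            ({w : List (Fin k × Bool) | w.length ≤ n}.ncard : ℝ))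
        Filter.atTop (nhds 1) := by
  have hcard : ∀ n : ℕ, ({w : List (Fin k × Bool) | w.length = n}.ncard : ℝ) =
      (Fintype.card (Fin k × Bool) : ℝ) ^ n := by
    intro n
    have h1 := wsum_ncard (S := Fin k × Bool) n (fun _ => True)
    simp only [and_true, if_true] at h1
    rw [h1, wsum_const, one_mul]
  have hfin : ∀ n : ℕ, {w : List (Fin k × Bool) | w.length ≤ n}.Finite :=
    fun n => List.finite_length_le _ n
  have hsplit : ∀ n : ℕ, ({w : List (Fin k × Bool) | w.length ≤ n ∧ ¬ A w}.ncard : ℝ) =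
      ({w : List (Fin k × Bool) | w.length ≤ n}.ncard : ℝ) -
        ({w : List (Fin k × Bool) | w.length ≤ n ∧ A w}.ncard : ℝ) := by
    intro n
    have h1 : {w : List (Fin k × Bool) | w.length ≤ n ∧ ¬ A w} =
        {w : List (Fin k × Bool) | w.length ≤ n} \
          {w : List (Fin k × Bool) | w.length ≤ n ∧ A w} := by
      ext w
      constructor
      · rintro ⟨h2, h3⟩
        exact ⟨h2, fun h4 => h3 h4.2⟩
      · rintro ⟨h2, h3⟩
        exact ⟨h2, fun h4 => h3 ⟨h2, h4⟩⟩
    have hsub : {w : List (Fin k × Bool) | w.length ≤ n ∧ A w} ⊆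
        {w : List (Fin k × Bool) | w.length ≤ n} := fun w hw => hw.1
    rw [h1, Set.ncard_sdiff hsub ((hfin n).subset hsub),
      Nat.cast_sub (Set.ncard_le_ncard hsub (hfin n))]
  have hB : ∀ n : ℕ, ({w : List (Fin k × Bool) | w.length ≤ n ∧ A w}.ncard : ℝ) ≤
      ∑ j ∈ Finset.range (n + 1), p j * (Fintype.card (Fin k × Bool) : ℝ) ^ j := by
    intro n
    induction n with
    | zero =>
      have h1 : {w : List (Fin k × Bool) | w.length ≤ 0 ∧ A w} =
          {w : List (Fin k × Bool) | w.length = 0 ∧ A w} := by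
        ext w
        constructor
        · rintro ⟨h2, h3⟩
          exact ⟨Nat.le_zero.1 h2, h3⟩
        · rintro ⟨h2, h3⟩
          exact ⟨Nat.le_zero.2 h2, h3⟩
      rw [h1, Finset.sum_range_one]
      exact hbad 0
    | succ n ih =>
      have h1 : {w : List (Fin k × Bool) | w.length ≤ n + 1 ∧ A w} =
          {w : List (Fin k × Bool) | w.length ≤ n ∧ A w} ∪
            {w : List (Fin k × Bool) | w.length = n + 1 ∧ A w} := by
        ext w
        constructor
        · rintro ⟨h2, h3⟩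
          rcases Nat.lt_or_ge n w.length with h4 | h4
          · exact Or.inr ⟨by omega, h3⟩
          · exact Or.inl ⟨h4, h3⟩
        · rintro (⟨h2, h3⟩ | ⟨h2, h3⟩)
          · exact ⟨by omega, h3⟩
          · exact ⟨by omega, h3⟩
      rw [Finset.sum_range_succ, h1]
      have h2 := Set.ncard_union_le {w : List (Fin k × Bool) | w.length ≤ n ∧ A w}
        {w : List (Fin k × Bool) | w.length = n + 1 ∧ A w}
      have h3 : (({w : List (Fin k × Bool) | w.length ≤ n ∧ A w} ∪
            {w : List (Fin k × Bool) | w.length = n + 1 ∧ A w}).ncard : ℝ) ≤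
          ({w : List (Fin k × Bool) | w.length ≤ n ∧ A w}.ncard : ℝ) +
            ({w : List (Fin k × Bool) | w.length = n + 1 ∧ A w}.ncard : ℝ) := by
        exact_mod_cast h2
      exact h3.trans (add_le_add ih (hbad (n + 1)))
  have ht : ∀ n : ℕ, (Fintype.card (Fin k × Bool) : ℝ) ^ n ≤
      ({w : List (Fin k × Bool) | w.length ≤ n}.ncard : ℝ) := by
    intro n
    rw [← hcard]
    have hsub : {w : List (Fin k × Bool) | w.length = n} ⊆
        {w : List (Fin k × Bool) | w.length ≤ n} := fun w hw => le_of_eq hw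
    exact_mod_cast Set.ncard_le_ncard hsub (hfin n)
  have hm : (2 : ℝ) ≤ (Fintype.card (Fin k × Bool) : ℝ) := by
    rw [Fintype.card_prod, Fintype.card_fin, Fintype.card_bool]
    exact_mod_cast (by omega : 2 ≤ k * 2)
  have hmp : (0 : ℝ) < (Fintype.card (Fin k × Bool) : ℝ) := by linarith
  have htp : ∀ n : ℕ, (0 : ℝ) < ({w : List (Fin k × Bool) | w.length ≤ n}.ncard : ℝ) :=
    fun n => lt_of_lt_of_le (pow_pos hmp n) (ht n)
  have h0 : Filter.Tendsto (fun n : ℕ =>
      ({w : List (Fin k × Bool) | w.length ≤ n ∧ A w}.ncard : ℝ) /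
        ({w : List (Fin k × Bool) | w.length ≤ n}.ncard : ℝ)) Filter.atTop (nhds 0) := by
    refine squeeze_zero (fun n => div_nonneg (Nat.cast_nonneg _) (htp n).le) (fun n => ?_)
      (COC_avg _ hm p hp0 hp)
    refine (div_le_div_of_nonneg_left (Nat.cast_nonneg _) (pow_pos hmp n) (ht n)).trans ?_
    exact div_le_div_of_nonneg_right (hB n) (pow_pos hmp n).le
  have h1 := h0.const_sub 1
  rw [sub_zero] at h1
  refine h1.congr ?_
  intro n
  rw [hsplit, sub_div, div_self (htp n).ne']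

theorem COC_ev {k : ℕ} (w : List (Fin k × Bool)) :
    ev (fun s => (FreeGroup.mk [s] : FreeGroup (Fin k))) w = FreeGroup.mk w := by
  induction w with
  | nil => rw [← FreeGroup.one_eq_mk]; rfl
  | cons s w ih =>
    have : FreeGroup.mk (s :: w) = FreeGroup.mk [s] * FreeGroup.mk w := by
      rw [FreeGroup.mul_mk]; rfl
    rw [this, ← ih]
    rfl

/-- The share of the words of length `n` in a subgroup of infinite index tends to zero. -/
theorem COC_share {k : ℕ} (hk : 1 ≤ k) (H : Subgroup (FreeGroup (Fin k)))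
    (hidx : H.index = 0) :
    ∃ p : ℕ → ℝ, (∀ n, 0 ≤ p n) ∧ Filter.Tendsto p Filter.atTop (nhds 0) ∧
      ∀ n : ℕ, ({w : List (Fin k × Bool) | w.length = n ∧ FreeGroup.mk w ∈ H}.ncard : ℝ) ≤
        p n * (Fintype.card (Fin k × Bool) : ℝ) ^ n := by
  have hne : Nonempty (Fin k × Bool) := ⟨(⟨0, hk⟩, true)⟩
  have hinf : Infinite (FreeGroup (Fin k) ⧸ H) := by
    have h1 : Nat.card (FreeGroup (Fin k) ⧸ H) = 0 := hidx
    rcases Nat.card_eq_zero.1 h1 with h2 | h2
    · exact absurd (⟨((1 : FreeGroup (Fin k)) : FreeGroup (Fin k) ⧸ H)⟩ :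
        Nonempty (FreeGroup (Fin k) ⧸ H)) (not_nonempty_iff.2 h2)
    · exact h2
  obtain ⟨π, hπ⟩ := exists_rep (FreeGroup (Fin k)) (FreeGroup (Fin k) ⧸ H)
  set e : Fin k × Bool → FreeGroup (Fin k) := fun s => FreeGroup.mk [s] with he
  set x₀ : FreeGroup (Fin k) ⧸ H := ((1 : FreeGroup (Fin k)) : FreeGroup (Fin k) ⧸ H) with hx₀
  set δ : lp (fun _ : FreeGroup (Fin k) ⧸ H => ℝ) 2 := lp.single 2 x₀ (1 : ℝ) with hδ
  have hinv : ∀ s : Fin k × Bool, (fun s : Fin k × Bool => (s.1, !s.2))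
      ((fun s : Fin k × Bool => (s.1, !s.2)) s) = s := fun s => by simp
  have heinv : ∀ s : Fin k × Bool, e ((fun s : Fin k × Bool => (s.1, !s.2)) s) = (e s)⁻¹ :=
    fun s => rfl
  have htr : ∀ x y : FreeGroup (Fin k) ⧸ H, ∃ w : List (Fin k × Bool), ev e w • x = y := by
    intro x y
    obtain ⟨a, rfl⟩ := QuotientGroup.mk_surjective x
    obtain ⟨b, rfl⟩ := QuotientGroup.mk_surjective y
    refine ⟨(b * a⁻¹).toWord, ?_⟩
    rw [he, COC_ev, FreeGroup.mk_toWord]
    show ((b * a⁻¹ * a : FreeGroup (Fin k)) : FreeGroup (Fin k) ⧸ H) = _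
    rw [inv_mul_cancel_right]
  have htend := SCH_tendsto e (fun s : Fin k × Bool => (s.1, !s.2)) hinv heinv π δ hπ htr
  refine ⟨fun n => ‖SCH_x e π δ n‖, fun n => norm_nonneg _, htend, fun n => ?_⟩
  rw [wsum_ncard]
  have h1 := SCH_x_wsum e π δ n
  -- evaluate at the base coset
  let evx : lp (fun _ : FreeGroup (Fin k) ⧸ H => ℝ) 2 →+ ℝ :=
    { toFun := fun f => (f : ∀ _ : FreeGroup (Fin k) ⧸ H, ℝ) x₀
      map_zero' := rfl
      map_add' := fun f f' => rfl }
  have h2 : evx (wsum n (fun w : List (Fin k × Bool) => π (ev e w) δ)) =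
      wsum n (fun w => evx (π (ev e w) δ)) := wsum_map evx n _
  have h3 : ∀ w : List (Fin k × Bool), evx (π (ev e w) δ) =
      if FreeGroup.mk w ∈ H then (1 : ℝ) else 0 := by
    intro w
    show (π (ev e w) δ : ∀ _ : FreeGroup (Fin k) ⧸ H, ℝ) x₀ = _
    rw [hπ, he, COC_ev]
    have h4 : (FreeGroup.mk w)⁻¹ • x₀ =
        (((FreeGroup.mk w)⁻¹ : FreeGroup (Fin k)) : FreeGroup (Fin k) ⧸ H) := by
      show (((FreeGroup.mk w)⁻¹ * 1 : FreeGroup (Fin k)) : FreeGroup (Fin k) ⧸ H) = _
      rw [mul_one]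
    rw [h4]
    by_cases hw : FreeGroup.mk w ∈ H
    · rw [if_pos hw]
      have h5 : (((FreeGroup.mk w)⁻¹ : FreeGroup (Fin k)) : FreeGroup (Fin k) ⧸ H) = x₀ := by
        rw [hx₀, QuotientGroup.eq, inv_inv, mul_one]
        exact hw
      rw [h5, hδ]
      exact lp.single_apply_self (E := fun _ : FreeGroup (Fin k) ⧸ H => ℝ) 2 x₀ (1 : ℝ)
    · rw [if_neg hw]
      have h5 : (((FreeGroup.mk w)⁻¹ : FreeGroup (Fin k)) : FreeGroup (Fin k) ⧸ H) ≠ x₀ := by
        rw [hx₀, Ne, QuotientGroup.eq, inv_inv, mul_one]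
        exact hw
      rw [hδ]
      exact lp.single_apply_ne (E := fun _ : FreeGroup (Fin k) ⧸ H => ℝ) 2 x₀ (1 : ℝ) h5
  have h4 : wsum n (fun w : List (Fin k × Bool) => if FreeGroup.mk w ∈ H then (1 : ℝ) else 0) =
      (Fintype.card (Fin k × Bool) : ℝ) ^ n *
        (SCH_x e π δ n : ∀ _ : FreeGroup (Fin k) ⧸ H, ℝ) x₀ := by
    rw [show (fun w : List (Fin k × Bool) => if FreeGroup.mk w ∈ H then (1 : ℝ) else 0) =
      fun w => evx (π (ev e w) δ) from funext fun w => (h3 w).symm]
    rw [← h2, h1]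
    rfl
  rw [h4, mul_comm]
  apply mul_le_mul_of_nonneg_right _ (by positivity)
  have h5 := lp.norm_apply_le_norm (p := 2) (by norm_num) (SCH_x e π δ n) x₀
  exact (le_abs_self _).trans h5

theorem coc_generic {k : ℕ} (rels : Set (FreeGroup (Fin k)))
    (H : Subgroup (FreeGroup (Fin k))) (hnorm : Subgroup.normalClosure rels ≤ H)
    (hidx : H.index = 0)
    (hce : REPred (fun w : List (Fin k × Bool) => FreeGroup.mk w ∉ H)) :
    ∃ f : List (Fin k × Bool) →. Bool,
      Partrec f ∧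
      (∀ w : List (Fin k × Bool), ∀ b ∈ f w,
        (b = true ↔ FreeGroup.mk w ∈ Subgroup.normalClosure rels)) ∧
      Filter.Tendsto
        (fun n : ℕ =>
          ({w : List (Fin k × Bool) | w.length ≤ n ∧ (f w).Dom}.ncard : ℝ) /
            ({w : List (Fin k × Bool) | w.length ≤ n}.ncard : ℝ))
        Filter.atTop (nhds 1) := by
  have hk : 1 ≤ k := by
    by_contra hk0
    have hk0' : k = 0 := by omega
    subst hk0'
    have : H = ⊤ := by
      rw [eq_top_iff]
      intro x _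
      have : x = 1 := Subsingleton.elim _ _
      rw [this]
      exact H.one_mem
    rw [this, Subgroup.index_top] at hidx
    exact one_ne_zero hidx
  set f : List (Fin k × Bool) →. Bool := fun w =>
    (Part.assert (FreeGroup.mk w ∉ H) (fun _ => Part.some ())).map (fun _ => false) with hf
  have hdom : ∀ w, (f w).Dom ↔ FreeGroup.mk w ∉ H := by
    intro w
    constructor
    · intro h
      obtain ⟨h1, _⟩ := h
      exact h1
    · intro h
      exact ⟨h, trivial⟩
  obtain ⟨p, hp0, hp, hb⟩ := COC_share hk H hidx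
  refine ⟨f, ?_, ?_, ?_⟩
  · exact Partrec.map hce ((Computable.const false).to₂)
  · intro w b hb'
    have h1 : FreeGroup.mk w ∉ H := (hdom w).1 (Part.dom_iff_mem.2 ⟨b, hb'⟩)
    rw [hf, Part.mem_map_iff] at hb'
    obtain ⟨_, _, h2⟩ := hb'
    subst h2
    constructor
    · intro h
      exact absurd h (by simp)
    · intro h
      exact absurd (hnorm h) h1
  · have h1 := COC_density hk (fun w => FreeGroup.mk w ∈ H) p hp0 hp hb
    refine h1.congr ?_
    intro n
    have h2 : {w : List (Fin k × Bool) | w.length ≤ n ∧ (f w).Dom} =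
        {w : List (Fin k × Bool) | w.length ≤ n ∧ ¬ FreeGroup.mk w ∈ H} := by
      ext w
      exact and_congr_right fun _ => hdom w
    rw [h2]

end GWP
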