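import Pool.Agent.H55.GWP.WSM

/-! CTA: from a uniform drift to an exponential contraction.
Use `exp(-t) ≤ 1 - t + t²` for `|t| ≤ 1`, with `α` small; the increment of `F x` over a word of
length `m` is at most `|A| m` in absolute value (equivariance, telescoping). -/

set_option autoImplicit false
open Classical
namespace GWP

/-- The increment over a product. -/
theorem CTA_split {G V : Type*} [Group G] [MulAction G V] (o : V) (F : V → V → ℝ)
    (hF : ∀ (g : G) x y, F (g • x) (g • y) = F x y) (g h : G) (x : V) :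
    F x ((g * h) • o) - F x o =
      (F (g⁻¹ • x) (h • o) - F (g⁻¹ • x) o) + (F x (g • o) - F x o) := by
  have h1 : F (g⁻¹ • x) (h • o) = F x ((g * h) • o) := by
    rw [← hF g (g⁻¹ • x) (h • o), smul_inv_smul, mul_smul]
  have h2 : F (g⁻¹ • x) o = F x (g • o) := by
    rw [← hF g (g⁻¹ • x) o, smul_inv_smul]
  rw [h1, h2]
  ring

/-- The increment over a word. -/
theorem CTA_word {S G V : Type*} [Group G] [MulAction G V]
    (e : S → G) (o : V) (F : V → V → ℝ) (hF : ∀ (g : G) x y, F (g • x) (g • y) = F x y)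
    (A : ℝ) (hA : ∀ s x, |F x (e s • o) - F x o| ≤ A) (w : List S) :
    ∀ x, |F x (ev e w • o) - F x o| ≤ w.length * A := by
  induction w with
  | nil => intro x; rw [ev_nil, one_smul]; simp
  | cons s w ih =>
    intro x
    rw [ev_cons, CTA_split o F hF, List.length_cons]
    refine (abs_add_le _ _).trans ?_
    push_cast
    linarith [ih ((e s)⁻¹ • x), hA s x]

theorem contraction_of_drift {S G V : Type*} [Fintype S] [Nonempty S] [Group G] [MulAction G V]
    (e : S → G) (o : V) (F : V → V → ℝ) (hF : ∀ (g : G) x y, F (g • x) (g • y) = F x y)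
    (A : ℝ) (hA : ∀ s x, |F x (e s • o) - F x o| ≤ A)
    (m : ℕ) (c : ℝ) (hc : 0 < c)
    (drift : ∀ x, c * (Fintype.card S : ℝ) ^ m ≤
      wsum m (fun w => F x (ev e w • o) - F x o)) :
    ∃ α : ℝ, 0 < α ∧ ∃ κ : ℝ, 0 < κ ∧ κ < 1 ∧ ∀ x,
      wsum m (fun w => Real.exp (-(α * (F x (ev e w • o) - F x o)))) ≤
        κ * (Fintype.card S : ℝ) ^ m := by
  have hA0 : 0 ≤ A := (abs_nonneg _).trans (hA (Classical.arbitrary S) o)
  obtain ⟨M, hM⟩ : ∃ M : ℝ, M = m * A + 1 := ⟨_, rfl⟩
  have hM1 : 1 ≤ M := by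
    rw [hM]
    have : 0 ≤ (m : ℝ) * A := by positivity
    linarith
  have hM0 : 0 < M := by linarith
  obtain ⟨α, hα⟩ : ∃ α : ℝ, α = min (1 / M) (c / (2 * M ^ 2)) := ⟨_, rfl⟩
  have hα0 : 0 < α := by rw [hα]; exact lt_min (by positivity) (by positivity)
  have h1 : α * M ≤ 1 := by
    have : α ≤ 1 / M := by rw [hα]; exact min_le_left _ _
    rwa [le_div_iff₀ hM0] at this
  have h2 : α * M ^ 2 ≤ c / 2 := by
    have : α ≤ c / (2 * M ^ 2) := by rw [hα]; exact min_le_right _ _
    rw [le_div_iff₀ (by positivity)] at this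
    linarith
  obtain ⟨N, hN⟩ : ∃ N : ℝ, N = (Fintype.card S : ℝ) ^ m := ⟨_, rfl⟩
  have hN0 : 0 ≤ N := by rw [hN]; positivity
  refine ⟨α, hα0, max (1 - α * c / 2) (1 / 2), lt_max_of_lt_right (by norm_num),
    max_lt (by have := mul_pos hα0 hc; linarith) (by norm_num), fun x => ?_⟩
  have h3 : wsum m (fun w => Real.exp (-(α * (F x (ev e w • o) - F x o)))) ≤
      wsum m (fun w => (1 + α * (α * M ^ 2)) + (-α) * (F x (ev e w • o) - F x o)) := by
    refine wsum_le m _ _ fun w hw => ?_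
    obtain ⟨t, ht⟩ : ∃ t : ℝ, t = F x (ev e w • o) - F x o := ⟨_, rfl⟩
    have h4 : |t| ≤ M := by
      have h5 := CTA_word e o F hF A hA w x
      rw [hw, ← ht] at h5
      rw [hM]
      linarith
    have h6 : |-(α * t)| ≤ 1 := by
      rw [abs_neg, abs_mul, abs_of_pos hα0]
      exact (mul_le_mul_of_nonneg_left h4 hα0.le).trans h1
    have h7 := (abs_le.1 (Real.abs_exp_sub_one_sub_id_le h6)).2
    have h8 : (-(α * t)) ^ 2 ≤ α * (α * M ^ 2) := by
      have h9 : t ^ 2 ≤ M ^ 2 := sq_le_sq' (by linarith [(abs_le.1 h4).1]) (abs_le.1 h4).2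
      have h10 : (-(α * t)) ^ 2 = α ^ 2 * t ^ 2 := by ring
      rw [h10]
      have h11 : α * (α * M ^ 2) = α ^ 2 * M ^ 2 := by ring
      rw [h11]
      exact mul_le_mul_of_nonneg_left h9 (by positivity)
    rw [← ht]
    linarith
  refine h3.trans ?_
  rw [wsum_add, wsum_const, wsum_mul, ← hN]
  have h12 := mul_le_mul_of_nonneg_left (drift x) hα0.le
  rw [← hN] at h12
  have h13 : α * (α * M ^ 2) ≤ α * (c / 2) := mul_le_mul_of_nonneg_left h2 hα0.le
  have h14 := mul_le_mul_of_nonneg_right h13 hN0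
  calc (1 + α * (α * M ^ 2)) * N + -α * wsum m (fun w => F x (ev e w • o) - F x o)
      ≤ (1 - α * c / 2) * N := by linarith
    _ ≤ max (1 - α * c / 2) (1 / 2) * N := mul_le_mul_of_nonneg_right (le_max_left _ _) hN0

end GWP
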