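import Pool.Agent.H55.GWP.WSM

/-! CTB: iteration of the contraction: submultiplicativity by equivariance
(`F x (g u o) - F x (g o) = F (g⁻¹ x) (u o) - F (g⁻¹ x) o`), crude bound for `n mod m`; `m = 0` contradicts
`κ < 1`. -/

set_option autoImplicit false
open Classical
namespace GWP

/-- The increment over a product. -/
theorem CTB_split {G V : Type*} [Group G] [MulAction G V] (o : V) (F : V → V → ℝ)
    (hF : ∀ (g : G) x y, F (g • x) (g • y) = F x y) (g h : G) (x : V) :
    F x ((g * h) • o) - F x o =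
      (F (g⁻¹ • x) (h • o) - F (g⁻¹ • x) o) + (F x (g • o) - F x o) := by
  have h1 : F (g⁻¹ • x) (h • o) = F x ((g * h) • o) := by
    rw [← hF g (g⁻¹ • x) (h • o), smul_inv_smul, mul_smul]
  have h2 : F (g⁻¹ • x) o = F x (g • o) := by
    rw [← hF g (g⁻¹ • x) o, smul_inv_smul]
  rw [h1, h2]
  ring

/-- The increment over a word. -/
theorem CTB_word {S G V : Type*} [Group G] [MulAction G V]
    (e : S → G) (o : V) (F : V → V → ℝ) (hF : ∀ (g : G) x y, F (g • x) (g • y) = F x y)
    (A : ℝ) (hA : ∀ s x, |F x (e s • o) - F x o| ≤ A) (w : List S) :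
    ∀ x, |F x (ev e w • o) - F x o| ≤ w.length * A := by
  induction w with
  | nil => intro x; rw [ev_nil, one_smul]; simp
  | cons s w ih =>
    intro x
    rw [ev_cons, CTB_split o F hF, List.length_cons]
    refine (abs_add_le _ _).trans ?_
    push_cast
    linarith [ih ((e s)⁻¹ • x), hA s x]

theorem contraction_iterate {S G V : Type*} [Fintype S] [Nonempty S] [Group G] [MulAction G V]
    (e : S → G) (o : V) (F : V → V → ℝ) (hF : ∀ (g : G) x y, F (g • x) (g • y) = F x y)
    (A : ℝ) (hA : ∀ s x, |F x (e s • o) - F x o| ≤ A)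
    (m : ℕ) (α κ : ℝ) (hα : 0 < α) (hκ0 : 0 < κ) (hκ : κ < 1)
    (h : ∀ x, wsum m (fun w => Real.exp (-(α * (F x (ev e w • o) - F x o)))) ≤
        κ * (Fintype.card S : ℝ) ^ m) :
    ∃ κ' C : ℝ, 0 < κ' ∧ κ' < 1 ∧ 0 < C ∧ ∀ (n : ℕ) x,
      wsum n (fun w => Real.exp (-(α * (F x (ev e w • o) - F x o)))) ≤
        C * κ' ^ n * (Fintype.card S : ℝ) ^ n := by
  have hA0 : 0 ≤ A := (abs_nonneg _).trans (hA (Classical.arbitrary S) o)
  have hm : m ≠ 0 := by
    rintro rfl
    have h1 := h o
    rw [pow_zero, mul_one] at h1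
    have h2 : wsum 0 (fun w => Real.exp (-(α * (F o (ev e w • o) - F o o)))) =
        Real.exp (-(α * (F o (ev e [] • o) - F o o))) := rfl
    rw [h2, ev_nil, one_smul, sub_self, mul_zero, neg_zero, Real.exp_zero] at h1
    linarith
  obtain ⟨N, hN⟩ : ∃ N : ℝ, N = (Fintype.card S : ℝ) := ⟨_, rfl⟩
  have hN0 : 0 ≤ N := by rw [hN]; positivity
  rw [← hN] at h ⊢
  obtain ⟨k, hk⟩ : ∃ k : ℝ, k = κ ^ ((m : ℝ)⁻¹) := ⟨_, rfl⟩
  have hkm : k ^ m = κ := by rw [hk]; exact Real.rpow_inv_natCast_pow hκ0.le hm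
  have hk0 : 0 < k := by rw [hk]; exact Real.rpow_pos_of_pos hκ0 _
  have hk1 : k < 1 := by
    rw [hk]
    exact Real.rpow_lt_one hκ0.le hκ (by positivity)
  obtain ⟨C, hC⟩ : ∃ C : ℝ, C = Real.exp (α * (m * A)) / κ := ⟨_, rfl⟩
  have hC0 : 0 < C := by rw [hC]; positivity
  refine ⟨k, C, hk0, hk1, hC0, fun n => ?_⟩
  induction n using Nat.strong_induction_on with
  | _ n ih =>
    intro x
    rcases Nat.lt_or_ge n m with hnm | hnm
    · have h1 : wsum n (fun w => Real.exp (-(α * (F x (ev e w • o) - F x o)))) ≤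
          wsum n (fun _ : List S => Real.exp (α * (m * A))) := by
        refine wsum_le n _ _ fun w hw => ?_
        have h2 := CTB_word e o F hF A hA w x
        rw [hw] at h2
        have h3 : (n : ℝ) * A ≤ m * A :=
          mul_le_mul_of_nonneg_right (by exact_mod_cast hnm.le) hA0
        refine Real.exp_le_exp.2 ?_
        have h4 := mul_le_mul_of_nonneg_left ((abs_le.1 h2).1) hα.le
        have h5 := mul_le_mul_of_nonneg_left h3 hα.le
        linarith
      rw [wsum_const, ← hN] at h1
      refine h1.trans (mul_le_mul_of_nonneg_right ?_ (by positivity))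
      have h6 : κ ≤ k ^ n := by
        rw [← hkm]
        exact pow_le_pow_of_le_one hk0.le hk1.le hnm.le
      have h7 : Real.exp (α * (m * A)) = C * κ := by rw [hC]; field_simp
      rw [h7]
      exact mul_le_mul_of_nonneg_left h6 hC0.le
    · obtain ⟨j, rfl⟩ := Nat.exists_eq_add_of_le hnm
      have hj : j < m + j := by omega
      rw [wsum_append]
      have h1 : wsum m (fun u => wsum j (fun v =>
          Real.exp (-(α * (F x (ev e (u ++ v) • o) - F x o))))) ≤
          wsum m (fun u => (C * k ^ j * N ^ j) *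
            Real.exp (-(α * (F x (ev e u • o) - F x o)))) := by
        refine wsum_le m _ _ fun u _ => ?_
        have h2 : wsum j (fun v => Real.exp (-(α * (F x (ev e (u ++ v) • o) - F x o)))) =
            wsum j (fun v => Real.exp (-(α * (F x (ev e u • o) - F x o))) *
              Real.exp (-(α * (F ((ev e u)⁻¹ • x) (ev e v • o) - F ((ev e u)⁻¹ • x) o)))) := by
          refine wsum_congr j _ _ fun v _ => ?_
          rw [ev_append, CTB_split o F hF, ← Real.exp_add]
          congr 1
          ring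
        rw [h2, wsum_mul, mul_comm]
        exact mul_le_mul_of_nonneg_right (ih j hj _) (Real.exp_pos _).le
      refine h1.trans ?_
      rw [wsum_mul]
      have h3 : C * k ^ (m + j) * N ^ (m + j) = (C * k ^ j * N ^ j) * (κ * N ^ m) := by
        rw [pow_add, pow_add, hkm]
        ring
      rw [h3]
      exact mul_le_mul_of_nonneg_left (h x) (by positivity)

end GWP
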