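import Pool.Agent.H55.GWP.WSM

/-! GPB: the spectral gap from a ping-pong configuration on a `G`-set `V` with an equivariant map `E → V`. -/

set_option autoImplicit false
open Classical
namespace GWP

section GPB
variable {E : Type*}

theorem GPB_hasSum (f : lp (fun _ : E => ℝ) 2) :
    HasSum (fun x => (f : ∀ _ : E, ℝ) x ^ 2) (‖f‖ ^ 2) := by
  have h := lp.hasSum_norm (p := 2) (by norm_num) f
  simpa using h

/-- restriction to a set -/
noncomputable def GPB_res (Z : Set E) (f : lp (fun _ : E => ℝ) 2) : lp (fun _ : E => ℝ) 2 :=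
  ⟨fun x => if x ∈ Z then (f : ∀ _ : E, ℝ) x else 0, by
    have h := (lp.memℓp f).summable (by norm_num)
    refine memℓp_gen (Summable.of_nonneg_of_le (fun x => by positivity) (fun x => ?_) h)
    split_ifs with hx
    · exact le_rfl
    · simp; positivity⟩

theorem GPB_res_apply (Z : Set E) (f : lp (fun _ : E => ℝ) 2) (x : E) :
    (GPB_res Z f : ∀ _ : E, ℝ) x = if x ∈ Z then (f : ∀ _ : E, ℝ) x else 0 := rfl

theorem GPB_res_sub (Z : Set E) (f g : lp (fun _ : E => ℝ) 2) :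
    GPB_res Z f - GPB_res Z g = GPB_res Z (f - g) := by
  ext x
  simp only [lp.coeFn_sub, Pi.sub_apply, GPB_res_apply]
  split_ifs <;> simp

theorem GPB_res_hasSum (Z : Set E) (f : lp (fun _ : E => ℝ) 2) :
    HasSum (fun x => if x ∈ Z then (f : ∀ _ : E, ℝ) x ^ 2 else 0) (‖GPB_res Z f‖ ^ 2) := by
  have h := GPB_hasSum (GPB_res Z f)
  convert h using 2 with x
  rw [GPB_res_apply]
  split_ifs <;> simp

theorem GPB_res_le (Z : Set E) (f : lp (fun _ : E => ℝ) 2) : ‖GPB_res Z f‖ ≤ ‖f‖ := by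
  have h : ‖GPB_res Z f‖ ^ 2 ≤ ‖f‖ ^ 2 := by
    refine hasSum_le (fun x => ?_) (GPB_res_hasSum Z f) (GPB_hasSum f)
    split_ifs
    · exact le_rfl
    · positivity
  exact (sq_le_sq₀ (norm_nonneg _) (norm_nonneg _)).mp h

/-- the mass of the image is not larger, up to the displacement -/
theorem GPB_mass (Z : Set E) (f g : lp (fun _ : E => ℝ) 2) (h : ‖g‖ = ‖f‖) :
    ‖GPB_res Z g‖ ^ 2 ≤ ‖GPB_res Z f‖ ^ 2 + 2 * ‖f‖ * ‖g - f‖ := by
  have h1 : ‖GPB_res Z g‖ - ‖GPB_res Z f‖ ≤ ‖g - f‖ := by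
    refine (norm_sub_norm_le _ _).trans ?_
    rw [GPB_res_sub]
    exact GPB_res_le _ _
  have h2 := GPB_res_le Z f
  have h3 := GPB_res_le Z g
  have h4 := norm_nonneg (GPB_res Z f)
  have h5 := norm_nonneg (GPB_res Z g)
  have h6 := norm_nonneg (g - f)
  rw [h] at h3
  by_cases hc : ‖GPB_res Z g‖ ≤ ‖GPB_res Z f‖
  · nlinarith [mul_nonneg (norm_nonneg f) h6]
  · push Not at hc
    nlinarith [mul_le_mul h1 (add_le_add h2 h3) (by positivity) h6]

/-- one element of the ping-pong pair -/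
theorem GPB_one {G V : Type*} [Group G] [MulAction G V] [MulAction G E] (τ : E → V)
    (hτ : ∀ (g : G) (x : E), τ (g • x) = g • τ x)
    (π : G →* (lp (fun _ : E => ℝ) 2 ≃ₗᵢ[ℝ] lp (fun _ : E => ℝ) 2))
    (hπ : ∀ (g : G) (f : lp (fun _ : E => ℝ) 2) (x : E),
        (π g f : ∀ _ : E, ℝ) x = (f : ∀ _ : E, ℝ) (g⁻¹ • x))
    (c : G) (A₁ A₂ : Set V) (hA : ∀ v : V, v ∉ A₂ → c • v ∈ A₁)
    (f : lp (fun _ : E => ℝ) 2) :
    ‖f‖ ^ 2 ≤ ‖GPB_res (τ ⁻¹' A₁) f‖ ^ 2 + ‖GPB_res (τ ⁻¹' A₂) f‖ ^ 2 +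
      2 * ‖f‖ * ‖π c f - f‖ := by
  have h1 := GPB_mass (τ ⁻¹' A₁) f (π c f) (LinearIsometryEquiv.norm_map _ _)
  have h2 : ‖f‖ ^ 2 ≤ ‖GPB_res (τ ⁻¹' A₁) (π c f)‖ ^ 2 + ‖GPB_res (τ ⁻¹' A₂) f‖ ^ 2 := by
    have h3 := GPB_res_hasSum (τ ⁻¹' A₁) (π c f)
    have h4 : HasSum (fun y => if c • y ∈ τ ⁻¹' A₁ then (f : ∀ _ : E, ℝ) y ^ 2 else 0)
        (‖GPB_res (τ ⁻¹' A₁) (π c f)‖ ^ 2) := by
      have := (Equiv.hasSum_iff (MulAction.toPerm c)).mpr h3
      convert this using 2 with y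
      simp only [Function.comp, MulAction.toPerm_apply, hπ, inv_smul_smul]
    refine hasSum_le (fun x => ?_) (GPB_hasSum f) (h4.add (GPB_res_hasSum (τ ⁻¹' A₂) f))
    simp only [Set.mem_preimage, hτ]
    by_cases hx : τ x ∈ A₂
    · rw [if_pos hx]
      have : 0 ≤ (if c • τ x ∈ A₁ then (f : ∀ _ : E, ℝ) x ^ 2 else 0) := by
        split_ifs
        · positivity
        · exact le_rfl
      linarith
    · rw [if_pos (hA _ hx), if_neg hx, add_zero]
  linarith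

/-- four disjoint sets -/
theorem GPB_four (A B C D : Set E) (d1 : Disjoint A B) (d2 : Disjoint A C) (d3 : Disjoint A D)
    (d4 : Disjoint B C) (d5 : Disjoint B D) (d6 : Disjoint C D)
    (f : lp (fun _ : E => ℝ) 2) :
    ‖GPB_res A f‖ ^ 2 + ‖GPB_res B f‖ ^ 2 + (‖GPB_res C f‖ ^ 2 + ‖GPB_res D f‖ ^ 2) ≤
      ‖f‖ ^ 2 := by
  refine hasSum_le (fun x => ?_) (((GPB_res_hasSum A f).add (GPB_res_hasSum B f)).add
    ((GPB_res_hasSum C f).add (GPB_res_hasSum D f))) (GPB_hasSum f)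
  have hp : 0 ≤ (f : ∀ _ : E, ℝ) x ^ 2 := by positivity
  by_cases hA : x ∈ A
  · have hB : x ∉ B := fun h => Set.disjoint_left.mp d1 hA h
    have hC : x ∉ C := fun h => Set.disjoint_left.mp d2 hA h
    have hD : x ∉ D := fun h => Set.disjoint_left.mp d3 hA h
    simp [hA, hB, hC, hD]
  · by_cases hB : x ∈ B
    · have hC : x ∉ C := fun h => Set.disjoint_left.mp d4 hB h
      have hD : x ∉ D := fun h => Set.disjoint_left.mp d5 hB h
      simp [hA, hB, hC, hD]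
    · by_cases hC : x ∈ C
      · have hD : x ∉ D := fun h => Set.disjoint_left.mp d6 hC h
        simp [hA, hB, hC, hD]
      · by_cases hD : x ∈ D
        · simp [hA, hB, hC, hD]
        · simp [hA, hB, hC, hD]; positivity

end GPB

/-- variance identity -/
theorem GPB_var {S F : Type*} [Fintype S] [Nonempty S] [NormedAddCommGroup F]
    [InnerProductSpace ℝ F] (v : S → F) (M : F)
    (hM : ∑ s, v s = (Fintype.card S : ℝ) • M) :
    ∑ s, ‖v s - M‖ ^ 2 = ∑ s, ‖v s‖ ^ 2 - Fintype.card S * ‖M‖ ^ 2 := by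
  have h : ∀ s, ‖v s - M‖ ^ 2 = ‖v s‖ ^ 2 - 2 * inner ℝ (v s) M + ‖M‖ ^ 2 := fun s =>
    norm_sub_sq_real _ _
  simp only [h, Finset.sum_add_distrib, Finset.sum_sub_distrib, ← Finset.mul_sum]
  rw [← sum_inner, hM, inner_smul_left, real_inner_self_eq_norm_sq]
  simp
  ring

/-- even words move little -/
theorem GPB_even {S G F : Type*} [Group G] [NormedAddCommGroup F] [NormedSpace ℝ F]
    (e : S → G) (inv : S → S) (hinv : ∀ s, inv (inv s) = s) (he : ∀ s, e (inv s) = (e s)⁻¹)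
    (π : G →* (F ≃ₗᵢ[ℝ] F)) (f : F) (D : ℝ)
    (h : ∀ s t, ‖π (e s) f - π (e t) f‖ ≤ D) :
    ∀ (n : ℕ) (w : List S), w.length = 2 * n → ‖π (ev e w) f - f‖ ≤ n * D
  | 0, w, hw => by
    have : w = [] := by simpa using hw
    subst this
    simp [ev]
  | n + 1, [], hw => by simp at hw
  | n + 1, [s], hw => by simp at hw; omega
  | n + 1, s :: t :: w, hw => by
    have ih := GPB_even e inv hinv he π f D h n w (by simp at hw; omega)
    have h1 : ev e (s :: t :: w) = (e (inv s))⁻¹ * (e t * ev e w) := by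
      simp [ev, he]
    have h2 : π (ev e (s :: t :: w)) f - f =
        π (e s) (π (e t) (π (ev e w) f - f)) + π (e (inv s))⁻¹ (π (e t) f - π (e (inv s)) f) := by
      have hmul : ∀ (g k : G) (x : F), π (g * k) x = π g (π k x) := fun g k x => by
        rw [map_mul]; rfl
      have h3 : π (e s) (π (e s)⁻¹ f) = f := by
        rw [← hmul, mul_inv_cancel, map_one]; rfl
      rw [h1, he, inv_inv, hmul, hmul, map_sub, map_sub, map_sub, h3]
      abel
    rw [h2]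
    refine (norm_add_le _ _).trans ?_
    rw [LinearIsometryEquiv.norm_map, LinearIsometryEquiv.norm_map,
      LinearIsometryEquiv.norm_map]
    have := h t (inv s)
    push_cast
    linarith

/-- Ping-pong gives a spectral gap: if `a, b` are products of letters, `A₁, A₂, B₁, B₂` are
pairwise disjoint, `a (V \ A₂) ⊆ A₁`, `b (V \ B₂) ⊆ B₁`, then the average over the letters has
norm `< 1`.  Proof: for `f ∈ ℓ²(E)` let `m(Z)` be the mass of `f²` over `Z ⊆ V`;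
`m(A₁) + m(A₂) ≥ ‖f‖² - 2‖f‖‖π(a)f - f‖`, same for `b`, the sum of the four masses is at most
`‖f‖²`, so `‖π(a)f - f‖ + ‖π(b)f - f‖ ≥ ‖f‖/2`.  Apply this to `a², b²` (same sets), which are
even words: with `η = ‖f‖² - ‖Mf‖²`, `N⁻¹ ∑ ‖π(e s) f - Mf‖² = η`, so
`‖π(x)f - π(y)f‖ ≤ 2 sqrt(N η)` for letters `x, y`, hence `‖π(w)f - f‖ ≤ |w| sqrt(N η)` for
even words. -/
theorem pingpong_gap {S G V E : Type*} [Fintype S] [Nonempty S] [Group G] [MulAction G V]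
    [MulAction G E] (τ : E → V) (hτ : ∀ (g : G) (x : E), τ (g • x) = g • τ x)
    (e : S → G) (inv : S → S) (hinv : ∀ s, inv (inv s) = s) (he : ∀ s, e (inv s) = (e s)⁻¹)
    (a b : List S) (A₁ A₂ B₁ B₂ : Set V)
    (d1 : Disjoint A₁ A₂) (d2 : Disjoint A₁ B₁) (d3 : Disjoint A₁ B₂)
    (d4 : Disjoint A₂ B₁) (d5 : Disjoint A₂ B₂) (d6 : Disjoint B₁ B₂)
    (hA : ∀ v : V, v ∉ A₂ → ev e a • v ∈ A₁) (hB : ∀ v : V, v ∉ B₂ → ev e b • v ∈ B₁)
    (π : G →* (lp (fun _ : E => ℝ) 2 ≃ₗᵢ[ℝ] lp (fun _ : E => ℝ) 2))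
    (hπ : ∀ (g : G) (f : lp (fun _ : E => ℝ) 2) (x : E),
        (π g f : ∀ _ : E, ℝ) x = (f : ∀ _ : E, ℝ) (g⁻¹ • x)) :
    ∃ ρ : ℝ, 0 ≤ ρ ∧ ρ < 1 ∧ ∀ f : lp (fun _ : E => ℝ) 2,
      ‖∑ s, π (e s) f‖ ≤ ρ * Fintype.card S * ‖f‖ := by
  set N : ℝ := (Fintype.card S : ℝ) with hN
  have hN1 : 1 ≤ N := by
    rw [hN]; exact_mod_cast Fintype.card_pos
  set L : ℝ := (a.length : ℝ) + b.length + 1 with hL
  have hL1 : 1 ≤ L := by
    have u1 : (0 : ℝ) ≤ a.length := Nat.cast_nonneg _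
    have u2 : (0 : ℝ) ≤ b.length := Nat.cast_nonneg _
    rw [hL]; linarith
  set θ : ℝ := 1 / (16 * N * L ^ 2) with hθ
  have hθ0 : 0 < θ := by positivity
  have hθ1 : θ ≤ 1 := by
    rw [hθ, div_le_one (by positivity)]
    nlinarith [mul_le_mul hN1 (one_le_pow₀ hL1 : (1 : ℝ) ≤ L ^ 2) (by norm_num) (by linarith)]
  refine ⟨Real.sqrt (1 - θ), Real.sqrt_nonneg _, ?_, ?_⟩
  · rw [Real.sqrt_lt' one_pos]; linarith
  intro f
  set M : lp (fun _ : E => ℝ) 2 := N⁻¹ • ∑ s, π (e s) f with hMdef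
  have hM : ∑ s, π (e s) f = N • M := by
    rw [hMdef, smul_smul, mul_inv_cancel₀ (by linarith), one_smul]
  have hvar := GPB_var (fun s => π (e s) f) M hM
  simp only [LinearIsometryEquiv.norm_map, Finset.sum_const, Finset.card_univ,
    nsmul_eq_mul] at hvar
  rw [← hN] at hvar
  set η : ℝ := ‖f‖ ^ 2 - ‖M‖ ^ 2 with hη
  have hvar' : ∑ s, ‖π (e s) f - M‖ ^ 2 = N * η := by rw [hvar, hη]; ring
  have hNη : 0 ≤ N * η := by
    rw [← hvar']; positivity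
  have hs : ∀ s, ‖π (e s) f - M‖ ≤ Real.sqrt (N * η) := by
    intro s
    apply Real.le_sqrt_of_sq_le
    rw [← hvar']
    exact Finset.single_le_sum (f := fun s => ‖π (e s) f - M‖ ^ 2)
      (fun t _ => by positivity) (Finset.mem_univ s)
  have hst : ∀ s t, ‖π (e s) f - π (e t) f‖ ≤ 2 * Real.sqrt (N * η) := by
    intro s t
    have : π (e s) f - π (e t) f = (π (e s) f - M) - (π (e t) f - M) := by abel
    rw [this]
    refine (norm_sub_le _ _).trans ?_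
    linarith [hs s, hs t]
  have hev := GPB_even e inv hinv he π f _ hst
  have ha := hev a.length (a ++ a) (by simp; ring)
  have hb := hev b.length (b ++ b) (by simp; ring)
  have hA2 : ∀ v : V, v ∉ A₂ → ev e (a ++ a) • v ∈ A₁ := by
    intro v hv
    have : ev e (a ++ a) = ev e a * ev e a := by simp [ev]
    rw [this, mul_smul]
    exact hA _ (fun h => Set.disjoint_left.mp d1 (hA _ hv) h)
  have hB2 : ∀ v : V, v ∉ B₂ → ev e (b ++ b) • v ∈ B₁ := by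
    intro v hv
    have : ev e (b ++ b) = ev e b * ev e b := by simp [ev]
    rw [this, mul_smul]
    exact hB _ (fun h => Set.disjoint_left.mp d6 (hB _ hv) h)
  have h1 := GPB_one τ hτ π hπ _ A₁ A₂ hA2 f
  have h2 := GPB_one τ hτ π hπ _ B₁ B₂ hB2 f
  have h3 := GPB_four (τ ⁻¹' A₁) (τ ⁻¹' A₂) (τ ⁻¹' B₁) (τ ⁻¹' B₂) (d1.preimage τ)
    (d2.preimage τ) (d3.preimage τ) (d4.preimage τ) (d5.preimage τ) (d6.preimage τ) f
  have hf := norm_nonneg f
  set r : ℝ := Real.sqrt (N * η) with hr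
  have hr0 : 0 ≤ r := Real.sqrt_nonneg _
  have h4 : ‖f‖ ^ 2 ≤ 4 * L * ‖f‖ * r := by
    have e1 : 2 * ‖f‖ * ‖π (ev e (a ++ a)) f - f‖ ≤ 2 * ‖f‖ * (a.length * (2 * r)) := by
      gcongr
    have e2 : 2 * ‖f‖ * ‖π (ev e (b ++ b)) f - f‖ ≤ 2 * ‖f‖ * (b.length * (2 * r)) := by
      gcongr
    have e3 : 0 ≤ 4 * ‖f‖ * r := by positivity
    rw [hL]
    nlinarith
  have h5 : ‖f‖ ≤ 4 * L * r := by
    rcases hf.eq_or_lt with h0 | h0
    · rw [← h0]; positivity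
    · nlinarith
  have h6 : ‖f‖ ^ 2 ≤ 16 * L ^ 2 * (N * η) := by
    have : r ^ 2 = N * η := Real.sq_sqrt hNη
    rw [← this]
    calc ‖f‖ ^ 2 ≤ (4 * L * r) ^ 2 := by gcongr
      _ = _ := by ring
  have h7 : ‖M‖ ^ 2 ≤ (1 - θ) * ‖f‖ ^ 2 := by
    have : θ * ‖f‖ ^ 2 ≤ η := by
      rw [hθ, one_div, inv_mul_le_iff₀ (by positivity)]
      linarith
    rw [hη] at this
    linarith
  have h8 : ‖M‖ ≤ Real.sqrt (1 - θ) * ‖f‖ := by
    have := Real.sqrt_le_sqrt h7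
    rwa [Real.sqrt_sq (norm_nonneg _), Real.sqrt_mul (by linarith),
      Real.sqrt_sq (norm_nonneg _)] at this
  rw [hM, norm_smul, Real.norm_of_nonneg (by linarith)]
  nlinarith

end GWP
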