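import Pool.Agent.H55.GWP.GPA
import Pool.Agent.H55.GWP.GPB

/-! GAP: representation on `ℓ²(E)` and spectral gap. -/
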