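import Pool.Agent.H55.GWP.TRB

/-! TCO: the `ℓ²` cocycle of a tree.  `E` = pairs of adjacent vertices,
`β x y (u, v) = ((d(x,v) - d(x,u)) - (d(y,v) - d(y,u))) / 2 ∈ {-1, 0, 1}`; it is non-zero exactly
at the two orientations of the edges of the geodesic from `x` to `y` (`dist_parallel`). -/

set_option autoImplicit false
open Classical
namespace GWP

variable {V : Type*} {T : SimpleGraph V}

/-- oriented edges -/
def DartT (T : SimpleGraph V) : Type _ := {q : V × V // T.Adj q.1 q.2}

/-- the value of the cocycle -/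
noncomputable def betaFun (T : SimpleGraph V) (x y : V) (q : DartT T) : ℝ :=
  (((T.dist x q.1.2 : ℝ) - T.dist x q.1.1) - ((T.dist y q.1.2 : ℝ) - T.dist y q.1.1)) / 2

theorem TCO_fin (hT : T.IsTree) (x : V) : ∀ (n : ℕ) (y : V), T.dist x y = n →
    ∃ s : Finset (DartT T), (∀ q, q ∉ s → betaFun T x y q = 0) ∧
      ∑ q ∈ s, betaFun T x y q ^ 2 = 2 * n := by
  intro n
  induction n with
  | zero =>
    intro y hy
    have hxy : x = y := by
      rcases SimpleGraph.dist_eq_zero_iff_eq_or_not_reachable.mp hy with h | h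
      · exact h
      · exact absurd (hT.connected x y) h
    subst hxy
    exact ⟨∅, fun q _ => by simp [betaFun], by simp⟩
  | succ n ih =>
    intro y hy
    obtain ⟨p, _, hp⟩ := hT.isConnected.exists_path_of_dist y x
    rw [SimpleGraph.dist_comm, hy] at hp
    cases p with
    | nil => simp at hp
    | @cons _ y' _ hadj p' =>
      have hl : p'.length = n := by simpa using hp
      have h1 : T.dist y' x ≤ n := hl ▸ SimpleGraph.dist_le p'
      rw [SimpleGraph.dist_comm] at h1
      have h2 : T.dist x y' = n := by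
        rcases dist_step hT x y y' hadj with c | c <;> omega
      obtain ⟨s, hs1, hs2⟩ := ih y' h2
      have hd : T.dist y y' = 1 := SimpleGraph.dist_eq_one_iff_adj.mpr hadj
      have hd' : T.dist y' y = 1 := SimpleGraph.dist_eq_one_iff_adj.mpr hadj.symm
      let q1 : DartT T := ⟨(y, y'), hadj⟩
      let q2 : DartT T := ⟨(y', y), hadj.symm⟩
      have hq12 : q1 ≠ q2 := by
        intro h
        have := congrArg (fun q : DartT T => q.1.1) h
        exact hadj.ne this
      have e1 : betaFun T x y q1 = -1 := by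
        simp only [betaFun, q1, hy, h2, hd, SimpleGraph.dist_self]
        push_cast; ring
      have e2 : betaFun T x y q2 = 1 := by
        simp only [betaFun, q2, hy, h2, hd, SimpleGraph.dist_self]
        push_cast; ring
      have e3 : betaFun T x y' q1 = 0 := by
        simp only [betaFun, q1, hy, h2, hd', SimpleGraph.dist_self]
        push_cast; ring
      have e4 : betaFun T x y' q2 = 0 := by
        simp only [betaFun, q2, hy, h2, hd', SimpleGraph.dist_self]
        push_cast; ring
      have e5 : ∀ q : DartT T, q ≠ q1 → q ≠ q2 → betaFun T x y q = betaFun T x y' q := by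
        intro q n1 n2
        have hpar := dist_parallel hT y y' q.1.1 q.1.2 hadj q.2
          (fun h => n1 (Subtype.ext (Prod.ext h.1 h.2)))
          (fun h => n2 (Subtype.ext (Prod.ext h.1 h.2)))
        have hpar' : (T.dist y q.1.2 : ℝ) - T.dist y q.1.1
            = (T.dist y' q.1.2 : ℝ) - T.dist y' q.1.1 := by exact_mod_cast hpar
        simp only [betaFun, hpar']
      refine ⟨insert q1 (insert q2 ((s.erase q1).erase q2)), ?_, ?_⟩
      · intro q hq
        simp only [Finset.mem_insert, Finset.mem_erase, not_or] at hq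
        obtain ⟨n1, n2, n3⟩ := hq
        rw [e5 q n1 n2]
        exact hs1 q (fun h => n3 ⟨n2, n1, h⟩)
      · rw [Finset.sum_insert (by simp [hq12]), Finset.sum_insert (by simp), e1, e2]
        have k1 : ∑ q ∈ (s.erase q1).erase q2, betaFun T x y q ^ 2
            = ∑ q ∈ (s.erase q1).erase q2, betaFun T x y' q ^ 2 := by
          refine Finset.sum_congr rfl ?_
          intro q hq
          rw [Finset.mem_erase, Finset.mem_erase] at hq
          rw [e5 q hq.2.1 hq.1]
        have k2 : ∑ q ∈ (s.erase q1).erase q2, betaFun T x y' q ^ 2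
            = ∑ q ∈ s, betaFun T x y' q ^ 2 := by
          rw [Finset.sum_erase _ (by rw [e4]; norm_num), Finset.sum_erase _ (by rw [e3]; norm_num)]
        rw [k1, k2, hs2]
        push_cast; ring

theorem TCO_mem (hT : T.IsTree) (x y : V) :
    Memℓp (E := fun _ : DartT T => ℝ) (betaFun T x y) 2 := by
  obtain ⟨s, hs1, -⟩ := TCO_fin hT x _ y rfl
  have h0 : Memℓp (E := fun _ : DartT T => ℝ) (betaFun T x y) 0 := by
    refine memℓp_zero ?_
    refine s.finite_toSet.subset ?_
    intro q hq
    by_contra hc
    exact hq (hs1 q hc)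
  exact h0.of_exponent_ge (by simp)

theorem exists_beta (hT : T.IsTree) :
    ∃ β : V → V → lp (fun _ : DartT T => ℝ) 2,
      (∀ x y q, (β x y : ∀ _ : DartT T, ℝ) q = betaFun T x y q) ∧
      (∀ x y, ‖β x y‖ ^ 2 = 2 * T.dist x y) := by
  refine ⟨fun x y => ⟨betaFun T x y, TCO_mem hT x y⟩, fun x y q => rfl, ?_⟩
  intro x y
  obtain ⟨s, hs1, hs2⟩ := TCO_fin hT x _ y rfl
  have h := lp.norm_rpow_eq_tsum (p := 2) (by norm_num)
    (⟨betaFun T x y, TCO_mem hT x y⟩ : lp (fun _ : DartT T => ℝ) 2)
  have h2 : ((2 : ENNReal).toReal) = ((2 : ℕ) : ℝ) := by norm_num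
  rw [h2] at h
  simp only [Real.rpow_natCast] at h
  rw [h, ← hs2]
  rw [tsum_eq_sum (s := s)]
  · refine Finset.sum_congr rfl ?_
    intro q _
    exact sq_abs _
  · intro q hq
    have : betaFun T x y q = 0 := hs1 q hq
    simp [this]


end GWP
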