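import Pool.Agent.H55.GWP.HIL
import Pool.Agent.H55.GWP.GAP
import Pool.Agent.H55.GWP.TCO

/-! DRF: uniform positive drift of the distance.
Let `b g = β o (g • o)`, `H = ℓ²(darts)`.  For `x` take the gate `x'` for the radius `J m`
(`J` = max distance of `o` to `s • o`); then
`d(x, w o) - d(x, o) = d(x', w o) - d(x', o) = (‖β x' o + b(w)‖² - ‖β x' o‖²)/2
 = ‖b(w)‖²/2 + ⟨β x' o, b(w)⟩`, and the sum over `w` is at least
`((q m - C)/2 - sqrt(2 J m) B) N^m`. -/

set_option autoImplicit false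
open Classical
namespace GWP

/-- The action on the oriented edges. -/
@[instance_reducible]
def DRF_act {S G V : Type*} [Fintype S] [Group G] [MulAction G V] (U : Setup S G V) :
    MulAction G (DartT U.T) where
  smul g q := ⟨(g • q.1.1, g • q.1.2), U.act g _ _ q.2⟩
  one_smul q := Subtype.ext (Prod.ext (one_smul G q.1.1) (one_smul G q.1.2))
  mul_smul g h q := Subtype.ext (Prod.ext (mul_smul g h q.1.1) (mul_smul g h q.1.2))

/-- The distance of the base point to its image under a word. -/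
theorem DRF_word {S G V : Type*} [Fintype S] [Group G] [MulAction G V] (U : Setup S G V)
    (J : ℕ) (hJ : ∀ s, U.T.dist U.o (U.e s • U.o) ≤ J) (w : List S) :
    U.T.dist U.o (ev U.e w • U.o) ≤ J * w.length := by
  induction w with
  | nil => rw [ev_nil, one_smul]; simp
  | cons s w ih =>
    rw [ev_cons, mul_smul, List.length_cons, Nat.mul_succ]
    have h1 : U.T.dist U.o (U.e s • ev U.e w • U.o) ≤ U.T.dist U.o (U.e s • U.o) +
        U.T.dist (U.e s • U.o) (U.e s • ev U.e w • U.o) := U.tree.connected.dist_triangle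
    rw [dist_smul' U.act U.tree] at h1
    have h2 := hJ s
    omega

theorem uniform_drift {S G V : Type*} [Fintype S] [Nonempty S] [Group G] [MulAction G V]
    (U : Setup S G V)
    (a b : List S) (A₁ A₂ B₁ B₂ : Set V)
    (d1 : Disjoint A₁ A₂) (d2 : Disjoint A₁ B₁) (d3 : Disjoint A₁ B₂)
    (d4 : Disjoint A₂ B₁) (d5 : Disjoint A₂ B₂) (d6 : Disjoint B₁ B₂)
    (hA : ∀ v : V, v ∉ A₂ → ev U.e a • v ∈ A₁) (hB : ∀ v : V, v ∉ B₂ → ev U.e b • v ∈ B₁)
    (unb : ∀ R : ℕ, ∃ g : G, R < U.T.dist U.o (g • U.o)) :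
    ∃ m : ℕ, ∃ c : ℝ, 0 < c ∧ ∀ x : V, c * (Fintype.card S : ℝ) ^ m ≤
      wsum m (fun w => (U.T.dist x (ev U.e w • U.o) : ℝ) - U.T.dist x U.o) := by
  let _ : MulAction G (DartT U.T) := DRF_act U
  obtain ⟨π, hπ⟩ := exists_rep G (DartT U.T)
  obtain ⟨ρ, hρ0, hρ1, hgap⟩ := pingpong_gap (fun q : DartT U.T => q.1.1) (fun g x => rfl)
    U.e U.inv U.inv_inv U.e_inv a b A₁ A₂ B₁ B₂ d1 d2 d3 d4 d5 d6 hA hB π hπ
  obtain ⟨β, hβ1, hβ2⟩ := exists_beta U.tree
  have hadd : ∀ x y z, β x z = β x y + β y z := by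
    intro x y z
    ext q
    have h1 : ((β x y + β y z : lp (fun _ : DartT U.T => ℝ) 2) : ∀ _ : DartT U.T, ℝ) q =
        (β x y : ∀ _ : DartT U.T, ℝ) q + (β y z : ∀ _ : DartT U.T, ℝ) q := rfl
    rw [h1, hβ1, hβ1, hβ1]
    unfold betaFun
    ring
  have hinv : ∀ (g : G) x y, π g (β x y) = β (g • x) (g • y) := by
    intro g x y
    ext q
    rw [hπ, hβ1, hβ1]
    have h1 : (g⁻¹ • q).1.1 = g⁻¹ • q.1.1 := rfl
    have h2 : (g⁻¹ • q).1.2 = g⁻¹ • q.1.2 := rfl
    have h3 : ∀ u v : V, U.T.dist u (g⁻¹ • v) = U.T.dist (g • u) v := by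
      intro u v
      rw [← dist_smul' U.act U.tree g u (g⁻¹ • v), smul_inv_smul]
    unfold betaFun
    rw [h1, h2, h3, h3, h3, h3]
  obtain ⟨bb, hbb⟩ : ∃ bb : G → lp (fun _ : DartT U.T => ℝ) 2, bb = fun g => β U.o (g • U.o) :=
    ⟨_, rfl⟩
  have hco : ∀ g h, bb (g * h) = bb g + π g (bb h) := by
    intro g h
    rw [hbb]
    show β U.o ((g * h) • U.o) = β U.o (g • U.o) + π g (β U.o (h • U.o))
    rw [hinv, ← hadd, mul_smul]
  have hunb : ∀ R : ℝ, ∃ w : List S, R < ‖bb (ev U.e w)‖ := by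
    intro R
    obtain ⟨n, hn⟩ := exists_nat_gt (R ^ 2)
    obtain ⟨g, hg⟩ := unb n
    obtain ⟨w, hw⟩ := U.gen g
    refine ⟨w, ?_⟩
    rw [hw, hbb]
    have h1 := hβ2 U.o (g • U.o)
    have h2 : (n : ℝ) < U.T.dist U.o (g • U.o) := by exact_mod_cast hg
    have h3 : R ^ 2 < ‖β U.o (g • U.o)‖ ^ 2 := by
      rw [h1]
      have : (0 : ℝ) ≤ n := Nat.cast_nonneg n
      linarith
    exact lt_of_pow_lt_pow_left₀ 2 (norm_nonneg _) h3
  obtain ⟨q, hq, C, B, hgrow⟩ := cocycle_growth U.e U.inv U.inv_inv U.e_inv π bb hco ρ hρ0 hρ1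
    hgap hunb
  obtain ⟨J, hJ⟩ : ∃ J : ℕ, ∀ s, U.T.dist U.o (U.e s • U.o) ≤ J :=
    ⟨Finset.univ.sup (fun s => U.T.dist U.o (U.e s • U.o)), fun s =>
      Finset.le_sup (f := fun s => U.T.dist U.o (U.e s • U.o)) (Finset.mem_univ s)⟩
  -- the length
  obtain ⟨m, hm⟩ : ∃ m : ℕ, 1 ≤ (q * m - C) / 2 - Real.sqrt (2 * J * m) * |B| := by
    have h1 : Filter.Tendsto (fun x : ℝ => q / 2 * x - (Real.sqrt (2 * J) * |B|) * Real.sqrt x)
        Filter.atTop Filter.atTop := by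
      have h2 : Filter.Tendsto (fun y : ℝ => y * (q / 2 * y - Real.sqrt (2 * J) * |B|))
          Filter.atTop Filter.atTop := by
        refine Filter.Tendsto.atTop_mul_atTop₀ Filter.tendsto_id ?_
        refine Filter.tendsto_atTop_add_const_right _ _ ?_
        exact Filter.Tendsto.const_mul_atTop (by positivity) Filter.tendsto_id
      have h3 := h2.comp Real.tendsto_sqrt_atTop
      refine h3.congr' ?_
      filter_upwards [Filter.eventually_ge_atTop 0] with x hx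
      show Real.sqrt x * (q / 2 * Real.sqrt x - Real.sqrt (2 * J) * |B|) = _
      have h4 := Real.mul_self_sqrt hx
      calc Real.sqrt x * (q / 2 * Real.sqrt x - Real.sqrt (2 * J) * |B|)
          = q / 2 * (Real.sqrt x * Real.sqrt x) - (Real.sqrt (2 * J) * |B|) * Real.sqrt x := by
            ring
        _ = _ := by rw [h4]
    have h5 := h1.comp tendsto_natCast_atTop_atTop
    obtain ⟨m, hm⟩ := (h5.eventually_ge_atTop (1 + C / 2)).exists
    refine ⟨m, ?_⟩
    have h6 : Real.sqrt (2 * J * m) = Real.sqrt (2 * J) * Real.sqrt m :=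
      Real.sqrt_mul (by positivity) _
    have h7 : 1 + C / 2 ≤ q / 2 * (m : ℝ) - (Real.sqrt (2 * J) * |B|) * Real.sqrt m := hm
    rw [h6]
    linarith
  obtain ⟨N, hN⟩ : ∃ N : ℝ, N = (Fintype.card S : ℝ) ^ m := ⟨_, rfl⟩
  have hN0 : 0 ≤ N := by rw [hN]; positivity
  refine ⟨m, 1, one_pos, fun x => ?_⟩
  obtain ⟨x', k1, -, k3⟩ := exists_gate U.tree U.o x (J * m)
  have hval : ∀ w : List S, w.length = m →
      (U.T.dist x (ev U.e w • U.o) : ℝ) - U.T.dist x U.o =
        1 / 2 * ‖bb (ev U.e w)‖ ^ 2 + inner ℝ (β x' U.o) (bb (ev U.e w)) := by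
    intro w hw
    have h1 : U.T.dist U.o (ev U.e w • U.o) ≤ J * m := by
      have := DRF_word U J hJ w
      rwa [hw] at this
    have h2 := k3 _ h1
    have h3 : (U.T.dist x (ev U.e w • U.o) : ℝ) - U.T.dist x U.o =
        U.T.dist x' (ev U.e w • U.o) - U.T.dist x' U.o := by exact_mod_cast h2
    have h4 : β x' (ev U.e w • U.o) = β x' U.o + bb (ev U.e w) := by
      rw [hbb]
      exact hadd _ _ _
    have h5 := hβ2 x' (ev U.e w • U.o)
    have h6 := hβ2 x' U.o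
    rw [h4, norm_add_sq_real] at h5
    rw [h3]
    linarith
  rw [wsum_congr m _ _ hval, wsum_add, wsum_mul, ← hN, one_mul]
  obtain ⟨g1, g2⟩ := hgrow m
  rw [← hN] at g1 g2
  have h7 : wsum m (fun w => inner ℝ (β x' U.o) (bb (ev U.e w))) =
      inner ℝ (β x' U.o) (wsum m (fun w => bb (ev U.e w))) := by
    exact (wsum_map ((innerSL ℝ (β x' U.o)).toLinearMap.toAddMonoidHom) m
      (fun w => bb (ev U.e w))).symm
  rw [h7]
  have h8 : |inner ℝ (β x' U.o) (wsum m (fun w => bb (ev U.e w)))| ≤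
      Real.sqrt (2 * J * m) * (|B| * N) := by
    refine (abs_real_inner_le_norm _ _).trans ?_
    refine mul_le_mul ?_ (g2.trans (mul_le_mul_of_nonneg_right (le_abs_self B) hN0))
      (norm_nonneg _) (Real.sqrt_nonneg _)
    refine Real.le_sqrt_of_sq_le ?_
    rw [hβ2]
    have h9 : U.T.dist x' U.o ≤ J * m := by rw [U.T.dist_comm]; exact k1
    have h10 : (U.T.dist x' U.o : ℝ) ≤ J * m := by exact_mod_cast h9
    linarith
  have h11 := (abs_le.1 h8).1
  have h12 := mul_le_mul_of_nonneg_right hm hN0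
  linarith

end GWP
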