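import Mathlib

/-!
Project GWP (MP_213ba5_lc): definitions.

Words over a finite alphabet `S`, sums over words, trees, non-backtracking vertex lists,
rigid windows, and the stack machine.  Everything is top-first: the head of a list is the
current position, the last element is the base.
-/

set_option autoImplicit false

open Classical

namespace GWP

section Words

variable {S : Type*} [Fintype S] {A : Type*} [AddCommMonoid A]

/-- Sum of `F` over all words of length `n`. -/
def wsum : ℕ → (List S → A) → A
  | 0, F => F []
  | n + 1, F => ∑ s : S, wsum n (fun w => F (s :: w))

end Words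

/-- Evaluation of a word. -/
def ev {S G : Type*} [Monoid G] (e : S → G) (w : List S) : G := (w.map e).prod

/-- Word length of a group element (0 if it is not a product of letters). -/
noncomputable def wlen {S G : Type*} [Monoid G] (e : S → G) (g : G) : ℕ :=
  sInf {n | ∃ w : List S, w.length = n ∧ ev e w = g}

section Trees

variable {V : Type*}

/-- Non-backtracking vertex lists. -/
def NB (T : SimpleGraph V) : List V → Prop
  | [] => False
  | [_] => True
  | v :: w :: l => T.Adj v w ∧ (∀ x ∈ l.head?, v ≠ x) ∧ NB T (w :: l)

/-- The geodesic from `y` (head) to `x` (last) of a tree. -/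
noncomputable def tpath {T : SimpleGraph V} (hT : T.IsTree) (x y : V) : List V :=
  (hT.existsUnique_path y x).choose.support

/-- Number of windows `(l[i], l[i+K])` of the list that satisfy `Rig`. -/
noncomputable def cntR (K : ℕ) (Rig : V → V → Prop) : List V → ℕ
  | [] => 0
  | v :: l => cntR K Rig l + (if ∃ u, (v :: l)[K]? = some u ∧ Rig v u then 1 else 0)

/-- Number of rigid windows on the geodesic between `x` and `y`. -/
noncomputable def NR {T : SimpleGraph V} (hT : T.IsTree) (K : ℕ) (Rig : V → V → Prop)
    (x y : V) : ℕ :=
  cntR K Rig (tpath hT x y)

end Trees

/-- A finite symmetric alphabet of generators of a group acting on a tree with base point. -/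
structure Setup (S G V : Type*) [Fintype S] [Group G] [MulAction G V] where
  e : S → G
  inv : S → S
  inv_inv : ∀ s, inv (inv s) = s
  e_inv : ∀ s, e (inv s) = (e s)⁻¹
  gen : ∀ g : G, ∃ w : List S, ev e w = g
  T : SimpleGraph V
  tree : T.IsTree
  act : ∀ (g : G) (u v : V), T.Adj u v → T.Adj (g • u) (g • v)
  o : V

/-- The rigidity predicate: only finitely many elements fix both vertices. -/
def Rigid (G : Type*) {V : Type*} [Group G] [MulAction G V] (u v : V) : Prop :=
  {g : G | g • u = u ∧ g • v = v}.Finite

/-! ### The stack machine -/

/-- Stack symbols: an edge with its two end points (lower, upper) in the coordinates of the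
group element at the time of its creation, followed by the content (the group element read
since then); a hole is a point where the coordinates are lost. -/
inductive Item (V G : Type*) where
  | edge (p q : V) (c : G) : Item V G
  | hole (q : V) (c : G) : Item V G

namespace Item

variable {V G : Type*}

/-- the content -/
def con : Item V G → G
  | edge _ _ c => c
  | hole _ c => c

/-- the upper end point -/
def pos : Item V G → V
  | edge _ q _ => q
  | hole q _ => q

/-- the lower end point -/
def low : Item V G → V
  | edge p _ _ => p
  | hole q _ => q

/-- is it a hole -/
def isHole : Item V G → Prop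
  | edge _ _ _ => False
  | hole _ _ => True

/-- multiply the content -/
def mul [Mul G] : Item V G → G → Item V G
  | edge p q c, g => edge p q (c * g)
  | hole q c, g => hole q (c * g)

end Item

section Machine

variable {S G V : Type*} [Group G] [MulAction G V]

/-- Vertices of the top segment in coordinates shifted by `u` (stops after the first hole). -/
def verts : G → List (Item V G) → List V
  | _, [] => []
  | u, .edge _ q c :: l => ((c * u)⁻¹ • q) :: verts (c * u) l
  | u, .hole q c :: _ => [(c * u)⁻¹ • q]

/-- Vertices of the top segment in the current coordinates. -/
def seg (D : List (Item V G)) : List V := verts 1 D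

/-- Is the top window of the top segment rigid? -/
noncomputable def win (K : ℕ) (Rig : V → V → Prop) (D : List (Item V G)) : ℕ :=
  if ∃ x y, (seg D)[0]? = some x ∧ (seg D)[K]? = some y ∧ Rig x y then 1 else 0

/-- Number of rigid windows of all segments. -/
noncomputable def cnt (K : ℕ) (Rig : V → V → Prop) : List (Item V G) → ℕ
  | [] => 0
  | it :: l => cnt K Rig l + win K Rig (it :: l)

/-- Number of holes. -/
noncomputable def holes : List (Item V G) → ℕ
  | [] => 0
  | it :: l => holes l + (if it.isHole then 1 else 0)

/-- Weight of the contents. -/
noncomputable def wt (b : ℝ) (len : G → ℕ) (D : List (Item V G)) : ℝ :=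
  (D.map (fun it => b ^ len it.con)).prod

/-- The potential. -/
noncomputable def pot (K : ℕ) (Rig : V → V → Prop) (len : G → ℕ) (α Q b : ℝ)
    (D : List (Item V G)) : ℝ :=
  Real.exp (-(α * cnt K Rig D)) * Q ^ holes D * wt b len D

/-- Operations: move from local vertex `a` to the adjacent local vertex `a'`, or append the
letter `s`. -/
inductive Op (V S : Type*) where
  | mv (a a' : V) : Op V S
  | ap (s : S) : Op V S

/-- Replacement of the top item when its content is forgotten. -/
def ovfTop (a : V) : Item V G → List (Item V G)
  | .hole _ _ => [.hole a 1]
  | .edge p q _ => [.hole a 1, .edge p q 1]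

/-- Forget the content of the top item if it is too long. -/
noncomputable def nrmTop (len : G → ℕ) (L : ℕ) (a : V) (it : Item V G) : List (Item V G) :=
  if len it.con ≤ L then [it] else ovfTop a it

/-- Parameters of the machine. -/
structure Par (S G V : Type*) where
  e : S → G
  o : V
  len : G → ℕ
  Rig : V → V → Prop
  K : ℕ
  L : ℕ
  s0 : ℕ

/-- Local vertex after an operation. -/
def cur (P : Par S G V) : Op V S → V
  | .mv _ a' => a'
  | .ap _ => P.o

/-- Main transition without the length check. -/
noncomputable def mm (P : Par S G V) : Op V S → List (Item V G) → List (Item V G)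
  | .mv a a', .edge p q c :: it :: l =>
      if c • a' = p then it.mul c :: l else .edge a a' 1 :: .edge p q c :: it :: l
  | .mv a a', D => .edge a a' 1 :: D
  | .ap s, it :: l => it.mul (P.e s) :: l
  | .ap _, [] => []

/-- Length check at the top. -/
noncomputable def chk (P : Par S G V) (i : Op V S) : List (Item V G) → List (Item V G)
  | [] => []
  | it :: l => nrmTop P.len P.L (cur P i) it ++ l

/-- Main transition. -/
noncomputable def mainOp (P : Par S G V) (i : Op V S) (D : List (Item V G)) :
    List (Item V G) :=
  chk P i (mm P i D)

/-- Product of the contents of the first `K` items (lowest first). -/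
def topProd (K : ℕ) (D : List (Item V G)) : G := ((D.take K).map Item.con).reverse.prod

/-- The possible values of the forgotten group element: `top` are the top `K+1` items,
`low` the `K+1` items of the lower window (with the item below it). -/
def gam (P : Par S G V) (top low : List (Item V G)) : Set G :=
  {γ | ∃ y0 yK z0 zK, (seg top)[0]? = some y0 ∧ (seg top)[P.K]? = some yK ∧
      (seg low)[0]? = some zK ∧ (seg low)[P.K]? = some z0 ∧
      γ • y0 = topProd P.K low • z0 ∧ γ • yK = topProd P.K low • zK}

/-- the elements of a finite set as a list -/
noncomputable def listOf {α : Type*} (s : Set α) : List α :=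
  if h : s.Finite then h.toFinset.toList else []

/-- Results (new top parts) of a claim. -/
noncomputable def claimTop (P : Par S G V) (a : V) (top low : List (Item V G)) :
    List (List (Item V G)) :=
  if win P.K P.Rig top = 1 ∧ win P.K P.Rig low = 1 then
    match low.drop P.K with
    | it :: _ =>
        if ∀ x ∈ top.take P.K ++ low.take P.K, P.len x.con ≤ P.s0 then
          (listOf (gam P top low)).map (fun γ => nrmTop P.len P.L a (it.mul γ))
        else [ovfTop a it]
    | [] => []
  else []

/-- All claims in a state. -/
noncomputable def claims (P : Par S G V) (a : V) (D : List (Item V G)) :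
    List (List (Item V G)) :=
  D.tails.flatMap (fun l =>
    if holes l < holes D ∧
        cnt P.K P.Rig D ≤ cnt P.K P.Rig l + 3 * P.K * (holes D - holes l) + 2 * P.K then
      (claimTop P a (D.take (P.K + 1)) (l.take (P.K + 1))).map (· ++ l.drop (P.K + 1))
    else [])

/-- All transitions of an operation. -/
noncomputable def stepOp (P : Par S G V) (i : Op V S) (D : List (Item V G)) :
    List (List (Item V G)) :=
  mainOp P i D :: claims P (cur P i) (mainOp P i D)

/-- All runs over a list of operations. -/
noncomputable def runOps (P : Par S G V) : List (Op V S) → List (Item V G) →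
    List (List (Item V G))
  | [], D => [D]
  | i :: is, D => (stepOp P i D).flatMap (runOps P is)

/-- The main run (without checks and claims). -/
noncomputable def mmRun (P : Par S G V) : List (Op V S) → List (Item V G) → List (Item V G)
  | [], D => D
  | i :: is, D => mmRun P is (mm P i D)

/-- The moves along a list of vertices. -/
def moves : List V → List (Op V S)
  | a :: a' :: l => .mv a a' :: moves (a' :: l)
  | _ => []

/-- Acceptance. -/
def accept (P : Par S G V) (D : List (Item V G)) : Prop :=
  cnt P.K P.Rig D ≤ 3 * P.K * (holes D - 1)

end Machine

section

variable {S G V : Type*} [Fintype S] [Group G] [MulAction G V]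

/-- The operations of a letter: walk along the geodesic from `o` to `s • o`, then append. -/
noncomputable def opsL (U : Setup S G V) (s : S) : List (Op V S) :=
  moves (tpath U.tree (U.e s • U.o) U.o) ++ [.ap s]

/-- The operations of a word. -/
noncomputable def opsW (U : Setup S G V) (w : List S) : List (Op V S) :=
  w.flatMap (opsL U)

/-- The machine of a setup. -/
noncomputable def parOf (U : Setup S G V) (K L s0 : ℕ) : Par S G V where
  e := U.e
  o := U.o
  len := wlen U.e
  Rig := Rigid G
  K := K
  L := L
  s0 := s0

/-- The initial state. -/
def init (U : Setup S G V) : List (Item V G) := [.hole U.o 1]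

/-- The words with an accepted run. -/
def Acc (U : Setup S G V) (K L s0 : ℕ) (w : List S) : Prop :=
  ∃ D ∈ runOps (parOf U K L s0) (opsW U w) (init U), accept (parOf U K L s0) D

/-! ### Well-formed states -/

/-- Well-formedness of a state. -/
def WF (T : SimpleGraph V) : List (Item V G) → Prop
  | [] => False
  | [.hole _ _] => True
  | [.edge _ _ _] => False
  | .hole _ _ :: it :: l => WF T (it :: l)
  | .edge p q _ :: it :: l => T.Adj p q ∧ it.con • p = it.pos ∧
      (¬ it.isHole → it.con • q ≠ it.low) ∧ WF T (it :: l)

/-- The current vertex is the local vertex `a`. -/
def At (a : V) (D : List (Item V G)) : Prop := ∀ it ∈ D.head?, it.con • a = it.pos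

/-- Local vertices: all vertices on the geodesics from `o` to `s • o`. -/
def V0 (U : Setup S G V) : Set V := {v | v = U.o ∨ ∃ s, v ∈ tpath U.tree (U.e s • U.o) U.o}

/-- All end points are local vertices. -/
def InV0 (U : Setup S G V) (D : List (Item V G)) : Prop := ∀ it ∈ D, it.low ∈ V0 U ∧ it.pos ∈ V0 U

/-- Realisation of a state: `g` is the current group element, `vs` the absolute positions of
the items (same length as `D`). -/
inductive Real (o : V) : List (Item V G) → G → List V → Prop
  | base (h c : G) (q : V) : h • q = o → Real o [.hole q c] (h * c) [o]
  | edge (D : List (Item V G)) (g : G) (v : V) (vs : List V) (p q : V) (c : G) :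
      Real o D g (v :: vs) → g • p = v → Real o (.edge p q c :: D) (g * c) (g • q :: v :: vs)
  | hole (D : List (Item V G)) (g : G) (v : V) (vs : List V) (h : G) (q : V) (c : G) :
      Real o D g (v :: vs) → h • q = v → Real o (.hole q c :: D) (h * c) (v :: v :: vs)

/-- The absolute segments of a realised state, top segment first. -/
noncomputable def segsAbs : List (Item V G) → List V → List (List V)
  | it :: D, v :: vs =>
      match D with
      | [] => [[v]]
      | _ :: _ =>
        if it.isHole then [v] :: segsAbs D vs
        else match segsAbs D vs with
          | P :: Ps => (v :: P) :: Ps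
          | [] => [[v]]
  | _, _ => []

/-- No rigid window of one segment is the reverse of a window of another segment. -/
def NoMatch (K : ℕ) (Rig : V → V → Prop) (segs : List (List V)) : Prop :=
  ∀ i j : ℕ, i < j → ∀ P P', segs[i]? = some P → segs[j]? = some P' →
    ∀ (a b : ℕ) (x y : V), P[a]? = some x → P[a + K]? = some y → P'[b]? = some y →
      P'[b + K]? = some x → ¬ Rig x y

/-- The last vertex of each segment is the first vertex of the next one. -/
def Linked : List (List V) → Prop
  | [] => True
  | [_] => True
  | P :: P' :: l => P.getLast? = P'.head? ∧ Linked (P' :: l)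

end

end GWP
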