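import Pool.Agent.H55.GWP.SNB

/-! SND: soundness: every word that fixes the base point has an accepted run.
Iterate `tru_step` over `opsW U w` (the product of the values of the operations is `ev U.e w`);
the final state has first vertex `ev w • o = o`, and `closed_count` for `segsAbs D vs` gives
`accept` (`cnt_eq`, `segs_length`). -/

set_option autoImplicit false
open Classical
namespace GWP

variable {S G V : Type*} [Fintype S] [Group G] [MulAction G V]

theorem SND_run (U : Setup S G V) (K L s0 : ℕ) (hK : 1 ≤ K) (is : List (Op V S)) (a b : V)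
    (D : List (Item V G)) (g : G) (hi : OpsOK U a is b) (h : Tru U K a D g) :
    ∃ D' ∈ runOps (parOf U K L s0) is D, Tru U K b D' (g * (is.map (opval U)).prod) := by
  induction is generalizing a D g with
  | nil =>
    have hab : a = b := hi
    subst hab
    exact ⟨D, by simp [runOps], by simpa using h⟩
  | cons i is ih =>
    obtain ⟨c, h1, h2⟩ : ∃ c, OpsOK U a [i] c ∧ OpsOK U c is b := by
      cases i with
      | mv x x' =>
        obtain ⟨h1, h2, h3, h4, h5⟩ := hi
        exact ⟨x', ⟨h1, h2, h3, h4, rfl⟩, h5⟩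
      | ap s =>
        obtain ⟨h1, h2⟩ := hi
        exact ⟨U.o, ⟨h1, rfl⟩, h2⟩
    obtain ⟨D₁, hD₁, hT₁⟩ := tru_step U K L s0 hK a c i D g h1 h
    obtain ⟨D₂, hD₂, hT₂⟩ := ih c D₁ _ h2 hT₁
    refine ⟨D₂, ?_, ?_⟩
    · show D₂ ∈ (stepOp (parOf U K L s0) i D).flatMap (runOps (parOf U K L s0) is)
      exact List.mem_flatMap.2 ⟨D₁, hD₁, hD₂⟩
    · simpa [mul_assoc] using hT₂

theorem SND_moves (U : Setup S G V) (l : List V) :
    ((moves l : List (Op V S)).map (opval U)).prod = 1 := by
  induction l with
  | nil => simp [moves]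
  | cons a l ih =>
    cases l with
    | nil => simp [moves]
    | cons b l => simpa [moves, opval] using ih

theorem SND_val (U : Setup S G V) (w : List S) :
    ((opsW U w).map (opval U)).prod = ev U.e w := by
  induction w with
  | nil => simp [opsW, ev]
  | cons s w ih =>
    have h1 : opsW U (s :: w) = opsL U s ++ opsW U w := by simp [opsW]
    rw [h1, List.map_append, List.prod_append, ih, ev_cons]
    congr 1
    unfold opsL
    rw [List.map_append, List.prod_append, SND_moves]
    simp [opval]

theorem sound (U : Setup S G V) (K L s0 : ℕ) (hK : 1 ≤ K) (w : List S)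
    (hw : ev U.e w • U.o = U.o) : Acc U K L s0 w := by
  obtain ⟨D, hD, hI, vs, hR, hN⟩ := SND_run U K L s0 hK (opsW U w) U.o U.o (init U) 1
    (opsW_ok U w) (tru_init U K)
  refine ⟨D, hD, ?_⟩
  rw [one_mul, SND_val] at hR
  have h1 := real_head U hR hI
  rw [hw] at h1
  unfold accept
  show cnt K (Rigid G) D ≤ 3 * K * (holes D - 1)
  rw [cnt_eq U K hK hI.wf hR, ← segs_length U hI.wf hR]
  obtain ⟨P, hP, hP'⟩ := segs_head U hI.wf hR
  exact closed_count U.tree K hK (Rigid G) (fun u v => Rigid_symm u v) (segsAbs D vs) U.o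
    (segs_NB U hI.wf hR) (segs_linked U hI.wf hR) ⟨P, hP, by rw [hP', h1]⟩
    (segs_last U hI.wf hR) hN

end GWP
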