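import Pool.Agent.H55.GWP.TOT1

/-! TOT2: the exponential bound for the accepted words. -/

set_option autoImplicit false
open Classical
namespace GWP

variable {S G V : Type*} [Fintype S] [Group G] [MulAction G V]

theorem TOT2_sum_flatMap {α β : Type*} (l : List α) (f : α → List β) (g : β → ℝ) :
    ((l.flatMap f).map g).sum = (l.map (fun x => ((f x).map g).sum)).sum := by
  induction l with
  | nil => simp
  | cons a l ih => rw [List.flatMap_cons, List.map_append, List.sum_append, ih, List.map_cons,
      List.sum_cons]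

theorem TOT2_wsum_list {β : Type*} (n : ℕ) (l : List β) (F : β → List S → ℝ) :
    wsum n (fun v => (l.map (fun D => F D v)).sum) = (l.map (fun D => wsum n (F D))).sum := by
  induction l with
  | nil =>
    simp only [List.map_nil, List.sum_nil]
    have := wsum_const (S := S) n 0
    rw [zero_mul] at this
    exact this
  | cons a l ih =>
    simp only [List.map_cons, List.sum_cons]
    rw [wsum_add, ih]

theorem TOT2_sum_le {β : Type*} (l : List β) (f g : β → ℝ) (h : ∀ x ∈ l, f x ≤ g x) :
    (l.map f).sum ≤ (l.map g).sum := by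
  induction l with
  | nil => simp
  | cons a l ih =>
    simp only [List.map_cons, List.sum_cons]
    exact add_le_add (h a (by simp)) (ih fun x hx => h x (by simp [hx]))

/-- an accepted state has potential at least one -/
theorem TOT2_accept (U : Setup S G V) (K L s0 : ℕ) (α Q b : ℝ) (hα : 0 < α) (hQ : 1 ≤ Q)
    (hQK : Real.exp (3 * K * α) ≤ Q) (hb : 1 < b) (D : List (Item V G))
    (h : accept (parOf U K L s0) D) : 1 ≤ pot K (Rigid G) (wlen U.e) α Q b D := by
  have h1 : cnt K (Rigid G) D ≤ 3 * K * (holes D - 1) := h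
  have hw : 1 ≤ wt b (wlen U.e) D := by
    unfold wt
    induction D with
    | nil => simp
    | cons it l ih =>
      rw [List.map_cons, List.prod_cons]
      have h3 : 1 ≤ b ^ wlen U.e it.con := one_le_pow₀ hb.le
      have h4 : 1 ≤ (l.map (fun it => b ^ wlen U.e it.con)).prod := by
        clear ih h1 h
        induction l with
        | nil => simp
        | cons it' l ih' =>
          rw [List.map_cons, List.prod_cons]
          exact one_le_mul_of_one_le_of_one_le (one_le_pow₀ hb.le) ih'
      exact one_le_mul_of_one_le_of_one_le h3 h4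
  have hq : Real.exp (α * cnt K (Rigid G) D) ≤ Q ^ holes D := by
    calc Real.exp (α * cnt K (Rigid G) D) ≤ Real.exp ((holes D - 1 : ℕ) * (3 * K * α)) := by
          apply Real.exp_le_exp.mpr
          have h2 : ((cnt K (Rigid G) D : ℕ) : ℝ) ≤ ((3 * K * (holes D - 1) : ℕ) : ℝ) := by
            exact_mod_cast h1
          push_cast at h2 ⊢
          nlinarith
      _ = Real.exp (3 * K * α) ^ (holes D - 1) := by rw [Real.exp_nat_mul]
      _ ≤ Q ^ (holes D - 1) := pow_le_pow_left₀ (Real.exp_pos _).le hQK _
      _ ≤ Q ^ holes D := pow_le_pow_right₀ hQ (Nat.sub_le _ _)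
  unfold pot
  have h5 : 1 ≤ Real.exp (-(α * cnt K (Rigid G) D)) * Q ^ holes D := by
    rw [Real.exp_neg, ← div_eq_inv_mul, one_le_div (Real.exp_pos _)]
    exact hq
  exact one_le_mul_of_one_le_of_one_le h5 hw

/-- TOT2.  Iterate `block_contraction` over blocks of length `m` (`runOps_append`, `runOps_inv`,
`wsum_append`), and use that an accepted state has potential `≥ 1` (`holes D ≥ 1` by `WF`). -/
theorem acc_exp [Nonempty S] (U : Setup S G V) (K : ℕ) (hK : 1 ≤ K) (m : ℕ) (hm : 1 ≤ m)
    (α κ : ℝ) (hα : 0 < α) (hκ0 : 0 < κ) (hκ : κ < 1)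
    (hcon : ∀ x : V,
      wsum m (fun w => Real.exp (-(α * ((NR U.tree K (Rigid G) x (ev U.e w • U.o) : ℝ) -
        NR U.tree K (Rigid G) x U.o)))) ≤ κ * (Fintype.card S : ℝ) ^ m) :
    ∃ L s0 : ℕ, ∃ C κ' : ℝ, 0 < C ∧ 0 < κ' ∧ κ' < 1 ∧ ∀ n : ℕ,
      wsum n (fun w : List S => if Acc U K L s0 w then (1 : ℝ) else 0) ≤
        C * κ' ^ n * (Fintype.card S : ℝ) ^ n := by
  obtain ⟨L, s0, Q, b, κ₁, C₂, hQ, hQK, hb, hκ₁, hκ₁', hC₂, hR, hblock⟩ :=
    block_contraction U K hK m hm α κ hα hκ0 hκ hcon
  have hQ0 : 0 < Q := by linarith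
  have hb0 : 0 < b := by linarith
  have hpos : ∀ D : List (Item V G), 0 < pot K (Rigid G) (wlen U.e) α Q b D :=
    fun D => pot_pos K (Rigid G) (wlen U.e) α Q b hQ0 hb0 D
  have hS0 : (0 : ℝ) < (Fintype.card S : ℝ) := by exact_mod_cast Fintype.card_pos
  -- the iteration
  have key : ∀ n : ℕ, ∀ D : List (Item V G), Inv U U.o D →
      wsum n (fun w => ((runOps (parOf U K L s0) (opsW U w) D).map
        (pot K (Rigid G) (wlen U.e) α Q b)).sum) ≤
      C₂ * κ₁ ^ (n / m) * (Fintype.card S : ℝ) ^ n * pot K (Rigid G) (wlen U.e) α Q b D := by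
    intro n
    induction n using Nat.strong_induction_on with
    | _ n ih =>
      intro D hD
      rcases Nat.lt_or_ge n m with hn | hn
      · rw [Nat.div_eq_of_lt hn, pow_zero, mul_one]
        calc _ ≤ wsum n (fun _ : List S => C₂ * pot K (Rigid G) (wlen U.e) α Q b D) := by
              have h1 := wsum_congr (S := S) n (fun w => ((runOps (parOf U K L s0)
                (opsW U w) D).map (pot K (Rigid G) (wlen U.e) α Q b)).sum)
                (fun w => if w.length = n then ((runOps (parOf U K L s0)
                (opsW U w) D).map (pot K (Rigid G) (wlen U.e) α Q b)).sum else 0)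
                (fun w hw => by rw [if_pos hw])
              rw [h1]
              refine wsum_le n _ _ fun w hw => ?_
              rw [if_pos hw]
              exact hR w D (by omega) hD
          _ = _ := by
              rw [wsum_const]; ring
      · obtain ⟨k, rfl⟩ : ∃ k, n = m + k := ⟨n - m, by omega⟩
        have hk : k < m + k := by omega
        have hdiv : (m + k) / m = k / m + 1 := by
          rw [Nat.add_comm, Nat.add_div_right _ (by omega)]
        rw [wsum_append]
        have h1 : ∀ u : List S, wsum k (fun v => ((runOps (parOf U K L s0) (opsW U (u ++ v)) D).map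
            (pot K (Rigid G) (wlen U.e) α Q b)).sum) ≤
            C₂ * κ₁ ^ (k / m) * (Fintype.card S : ℝ) ^ k *
            ((runOps (parOf U K L s0) (opsW U u) D).map
              (pot K (Rigid G) (wlen U.e) α Q b)).sum := by
          intro u
          have h2 : (fun v => ((runOps (parOf U K L s0) (opsW U (u ++ v)) D).map
              (pot K (Rigid G) (wlen U.e) α Q b)).sum) =
              fun v => ((runOps (parOf U K L s0) (opsW U u) D).map (fun D' =>
                ((runOps (parOf U K L s0) (opsW U v) D').map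
                  (pot K (Rigid G) (wlen U.e) α Q b)).sum)).sum := by
            funext v
            rw [opsW_append, runOps_append, TOT2_sum_flatMap]
          rw [h2, TOT2_wsum_list k (runOps (parOf U K L s0) (opsW U u) D)
            (fun D' v => ((runOps (parOf U K L s0) (opsW U v) D').map
                  (pot K (Rigid G) (wlen U.e) α Q b)).sum)]
          have h3 : ∀ D' ∈ runOps (parOf U K L s0) (opsW U u) D,
              wsum k (fun v => ((runOps (parOf U K L s0) (opsW U v) D').map
                  (pot K (Rigid G) (wlen U.e) α Q b)).sum) ≤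
              C₂ * κ₁ ^ (k / m) * (Fintype.card S : ℝ) ^ k *
                pot K (Rigid G) (wlen U.e) α Q b D' := fun D' hD' =>
            ih k hk D' (runOps_inv U K L s0 hK U.o U.o _ D (opsW_ok U u) hD D' hD')
          refine (TOT2_sum_le _ _ _ h3).trans (le_of_eq ?_)
          rw [List.sum_map_mul_left]
        calc _ ≤ wsum m (fun u => C₂ * κ₁ ^ (k / m) * (Fintype.card S : ℝ) ^ k *
              ((runOps (parOf U K L s0) (opsW U u) D).map
                (pot K (Rigid G) (wlen U.e) α Q b)).sum) := wsum_le m _ _ fun u _ => h1 u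
          _ = C₂ * κ₁ ^ (k / m) * (Fintype.card S : ℝ) ^ k *
              wsum m (fun u => ((runOps (parOf U K L s0) (opsW U u) D).map
                (pot K (Rigid G) (wlen U.e) α Q b)).sum) := wsum_mul m _ _
          _ ≤ C₂ * κ₁ ^ (k / m) * (Fintype.card S : ℝ) ^ k *
              (κ₁ * (Fintype.card S : ℝ) ^ m * pot K (Rigid G) (wlen U.e) α Q b D) :=
              mul_le_mul_of_nonneg_left (hblock D hD) (by positivity)
          _ = _ := by
              rw [hdiv, pow_succ, pow_add]; ring
  -- the rate
  obtain ⟨κ', hκ'0, hκ'1, hκ'm⟩ : ∃ κ' : ℝ, 0 < κ' ∧ κ' < 1 ∧ κ' ^ m = κ₁ := by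
    have hm0 : (0 : ℝ) < m := by exact_mod_cast hm
    refine ⟨κ₁ ^ ((m : ℝ)⁻¹), Real.rpow_pos_of_pos hκ₁ _,
      Real.rpow_lt_one hκ₁.le hκ₁' (inv_pos.mpr hm0), ?_⟩
    exact Real.rpow_inv_natCast_pow hκ₁.le (by omega)
  have hinit := init_inv U
  have hpi := hpos (init U)
  refine ⟨L, s0, C₂ * κ₁⁻¹ * pot K (Rigid G) (wlen U.e) α Q b (init U), κ', by positivity,
    hκ'0, hκ'1, fun n => ?_⟩
  have h1 : wsum n (fun w : List S => if Acc U K L s0 w then (1 : ℝ) else 0) ≤
      wsum n (fun w => ((runOps (parOf U K L s0) (opsW U w) (init U)).map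
        (pot K (Rigid G) (wlen U.e) α Q b)).sum) := by
    refine wsum_le n _ _ fun w _ => ?_
    have hnn : ∀ l : List (List (Item V G)),
        0 ≤ (l.map (pot K (Rigid G) (wlen U.e) α Q b)).sum := by
      intro l
      apply List.sum_nonneg
      intro y hy
      rw [List.mem_map] at hy
      obtain ⟨z, _, rfl⟩ := hy
      exact (hpos z).le
    by_cases hA : Acc U K L s0 w
    · rw [if_pos hA]
      obtain ⟨D, hD, hacc⟩ := hA
      refine (TOT2_accept U K L s0 α Q b hα hQ hQK hb D hacc).trans ?_
      have hmem : pot K (Rigid G) (wlen U.e) α Q b D ∈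
          (runOps (parOf U K L s0) (opsW U w) (init U)).map
            (pot K (Rigid G) (wlen U.e) α Q b) := List.mem_map_of_mem hD
      refine List.single_le_sum ?_ _ hmem
      intro y hy
      rw [List.mem_map] at hy
      obtain ⟨z, _, rfl⟩ := hy
      exact (hpos z).le
    · rw [if_neg hA]
      exact hnn _
  refine h1.trans ((key n (init U) hinit).trans ?_)
  have h2 : κ₁ ^ (n / m) ≤ κ₁⁻¹ * κ' ^ n := by
    have h3 : κ₁ ^ (n / m) = κ' ^ (m * (n / m)) := by rw [pow_mul, hκ'm]
    have h4 : κ₁ = κ' ^ m := hκ'm.symm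
    rw [h3, h4, ← div_eq_inv_mul, le_div_iff₀ (pow_pos hκ'0 _), ← pow_add]
    refine pow_le_pow_of_le_one hκ'0.le hκ'1.le ?_
    have h5 := Nat.div_add_mod n m
    have h6 := Nat.mod_lt n (by omega : m > 0)
    omega
  calc C₂ * κ₁ ^ (n / m) * (Fintype.card S : ℝ) ^ n *
        pot K (Rigid G) (wlen U.e) α Q b (init U)
      ≤ C₂ * (κ₁⁻¹ * κ' ^ n) * (Fintype.card S : ℝ) ^ n *
        pot K (Rigid G) (wlen U.e) α Q b (init U) := by
        refine mul_le_mul_of_nonneg_right (mul_le_mul_of_nonneg_right
          (mul_le_mul_of_nonneg_left h2 hC₂.le) (by positivity)) hpi.le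
    _ = _ := by ring

end GWP
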