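import Pool.Agent.H55.GWP.PNG

/-! VC2: algebra: the conclusion of VC1 for all `g` implies that `⟨h⟩` has finite index.

Pigeonhole with `W = card X`: for every `g` there are `i ≠ i'`, `|i - i'| ≤ card X`, and `j, j'` with
`h^(-j) g⁻¹ h^i = h^(-j') g⁻¹ h^i'`, so `g⁻¹ h^(i-i') g = h^(j-j')`.  Comparing `dist p (· p)` of the
`n`-th powers for all `n` (`axis_dist`): `|i - i'| = |j - j'|`.  Hence with `R = (card X)!` (or
`(card X + 1)!`) one has `g⁻¹ h^R g = h^(±R)` for all `g`, so `P = ⟨h^R⟩` is normal, and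
`g⁻¹ = h^j x h^(-i)` shows that `G ⧸ P` is finite (it is covered by the classes of
`h^a x h^b`, `0 ≤ a, b < R`, `x ∈ X`).  `P ≤ ⟨h⟩`. -/

set_option autoImplicit false
open Classical
namespace GWP

variable {V : Type*} {T : SimpleGraph V}

theorem VC2_conj {G : Type*} [Group G] (h g : G) (X : Finset G)
    (hcov : ∃ i₀ : ℤ, ∀ r : ℕ, r ≤ X.card → ∃ j : ℤ, h ^ (-j) * g⁻¹ * h ^ (i₀ + r) ∈ X) :
    ∃ (d : ℕ) (s : ℤ), 1 ≤ d ∧ d ≤ X.card ∧ g⁻¹ * h ^ d * g = h ^ s := by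
  obtain ⟨i₀, hi⟩ := hcov
  choose! j hj using hi
  obtain ⟨r, hr, r', hr', hne, heq⟩ := Finset.exists_ne_map_eq_of_card_lt_of_maps_to
    (s := Finset.range (X.card + 1)) (t := X) (by simp)
    (f := fun r : ℕ => h ^ (-(j r)) * g⁻¹ * h ^ (i₀ + r)) (by
      intro r hr
      exact hj r (by simpa [Nat.lt_succ_iff] using hr))
  rw [Finset.mem_range] at hr hr'
  have key : ∀ r r' : ℕ, r < r' → r' ≤ X.card →
      h ^ (-(j r)) * g⁻¹ * h ^ (i₀ + r) = h ^ (-(j r')) * g⁻¹ * h ^ (i₀ + r') →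
      ∃ (d : ℕ) (s : ℤ), 1 ≤ d ∧ d ≤ X.card ∧ g⁻¹ * h ^ d * g = h ^ s := by
    intro r r' hlt hle he
    refine ⟨r' - r, j r' - j r, by omega, by omega, ?_⟩
    have h1 : h ^ (r' - r) = h ^ (i₀ + (r' : ℤ)) * (h ^ (i₀ + (r : ℤ)))⁻¹ := by
      rw [← zpow_neg, ← zpow_add, ← zpow_natCast]
      congr 1
      push_cast [Nat.cast_sub hlt.le]
      ring
    have h2 : g⁻¹ * h ^ (i₀ + (r' : ℤ)) = h ^ (j r') * (h ^ (-(j r)) * g⁻¹ * h ^ (i₀ + (r : ℤ))) := by
      rw [he, ← mul_assoc, ← mul_assoc, ← zpow_add, add_neg_cancel, zpow_zero, one_mul]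
    rw [h1, ← mul_assoc, h2, zpow_sub, zpow_neg]
    group
  rcases lt_or_gt_of_ne hne with hlt | hlt
  · exact key r r' hlt (by omega) heq
  · exact key r' r hlt (by omega) heq.symm

theorem VC2_len {G : Type*} [Group G] [MulAction G V] (hT : T.IsTree)
    (act : ∀ (g : G) (u v : V), T.Adj u v → T.Adj (g • u) (g • v)) (h g : G) (p : V) (τ : ℕ)
    (hτ : 0 < τ) (hax : ∀ n : ℕ, T.dist p (h ^ n • p) = n * τ) (d : ℕ) (s : ℤ)
    (hs : g⁻¹ * h ^ d * g = h ^ s) : s.natAbs = d := by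
  have tri : ∀ a b c : V, T.dist a c ≤ T.dist a b + T.dist b c := fun a b c =>
    hT.connected.dist_triangle
  set D := T.dist p (g • p) with hD
  have hpow : ∀ n : ℕ, g⁻¹ * h ^ (d * n) * g = h ^ (s * n) := by
    intro n
    induction n with
    | zero => simp
    | succ n ih =>
      have h1 : g⁻¹ * h ^ (d * (n + 1)) * g = (g⁻¹ * h ^ (d * n) * g) * (g⁻¹ * h ^ d * g) := by
        rw [mul_add, mul_one, pow_add]
        group
      rw [h1, ih, hs, ← zpow_add]
      congr 1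
      push_cast
      ring
  have key : ∀ n : ℕ, s.natAbs * n * τ ≤ d * n * τ + 2 * D ∧
      d * n * τ ≤ s.natAbs * n * τ + 2 * D := by
    intro n
    have e1 : T.dist p (h ^ (s * n) • p) = s.natAbs * n * τ := by
      have := axis_dist hT act h p τ hax 0 (s * n)
      rw [zpow_zero, one_smul, zero_sub, Int.natAbs_neg, Int.natAbs_mul, Int.natAbs_natCast] at this
      exact this
    have e2 : T.dist p (h ^ (s * n) • p) = T.dist (g • p) (h ^ (d * n) • g • p) := by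
      rw [← hpow n, mul_smul, mul_smul]
      have := dist_smul' act hT g⁻¹ (g • p) (h ^ (d * n) • g • p)
      rw [inv_smul_smul] at this
      exact this
    have e3 : T.dist p (h ^ (d * n) • p) = d * n * τ := hax (d * n)
    have e4 : T.dist (h ^ (d * n) • p) (h ^ (d * n) • g • p) = D := dist_smul' act hT _ _ _
    have t1 := tri (g • p) p (h ^ (d * n) • g • p)
    have t2 := tri p (h ^ (d * n) • p) (h ^ (d * n) • g • p)
    have t3 := tri p (g • p) (h ^ (d * n) • p)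
    have t4 := tri (g • p) (h ^ (d * n) • g • p) (h ^ (d * n) • p)
    have c1 : T.dist (g • p) p = D := T.dist_comm
    have c2 : T.dist (h ^ (d * n) • g • p) (h ^ (d * n) • p) = D := by
      rw [T.dist_comm]
      exact e4
    rw [← e1, e2, ← e3]
    constructor <;> omega
  have h1 := key (2 * D + 1)
  by_contra hne
  rcases Nat.lt_or_gt_of_ne hne with hlt | hlt
  · have h2 := h1.2
    have h3 : (s.natAbs + 1) * (2 * D + 1) * τ ≤ d * (2 * D + 1) * τ :=
      Nat.mul_le_mul_right _ (Nat.mul_le_mul_right _ hlt)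
    have h4 : (s.natAbs + 1) * (2 * D + 1) * τ =
      s.natAbs * (2 * D + 1) * τ + (2 * D + 1) * τ := by ring
    have h5 : 2 * D + 1 ≤ (2 * D + 1) * τ := Nat.le_mul_of_pos_right _ hτ
    omega
  · have h2 := h1.1
    have h3 : (d + 1) * (2 * D + 1) * τ ≤ s.natAbs * (2 * D + 1) * τ :=
      Nat.mul_le_mul_right _ (Nat.mul_le_mul_right _ hlt)
    have h4 : (d + 1) * (2 * D + 1) * τ =
      d * (2 * D + 1) * τ + (2 * D + 1) * τ := by ring
    have h5 : 2 * D + 1 ≤ (2 * D + 1) * τ := Nat.le_mul_of_pos_right _ hτ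
    omega

theorem index_ne_zero {G : Type*} [Group G] [MulAction G V] (hT : T.IsTree)
    (act : ∀ (g : G) (u v : V), T.Adj u v → T.Adj (g • u) (g • v)) (h : G) (p : V) (τ : ℕ)
    (hτ : 0 < τ) (hax : ∀ n : ℕ, T.dist p (h ^ n • p) = n * τ)
    (X : Set G) (hX : X.Finite)
    (hcov : ∀ (g : G) (W : ℕ), ∃ i₀ : ℤ, ∀ r : ℕ, r ≤ W →
      ∃ j : ℤ, h ^ (-j) * g⁻¹ * h ^ (i₀ + r) ∈ X) :
    (Subgroup.zpowers h).index ≠ 0 := by
  set Y : Finset G := hX.toFinset with hY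
  set R : ℕ := (Y.card).factorial with hR
  have hRpos : 0 < R := Nat.factorial_pos _
  -- conjugation preserves `⟨h^R⟩`
  have hconj : ∀ g : G, g⁻¹ * h ^ R * g ∈ Subgroup.zpowers (h ^ R) := by
    intro g
    obtain ⟨i₀, hi⟩ := hcov g Y.card
    obtain ⟨d, s, hd1, hd2, hs⟩ := VC2_conj h g Y ⟨i₀, fun r hr => by
      obtain ⟨j, hj⟩ := hi r hr
      exact ⟨j, by rw [hY, Set.Finite.mem_toFinset]; exact hj⟩⟩
    have hlen := VC2_len hT act h g p τ hτ hax d s hs
    obtain ⟨m, hm⟩ : d ∣ R := Nat.dvd_factorial (by omega) hd2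
    have h1 : g⁻¹ * h ^ R * g = h ^ (s * m) := by
      have hp : ∀ m : ℕ, g⁻¹ * h ^ (d * m) * g = h ^ (s * m) := by
        intro m
        induction m with
        | zero => simp
        | succ m ih =>
          have h1 : g⁻¹ * h ^ (d * (m + 1)) * g =
              (g⁻¹ * h ^ (d * m) * g) * (g⁻¹ * h ^ d * g) := by
            rw [mul_add, mul_one, pow_add]
            group
          rw [h1, ih, hs, ← zpow_add]
          congr 1
          push_cast
          ring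
      rw [hm]
      exact hp m
    rw [h1]
    rcases Int.natAbs_eq s with hs' | hs'
    · refine ⟨1, ?_⟩
      simp only [zpow_one]
      rw [← zpow_natCast, hm]
      congr 1
      rw [hs', hlen]
      push_cast
      ring
    · refine ⟨-1, ?_⟩
      simp only [zpow_neg, zpow_one]
      rw [← zpow_natCast, ← zpow_neg, hm]
      congr 1
      rw [hs', hlen]
      push_cast
      ring
  have hnormal : (Subgroup.zpowers (h ^ R)).Normal := by
    constructor
    intro n hn g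
    obtain ⟨k, rfl⟩ := hn
    have h1 := hconj g⁻¹
    rw [inv_inv] at h1
    have h2 : g * (h ^ R) ^ k * g⁻¹ = (g * h ^ R * g⁻¹) ^ k := by
      rw [conj_zpow]
    show g * (h ^ R) ^ k * g⁻¹ ∈ _
    rw [h2]
    exact Subgroup.zpow_mem _ h1 k
  -- the quotient is finite
  have hfinQ : Finite (G ⧸ Subgroup.zpowers (h ^ R)) := by
    have hpow : ∀ i : ℤ, ((h ^ i : G) : G ⧸ Subgroup.zpowers (h ^ R)) =
        ((h ^ (i % (R : ℤ)) : G) : G ⧸ Subgroup.zpowers (h ^ R)) := by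
      intro i
      rw [QuotientGroup.eq]
      refine ⟨-(i / (R : ℤ)), ?_⟩
      show (h ^ R) ^ (-(i / (R : ℤ))) = (h ^ i)⁻¹ * h ^ (i % (R : ℤ))
      rw [← zpow_natCast, ← zpow_mul, ← zpow_neg, ← zpow_add]
      congr 1
      have := Int.emod_add_mul_ediv i (R : ℤ)
      linarith
    have hsurj : (Set.univ : Set (G ⧸ Subgroup.zpowers (h ^ R))) ⊆
        (fun q : ℤ × G × ℤ => ((h ^ q.1 : G) : G ⧸ Subgroup.zpowers (h ^ R)) *
          ((q.2.1⁻¹ : G) : G ⧸ Subgroup.zpowers (h ^ R)) *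
          ((h ^ q.2.2 : G) : G ⧸ Subgroup.zpowers (h ^ R))) ''
          ((Set.Icc (0 : ℤ) R) ×ˢ X ×ˢ (Set.Icc (0 : ℤ) R)) := by
      intro q _
      obtain ⟨g, rfl⟩ := QuotientGroup.mk_surjective q
      obtain ⟨i₀, hi⟩ := hcov g 0
      obtain ⟨j, hj⟩ := hi 0 le_rfl
      have hRz : (0 : ℤ) < R := by exact_mod_cast hRpos
      refine ⟨(i₀ % (R : ℤ), h ^ (-j) * g⁻¹ * h ^ (i₀ + ((0 : ℕ) : ℤ)), (-j) % (R : ℤ)), ?_, ?_⟩
      · refine ⟨⟨Int.emod_nonneg _ hRz.ne', (Int.emod_lt_of_pos _ hRz).le⟩, hj,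
          ⟨Int.emod_nonneg _ hRz.ne', (Int.emod_lt_of_pos _ hRz).le⟩⟩
      · show ((h ^ (i₀ % (R : ℤ)) : G) : G ⧸ Subgroup.zpowers (h ^ R)) *
          (((h ^ (-j) * g⁻¹ * h ^ (i₀ + ((0 : ℕ) : ℤ)))⁻¹ : G) : G ⧸ Subgroup.zpowers (h ^ R)) *
          ((h ^ ((-j) % (R : ℤ)) : G) : G ⧸ Subgroup.zpowers (h ^ R)) = (g : G ⧸ _)
        rw [← hpow, ← hpow, ← QuotientGroup.mk_mul, ← QuotientGroup.mk_mul]
        congr 1
        simp only [Nat.cast_zero, add_zero]
        group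
    have hf : (Set.univ : Set (G ⧸ Subgroup.zpowers (h ^ R))).Finite :=
      Set.Finite.subset (Set.Finite.image _ ((Set.finite_Icc _ _).prod
        (hX.prod (Set.finite_Icc _ _)))) hsurj
    exact Set.finite_univ_iff.1 hf
  have hP : (Subgroup.zpowers (h ^ R)).index ≠ 0 := by
    have : Nat.card (G ⧸ Subgroup.zpowers (h ^ R)) ≠ 0 := Nat.card_pos.ne'
    exact this
  have hle : Subgroup.zpowers (h ^ R) ≤ Subgroup.zpowers h := by
    rw [Subgroup.zpowers_le]
    exact Subgroup.pow_mem _ (Subgroup.mem_zpowers h) R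
  intro h0
  have hdvd := Subgroup.index_dvd_of_le hle
  rw [h0, zero_dvd_iff] at hdvd
  exact hP hdvd

end GWP
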