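import Pool.Agent.H55.GWP.VC1
import Pool.Agent.H55.GWP.VC2

/-! VCY: if `⟨h⟩` has infinite index then some translate of the axis is independent. -/

set_option autoImplicit false
open Classical
namespace GWP

variable {V : Type*} {T : SimpleGraph V}

theorem exists_indep {G : Type*} [Group G] [MulAction G V] (hT : T.IsTree)
    (act : ∀ (g : G) (u v : V), T.Adj u v → T.Adj (g • u) (g • v)) (h : G) (p : V) (τ : ℕ)
    (hτ : 0 < τ) (hax : ∀ n : ℕ, T.dist p (h ^ n • p) = n * τ) (N : ℕ) (hN : 1 ≤ N)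
    (hfin : {x : G | x • p = p ∧ x • h ^ N • p = h ^ N • p}.Finite)
    (hidx : (Subgroup.zpowers h).index = 0) :
    ∃ (g : G) (B : ℕ), ∀ m n : ℤ, (m.natAbs + n.natAbs) * τ ≤
      T.dist (h ^ m • p) (g • h ^ n • p) + B := by
  by_contra hcon
  push Not at hcon
  obtain ⟨X, hX, hov⟩ := overlap_finite hT act h p τ hτ hax N hN hfin
  exact index_ne_zero hT act h p τ hτ hax X hX (fun g => hov g (hcon g)) hidx

end GWP
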