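import Pool.Agent.H55.GWP.NRD
import Pool.Agent.H55.GWP.TOT
import Pool.Agent.H55.GWP.SND
import Pool.Agent.H55.GWP.CMP2
import Pool.Agent.H55.GWP.VCY
import Pool.Agent.H55.GWP.DEC

/-! FIN: assembly. -/

set_option autoImplicit false
open Classical
namespace GWP

/-- The setup of a finitely generated group acting on a tree. -/
noncomputable def setupOf {G V : Type*} [Group G] [MulAction G V] {T : SimpleGraph V}
    (hT : T.IsTree) (act : ∀ (g : G) (u v : V), T.Adj u v → T.Adj (g • u) (g • v))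
    {k : ℕ} (φ : FreeGroup (Fin k) →* G) (hφ : Function.Surjective φ) (o : V) :
    Setup (Fin k × Bool) G V where
  e := fun s => φ (FreeGroup.mk [s])
  inv := fun s => (s.1, !s.2)
  inv_inv := fun s => by simp
  e_inv := fun s => by
    rw [← map_inv]
    congr 1
  gen := fun g => by
    obtain ⟨x, rfl⟩ := hφ g
    refine ⟨x.toWord, ?_⟩
    have key : ∀ w : List (Fin k × Bool), ev (fun s => φ (FreeGroup.mk [s])) w =
        φ (FreeGroup.mk w) := by
      intro w
      induction w with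
      | nil =>
        rw [← FreeGroup.one_eq_mk, map_one]
        rfl
      | cons s w ih =>
        have : FreeGroup.mk (s :: w) = FreeGroup.mk [s] * FreeGroup.mk w := by
          rw [FreeGroup.mul_mk]; rfl
        rw [this, map_mul, ← ih]
        simp [ev]
    rw [key, FreeGroup.mk_toWord]
  T := T
  tree := hT
  act := act
  o := o

theorem ev_mk {G : Type*} [Group G] {k : ℕ} (φ : FreeGroup (Fin k) →* G)
    (w : List (Fin k × Bool)) :
    ev (fun s => φ (FreeGroup.mk [s])) w = φ (FreeGroup.mk w) := by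
  induction w with
  | nil =>
    rw [← FreeGroup.one_eq_mk, map_one]
    rfl
  | cons s w ih =>
    have : FreeGroup.mk (s :: w) = FreeGroup.mk [s] * FreeGroup.mk w := by
      rw [FreeGroup.mul_mk]; rfl
    rw [this, map_mul, ← ih]
    simp [ev]

/-- The main theorem. -/
theorem tree_generic {G V : Type*} [Group G] [MulAction G V] {T : SimpleGraph V}
    (hT : T.IsTree) (act : ∀ (g : G) (u v : V), T.Adj u v → T.Adj (g • u) (g • v))
    {k : ℕ} (rels : Set (FreeGroup (Fin k))) (φ : FreeGroup (Fin k) →* G)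
    (hφ : Function.Surjective φ) (hrels : ∀ r ∈ rels, φ r = 1)
    (h : G) (p : V) (hτ : 0 < T.dist p (h • p))
    (hax : ∀ n : ℕ, T.dist p (h ^ n • p) = n * T.dist p (h • p))
    (N : ℕ) (hN : 1 ≤ N)
    (hfin : {x : G | x • p = p ∧ x • h ^ N • p = h ^ N • p}.Finite)
    (hidx : (Subgroup.zpowers h).index = 0) :
    ∃ f : List (Fin k × Bool) →. Bool,
      Partrec f ∧
      (∀ w : List (Fin k × Bool), ∀ b ∈ f w,
        (b = true ↔ FreeGroup.mk w ∈ Subgroup.normalClosure rels)) ∧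
      (∃ C κ : ℝ, 0 < C ∧ 0 < κ ∧ κ < 1 ∧
        ∀ n : ℕ, ({w : List (Fin k × Bool) | w.length = n ∧ ¬ (f w).Dom}.ncard : ℝ) ≤
          C * κ ^ n * ({w : List (Fin k × Bool) | w.length = n}.ncard : ℝ)) ∧
      Filter.Tendsto
        (fun n : ℕ =>
          ({w : List (Fin k × Bool) | w.length ≤ n ∧ (f w).Dom}.ncard : ℝ) /
            ({w : List (Fin k × Bool) | w.length ≤ n}.ncard : ℝ))
        Filter.atTop (nhds 1) := by
  have hk : 1 ≤ k := by
    by_contra hk0
    have hk0' : k = 0 := by omega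
    subst hk0'
    obtain ⟨x, hx⟩ := hφ h
    have : x = 1 := Subsingleton.elim _ _
    rw [this, map_one] at hx
    rw [← hx] at hτ
    simp at hτ
  haveI : Nonempty (Fin k × Bool) := ⟨(⟨0, hk⟩, true)⟩
  set τ := T.dist p (h • p) with hτdef
  let U : Setup (Fin k × Bool) G V := setupOf hT act φ hφ p
  have hUe : U.e = fun s => φ (FreeGroup.mk [s]) := rfl
  have hUT : U.T = T := rfl
  have hUo : U.o = p := rfl
  have haxz := axis_dist hT act h p τ hax
  obtain ⟨g, B, hind⟩ := exists_indep hT act h p τ hτ hax N hN hfin hidx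
  obtain ⟨M, A₁, A₂, B₁, B₂, d1, d2, d3, d4, d5, d6, hA, hB⟩ :=
    pingpong_of_indep hT act h g p τ hτ hax B hind
  obtain ⟨wa, hwa⟩ := U.gen (h ^ M)
  obtain ⟨wb, hwb⟩ := U.gen (g * h ^ M * g⁻¹)
  have hK : 1 ≤ N * τ := Nat.one_le_iff_ne_zero.2 (Nat.mul_ne_zero (by omega) (by omega))
  have deep : ∀ t : ℕ, ∃ (g : G) (u v : V), Rigid G u v ∧ U.T.dist u v = N * τ ∧
      U.T.dist U.o u + N * τ + U.T.dist v (g • U.o) = U.T.dist U.o (g • U.o) ∧
      t ≤ U.T.dist U.o u ∧ t ≤ U.T.dist v (g • U.o) := by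
    intro t
    refine ⟨h ^ (2 * t + N), h ^ t • p, h ^ (t + N) • p, ?_, ?_, ?_, ?_, ?_⟩
    · have h1 := (Rigid_smul (h ^ t) p (h ^ N • p)).2 (show Rigid G p (h ^ N • p) from hfin)
      rwa [smul_smul, ← pow_add] at h1
    · show T.dist (h ^ t • p) (h ^ (t + N) • p) = N * τ
      have h2 := haxz (t : ℤ) ((t + N : ℕ) : ℤ)
      rw [zpow_natCast, zpow_natCast] at h2
      rw [h2]
      congr 1
      omega
    · show T.dist p (h ^ t • p) + N * τ + T.dist (h ^ (t + N) • p) (h ^ (2 * t + N) • p) =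
        T.dist p (h ^ (2 * t + N) • p)
      have h3 := haxz ((t + N : ℕ) : ℤ) ((2 * t + N : ℕ) : ℤ)
      rw [zpow_natCast, zpow_natCast] at h3
      rw [hax, hax, h3]
      have h4 : (((t + N : ℕ) : ℤ) - ((2 * t + N : ℕ) : ℤ)).natAbs = t := by omega
      rw [h4]
      ring
    · show t ≤ T.dist p (h ^ t • p)
      rw [hax]
      exact Nat.le_mul_of_pos_right t hτ
    · show t ≤ T.dist (h ^ (t + N) • p) (h ^ (2 * t + N) • p)
      have h3 := haxz ((t + N : ℕ) : ℤ) ((2 * t + N : ℕ) : ℤ)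
      rw [zpow_natCast, zpow_natCast] at h3
      have h4 : (((t + N : ℕ) : ℤ) - ((2 * t + N : ℕ) : ℤ)).natAbs = t := by omega
      rw [h3, h4]
      exact Nat.le_mul_of_pos_right t hτ
  obtain ⟨m, hm, α, hα, κ₀, hκ₀, hκ₀', hcon⟩ := rigid_contraction U (N * τ) hK deep wa wb
    A₁ A₂ B₁ B₂ d1 d2 d3 d4 d5 d6 (by rw [hwa]; exact hA) (by rw [hwb]; exact hB)
  obtain ⟨L, s0, C, κ, hC, hκ, hκ', hexp⟩ := acc_exp U (N * τ) hK m hm α κ₀ hα hκ₀ hκ₀' hcon
  obtain ⟨f, hf1, hf2, hf3, hf4⟩ := generic_of_exp hk rels (Acc U (N * τ) L s0)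
    (acc_computable U (N * τ) L s0 hK) (fun w hw => by
      apply sound U (N * τ) L s0 hK w
      have h1 : φ (FreeGroup.mk w) = 1 := by
        have h2 : Subgroup.normalClosure rels ≤ φ.ker := by
          apply Subgroup.normalClosure_le_normal
          intro r hr
          exact hrels r hr
        exact h2 hw
      rw [hUe, ev_mk, h1, one_smul]) C κ hC hκ hκ' hexp
  exact ⟨f, hf1, hf2, ⟨C, κ, hC, hκ, hκ', hf3⟩, hf4⟩

end GWP
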