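import Pool.Agent.H55.GWP.WSM

/-! GPA: the representation on `ℓ²(E)` of a `G`-set `E`. -/

set_option autoImplicit false
open Classical
namespace GWP

theorem GPA_mem {E : Type*} (σ : E ≃ E) (f : lp (fun _ : E => ℝ) 2) :
    Memℓp (fun x : E => (f : ∀ _ : E, ℝ) (σ x)) 2 := by
  have h := lp.memℓp f
  rw [memℓp_gen_iff (by norm_num)] at h ⊢
  exact (σ.summable_iff (f := fun x => ‖(f : ∀ _ : E, ℝ) x‖ ^ (2 : ENNReal).toReal)).2 h

/-- composition with a permutation -/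
noncomputable def GPA_map {E : Type*} (σ : E ≃ E) (f : lp (fun _ : E => ℝ) 2) :
    lp (fun _ : E => ℝ) 2 :=
  ⟨fun x : E => (f : ∀ _ : E, ℝ) (σ x), GPA_mem σ f⟩

theorem GPA_apply {E : Type*} (σ : E ≃ E) (f : lp (fun _ : E => ℝ) 2) (x : E) :
    (GPA_map σ f : ∀ _ : E, ℝ) x = (f : ∀ _ : E, ℝ) (σ x) := rfl

theorem GPA_norm {E : Type*} (σ : E ≃ E) (f : lp (fun _ : E => ℝ) 2) :
    ‖GPA_map σ f‖ = ‖f‖ := by
  rw [lp.norm_eq_tsum_rpow (by norm_num), lp.norm_eq_tsum_rpow (by norm_num)]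
  congr 1
  exact σ.tsum_eq (fun x => ‖(f : ∀ _ : E, ℝ) x‖ ^ (2 : ENNReal).toReal)

/-- composition with a permutation as a linear isometric equivalence -/
noncomputable def GPA_equiv {E : Type*} (σ : E ≃ E) :
    lp (fun _ : E => ℝ) 2 ≃ₗᵢ[ℝ] lp (fun _ : E => ℝ) 2 where
  toFun := GPA_map σ
  map_add' := fun f f' => by
    ext x
    rfl
  map_smul' := fun c f => by
    ext x
    rfl
  invFun := GPA_map σ.symm
  left_inv := fun f => by
    ext x
    rw [GPA_apply, GPA_apply, Equiv.apply_symm_apply]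
  right_inv := fun f => by
    ext x
    rw [GPA_apply, GPA_apply, Equiv.symm_apply_apply]
  norm_map' := fun f => GPA_norm σ f

/-- The representation of `G` on `ℓ²(E)`. -/
theorem exists_rep (G E : Type*) [Group G] [MulAction G E] :
    ∃ π : G →* (lp (fun _ : E => ℝ) 2 ≃ₗᵢ[ℝ] lp (fun _ : E => ℝ) 2),
      ∀ (g : G) (f : lp (fun _ : E => ℝ) 2) (x : E),
        (π g f : ∀ _ : E, ℝ) x = (f : ∀ _ : E, ℝ) (g⁻¹ • x) := by
  refine ⟨{ toFun := fun g => GPA_equiv (MulAction.toPerm g⁻¹), map_one' := ?_, map_mul' := ?_ },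
    ?_⟩
  · ext f x
    show (f : ∀ _ : E, ℝ) ((1 : G)⁻¹ • x) = (f : ∀ _ : E, ℝ) x
    rw [inv_one, one_smul]
  · intro g h
    ext f x
    show (f : ∀ _ : E, ℝ) ((g * h)⁻¹ • x) = (f : ∀ _ : E, ℝ) (h⁻¹ • (g⁻¹ • x))
    rw [mul_inv_rev, mul_smul]
  · intro g f x
    rfl

end GWP
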