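import Pool.Agent.H55.GWP.WSM

/-! HIL: growth of cocycles with values in a (pre-)Hilbert space under a spectral gap.

Notation: `N = card S`, `M = N⁻¹ ∑ π(e s)`, `c_m = E_m b`, `D_m = E_m ‖b‖²`.
`c_{m+1} = c_1 + M c_m`, so `‖c_m‖ ≤ ‖c_1‖/(1-ρ) =: B`.
`D_{m+1} - D_m = D_1 - 2⟨c_m, c_1⟩ =: q_m` (use `b(g⁻¹) = -π(g⁻¹) b(g)` and the symmetry
`wsum_rev`), and with `b'_m(g) = b(g) + π(g) c_m - c_m` one has
`E_1 ‖b'_m‖² = q_m - 2⟨M^m c_1, c_m⟩`.
If `‖b(w*)‖ > 2B + 2` for a word of length `r`, then `‖b'_m(w*)‖ ≥ 2` and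
`‖b'_m(w*)‖ ≤ r * max_s ‖b'_m(e s)‖ ≤ r * sqrt(N E_1 ‖b'_m‖²)`,
so `q_m ≥ 4/(r² N) - 2 ρ^m B²`; summation gives `D_m ≥ (4/(r²N)) m - 2B²/(1-ρ)`. -/

set_option autoImplicit false
open Classical
namespace GWP

section HIL

variable {S G H : Type*} [Fintype S] [Group G] [NormedAddCommGroup H] [InnerProductSpace ℝ H]

theorem HIL_const (n : ℕ) (c : H) :
    wsum n (fun _ : List S => c) = ((Fintype.card S : ℝ) ^ n) • c := by
  induction n with
  | zero => simp [wsum]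
  | succ n ih =>
    show ∑ _s : S, wsum n (fun _ : List S => c) = _
    rw [ih, Finset.sum_const, Finset.card_univ, pow_succ', mul_smul, ← Nat.cast_smul_eq_nsmul ℝ]

theorem HIL_one (π : G →* (H ≃ₗᵢ[ℝ] H)) (b : G → H) (hb : ∀ g h, b (g * h) = b g + π g (b h)) :
    b 1 = 0 := by
  have h := hb 1 1
  rw [mul_one, map_one] at h
  have h2 : (1 : H ≃ₗᵢ[ℝ] H) (b 1) = b 1 := rfl
  rw [h2] at h
  exact left_eq_add.1 h

theorem HIL_inv (π : G →* (H ≃ₗᵢ[ℝ] H)) (b : G → H) (hb : ∀ g h, b (g * h) = b g + π g (b h))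
    (g : G) : b g = - π g (b g⁻¹) := by
  have h := hb g g⁻¹
  rw [mul_inv_cancel, HIL_one π b hb] at h
  exact eq_neg_of_add_eq_zero_left h.symm

theorem HIL_cross (e : S → G) (inv : S → S) (hinv : ∀ s, inv (inv s) = s)
    (he : ∀ s, e (inv s) = (e s)⁻¹) (π : G →* (H ≃ₗᵢ[ℝ] H)) (b : G → H)
    (hb : ∀ g h, b (g * h) = b g + π g (b h)) (f : H) :
    ∑ s, inner ℝ (b (e s)) (π (e s) f) = - inner ℝ (∑ s, b (e s)) f := by
  have h1 : ∀ s, inner ℝ (b (e s)) (π (e s) f) = - inner ℝ (b (e (inv s))) f := by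
    intro s
    rw [HIL_inv π b hb (e s), inner_neg_left, LinearIsometryEquiv.inner_map_map, ← he s]
  have hbij : Function.Bijective inv := Function.Involutive.bijective hinv
  rw [Finset.sum_congr rfl fun s _ => h1 s, Finset.sum_neg_distrib, sum_inner]
  congr 1
  exact Function.Bijective.sum_comp hbij (fun s => inner ℝ (b (e s)) f)

omit [Fintype S] in
theorem HIL_word (e : S → G) (π : G →* (H ≃ₗᵢ[ℝ] H)) (b : G → H)
    (hb : ∀ g h, b (g * h) = b g + π g (b h)) (M : ℝ) (hM : ∀ s, ‖b (e s)‖ ≤ M) (w : List S) :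
    ‖b (ev e w)‖ ≤ w.length * M := by
  induction w with
  | nil => rw [ev_nil, HIL_one π b hb]; simp
  | cons s w ih =>
    rw [ev_cons, hb, List.length_cons]
    refine (norm_add_le _ _).trans ?_
    rw [LinearIsometryEquiv.norm_map]
    push_cast
    linarith [hM s]

theorem HIL_recB (e : S → G) (π : G →* (H ≃ₗᵢ[ℝ] H)) (b : G → H)
    (hb : ∀ g h, b (g * h) = b g + π g (b h)) (m : ℕ) :
    wsum (m + 1) (fun w => b (ev e w)) = ((Fintype.card S : ℝ) ^ m) • (∑ s, b (e s)) +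
      ∑ s, π (e s) (wsum m (fun w => b (ev e w))) := by
  show ∑ s : S, wsum m (fun w => b (ev e (s :: w))) = _
  rw [Finset.smul_sum, ← Finset.sum_add_distrib]
  refine Finset.sum_congr rfl fun s _ => ?_
  have h1 : wsum m (fun w => b (ev e (s :: w))) =
      wsum m (fun w => b (e s) + π (e s) (b (ev e w))) := by
    refine wsum_congr m _ _ fun w _ => ?_
    rw [ev_cons, hb]
  rw [h1, wsum_add, HIL_const]
  congr 1
  exact (wsum_map (((π (e s)).toLinearEquiv.toLinearMap : H →ₗ[ℝ] H).toAddMonoidHom) m _).symm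

theorem HIL_recD (e : S → G) (inv : S → S) (hinv : ∀ s, inv (inv s) = s)
    (he : ∀ s, e (inv s) = (e s)⁻¹) (π : G →* (H ≃ₗᵢ[ℝ] H)) (b : G → H)
    (hb : ∀ g h, b (g * h) = b g + π g (b h)) (m : ℕ) :
    wsum (m + 1) (fun w => ‖b (ev e w)‖ ^ 2) =
      (Fintype.card S : ℝ) ^ m * (∑ s, ‖b (e s)‖ ^ 2) -
        2 * inner ℝ (∑ s, b (e s)) (wsum m (fun w => b (ev e w))) +
        Fintype.card S * wsum m (fun w => ‖b (ev e w)‖ ^ 2) := by
  show ∑ s : S, wsum m (fun w => ‖b (ev e (s :: w))‖ ^ 2) = _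
  have h1 : ∀ s, wsum m (fun w => ‖b (ev e (s :: w))‖ ^ 2) =
      (Fintype.card S : ℝ) ^ m * ‖b (e s)‖ ^ 2 +
        2 * inner ℝ (b (e s)) (π (e s) (wsum m (fun w => b (ev e w)))) +
        wsum m (fun w => ‖b (ev e w)‖ ^ 2) := by
    intro s
    have h2 : wsum m (fun w => ‖b (ev e (s :: w))‖ ^ 2) =
        wsum m (fun w => (‖b (e s)‖ ^ 2 + 2 * inner ℝ (b (e s)) (π (e s) (b (ev e w)))) +
          ‖b (ev e w)‖ ^ 2) := by
      refine wsum_congr m _ _ fun w _ => ?_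
      rw [ev_cons, hb, norm_add_sq_real, LinearIsometryEquiv.norm_map]
    rw [h2, wsum_add, wsum_add, wsum_const, wsum_mul, mul_comm]
    congr 2
    have h3 := wsum_map (((innerSL ℝ (b (e s))).toLinearMap.comp
      ((π (e s)).toLinearEquiv.toLinearMap : H →ₗ[ℝ] H)).toAddMonoidHom) m
      (fun w => b (ev e w))
    rw [show inner ℝ (b (e s)) (π (e s) (wsum m (fun w => b (ev e w)))) =
      (((innerSL ℝ (b (e s))).toLinearMap.comp
      ((π (e s)).toLinearEquiv.toLinearMap : H →ₗ[ℝ] H)).toAddMonoidHom)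
      (wsum m (fun w => b (ev e w))) from rfl, h3]
    rfl
  rw [Finset.sum_congr rfl fun s _ => h1 s, Finset.sum_add_distrib, Finset.sum_add_distrib,
    ← Finset.mul_sum, ← Finset.mul_sum, HIL_cross e inv hinv he π b hb, Finset.sum_const,
    Finset.card_univ, nsmul_eq_mul]
  ring

end HIL

/-- operator form of a gap, for a family of isometries given by a group homomorphism -/
theorem cocycle_growth {S G H : Type*} [Fintype S] [Nonempty S] [Group G]
    [NormedAddCommGroup H] [InnerProductSpace ℝ H]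
    (e : S → G) (inv : S → S) (hinv : ∀ s, inv (inv s) = s) (he : ∀ s, e (inv s) = (e s)⁻¹)
    (π : G →* (H ≃ₗᵢ[ℝ] H)) (b : G → H) (hb : ∀ g h, b (g * h) = b g + π g (b h))
    (ρ : ℝ) (hρ0 : 0 ≤ ρ) (hρ : ρ < 1)
    (gap : ∀ f : H, ‖∑ s, π (e s) f‖ ≤ ρ * Fintype.card S * ‖f‖)
    (unb : ∀ R : ℝ, ∃ w : List S, R < ‖b (ev e w)‖) :
    ∃ q : ℝ, 0 < q ∧ ∃ C B : ℝ, ∀ m : ℕ,
      (q * m - C) * (Fintype.card S : ℝ) ^ m ≤ wsum m (fun w => ‖b (ev e w)‖ ^ 2) ∧
      ‖wsum m (fun w => b (ev e w))‖ ≤ B * (Fintype.card S : ℝ) ^ m := by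
  obtain ⟨N, hN⟩ : ∃ N : ℝ, N = Fintype.card S := ⟨_, rfl⟩
  have hN1 : 1 ≤ N := by
    rw [hN]
    exact_mod_cast Fintype.card_pos
  have hN0 : 0 < N := by linarith
  obtain ⟨b1, hb1⟩ : ∃ b1 : H, b1 = ∑ s, b (e s) := ⟨_, rfl⟩
  obtain ⟨d1, hd1⟩ : ∃ d1 : ℝ, d1 = ∑ s, ‖b (e s)‖ ^ 2 := ⟨_, rfl⟩
  obtain ⟨W, hW⟩ : ∃ W : ℕ → H, W = fun m => wsum m (fun w => b (ev e w)) := ⟨_, rfl⟩
  obtain ⟨E, hE⟩ : ∃ E : ℕ → ℝ, E = fun m => wsum m (fun w => ‖b (ev e w)‖ ^ 2) := ⟨_, rfl⟩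
  have hW1 : ∀ m, W (m + 1) = (N ^ m) • b1 + ∑ s, π (e s) (W m) := by
    intro m
    rw [hW, hb1, hN]
    exact HIL_recB e π b hb m
  have hE1 : ∀ m, E (m + 1) = N ^ m * d1 - 2 * inner ℝ b1 (W m) + N * E m := by
    intro m
    rw [hW, hE, hb1, hd1, hN]
    exact HIL_recD e inv hinv he π b hb m
  have hW0 : W 0 = 0 := by
    rw [hW]
    show b (ev e []) = 0
    rw [ev_nil, HIL_one π b hb]
  have hE0 : E 0 = 0 := by
    rw [hE]
    show ‖b (ev e [])‖ ^ 2 = 0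
    rw [ev_nil, HIL_one π b hb]
    simp
  -- normalised sums
  obtain ⟨c, hc⟩ : ∃ c : ℕ → H, c = fun m => (N ^ m)⁻¹ • W m := ⟨_, rfl⟩
  have hcW : ∀ m, W m = (N ^ m) • c m := by
    intro m
    rw [hc]
    show W m = (N ^ m) • ((N ^ m)⁻¹ • W m)
    rw [smul_smul, mul_inv_cancel₀ (by positivity), one_smul]
  have hc0 : c 0 = 0 := by rw [hc]; show (N ^ 0)⁻¹ • W 0 = 0; rw [hW0, smul_zero]
  have hc1 : ∀ m, c (m + 1) = N⁻¹ • (b1 + ∑ s, π (e s) (c m)) := by
    intro m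
    have h1 : N ^ (m + 1) • c (m + 1) = N ^ m • (b1 + ∑ s, π (e s) (c m)) := by
      rw [← hcW, hW1, hcW m, smul_add, Finset.smul_sum]
      congr 1
      refine Finset.sum_congr rfl fun s _ => ?_
      rw [map_smul]
    have h2 : c (m + 1) = (N ^ (m + 1))⁻¹ • (N ^ (m + 1) • c (m + 1)) := by
      rw [smul_smul, inv_mul_cancel₀ (by positivity), one_smul]
    rw [h2, h1, smul_smul]
    congr 1
    field_simp
    ring
  have hA : ∀ f : H, ‖N⁻¹ • ∑ s, π (e s) f‖ ≤ ρ * ‖f‖ := by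
    intro f
    rw [norm_smul, norm_inv, Real.norm_of_nonneg hN0.le]
    have h1 := gap f
    rw [← hN] at h1
    calc N⁻¹ * ‖∑ s, π (e s) f‖ ≤ N⁻¹ * (ρ * N * ‖f‖) :=
          mul_le_mul_of_nonneg_left h1 (by positivity)
      _ = ρ * ‖f‖ := by field_simp
  have hdiff : ∀ m, ‖c (m + 1) - c m‖ ≤ ρ ^ m * ‖c 1‖ := by
    intro m
    induction m with
    | zero => rw [hc0, sub_zero, pow_zero, one_mul]
    | succ m ih =>
      have h1 : c (m + 1 + 1) - c (m + 1) = N⁻¹ • ∑ s, π (e s) (c (m + 1) - c m) := by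
        have h2 : ∑ s, π (e s) (c (m + 1) - c m) = (b1 + ∑ s, π (e s) (c (m + 1))) -
            (b1 + ∑ s, π (e s) (c m)) := by
          rw [add_sub_add_left_eq_sub, ← Finset.sum_sub_distrib]
          refine Finset.sum_congr rfl fun s _ => ?_
          rw [map_sub]
        rw [h2, smul_sub, ← hc1, ← hc1]
      rw [h1]
      refine (hA _).trans ?_
      rw [pow_succ']
      calc ρ * ‖c (m + 1) - c m‖ ≤ ρ * (ρ ^ m * ‖c 1‖) := mul_le_mul_of_nonneg_left ih hρ0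
        _ = ρ * ρ ^ m * ‖c 1‖ := by ring
  have hgeo : ∀ m : ℕ, ∑ k ∈ Finset.range m, ρ ^ k ≤ 1 / (1 - ρ) := by
    intro m
    have h1 := geom_sum_mul_neg ρ m
    rw [le_div_iff₀ (by linarith), h1]
    linarith [pow_nonneg hρ0 m]
  have hcs : ∀ m, ‖c m‖ ≤ (∑ k ∈ Finset.range m, ρ ^ k) * ‖c 1‖ := by
    intro m
    induction m with
    | zero => rw [hc0]; simp
    | succ m ih =>
      rw [Finset.sum_range_succ, add_mul]
      have h1 : c (m + 1) = c m + (c (m + 1) - c m) := by abel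
      calc ‖c (m + 1)‖ = ‖c m + (c (m + 1) - c m)‖ := by rw [← h1]
        _ ≤ ‖c m‖ + ‖c (m + 1) - c m‖ := norm_add_le _ _
        _ ≤ _ := add_le_add ih (hdiff m)
  obtain ⟨B, hB⟩ : ∃ B : ℝ, B = 1 / (1 - ρ) * ‖c 1‖ := ⟨_, rfl⟩
  have hB0 : 0 ≤ B := by
    rw [hB]
    have : 0 < 1 - ρ := by linarith
    positivity
  have hcB : ∀ m, ‖c m‖ ≤ B := fun m => by
    rw [hB]
    exact (hcs m).trans (mul_le_mul_of_nonneg_right (hgeo m) (norm_nonneg _))
  -- a long word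
  obtain ⟨w₀, hw₀⟩ := unb (2 * B + 2)
  obtain ⟨r, hr⟩ : ∃ r : ℕ, r = w₀.length := ⟨_, rfl⟩
  have hr1 : 1 ≤ r := by
    rw [hr]
    rcases w₀ with _ | ⟨s, w⟩
    · rw [ev_nil, HIL_one π b hb, norm_zero] at hw₀
      linarith
    · simp
  have hr0 : (0 : ℝ) < r := by exact_mod_cast hr1
  -- the drift
  have hq : ∀ m, 4 / (r : ℝ) ^ 2 - 2 * N * (ρ ^ m * ‖c 1‖ * B) ≤ d1 - 2 * inner ℝ b1 (c m) := by
    intro m
    obtain ⟨b', hb'⟩ : ∃ b' : G → H, b' = fun g => b g + π g (c m) - c m := ⟨_, rfl⟩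
    have hco : ∀ g h, b' (g * h) = b' g + π g (b' h) := by
      intro g h
      rw [hb']
      show b (g * h) + π (g * h) (c m) - c m =
        b g + π g (c m) - c m + π g (b h + π h (c m) - c m)
      rw [hb, map_mul, map_sub, map_add]
      have : (π g * π h) (c m) = π g (π h (c m)) := rfl
      rw [this]
      abel
    have hsum : ∑ s, ‖b' (e s)‖ ^ 2 = d1 - 2 * inner ℝ b1 (c m) -
        2 * N * inner ℝ (c (m + 1) - c m) (c m) := by
      have h1 : ∀ s, ‖b' (e s)‖ ^ 2 = ‖b (e s)‖ ^ 2 + 2 * inner ℝ (b (e s)) (π (e s) (c m)) -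
          2 * inner ℝ (b (e s)) (c m) + 2 * ‖c m‖ ^ 2 - 2 * inner ℝ (π (e s) (c m)) (c m) := by
        intro s
        have h2 : b' (e s) = b (e s) + (π (e s) (c m) - c m) := by
          rw [hb']
          show b (e s) + π (e s) (c m) - c m = _
          abel
        rw [h2, norm_add_sq_real, norm_sub_sq_real, inner_sub_right,
          LinearIsometryEquiv.norm_map]
        ring
      rw [Finset.sum_congr rfl fun s _ => h1 s, Finset.sum_sub_distrib, Finset.sum_add_distrib,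
        Finset.sum_sub_distrib, Finset.sum_add_distrib, ← Finset.mul_sum, ← Finset.mul_sum,
        ← Finset.mul_sum, ← Finset.mul_sum, HIL_cross e inv hinv he π b hb, ← hb1, ← sum_inner,
        ← sum_inner, ← hb1, ← hd1, Finset.sum_const, Finset.card_univ, nsmul_eq_mul, ← hN]
      have h3 : ∑ s, π (e s) (c m) = N • c (m + 1) - b1 := by
        rw [hc1, smul_smul, mul_inv_cancel₀ hN0.ne', one_smul]
        abel
      rw [h3, inner_sub_left, inner_smul_left, inner_sub_left, real_inner_self_eq_norm_sq]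
      simp only [conj_trivial]
      ring
    obtain ⟨T, hT⟩ : ∃ T : ℝ, T = ∑ s, ‖b' (e s)‖ ^ 2 := ⟨_, rfl⟩
    have hT0 : 0 ≤ T := by rw [hT]; exact Finset.sum_nonneg fun s _ => by positivity
    have hlet : ∀ s, ‖b' (e s)‖ ≤ Real.sqrt T := by
      intro s
      refine Real.le_sqrt_of_sq_le ?_
      rw [hT]
      exact Finset.single_le_sum (f := fun s => ‖b' (e s)‖ ^ 2) (fun s _ => by positivity)
        (Finset.mem_univ s)
    have h4 := HIL_word e π b' hco (Real.sqrt T) hlet w₀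
    have h5 : 2 ≤ ‖b' (ev e w₀)‖ := by
      have h6 : b (ev e w₀) = b' (ev e w₀) + (c m - π (ev e w₀) (c m)) := by
        rw [hb']
        show _ = b (ev e w₀) + π (ev e w₀) (c m) - c m + _
        abel
      have h7 : ‖b (ev e w₀)‖ ≤ ‖b' (ev e w₀)‖ + (‖c m‖ + ‖c m‖) := by
        rw [h6]
        refine (norm_add_le _ _).trans (add_le_add le_rfl ?_)
        refine (norm_sub_le _ _).trans ?_
        rw [LinearIsometryEquiv.norm_map]
      linarith [hcB m]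
    have h8 : 4 / (r : ℝ) ^ 2 ≤ T := by
      rw [div_le_iff₀ (by positivity)]
      have h9 : 2 ≤ r * Real.sqrt T := by
        rw [hr]
        linarith
      have h10 : (2 : ℝ) ^ 2 ≤ (r * Real.sqrt T) ^ 2 := pow_le_pow_left₀ (by norm_num) h9 2
      rw [mul_pow, Real.sq_sqrt hT0] at h10
      linarith
    have h11 : |inner ℝ (c (m + 1) - c m) (c m)| ≤ ρ ^ m * ‖c 1‖ * B := by
      refine (abs_real_inner_le_norm _ _).trans ?_
      exact mul_le_mul (hdiff m) (hcB m) (norm_nonneg _) (by positivity)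
    have h12 := (abs_le.1 h11).1
    have h13 : -(2 * N * (ρ ^ m * ‖c 1‖ * B)) ≤ 2 * N * inner ℝ (c (m + 1) - c m) (c m) := by
      have := mul_le_mul_of_nonneg_left h12 (show (0 : ℝ) ≤ 2 * N by linarith)
      linarith
    rw [← hT] at hsum
    linarith
  -- summation
  obtain ⟨q, hqd⟩ : ∃ q : ℝ, q = 4 / (r : ℝ) ^ 2 / N := ⟨_, rfl⟩
  have hq0 : 0 < q := by rw [hqd]; positivity
  have hD : ∀ m : ℕ, (q * m - 2 * (‖c 1‖ * B) * ∑ k ∈ Finset.range m, ρ ^ k) * N ^ m ≤ E m := by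
    intro m
    induction m with
    | zero => rw [hE0]; simp
    | succ m ih =>
      rw [hE1, hcW m, inner_smul_right, Finset.sum_range_succ]
      have h1 := hq m
      have h2 : (4 / (r : ℝ) ^ 2 - 2 * N * (ρ ^ m * ‖c 1‖ * B)) * N ^ m ≤
          (d1 - 2 * inner ℝ b1 (c m)) * N ^ m :=
        mul_le_mul_of_nonneg_right h1 (by positivity)
      have h3 := mul_le_mul_of_nonneg_left ih hN0.le
      have h4 : q * N = 4 / (r : ℝ) ^ 2 := by rw [hqd]; field_simp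
      push_cast
      have h5 : (q * ((m : ℝ) + 1) - 2 * (‖c 1‖ * B) * (∑ k ∈ Finset.range m, ρ ^ k + ρ ^ m)) *
          N ^ (m + 1) = (q * N - 2 * N * (ρ ^ m * ‖c 1‖ * B)) * N ^ m +
          N * ((q * m - 2 * (‖c 1‖ * B) * ∑ k ∈ Finset.range m, ρ ^ k) * N ^ m) := by
        rw [pow_succ]
        ring
      rw [h5, h4]
      linarith
  refine ⟨q, hq0, 2 * (‖c 1‖ * B) * (1 / (1 - ρ)), B, fun m => ⟨?_, ?_⟩⟩
  · rw [← hN]
    have h1 := hD m
    rw [hE] at h1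
    refine le_trans (mul_le_mul_of_nonneg_right ?_ (by positivity)) h1
    have h2 := mul_le_mul_of_nonneg_left (hgeo m)
      (show (0 : ℝ) ≤ 2 * (‖c 1‖ * B) by positivity)
    linarith
  · rw [← hN]
    have h1 : wsum m (fun w => b (ev e w)) = (N ^ m) • c m := by
      rw [← hcW, hW]
    rw [h1, norm_smul, Real.norm_of_nonneg (by positivity), mul_comm]
    exact mul_le_mul_of_nonneg_right (hcB m) (by positivity)

end GWP
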