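import Pool.Agent.H55.GWP.SEG
import Pool.Agent.H55.GWP.INB

/-! INA: main transitions preserve the invariants. -/

set_option autoImplicit false
open Classical
namespace GWP

variable {S G V : Type*} [Fintype S] [Group G] [MulAction G V]

theorem OpsOK_append (U : Setup S G V) (a b c : V) (is js : List (Op V S))
    (h : OpsOK U a is b) (h' : OpsOK U b js c) : OpsOK U a (is ++ js) c := by
  induction is generalizing a with
  | nil =>
    have h1 : a = b := h
    subst h1
    exact h'
  | cons i is ih =>
    cases i with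
    | mv x x' =>
      obtain ⟨h1, h2, h3, h4, h5⟩ := h
      exact ⟨h1, h2, h3, h4, ih x' h5⟩
    | ap s =>
      obtain ⟨h1, h2⟩ := h
      exact ⟨h1, ih U.o h2⟩

theorem INA_moves (U : Setup S G V) (l : List V) : ∀ a b : V, NB U.T l →
    (∀ v ∈ l, v ∈ V0 U) → l.head? = some a → l.getLast? = some b →
    OpsOK U a (moves l) b := by
  induction l with
  | nil =>
    intro a b h
    exact absurd h (by simp [NB])
  | cons v l ih =>
    intro a b h hV hh hl
    have hva : v = a := by simpa using hh
    subst hva
    cases l with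
    | nil =>
      have hvb : v = b := by simpa using hl
      exact hvb
    | cons w l =>
      have h1 : U.T.Adj v w ∧ (∀ x ∈ l.head?, v ≠ x) ∧ NB U.T (w :: l) := h
      refine ⟨rfl, h1.1, hV v List.mem_cons_self,
        hV w (List.mem_cons_of_mem _ List.mem_cons_self), ?_⟩
      apply ih w b h1.2.2 (fun x hx => hV x (List.mem_cons_of_mem _ hx)) rfl
      rw [List.getLast?_cons_cons] at hl
      exact hl

theorem INA_opsL (U : Setup S G V) (s : S) : OpsOK U U.o (opsL U s) U.o := by
  unfold opsL
  refine OpsOK_append U U.o (U.e s • U.o) U.o _ _ ?_ ⟨rfl, rfl⟩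
  apply INA_moves U _ _ _ (tpath_NB U.tree _ _) _ (tpath_head U.tree _ _)
    (tpath_last U.tree _ _)
  intro v hv
  exact Or.inr ⟨s, hv⟩

theorem opsW_ok (U : Setup S G V) (w : List S) : OpsOK U U.o (opsW U w) U.o := by
  unfold opsW
  induction w with
  | nil => exact rfl
  | cons s w ih =>
    rw [List.flatMap_cons]
    exact OpsOK_append U U.o U.o U.o _ _ (INA_opsL U s) ih

theorem init_inv (U : Setup S G V) : Inv U U.o (init U) := by
  refine ⟨trivial, ?_, ?_⟩
  · intro x hx
    have : x = Item.hole U.o 1 := by simpa [init] using hx.symm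
    subst this
    exact one_smul G U.o
  · intro x hx
    have : x = Item.hole U.o 1 := by simpa [init] using hx
    subst this
    exact ⟨Or.inl rfl, Or.inl rfl⟩

theorem INA_mul_inv (U : Setup S G V) (a : V) (it : Item V G) (g : G) (l : List (Item V G))
    (h : WF U.T (it :: l)) (h0 : InV0 U (it :: l)) (hat : it.con • g • a = it.pos) :
    Inv U a (it.mul g :: l) := by
  have h9 : (it.mul g).con = it.con * g := by cases it <;> rfl
  have h10 : (it.mul g).pos = it.pos := by cases it <;> rfl
  have h11 : (it.mul g).low = it.low := by cases it <;> rfl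
  refine ⟨INB_WF_mul U.T it g l h, ?_, ?_⟩
  · intro x hx
    have : x = it.mul g := by simpa using hx.symm
    subst this
    rw [h9, h10, mul_smul, hat]
  · intro x hx
    rcases List.mem_cons.1 hx with rfl | hx
    · rw [h10, h11]
      exact h0 it List.mem_cons_self
    · exact h0 x (List.mem_cons_of_mem _ hx)

theorem INA_push_inv (U : Setup S G V) (x x' : V) (it : Item V G) (l : List (Item V G))
    (h : WF U.T (it :: l)) (h0 : InV0 U (it :: l)) (hat : it.con • x = it.pos)
    (hadj : U.T.Adj x x') (hx : x ∈ V0 U) (hx' : x' ∈ V0 U)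
    (hne : ¬ it.isHole → it.con • x' ≠ it.low) :
    Inv U x' (.edge x x' 1 :: it :: l) := by
  refine ⟨⟨hadj, hat, hne, h⟩, ?_, ?_⟩
  · intro y hy
    have : y = Item.edge x x' 1 := by simpa using hy.symm
    subst this
    exact one_smul G x'
  · intro y hy
    rcases List.mem_cons.1 hy with rfl | hy
    · exact ⟨hx, hx'⟩
    · exact h0 y hy

theorem mm_inv (U : Setup S G V) (K L s0 : ℕ) (a b : V) (i : Op V S) (D : List (Item V G))
    (hi : OpsOK U a [i] b) (h : Inv U a D) : Inv U b (mm (parOf U K L s0) i D) := by
  cases i with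
  | mv x x' =>
    obtain ⟨h1, h2, h3, h4, h5⟩ := hi
    have h5 : x' = b := h5
    subst h1
    subst h5
    match D, h with
    | [], h => exact absurd h.wf (by simp [WF])
    | [.edge p q c], h => exact absurd h.wf (by simp [WF])
    | [.hole q c], h =>
      exact INA_push_inv U a x' (.hole q c) [] h.wf h.inV0 (h.at_ _ rfl) h2 h3 h4
        (fun hn => absurd trivial hn)
    | .hole q c :: it :: l, h =>
      exact INA_push_inv U a x' (.hole q c) (it :: l) h.wf h.inV0 (h.at_ _ rfl) h2 h3 h4
        (fun hn => absurd trivial hn)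
    | .edge p q c :: it :: l, h =>
      have hwf := h.wf
      obtain ⟨w1, w2, w3, w4⟩ := hwf
      show Inv U x' (if c • x' = p then it.mul c :: l else
        Item.edge a x' 1 :: Item.edge p q c :: it :: l)
      split_ifs with hc
      · apply INA_mul_inv U x' it c l w4 (fun y hy => h.inV0 y (List.mem_cons_of_mem _ hy))
        rw [hc, w2]
      · exact INA_push_inv U a x' (.edge p q c) (it :: l) h.wf h.inV0 (h.at_ _ rfl) h2 h3 h4
          (fun _ => hc)
  | ap s =>
    obtain ⟨h1, h2⟩ := hi
    have h2 : U.o = b := h2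
    subst h1
    subst h2
    match D, h with
    | [], h => exact absurd h.wf (by simp [WF])
    | it :: l, h =>
      exact INA_mul_inv U U.o it (U.e s) l h.wf h.inV0 (h.at_ _ rfl)

theorem chk_inv (U : Setup S G V) (K L s0 : ℕ) (a b : V) (i : Op V S) (D : List (Item V G))
    (hi : OpsOK U a [i] b) (h : Inv U b D) : Inv U b (chk (parOf U K L s0) i D) := by
  have hcur : cur (parOf U K L s0) i = b ∧ b ∈ V0 U := by
    cases i with
    | mv x x' =>
      obtain ⟨h1, h2, h3, h4, h5⟩ := hi
      have h5 : x' = b := h5
      subst h5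
      exact ⟨rfl, h4⟩
    | ap s =>
      obtain ⟨h1, h2⟩ := hi
      have h2 : U.o = b := h2
      subst h2
      exact ⟨rfl, Or.inl rfl⟩
  match D, h with
  | [], h => exact absurd h.wf (by simp [WF])
  | it :: l, h =>
    unfold chk
    rw [hcur.1]
    exact INB_nrm_inv U _ _ b it l hcur.2 h.wf h.inV0 (h.at_ _ rfl)

end GWP
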