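import Pool.Agent.H55.GWP.INV
import Pool.Agent.H55.GWP.MMB

/-! IND: the total potential of all runs over a list of `t` operations is at most the potential
of the main run plus `((1 + 2δ)^t - 1) (e^α b)^t` times the potential.

First the crude bound `R(is, D) ≤ ((1 + δ) e^α b)^t pot D` (`mm_bound`, `hov`, `hcl`; forgetting
gives a factor `δ ≤ 1`).  Then induction on `is`: if `chk` forgets nothing, `mainOp D = mm D` and
`R(i :: is, D) ≤ pot (mmRun is (mm i D)) + ((1+2δ)^t - 1) (e^α b)^t pot (mm i D)
 + δ ((1+δ) e^α b)^t e^α b pot D`; if it forgets, `R ≤ (1+δ) δ e^α b ((1+δ) e^α b)^t pot D`. -/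

set_option autoImplicit false
open Classical
namespace GWP

variable {S G V : Type*} [Fintype S] [Group G] [MulAction G V]

theorem runOps_append (P : Par S G V) (is js : List (Op V S)) (D : List (Item V G)) :
    runOps P (is ++ js) D = (runOps P is D).flatMap (runOps P js) := by
  induction is generalizing D with
  | nil => simp [runOps]
  | cons i is ih =>
    show (stepOp P i D).flatMap (runOps P (is ++ js)) = _
    rw [show runOps P (is ++ js) = fun D => (runOps P is D).flatMap (runOps P js) from
      funext ih]
    show _ = ((stepOp P i D).flatMap (runOps P is)).flatMap (runOps P js)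
    rw [List.flatMap_assoc]

theorem opsW_append (U : Setup S G V) (w w' : List S) :
    opsW U (w ++ w') = opsW U w ++ opsW U w' := by
  unfold opsW
  rw [List.flatMap_append]

theorem IND_flat {A B : Type*} (l : List A) (f : A → List B) (g : B → ℝ) :
    ((l.flatMap f).map g).sum = (l.map (fun x => ((f x).map g).sum)).sum := by
  induction l with
  | nil => simp
  | cons a l ih =>
    rw [List.flatMap_cons, List.map_append, List.sum_append, ih, List.map_cons, List.sum_cons]

theorem IND_sum {A : Type*} (l : List A) (F H : A → ℝ) (c : ℝ)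
    (h : ∀ x ∈ l, F x ≤ c * H x) : (l.map F).sum ≤ c * (l.map H).sum := by
  induction l with
  | nil => simp
  | cons a l ih =>
    rw [List.map_cons, List.sum_cons, List.map_cons, List.sum_cons, mul_add]
    exact add_le_add (h a (by simp)) (ih fun x hx => h x (by simp [hx]))

theorem IND_ops (U : Setup S G V) (a c : V) (i : Op V S) (is : List (Op V S))
    (h : OpsOK U a (i :: is) c) : ∃ b, OpsOK U a [i] b ∧ OpsOK U b is c := by
  cases i with
  | mv x x' =>
    obtain ⟨h1, h2, h3, h4, h5⟩ := h
    exact ⟨x', ⟨h1, h2, h3, h4, rfl⟩, h5⟩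
  | ap s =>
    obtain ⟨h1, h2⟩ := h
    exact ⟨U.o, ⟨h1, rfl⟩, h2⟩

theorem runOps_sum_le (U : Setup S G V) (K L s0 : ℕ) (hK : 1 ≤ K) (α Q b δ : ℝ)
    (hα : 0 < α) (hQ : 1 ≤ Q) (hb : 1 < b) (hδ : 0 < δ) (hδ1 : δ ≤ 1)
    (hcl : ∀ (a : V) (D : List (Item V G)), Inv U a D →
        ((claims (parOf U K L s0) a D).map
          (pot K (Rigid G) (wlen U.e) α Q b)).sum ≤
          δ * pot K (Rigid G) (wlen U.e) α Q b D)
    (hov : ∀ (a : V) (it : Item V G) (l : List (Item V G)),
      ¬ (wlen U.e it.con ≤ L) →
      pot K (Rigid G) (wlen U.e) α Q b (ovfTop a it ++ l) ≤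
        δ * pot K (Rigid G) (wlen U.e) α Q b (it :: l))
    (is : List (Op V S)) (a c : V) (D : List (Item V G)) (hi : OpsOK U a is c)
    (h : Inv U a D) :
    ((runOps (parOf U K L s0) is D).map (pot K (Rigid G) (wlen U.e) α Q b)).sum ≤
      pot K (Rigid G) (wlen U.e) α Q b (mmRun (parOf U K L s0) is D) +
      ((1 + 2 * δ) ^ is.length - 1) * (Real.exp α * b) ^ is.length *
        pot K (Rigid G) (wlen U.e) α Q b D := by
  set P := parOf U K L s0 with hP
  set f : List (Item V G) → ℝ := pot K (Rigid G) (wlen U.e) α Q b with hf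
  have hpos : ∀ D, 0 < f D := fun D =>
    pot_pos K (Rigid G) (wlen U.e) α Q b (by linarith) (by linarith) D
  set A : ℝ := Real.exp α * b with hA
  have hA1 : 1 ≤ A := by
    have h1 : 1 ≤ Real.exp α := Real.one_le_exp hα.le
    nlinarith
  have hA0 : 0 < A := by linarith
  have hmm : ∀ (a c : V) (i : Op V S) (D : List (Item V G)), OpsOK U a [i] c → Inv U a D →
      f (mm P i D) ≤ A * f D := fun a c i D h1 h2 =>
    mm_bound U K L s0 hK α Q b hα hQ hb.le a c i D h1 h2
  -- the length check
  have hchk : ∀ (i : Op V S) (D : List (Item V G)), chk P i D = D ∨ f (chk P i D) ≤ δ * f D := by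
    intro i D
    cases D with
    | nil => exact Or.inl rfl
    | cons it l =>
      show nrmTop (wlen U.e) L (cur P i) it ++ l = it :: l ∨
        f (nrmTop (wlen U.e) L (cur P i) it ++ l) ≤ δ * f (it :: l)
      unfold nrmTop
      by_cases hlen : wlen U.e it.con ≤ L
      · rw [if_pos hlen]
        exact Or.inl rfl
      · rw [if_neg hlen]
        exact Or.inr (hov _ it l hlen)
  have hchk' : ∀ (i : Op V S) (D : List (Item V G)), f (chk P i D) ≤ f D := by
    intro i D
    rcases hchk i D with h1 | h1
    · rw [h1]
    · have := hpos D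
      nlinarith
  have hIm : ∀ (a c : V) (i : Op V S) (D : List (Item V G)), OpsOK U a [i] c → Inv U a D →
      Inv U c (mainOp P i D) := fun a c i D h1 h2 =>
    chk_inv U K L s0 a c i _ h1 (mm_inv U K L s0 a c i D h1 h2)
  have hcV : ∀ (a c : V) (i : Op V S), OpsOK U a [i] c → c ∈ V0 U := by
    intro a c i h1
    cases i with
    | mv x x' =>
      obtain ⟨_, _, _, h4, h5⟩ := h1
      rw [← (show x' = c from h5)]
      exact h4
    | ap s =>
      obtain ⟨_, h2⟩ := h1
      rw [← (show U.o = c from h2)]
      exact Or.inl rfl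
  have hcur : ∀ (a c : V) (i : Op V S), OpsOK U a [i] c → cur P i = c := by
    intro a c i h1
    cases i with
    | mv x x' =>
      obtain ⟨_, _, _, _, h5⟩ := h1
      exact h5
    | ap s =>
      obtain ⟨_, h2⟩ := h1
      exact h2
  -- the sum over the runs
  set R : List (Op V S) → List (Item V G) → ℝ := fun is D => ((runOps P is D).map f).sum with hR
  have hRnil : ∀ D, R [] D = f D := by
    intro D
    simp [hR, runOps]
  have hRcons : ∀ i is D, R (i :: is) D =
      R is (mainOp P i D) + ((claims P (cur P i) (mainOp P i D)).map (R is)).sum := by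
    intro i is D
    show (((stepOp P i D).flatMap (runOps P is)).map f).sum = _
    rw [IND_flat]
    show ((mainOp P i D :: claims P (cur P i) (mainOp P i D)).map (R is)).sum = _
    rw [List.map_cons, List.sum_cons]
  -- the crude bound
  have crude : ∀ (is : List (Op V S)) (a c : V) (D : List (Item V G)), OpsOK U a is c →
      Inv U a D → R is D ≤ ((1 + δ) * A) ^ is.length * f D := by
    intro is
    induction is with
    | nil =>
      intro a c D _ _
      rw [hRnil]
      simp
    | cons i is ih =>
      intro a c D h1 h2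
      obtain ⟨b', h3, h4⟩ := IND_ops U a c i is h1
      have hI' := hIm a b' i D h3 h2
      rw [hRcons, List.length_cons]
      have e1 := ih b' c (mainOp P i D) h4 hI'
      have e2 : ((claims P (cur P i) (mainOp P i D)).map (R is)).sum ≤
          ((1 + δ) * A) ^ is.length *
            ((claims P (cur P i) (mainOp P i D)).map f).sum := by
        apply IND_sum
        intro D' hD'
        rw [hcur a b' i h3] at hD'
        exact ih b' c D' h4 (claims_inv U K L s0 hK b' _ (hcV a b' i h3) hI' D' hD')
      have e3 : ((claims P (cur P i) (mainOp P i D)).map f).sum ≤ δ * f (mainOp P i D) := by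
        rw [hcur a b' i h3]
        exact hcl b' _ hI'
      have e4 : f (mainOp P i D) ≤ A * f D := (hchk' i _).trans (hmm a b' i D h3 h2)
      have e5 : (0 : ℝ) ≤ ((1 + δ) * A) ^ is.length := by positivity
      calc R is (mainOp P i D) + ((claims P (cur P i) (mainOp P i D)).map (R is)).sum
          ≤ ((1 + δ) * A) ^ is.length * f (mainOp P i D) +
            ((1 + δ) * A) ^ is.length * (δ * f (mainOp P i D)) :=
            add_le_add e1 (e2.trans (mul_le_mul_of_nonneg_left e3 e5))
        _ = ((1 + δ) * A) ^ is.length * ((1 + δ) * f (mainOp P i D)) := by ring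
        _ ≤ ((1 + δ) * A) ^ is.length * ((1 + δ) * (A * f D)) :=
            mul_le_mul_of_nonneg_left (mul_le_mul_of_nonneg_left e4 (by linarith)) e5
        _ = ((1 + δ) * A) ^ (is.length + 1) * f D := by ring
  -- the refined bound
  show R is D ≤ _
  induction is generalizing a D with
  | nil =>
    rw [hRnil]
    simp [mmRun]
  | cons i is ih =>
    obtain ⟨b', h3, h4⟩ := IND_ops U a c i is hi
    have hI' := hIm a b' i D h3 h
    rw [hRcons, List.length_cons]
    have e5 : (0 : ℝ) ≤ ((1 + δ) * A) ^ is.length := by positivity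
    have e2 : ((claims P (cur P i) (mainOp P i D)).map (R is)).sum ≤
        ((1 + δ) * A) ^ is.length *
          ((claims P (cur P i) (mainOp P i D)).map f).sum := by
      apply IND_sum
      intro D' hD'
      rw [hcur a b' i h3] at hD'
      exact crude is b' c D' h4 (claims_inv U K L s0 hK b' _ (hcV a b' i h3) hI' D' hD')
    have e3 : ((claims P (cur P i) (mainOp P i D)).map f).sum ≤ δ * f (mainOp P i D) := by
      rw [hcur a b' i h3]
      exact hcl b' _ hI'
    have hmr : mmRun P (i :: is) D = mmRun P is (mm P i D) := rfl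
    have hpow : (1 + δ) ^ is.length ≤ (1 + 2 * δ) ^ is.length :=
      pow_le_pow_left₀ (by linarith) (by linarith) _
    have hone : (1 : ℝ) ≤ (1 + 2 * δ) ^ is.length := one_le_pow₀ (by linarith)
    have hApos : (0 : ℝ) < A ^ is.length := pow_pos hA0 _
    have hfD := hpos D
    rcases hchk i (mm P i D) with hc | hc
    · -- nothing is forgotten
      have hmain : mainOp P i D = mm P i D := hc
      have e1 := ih b' (mainOp P i D) h4 hI'
      rw [hmain] at e1 e2 e3 ⊢
      rw [hmr]
      have e4 : f (mm P i D) ≤ A * f D := hmm a b' i D h3 h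
      have e6 : ((claims P (cur P i) (mm P i D)).map (R is)).sum ≤
          ((1 + δ) * A) ^ is.length * (δ * (A * f D)) :=
        e2.trans (mul_le_mul_of_nonneg_left (e3.trans (mul_le_mul_of_nonneg_left e4 hδ.le)) e5)
      have e7 : ((1 + 2 * δ) ^ is.length - 1) * A ^ is.length * f (mm P i D) ≤
          ((1 + 2 * δ) ^ is.length - 1) * A ^ is.length * (A * f D) :=
        mul_le_mul_of_nonneg_left e4 (mul_nonneg (by linarith) hApos.le)
      have e8 : ((1 + δ) * A) ^ is.length * (δ * (A * f D)) ≤
          (1 + 2 * δ) ^ is.length * δ * (A ^ (is.length + 1) * f D) := by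
        rw [mul_pow]
        have : (1 + δ) ^ is.length * A ^ is.length * (δ * (A * f D)) =
            (1 + δ) ^ is.length * (δ * (A ^ (is.length + 1) * f D)) := by ring
        rw [this]
        have h9 : 0 ≤ δ * (A ^ (is.length + 1) * f D) := by positivity
        calc (1 + δ) ^ is.length * (δ * (A ^ (is.length + 1) * f D))
            ≤ (1 + 2 * δ) ^ is.length * (δ * (A ^ (is.length + 1) * f D)) :=
              mul_le_mul_of_nonneg_right hpow h9
          _ = _ := by ring
      have h10 : 0 ≤ (1 + 2 * δ) ^ is.length * δ * (A ^ (is.length + 1) * f D) := by positivity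
      calc R is (mm P i D) + ((claims P (cur P i) (mm P i D)).map (R is)).sum
          ≤ (f (mmRun P is (mm P i D)) +
              ((1 + 2 * δ) ^ is.length - 1) * A ^ is.length * (A * f D)) +
            (1 + 2 * δ) ^ is.length * δ * (A ^ (is.length + 1) * f D) := by
              linarith [e1, e6, e7, e8]
        _ ≤ f (mmRun P is (mm P i D)) + ((1 + 2 * δ) ^ (is.length + 1) - 1) *
              A ^ (is.length + 1) * f D := by
              have h11 : ((1 + 2 * δ) ^ (is.length + 1) - 1) * A ^ (is.length + 1) * f D =
                  ((1 + 2 * δ) ^ is.length - 1) * A ^ is.length * (A * f D) +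
                    2 * ((1 + 2 * δ) ^ is.length * δ * (A ^ (is.length + 1) * f D)) := by
                ring
              rw [h11]
              linarith
    · -- the content is forgotten
      have e4 : f (mainOp P i D) ≤ δ * (A * f D) :=
        hc.trans (mul_le_mul_of_nonneg_left (hmm a b' i D h3 h) hδ.le)
      have e1 := crude is b' c (mainOp P i D) h4 hI'
      have e6 : R is (mainOp P i D) + ((claims P (cur P i) (mainOp P i D)).map (R is)).sum ≤
          ((1 + δ) * A) ^ is.length * ((1 + δ) * (δ * (A * f D))) := by
        calc R is (mainOp P i D) + ((claims P (cur P i) (mainOp P i D)).map (R is)).sum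
            ≤ ((1 + δ) * A) ^ is.length * f (mainOp P i D) +
              ((1 + δ) * A) ^ is.length * (δ * f (mainOp P i D)) :=
              add_le_add e1 (e2.trans (mul_le_mul_of_nonneg_left e3 e5))
          _ = ((1 + δ) * A) ^ is.length * ((1 + δ) * f (mainOp P i D)) := by ring
          _ ≤ _ := mul_le_mul_of_nonneg_left (mul_le_mul_of_nonneg_left e4 (by linarith)) e5
      have e7 : ((1 + δ) * A) ^ is.length * ((1 + δ) * (δ * (A * f D))) ≤
          ((1 + 2 * δ) ^ (is.length + 1) - 1) * A ^ (is.length + 1) * f D := by
        have h12 : ((1 + δ) * A) ^ is.length * ((1 + δ) * (δ * (A * f D))) =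
            (1 + δ) ^ is.length * ((1 + δ) * δ) * (A ^ (is.length + 1) * f D) := by
          rw [mul_pow]
          ring
        rw [h12, mul_assoc _ (A ^ (is.length + 1)) (f D)]
        apply mul_le_mul_of_nonneg_right _ (by positivity)
        have h13 : (1 + δ) ^ is.length * ((1 + δ) * δ) ≤
            (1 + 2 * δ) ^ is.length * (2 * δ) := by
          apply mul_le_mul hpow _ (by positivity) (by positivity)
          nlinarith
        have h14 : (1 + 2 * δ) ^ (is.length + 1) - 1 =
            (1 + 2 * δ) ^ is.length * (2 * δ) + ((1 + 2 * δ) ^ is.length - 1) := by ring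
        rw [h14]
        linarith
      have h15 := hpos (mmRun P (i :: is) D)
      linarith

end GWP
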