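import Pool.Agent.H55.GWP.TRA

/-! TRD: distances in trees. -/

set_option autoImplicit false
open Classical
namespace GWP

variable {V : Type*} {T : SimpleGraph V}

theorem TRD_glue (l : List V) (a b : V) (l' : List V) (h : NB T (l ++ [a, b]))
    (h' : NB T (a :: b :: l')) : NB T (l ++ a :: b :: l') := by
  induction l with
  | nil => exact h'
  | cons v l ih =>
    cases l with
    | nil =>
      refine ⟨h.1, ?_, h'⟩
      intro x hx
      apply h.2.1 x
      simpa using hx
    | cons w l =>
      refine ⟨h.1, ?_, ih h.2.2⟩
      intro x hx
      apply h.2.1 x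
      cases l with
      | nil => simpa using hx
      | cons c l => simpa using hx

/-- One step along an edge. -/
theorem tpath_step (hT : T.IsTree) (x y y' : V) (h : T.Adj y y') :
    tpath hT x y = y :: tpath hT x y' ∨ tpath hT x y' = y' :: tpath hT x y := by
  have hNB := tpath_NB hT x y'
  have hh := tpath_head hT x y'
  have hl := tpath_last hT x y'
  rcases hL : tpath hT x y' with _ | ⟨a, l⟩
  · rw [hL] at hNB; exact absurd hNB (by simp [NB])
  · rw [hL] at hNB hh hl
    have ha : a = y' := by simpa using hh
    subst ha
    cases l with
    | nil =>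
      left
      refine (NB_eq_tpath hT _ (show NB T [y, a] from ⟨h, by simp, trivial⟩) x y rfl ?_).symm
      simpa using hl
    | cons z l =>
      by_cases hz : z = y
      · right
        subst hz
        rw [NB_eq_tpath hT (z :: l) hNB.2.2 x z rfl (by simpa using hl)]
      · left
        refine (NB_eq_tpath hT _ (show NB T (y :: a :: z :: l) from ⟨h, ?_, hNB⟩) x y rfl ?_).symm
        · intro w hw
          have : z = w := by simpa using hw
          rw [← this]; exact Ne.symm hz
        · simpa using hl

theorem dist_step (hT : T.IsTree) (x y y' : V) (h : T.Adj y y') :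
    T.dist x y = T.dist x y' + 1 ∨ T.dist x y' = T.dist x y + 1 := by
  have h1 := tpath_length hT x y
  have h2 := tpath_length hT x y'
  rcases tpath_step hT x y y' h with e | e
  · left
    rw [e, List.length_cons] at h1
    omega
  · right
    rw [e, List.length_cons] at h2
    omega

/-- Splitting a geodesic at one of its points. -/
theorem tpath_split (hT : T.IsTree) (x y z : V) (h : T.dist x z + T.dist z y = T.dist x y) :
    tpath hT x y = (tpath hT z y).dropLast ++ tpath hT x z := by
  obtain ⟨p, hp, hpe⟩ := TRA_spec hT z y
  obtain ⟨q, hq, hqe⟩ := TRA_spec hT x z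
  obtain ⟨s, hs, hse⟩ := TRA_spec hT x y
  have hlp := tpath_length hT z y
  have hlq := tpath_length hT x z
  rw [hpe, SimpleGraph.Walk.length_support] at hlp
  rw [hqe, SimpleGraph.Walk.length_support] at hlq
  have hlen : (p.append q).length = T.dist y x := by
    rw [SimpleGraph.Walk.length_append, SimpleGraph.dist_comm (u := y)]
    omega
  have hpath := SimpleGraph.Walk.isPath_of_length_eq_dist (p.append q) hlen
  have hu := hT.isAcyclic.path_unique ⟨s, hs⟩ ⟨_, hpath⟩
  have hu' : s = p.append q := congrArg (fun q : T.Path y x => (q : T.Walk y x)) hu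
  rw [hse, hpe, hqe, hu', SimpleGraph.Walk.support_append_eq_support_dropLast_append]

theorem TRD_get (hT : T.IsTree) (x y z : V) (l1 l2 : List V) (h : tpath hT x y = l1 ++ z :: l2) :
    T.dist z y = l1.length ∧ T.dist x z = l2.length := by
  have hNB := tpath_NB hT x y
  have hh := tpath_head hT x y
  have hl := tpath_last hT x y
  rw [h] at hNB hh hl
  have e1 : z :: l2 = tpath hT x z :=
    NB_eq_tpath hT _ (NB_append_right l1 _ hNB (by simp)) x z rfl (by
      rw [List.getLast?_append_of_ne_nil _ (by simp)] at hl; exact hl)
  have hNB' : NB T ((l1 ++ [z]) ++ l2) := by simpa using hNB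
  have e2 : l1 ++ [z] = tpath hT z y :=
    NB_eq_tpath hT _ (NB_append_left _ _ hNB' (by simp)) z y (by
      cases l1 with
      | nil => simpa using hh
      | cons a l1 => simpa using hh) (by simp)
  have h1 := tpath_length hT x z
  have h2 := tpath_length hT z y
  rw [← e1, List.length_cons] at h1
  rw [← e2, List.length_append, List.length_singleton] at h2
  omega

/-- `z` is on the geodesic iff the distances add up. -/
theorem mem_tpath_iff (hT : T.IsTree) (x y z : V) :
    z ∈ tpath hT x y ↔ T.dist x z + T.dist z y = T.dist x y := by
  constructor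
  · intro h
    obtain ⟨l1, l2, hl⟩ := List.append_of_mem h
    have h1 := TRD_get hT x y z l1 l2 hl
    have h2 := tpath_length hT x y
    rw [hl, List.length_append, List.length_cons] at h2
    omega
  · intro h
    rw [tpath_split hT x y z h, List.mem_append]
    right
    have := tpath_head hT x z
    exact List.mem_of_mem_head? (by rw [this]; simp)

/-- The point at distance `t` from `y` on the geodesic. -/
theorem tpath_get (hT : T.IsTree) (x y z : V) (t : ℕ) (h : (tpath hT x y)[t]? = some z) :
    T.dist y z = t ∧ T.dist x z + T.dist z y = T.dist x y := by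
  have hlt : t < (tpath hT x y).length := (List.getElem?_eq_some_iff.mp h).1
  have hz : (tpath hT x y)[t] = z := (List.getElem?_eq_some_iff.mp h).2
  have hs : tpath hT x y = (tpath hT x y).take t ++ z :: (tpath hT x y).drop (t + 1) := by
    rw [← hz, List.cons_getElem_drop_succ, List.take_append_drop]
  have h1 := TRD_get hT x y z _ _ hs
  refine ⟨?_, (mem_tpath_iff hT x y z).mp (List.mem_of_getElem? h)⟩
  rw [SimpleGraph.dist_comm, h1.1, List.length_take]
  omega

theorem tpath_get_of (hT : T.IsTree) (x y z : V) (h : T.dist x z + T.dist z y = T.dist x y) :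
    (tpath hT x y)[T.dist y z]? = some z := by
  rw [tpath_split hT x y z h, List.getElem?_append_right]
  · rw [List.length_dropLast, tpath_length, SimpleGraph.dist_comm (u := y)]
    have h0 := tpath_head hT x z
    rw [List.head?_eq_getElem?] at h0
    simpa using h0
  · rw [List.length_dropLast, tpath_length, SimpleGraph.dist_comm (u := y)]
    omega

theorem TRD_par (hT : T.IsTree) (y y' u v : V) (h : T.Adj y y') (h' : T.Adj u v)
    (h1 : ¬ (u = y ∧ v = y')) (e1 : T.dist y v = T.dist y u + 1)
    (e2 : T.dist y' u = T.dist y' v + 1) : False := by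
  have c1 := dist_step hT u y y' h
  have c2 := dist_step hT v y y' h
  rw [SimpleGraph.dist_comm (u := u) (v := y), SimpleGraph.dist_comm (u := u) (v := y')] at c1
  rw [SimpleGraph.dist_comm (u := v) (v := y), SimpleGraph.dist_comm (u := v) (v := y')] at c2
  have e3 : T.dist y' u = 1 + T.dist y u := by omega
  have hd : T.dist y' y = 1 := by
    rw [SimpleGraph.dist_comm, SimpleGraph.dist_eq_one_iff_adj]; exact h
  have hd' : T.dist v u = 1 := by
    rw [SimpleGraph.dist_comm, SimpleGraph.dist_eq_one_iff_adj]; exact h'
  have e4 : T.dist y' y + T.dist y u = T.dist y' u := by omega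
  by_cases h0 : T.dist y u = 0
  · have hyu : y = u := (hT.connected.dist_eq_zero_iff).mp h0
    have hyv : T.dist y' v = 0 := by omega
    have hyv' : y' = v := (hT.connected.dist_eq_zero_iff).mp hyv
    exact h1 ⟨hyu.symm, hyv'.symm⟩
  · have hv : v ∈ tpath hT y' u := (mem_tpath_iff hT y' u v).mpr (by omega)
    rw [tpath_split hT y' u y e4, List.mem_append] at hv
    rcases hv with hv | hv
    · have := (mem_tpath_iff hT y u v).mp (List.mem_of_mem_dropLast hv)
      omega
    · have := (mem_tpath_iff hT y' y v).mp hv
      rw [SimpleGraph.dist_comm (u := v) (v := y)] at this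
      omega

/-- An edge different from `{y, y'}` separates `x` from `y` iff it separates it from `y'`. -/
theorem dist_parallel (hT : T.IsTree) (y y' u v : V) (h : T.Adj y y') (h' : T.Adj u v)
    (h1 : ¬ (u = y ∧ v = y')) (h2 : ¬ (u = y' ∧ v = y)) :
    (T.dist y v : ℤ) - T.dist y u = (T.dist y' v : ℤ) - T.dist y' u := by
  have a1 := dist_step hT y u v h'
  have a2 := dist_step hT y' u v h'
  rcases a1 with a1 | a1 <;> rcases a2 with a2 | a2
  · omega
  · exact (TRD_par hT y' y u v h.symm h' h2 a2 a1).elim
  · exact (TRD_par hT y y' u v h h' h1 a1 a2).elim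
  · omega

theorem TRD_through (hT : T.IsTree) (x y y' z : V) (h : T.Adj y y')
    (h1 : T.dist x y = T.dist x y' + 1) (h2 : T.dist z y' = T.dist z y + 1) :
    T.dist x z = T.dist x y' + 1 + T.dist z y := by
  have s1 : tpath hT x y = y :: tpath hT x y' := by
    rcases tpath_step hT x y y' h with e | e
    · exact e
    · have l1 := tpath_length hT x y
      have l2 := tpath_length hT x y'
      rw [e, List.length_cons] at l2
      omega
  have s2 : tpath hT z y' = y' :: tpath hT z y := by
    rcases tpath_step hT z y y' h with e | e
    · have l1 := tpath_length hT z y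
      have l2 := tpath_length hT z y'
      rw [e, List.length_cons] at l1
      omega
    · exact e
  have n1 := tpath_NB hT x y
  have n2 := NB_reverse _ (tpath_NB hT z y')
  have k1 := tpath_head hT x y'
  have k2 := tpath_head hT z y
  have k3 := tpath_last hT z y
  have k4 := tpath_last hT x y'
  have l1 := tpath_length hT x y'
  have l2 := tpath_length hT z y
  rcases hA : tpath hT x y' with _ | ⟨a, A⟩
  · rw [hA] at k1; simp at k1
  rcases hB : tpath hT z y with _ | ⟨b, B⟩
  · rw [hB] at k2; simp at k2
  rw [hA] at k1 k4 l1
  rw [hB] at k2 k3 l2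
  have ea : a = y' := by simpa using k1
  have eb : b = y := by simpa using k2
  subst ea; subst eb
  rw [s1, hA] at n1
  rw [s2, hB] at n2
  have n2' : NB T (B.reverse ++ [b, a]) := by simpa using n2
  have g := TRD_glue _ _ _ _ n2' n1
  have e := NB_eq_tpath hT _ g x z (by
    cases B with
    | nil => simpa using k3
    | cons c B =>
      rw [List.getLast?_cons_cons] at k3
      rw [List.head?_append_of_ne_nil _ (by simp), List.head?_reverse]
      exact k3) (by
    rw [List.getLast?_append_of_ne_nil _ (by simp), List.getLast?_cons_cons]
    exact k4)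
  have l3 := tpath_length hT x z
  rw [← e, List.length_append, List.length_reverse] at l3
  simp only [List.length_cons] at l1 l2 l3
  omega

/-- Median: there is a centre `p` of the triangle `x, y, z`. -/
theorem exists_center (hT : T.IsTree) (x y z : V) :
    ∃ p, T.dist x p + T.dist p y = T.dist x y ∧ T.dist y p + T.dist p z = T.dist y z ∧
      T.dist x p + T.dist p z = T.dist x z := by
  induction hn : T.dist x y generalizing y with
  | zero =>
    have hxy : x = y := (hT.connected.dist_eq_zero_iff).mp hn
    subst hxy
    exact ⟨x, by simp, by simp, by simp⟩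
  | succ n ih =>
    have hl := tpath_length hT x y
    have hNB := tpath_NB hT x y
    have hh := tpath_head hT x y
    have hla := tpath_last hT x y
    rcases hA : tpath hT x y with _ | ⟨a, A⟩
    · rw [hA] at hh; simp at hh
    rw [hA] at hl hNB hh hla
    cases A with
    | nil => rw [List.length_singleton] at hl; omega
    | cons y' A =>
      have ea : a = y := by simpa using hh
      subst ea
      have hadj : T.Adj a y' := hNB.1
      have e1 : y' :: A = tpath hT x y' :=
        NB_eq_tpath hT _ hNB.2.2 x y' rfl (by rw [← List.getLast?_cons_cons]; exact hla)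
      have l1 := tpath_length hT x y'
      rw [← e1, List.length_cons] at l1
      rw [List.length_cons, List.length_cons] at hl
      have hd : T.dist x y' = n := by omega
      obtain ⟨p, p1, p2, p3⟩ := ih y' hd
      rcases dist_step hT z a y' hadj with c | c
      · refine ⟨p, ?_, ?_, p3⟩
        · have t1 := hT.connected.dist_triangle (u := x) (v := p) (w := a)
          have t2 := hT.connected.dist_triangle (u := p) (v := y') (w := a)
          have t3 : T.dist y' a = 1 := by
            rw [SimpleGraph.dist_comm, SimpleGraph.dist_eq_one_iff_adj]; exact hadj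
          omega
        · have t1 := hT.connected.dist_triangle (u := a) (v := p) (w := z)
          have t2 := hT.connected.dist_triangle (u := a) (v := y') (w := p)
          have t3 : T.dist a y' = 1 := by
            rw [SimpleGraph.dist_eq_one_iff_adj]; exact hadj
          rw [SimpleGraph.dist_comm (u := z), SimpleGraph.dist_comm (u := z)] at c
          omega
      · refine ⟨a, by simp; exact hn, by simp, ?_⟩
        have := TRD_through hT x a y' z hadj (by omega) c
        rw [SimpleGraph.dist_comm (u := a) (v := z)]
        omega

/-- Gate: for every `x` and radius `r` there is `x'` at distance at most `r` from `o` such that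
the relative distances to the points of the ball of radius `r` are the same. -/
theorem exists_gate (hT : T.IsTree) (o x : V) (r : ℕ) :
    ∃ x', T.dist o x' ≤ r ∧ T.dist o x' + T.dist x' x = T.dist o x ∧
      ∀ y, T.dist o y ≤ r →
        (T.dist x y : ℤ) - T.dist x o = (T.dist x' y : ℤ) - T.dist x' o := by
  by_cases hr : T.dist o x ≤ r
  · exact ⟨x, hr, by simp, fun y _ => rfl⟩
  · have hlt : r < (tpath hT x o).length := by
      rw [tpath_length, SimpleGraph.dist_comm]; omega
    have hg := tpath_get hT x o _ r (List.getElem?_eq_getElem hlt)
    generalize (tpath hT x o)[r] = x' at hg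
    obtain ⟨g1, g2⟩ := hg
    refine ⟨x', g1.le, by
      rw [SimpleGraph.dist_comm (u := x') (v := x), SimpleGraph.dist_comm (u := o) (v := x),
        SimpleGraph.dist_comm (u := o) (v := x')]
      omega, ?_⟩
    intro y hy
    obtain ⟨p, p1, p2, p3⟩ := exists_center hT x y o
    have hpo : T.dist o p ≤ r := by
      rw [SimpleGraph.dist_comm (u := y) (v := o)] at p2
      rw [SimpleGraph.dist_comm (u := o) (v := p)]
      omega
    have hbet : T.dist x' p + T.dist p o = T.dist x' o := by
      have hp : p ∈ tpath hT x o := (mem_tpath_iff hT x o p).mpr p3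
      rw [tpath_split hT x o x' g2, List.mem_append] at hp
      rcases hp with hp | hp
      · exact (mem_tpath_iff hT x' o p).mp (List.mem_of_mem_dropLast hp)
      · have := (mem_tpath_iff hT x x' p).mp hp
        rw [SimpleGraph.dist_comm (u := o) (v := p)] at hpo
        rw [SimpleGraph.dist_comm (u := o) (v := x')] at g1
        rw [SimpleGraph.dist_comm (u := p) (v := x')] at this
        omega
    have t1 := hT.connected.dist_triangle (u := x') (v := p) (w := y)
    have t2 := hT.connected.dist_triangle (u := x) (v := x') (w := y)
    have t3 := hT.connected.dist_triangle (u := x) (v := x') (w := p)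
    have t4 := hT.connected.dist_triangle (u := x) (v := x') (w := o)
    omega

end GWP
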