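import Pool.Agent.H55.GWP.TRA

/-! TRE: actions on trees. -/

set_option autoImplicit false
open Classical
namespace GWP

variable {V : Type*} {T : SimpleGraph V}

section action
variable {G : Type*} [Group G] [MulAction G V]
  (act : ∀ (g : G) (u v : V), T.Adj u v → T.Adj (g • u) (g • v))
include act

theorem adj_smul (g : G) (u v : V) : T.Adj (g • u) (g • v) ↔ T.Adj u v := by
  constructor
  · intro h
    have := act g⁻¹ _ _ h
    simpa using this
  · exact act g u v

theorem NB_smul (g : G) (l : List V) (h : NB T l) : NB T (l.map (g • ·)) := by
  induction l with
  | nil => exact absurd h (by simp [NB])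
  | cons v l ih =>
    cases l with
    | nil => trivial
    | cons w l =>
      refine ⟨act g _ _ h.1, ?_, ih h.2.2⟩
      intro x hx hvx
      cases l with
      | nil => simp at hx
      | cons a l =>
        have hx' : g • a = x := by simpa using hx
        have hva : v = a := by
          have := hvx.trans hx'.symm
          exact smul_left_cancel g this
        exact h.2.1 a (by simp) hva

theorem tpath_smul (hT : T.IsTree) (g : G) (x y : V) :
    tpath hT (g • x) (g • y) = (tpath hT x y).map (g • ·) := by
  refine (NB_eq_tpath hT _ (NB_smul act g _ (tpath_NB hT x y)) _ _ ?_ ?_).symm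
  · rw [List.head?_map, tpath_head]; rfl
  · rw [List.getLast?_map, tpath_last]; rfl

theorem dist_smul' (hT : T.IsTree) (g : G) (u v : V) : T.dist (g • u) (g • v) = T.dist u v := by
  have h1 := tpath_length hT (g • u) (g • v)
  have h2 := tpath_length hT u v
  rw [tpath_smul act hT g u v, List.length_map] at h1
  omega

end action

end GWP
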