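import Pool.Agent.H55.GWP.WSM
import Pool.Agent.H55.GWP.TRB

/-! INV0: validity of operation lists and invariants of states (definitions). -/

set_option autoImplicit false
open Classical
namespace GWP

variable {S G V : Type*} [Fintype S] [Group G] [MulAction G V]

/-- Validity of a list of operations from the local vertex `a` to the local vertex `b`. -/
def OpsOK (U : Setup S G V) : V → List (Op V S) → V → Prop
  | a, [], b => a = b
  | a, .mv x x' :: is, b => a = x ∧ U.T.Adj x x' ∧ x ∈ V0 U ∧ x' ∈ V0 U ∧ OpsOK U x' is b
  | a, .ap s :: is, b => a = U.e s • U.o ∧ OpsOK U U.o is b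

/-- The invariants of a state at the local vertex `a`. -/
structure Inv (U : Setup S G V) (a : V) (D : List (Item V G)) : Prop where
  wf : WF U.T D
  at_ : At a D
  inV0 : InV0 U D

/-- The alphabet bound: all contents have length at most `L`. -/
def LenLe (len : G → ℕ) (L : ℕ) (D : List (Item V G)) : Prop := ∀ it ∈ D, len it.con ≤ L

end GWP
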