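import Pool.Agent.H55.GWP.TRB

/-! NRA: number of rigid windows: basic facts. -/

set_option autoImplicit false
open Classical
namespace GWP

variable {V : Type*} {T : SimpleGraph V}

/-- the Gromov product `(x|y)_o` -/
noncomputable def gro (T : SimpleGraph V) (o x y : V) : ℝ :=
  ((T.dist o x : ℝ) + T.dist o y - T.dist x y) / 2

theorem gro_nonneg (hT : T.IsTree) (o x y : V) : 0 ≤ gro T o x y := by
  unfold gro
  have h : T.dist x y ≤ T.dist x o + T.dist o y := hT.connected.dist_triangle
  rw [SimpleGraph.dist_comm (u := x) (v := o)] at h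
  have h' : (T.dist x y : ℝ) ≤ T.dist o x + T.dist o y := by exact_mod_cast h
  linarith

/-- counting formula -/
theorem NRA_card (K : ℕ) (Rig : V → V → Prop) (l : List V) :
    cntR K Rig l = ((Finset.range l.length).filter
      (fun i => ∃ v u, l[i]? = some v ∧ l[i + K]? = some u ∧ Rig v u)).card := by
  induction l with
  | nil => simp [cntR]
  | cons v l ih =>
    rw [cntR, ih, List.length_cons, Finset.card_filter, Finset.card_filter,
      Finset.sum_range_succ']
    congr 1
    · apply Finset.sum_congr rfl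
      intro i _
      have e1 : (v :: l)[i + 1]? = l[i]? := by simp
      have e2 : (v :: l)[i + 1 + K]? = l[i + K]? := by
        rw [show i + 1 + K = (i + K) + 1 by ring]; simp
      rw [e1, e2]
    · apply if_congr _ rfl rfl
      constructor
      · rintro ⟨u, h1, h2⟩
        exact ⟨v, u, by simp, by simpa using h1, h2⟩
      · rintro ⟨v', u, h1, h2, h3⟩
        simp only [List.getElem?_cons_zero, Option.some.injEq] at h1
        subst h1
        exact ⟨u, by simpa using h2, h3⟩

theorem cntR_append_ge (K : ℕ) (Rig : V → V → Prop) (l l' : List V) :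
    cntR K Rig l' ≤ cntR K Rig (l ++ l') := by
  induction l with
  | nil => simp
  | cons v l ih => rw [List.cons_append, cntR]; omega

theorem cntR_append_le (K : ℕ) (Rig : V → V → Prop) (l l' : List V) :
    cntR K Rig (l ++ l') ≤ cntR K Rig l' + l.length := by
  induction l with
  | nil => simp
  | cons v l ih =>
    rw [List.cons_append, cntR, List.length_cons]
    have : (if ∃ u, (v :: (l ++ l'))[K]? = some u ∧ Rig v u then 1 else 0) ≤ 1 := by
      split_ifs <;> omega
    omega

theorem NRA_map (K : ℕ) (Rig : V → V → Prop) (f : V → V)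
    (hf : ∀ u v, Rig (f u) (f v) ↔ Rig u v) (l : List V) :
    cntR K Rig (l.map f) = cntR K Rig l := by
  induction l with
  | nil => rfl
  | cons v l ih =>
    rw [List.map_cons, cntR, cntR, ih]
    have : (∃ u, (f v :: l.map f)[K]? = some u ∧ Rig (f v) u) ↔
        (∃ u, (v :: l)[K]? = some u ∧ Rig v u) := by
      rw [← List.map_cons, List.getElem?_map]
      constructor
      · rintro ⟨u, h1, h2⟩
        obtain ⟨a, ha, rfl⟩ := Option.map_eq_some_iff.mp h1
        exact ⟨a, ha, (hf _ _).mp h2⟩
      · rintro ⟨u, h1, h2⟩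
        exact ⟨f u, by rw [h1]; rfl, (hf _ _).mpr h2⟩
    rw [if_congr this rfl rfl]

theorem NR_smul {G : Type*} [Group G] [MulAction G V] (hT : T.IsTree)
    (act : ∀ (g : G) (u v : V), T.Adj u v → T.Adj (g • u) (g • v))
    (K : ℕ) (Rig : V → V → Prop) (hRig : ∀ (g : G) u v, Rig (g • u) (g • v) ↔ Rig u v)
    (g : G) (x y : V) : NR hT K Rig (g • x) (g • y) = NR hT K Rig x y := by
  unfold NR
  rw [tpath_smul act hT]
  exact NRA_map K Rig _ (hRig g) _

theorem NRA_reverse (K : ℕ) (Rig : V → V → Prop)
    (hs : ∀ u v, Rig u v ↔ Rig v u) (l : List V) :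
    cntR K Rig l.reverse = cntR K Rig l := by
  rw [NRA_card, NRA_card, List.length_reverse]
  refine Finset.card_nbij' (fun i => l.length - 1 - K - i) (fun i => l.length - 1 - K - i)
    ?_ ?_ ?_ ?_
  · intro i hi
    simp only [Finset.coe_filter, Finset.mem_range, Set.mem_ofPred_eq] at hi ⊢
    obtain ⟨hi, v, u, h1, h2, h3⟩ := hi
    have hlt : i + K < l.length := by
      have := (List.getElem?_eq_some_iff.mp h2).1
      simpa using this
    refine ⟨by omega, u, v, ?_, ?_, (hs _ _).mp h3⟩
    · rw [List.getElem?_reverse (by omega)] at h2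
      rw [← h2]; congr 1; omega
    · rw [List.getElem?_reverse (by omega)] at h1
      rw [← h1]; congr 1; omega
  · intro i hi
    simp only [Finset.coe_filter, Finset.mem_range, Set.mem_ofPred_eq] at hi ⊢
    obtain ⟨hi, v, u, h1, h2, h3⟩ := hi
    have hlt : i + K < l.length := (List.getElem?_eq_some_iff.mp h2).1
    refine ⟨by omega, u, v, ?_, ?_, (hs _ _).mp h3⟩
    · rw [List.getElem?_reverse (by omega), ← h2]; congr 1; omega
    · rw [List.getElem?_reverse (by omega), ← h1]; congr 1; omega
  · intro i hi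
    simp only [Finset.coe_filter, Finset.mem_range, Set.mem_ofPred_eq] at hi
    obtain ⟨hi, v, u, h1, h2, h3⟩ := hi
    have hlt : i + K < l.length := by
      have := (List.getElem?_eq_some_iff.mp h2).1
      simpa using this
    show l.length - 1 - K - (l.length - 1 - K - i) = i
    omega
  · intro i hi
    simp only [Finset.coe_filter, Finset.mem_range, Set.mem_ofPred_eq] at hi
    obtain ⟨hi, v, u, h1, h2, h3⟩ := hi
    have hlt : i + K < l.length := (List.getElem?_eq_some_iff.mp h2).1
    show l.length - 1 - K - (l.length - 1 - K - i) = i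
    omega

theorem NR_symm (hT : T.IsTree) (K : ℕ) (Rig : V → V → Prop)
    (hs : ∀ u v, Rig u v ↔ Rig v u) (x y : V) : NR hT K Rig x y = NR hT K Rig y x := by
  unfold NR
  rw [← tpath_reverse hT x y, NRA_reverse K Rig hs]

theorem NR_le_dist (hT : T.IsTree) (K : ℕ) (hK : 1 ≤ K) (Rig : V → V → Prop) (x y : V) :
    NR hT K Rig x y ≤ T.dist x y := by
  unfold NR
  rw [NRA_card]
  have hlen := tpath_length hT x y
  refine (Finset.card_le_card (t := Finset.range (T.dist x y)) ?_).trans
    (by rw [Finset.card_range])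
  intro i hi
  simp only [Finset.mem_filter, Finset.mem_range] at hi ⊢
  obtain ⟨hi, v, u, h1, h2, h3⟩ := hi
  have hlt : i + K < (tpath hT x y).length := (List.getElem?_eq_some_iff.mp h2).1
  omega

theorem Rigid_symm {G : Type*} [Group G] [MulAction G V] (u v : V) :
    Rigid G u v ↔ Rigid G v u := by
  unfold Rigid
  have : {g : G | g • u = u ∧ g • v = v} = {g : G | g • v = v ∧ g • u = u} := by
    ext g; simp [and_comm]
  rw [this]

theorem NRA_rigid {G : Type*} [Group G] [MulAction G V] (g : G) (u v : V)
    (h : Rigid G u v) : Rigid G (g • u) (g • v) := by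
  unfold Rigid at *
  refine (h.image (fun a => g * a * g⁻¹)).subset ?_
  rintro a ⟨h1, h2⟩
  refine ⟨g⁻¹ * a * g, ⟨?_, ?_⟩, by group⟩
  · rw [mul_smul, mul_smul, h1, inv_smul_smul]
  · rw [mul_smul, mul_smul, h2, inv_smul_smul]

theorem Rigid_smul {G : Type*} [Group G] [MulAction G V] (g : G) (u v : V) :
    Rigid G (g • u) (g • v) ↔ Rigid G u v := by
  refine ⟨fun h => ?_, NRA_rigid g u v⟩
  have := NRA_rigid g⁻¹ _ _ h
  rwa [inv_smul_smul, inv_smul_smul] at this

end GWP
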