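import Pool.Agent.H55.GWP.WSM
import Pool.Agent.H55.GWP.NRF

/-! RGR: the expected number of rigid windows on the geodesic from `o` to `w o` grows linearly.

Choose `t` with `C' exp(-α t) ≤ 1/8` and a group element `g₀ = ev s` (word `s`, length `l`) with a
rigid window `(u, v)` (`u` nearer to `o`) deep in the geodesic `[o, g₀ o]`: distance `≥ t` from
both ends.  For `i ≤ n - l` let `F_i` be the event: the block of `w` at position `i` is `s`,
`(g_i⁻¹ o | g₀ o)_o < t` and `(g₀⁻¹ o | r_i o)_o < t` (`g_i` = prefix before the block, `r_i` = the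
rest after it).  Then the window `g_i (u, v)` is on the geodesic `[o, w o]`; it is counted in
`NR o (w o)`.  Two indices `i < i'` with the same window satisfy
`d(o, g_i⁻¹ g_{i'} o) ≤ 2 d(o, u)`, which has probability `≤ C κ^{i'-i} exp(2 α d(o,u))`
(contraction at `x = o`); restrict to multiples of a large `j₀`.  So
`E NR ≥ (n/j₀ - const) (N^{-l} (1 - 1/8 - 1/8) - N^{-l} ∑_k C κ^{k j₀ - l} exp(2 α d(o,u)))`
(a coincidence at `i < i'` also requires that both blocks are `s`; keep one factor). -/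

set_option autoImplicit false
open Classical
namespace GWP

section RGRtree
variable {V : Type*} {T : SimpleGraph V}

theorem RGR_order (hT : T.IsTree) (x v u p : V) (hu : T.dist x u + T.dist u v = T.dist x v)
    (hp : T.dist x p + T.dist p v = T.dist x v) (h : T.dist x u ≤ T.dist x p) :
    T.dist x u + T.dist u p = T.dist x p := by
  have hmem : u ∈ tpath hT x v := (mem_tpath_iff hT x v u).mpr hu
  rw [tpath_split hT x v p hp, List.mem_append] at hmem
  rcases hmem with h1 | h1
  · have h2 : u ∈ tpath hT p v := List.dropLast_subset _ h1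
    rw [mem_tpath_iff] at h2
    have h3 : T.dist p u = 0 := by omega
    have h4 : p = u := (hT.connected.dist_eq_zero_iff).mp h3
    subst h4; simp
  · exact (mem_tpath_iff hT x p u).mp h1

theorem RGR_overlap (hT : T.IsTree) (x u v y : V) (huv : T.dist u v ≠ 0)
    (h1 : T.dist x u + T.dist u v = T.dist x v) (h2 : T.dist u v + T.dist v y = T.dist u y) :
    T.dist x v + T.dist v y = T.dist x y := by
  obtain ⟨p, p1, p2, p3⟩ := exists_center hT x y v
  have c1 := T.dist_comm (u := y) (v := p)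
  have c2 := T.dist_comm (u := y) (v := v)
  rcases le_total (T.dist x u) (T.dist x p) with h | h
  · have h3 := RGR_order hT x v u p h1 p3 h
    have h4 := hT.connected.dist_triangle (u := u) (v := p) (w := y)
    omega
  · have h3 := RGR_order hT x v p u p3 h1 h
    have h4 := hT.connected.dist_triangle (u := u) (v := p) (w := y)
    have c3 := T.dist_comm (u := u) (v := p)
    omega

theorem RGR_gro (hT : T.IsTree) (o x z u : V) (hu : T.dist o u + T.dist u z = T.dist o z)
    (h : gro T o x z < T.dist o u) : T.dist x u + T.dist u z = T.dist x z := by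
  obtain ⟨p, p1, p2, p3⟩ := exists_center hT x o z
  have c1 := T.dist_comm (u := o) (v := x)
  have c2 := T.dist_comm (u := p) (v := o)
  have hg : gro T o x z = T.dist o p := by
    unfold gro
    rw [c1, ← p1, ← p2, ← p3, c2]
    push_cast
    ring
  rw [hg] at h
  have h' : T.dist o p ≤ T.dist o u := by exact_mod_cast h.le
  have h3 := RGR_order hT o z p u p2 hu h'
  have h4 := hT.connected.dist_triangle (u := x) (v := p) (w := u)
  have h5 := hT.connected.dist_triangle (u := x) (v := u) (w := z)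
  omega

theorem RGR_window (hT : T.IsTree) (K t : ℕ) (hK : 1 ≤ K) (o u v z x y : V)
    (huv : T.dist u v = K) (hz : T.dist o u + K + T.dist v z = T.dist o z)
    (hu : t ≤ T.dist o u) (hv : t ≤ T.dist v z)
    (hx : gro T o x z < t) (hy : gro T z o y < t) :
    T.dist x u + K + T.dist v y = T.dist x y := by
  have a1 := hT.connected.dist_triangle (u := o) (v := u) (w := v)
  have a2 := hT.connected.dist_triangle (u := u) (v := v) (w := z)
  have a3 := hT.connected.dist_triangle (u := o) (v := u) (w := z)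
  have a4 := hT.connected.dist_triangle (u := o) (v := v) (w := z)
  have b1 : T.dist x u + T.dist u z = T.dist x z :=
    RGR_gro hT o x z u (by omega) (lt_of_lt_of_le hx (by exact_mod_cast hu))
  have c1 := T.dist_comm (u := z) (v := v)
  have c2 := T.dist_comm (u := v) (v := o)
  have c3 := T.dist_comm (u := z) (v := o)
  have b2 : T.dist y v + T.dist v o = T.dist y o := by
    refine RGR_gro hT z y o v (by omega) ?_
    have hg : gro T z y o = gro T z o y := by
      unfold gro
      rw [T.dist_comm (u := y) (v := o)]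
      ring
    rw [hg, c1]
    exact lt_of_lt_of_le hy (by exact_mod_cast hv)
  have a5 := hT.connected.dist_triangle (u := x) (v := u) (w := v)
  have a6 := hT.connected.dist_triangle (u := x) (v := v) (w := z)
  have a7 := hT.connected.dist_triangle (u := y) (v := v) (w := u)
  have a8 := hT.connected.dist_triangle (u := y) (v := u) (w := o)
  have c4 := T.dist_comm (u := v) (v := u)
  have c5 := T.dist_comm (u := y) (v := u)
  have c6 := T.dist_comm (u := y) (v := v)
  have c7 := T.dist_comm (u := u) (v := o)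
  have := RGR_overlap hT x u v y (by omega) (by omega) (by omega)
  omega

end RGRtree

theorem RGR_card {β : Type*} [DecidableEq β] (f : ℕ → β) (F : ℕ → Prop) (m : ℕ) :
    ((Finset.range m).filter F).card ≤ (((Finset.range m).filter F).image f).card +
      ∑ k' ∈ Finset.range m, ((Finset.range k').filter
        (fun k => F k ∧ F k' ∧ f k = f k')).card := by
  induction m with
  | zero => simp
  | succ m ih =>
    rw [Finset.sum_range_succ, Finset.range_add_one, Finset.filter_insert]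
    split_ifs with hF
    · rw [Finset.card_insert_of_notMem (by simp), Finset.image_insert]
      by_cases hm : f m ∈ ((Finset.range m).filter F).image f
      · rw [Finset.insert_eq_of_mem hm]
        have : 1 ≤ ((Finset.range m).filter (fun k => F k ∧ F m ∧ f k = f m)).card := by
          rw [Nat.succ_le_iff, Finset.card_pos]
          obtain ⟨k, hk, hk'⟩ := Finset.mem_image.mp hm
          rw [Finset.mem_filter] at hk
          exact ⟨k, Finset.mem_filter.mpr ⟨hk.1, hk.2, hF, hk'⟩⟩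
        omega
      · rw [Finset.card_insert_of_notMem hm]
        omega
    · omega

/-- indicator -/
noncomputable def RGR_ind (p : Prop) : ℝ := if p then 1 else 0

theorem RGR_ind_eq (p : Prop) [Decidable p] : RGR_ind p = if p then (1 : ℝ) else 0 := by
  unfold RGR_ind
  split_ifs <;> rfl

theorem RGR_ind_true {p : Prop} (h : p) : RGR_ind p = 1 := by
  unfold RGR_ind; rw [if_pos h]

theorem RGR_ind_false {p : Prop} (h : ¬ p) : RGR_ind p = 0 := by
  unfold RGR_ind; rw [if_neg h]

theorem RGR_ind_nonneg (p : Prop) : 0 ≤ RGR_ind p := by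
  by_cases h : p
  · rw [RGR_ind_true h]; norm_num
  · rw [RGR_ind_false h]

theorem RGR_ind_le_one (p : Prop) : RGR_ind p ≤ 1 := by
  by_cases h : p
  · rw [RGR_ind_true h]
  · rw [RGR_ind_false h]; norm_num

section RGRword
variable {S : Type*} [Fintype S]

theorem RGR_block (s : List S) (i r : ℕ) (Q : List S → List S → Prop) :
    wsum (i + (s.length + r)) (fun w => RGR_ind ((w.drop i).take s.length = s ∧
      Q (w.take i) (w.drop (i + s.length)))) =
    wsum i (fun p => wsum r (fun q => RGR_ind (Q p q))) := by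
  rw [wsum_append]
  apply wsum_congr
  intro p hp
  rw [wsum_append]
  have : ∀ m : List S, m.length = s.length →
      wsum r (fun q => RGR_ind (((p ++ (m ++ q)).drop i).take s.length = s ∧
        Q ((p ++ (m ++ q)).take i) ((p ++ (m ++ q)).drop (i + s.length)))) =
      if m = s then wsum r (fun q => RGR_ind (Q p q)) else 0 := by
    intro m hm
    have e : ∀ q : List S, RGR_ind (((p ++ (m ++ q)).drop i).take s.length = s ∧
        Q ((p ++ (m ++ q)).take i) ((p ++ (m ++ q)).drop (i + s.length))) =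
        RGR_ind (m = s ∧ Q p q) := by
      intro q
      have e1 : (p ++ (m ++ q)).drop i = m ++ q := by
        rw [← hp]; simp
      have e2 : (p ++ (m ++ q)).take i = p := by
        rw [← hp]; simp
      have e3 : (p ++ (m ++ q)).drop (i + s.length) = q := by
        rw [← List.drop_drop, e1, ← hm]; simp
      have e4 : (m ++ q).take s.length = m := by
        rw [← hm]; simp
      rw [e2, e3, e1, e4]
    simp only [e]
    by_cases hms : m = s
    · simp [hms]
    · simp only [hms, false_and, if_false]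
      rw [RGR_ind_false (p := False) id, wsum_const]; simp
  rw [wsum_congr _ _ _ this, wsum_indicator]

end RGRword

section RGRmain
variable {S G V : Type*} [Fintype S] [Nonempty S] [Group G] [MulAction G V]
    (U : Setup S G V)

/-- the event `F_i` -/
def RGR_ev (s : List S) (t i : ℕ) (g₀ : G) (w : List S) : Prop :=
  (w.drop i).take s.length = s ∧
        (gro U.T U.o ((ev U.e (w.take i))⁻¹ • U.o) (g₀ • U.o) < t ∧
          gro U.T U.o (g₀⁻¹ • U.o) (ev U.e (w.drop (i + s.length)) • U.o) < t)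

/-- the event containing the coincidences -/
def RGR_co (s : List S) (D i d : ℕ) (g₀ : G) (w : List S) : Prop :=
  (w.drop i).take s.length = s ∧
    U.T.dist (g₀⁻¹ • U.o) (ev U.e ((w.drop (i + s.length)).take d) • U.o) ≤ 2 * D

theorem RGR_F (s : List S) (t i r : ℕ) (g₀ : G) (α C' : ℝ)
    (h' : ∀ (n : ℕ) (x : V) (t : ℕ),
      wsum n (fun w => if (t : ℝ) ≤ gro U.T U.o x (ev U.e w • U.o) then (1 : ℝ) else 0) ≤
        C' * Real.exp (-(α * t)) * (Fintype.card S : ℝ) ^ n)
    (ht : C' * Real.exp (-(α * t)) ≤ 1 / 8) :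
    3 / 4 * (Fintype.card S : ℝ) ^ (i + r) ≤ wsum (i + (s.length + r)) (fun w =>
      RGR_ind (RGR_ev U s t i g₀ w)) := by
  have hb := RGR_block s i r (fun p q => gro U.T U.o ((ev U.e p)⁻¹ • U.o) (g₀ • U.o) < t ∧
          gro U.T U.o (g₀⁻¹ • U.o) (ev U.e q • U.o) < t)
  unfold RGR_ev
  rw [hb]
  have h'' : ∀ (n : ℕ) (x : V) (t : ℕ),
      wsum n (fun w => RGR_ind ((t : ℝ) ≤ gro U.T U.o x (ev U.e w • U.o))) ≤
        C' * Real.exp (-(α * t)) * (Fintype.card S : ℝ) ^ n := by
    intro n x t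
    refine le_trans (le_of_eq ?_) (h' n x t)
    apply wsum_congr
    intro w _
    exact RGR_ind_eq _
  set N : ℝ := (Fintype.card S : ℝ) with hN
  have hN0 : 0 ≤ N := by rw [hN]; positivity
  have gsymm : ∀ x y : V, gro U.T U.o x y = gro U.T U.o y x := by
    intro x y
    unfold gro
    rw [U.T.dist_comm (u := x) (v := y)]
    ring
  have h1 : wsum i (fun p => RGR_ind ((t : ℝ) ≤ gro U.T U.o ((ev U.e p)⁻¹ • U.o) (g₀ • U.o)))
      ≤ 1 / 8 * N ^ i := by
    have e1 := wsum_rev U.inv U.inv_inv i (fun w => RGR_ind ((t : ℝ) ≤ gro U.T U.o (g₀ • U.o)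
      (ev U.e w • U.o)))
    have e2 := h'' i (g₀ • U.o) t
    rw [← e1] at e2
    refine le_trans (le_of_eq ?_) (e2.trans ?_)
    · apply wsum_congr
      intro w _
      rw [ev_rev U.e U.inv U.e_inv, gsymm]
    · exact mul_le_mul_of_nonneg_right ht (by positivity)
  have h2 : wsum r (fun q => RGR_ind ((t : ℝ) ≤ gro U.T U.o (g₀⁻¹ • U.o) (ev U.e q • U.o)))
      ≤ 1 / 8 * N ^ r :=
    (h'' r (g₀⁻¹ • U.o) t).trans (mul_le_mul_of_nonneg_right ht (by positivity))
  have h3 : wsum i (fun p : List S => N ^ r) ≤ wsum i (fun p =>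
      wsum r (fun q => RGR_ind (gro U.T U.o ((ev U.e p)⁻¹ • U.o) (g₀ • U.o) < t ∧
          gro U.T U.o (g₀⁻¹ • U.o) (ev U.e q • U.o) < t)) +
      (N ^ r * RGR_ind ((t : ℝ) ≤ gro U.T U.o ((ev U.e p)⁻¹ • U.o) (g₀ • U.o))
        + 1 / 8 * N ^ r)) := by
    apply wsum_le
    intro p _
    have h4 : wsum r (fun q : List S => (1 : ℝ)) ≤ wsum r (fun q =>
      RGR_ind (gro U.T U.o ((ev U.e p)⁻¹ • U.o) (g₀ • U.o) < t ∧
          gro U.T U.o (g₀⁻¹ • U.o) (ev U.e q • U.o) < t) +
      (RGR_ind ((t : ℝ) ≤ gro U.T U.o ((ev U.e p)⁻¹ • U.o) (g₀ • U.o)) +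
       RGR_ind ((t : ℝ) ≤ gro U.T U.o (g₀⁻¹ • U.o) (ev U.e q • U.o)))) := by
      apply wsum_le
      intro q _
      have p1 := RGR_ind_nonneg (gro U.T U.o ((ev U.e p)⁻¹ • U.o) (g₀ • U.o) < t ∧
          gro U.T U.o (g₀⁻¹ • U.o) (ev U.e q • U.o) < t)
      have p2 := RGR_ind_nonneg ((t : ℝ) ≤ gro U.T U.o ((ev U.e p)⁻¹ • U.o) (g₀ • U.o))
      have p3 := RGR_ind_nonneg ((t : ℝ) ≤ gro U.T U.o (g₀⁻¹ • U.o) (ev U.e q • U.o))
      by_cases c1 : (t : ℝ) ≤ gro U.T U.o ((ev U.e p)⁻¹ • U.o) (g₀ • U.o)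
      · have e := RGR_ind_true c1
        linarith
      · by_cases c2 : (t : ℝ) ≤ gro U.T U.o (g₀⁻¹ • U.o) (ev U.e q • U.o)
        · have e := RGR_ind_true c2
          linarith
        · have e := RGR_ind_true (p := gro U.T U.o ((ev U.e p)⁻¹ • U.o) (g₀ • U.o) < t ∧
            gro U.T U.o (g₀⁻¹ • U.o) (ev U.e q • U.o) < t) ⟨not_le.mp c1, not_le.mp c2⟩
          linarith
    rw [wsum_add, wsum_add, wsum_const, wsum_const, one_mul] at h4
    rw [← hN] at h4
    linarith
  rw [wsum_add, wsum_add, wsum_mul, wsum_const, wsum_const, ← hN] at h3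
  have h5 : N ^ r * wsum i (fun p => RGR_ind ((t : ℝ) ≤
      gro U.T U.o ((ev U.e p)⁻¹ • U.o) (g₀ • U.o))) ≤ N ^ r * (1 / 8 * N ^ i) :=
    mul_le_mul_of_nonneg_left h1 (by positivity)
  rw [pow_add]
  nlinarith

theorem RGR_G (s : List S) (D i d r : ℕ) (g₀ : G) (α κ C : ℝ) (hα : 0 < α)
    (h : ∀ (n : ℕ) (x : V),
      wsum n (fun w => Real.exp (-(α * ((U.T.dist x (ev U.e w • U.o) : ℝ) -
        U.T.dist x U.o)))) ≤ C * κ ^ n * (Fintype.card S : ℝ) ^ n) :
    wsum (i + (s.length + (d + r))) (fun w => RGR_ind (RGR_co U s D i d g₀ w)) ≤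
      Real.exp (2 * α * D) * C * κ ^ d * (Fintype.card S : ℝ) ^ (i + (d + r)) := by
  have hb := RGR_block s i (d + r) (fun _ q => U.T.dist (g₀⁻¹ • U.o)
    (ev U.e (q.take d) • U.o) ≤ 2 * D)
  unfold RGR_co
  rw [hb]
  set N : ℝ := (Fintype.card S : ℝ) with hN
  have hN0 : 0 ≤ N := by rw [hN]; positivity
  have h1 : wsum (d + r) (fun q => RGR_ind (U.T.dist (g₀⁻¹ • U.o)
      (ev U.e (q.take d) • U.o) ≤ 2 * D)) ≤ Real.exp (2 * α * D) * C * κ ^ d * N ^ (d + r) := by
    rw [wsum_append]
    have h2 : wsum d (fun u => wsum r (fun v => RGR_ind (U.T.dist (g₀⁻¹ • U.o)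
        (ev U.e ((u ++ v).take d) • U.o) ≤ 2 * D))) ≤ wsum d (fun u =>
        (Real.exp (2 * α * D) * N ^ r) * Real.exp (-(α * ((U.T.dist (g₀⁻¹ • U.o)
        (ev U.e u • U.o) : ℝ) - U.T.dist (g₀⁻¹ • U.o) U.o)))) := by
      apply wsum_le
      intro u hu
      have h3 : wsum r (fun v => RGR_ind (U.T.dist (g₀⁻¹ • U.o)
        (ev U.e ((u ++ v).take d) • U.o) ≤ 2 * D)) = wsum r (fun _ : List S =>
          RGR_ind (U.T.dist (g₀⁻¹ • U.o) (ev U.e u • U.o) ≤ 2 * D)) := by
        apply wsum_congr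
        intro v _
        have : (u ++ v).take d = u := by rw [← hu]; simp
        rw [this]
      rw [h3, wsum_const, ← hN]
      have h4 : RGR_ind (U.T.dist (g₀⁻¹ • U.o) (ev U.e u • U.o) ≤ 2 * D) ≤
          Real.exp (2 * α * D) * Real.exp (-(α * ((U.T.dist (g₀⁻¹ • U.o)
        (ev U.e u • U.o) : ℝ) - U.T.dist (g₀⁻¹ • U.o) U.o))) := by
        by_cases hc : U.T.dist (g₀⁻¹ • U.o) (ev U.e u • U.o) ≤ 2 * D
        · rw [RGR_ind_true hc, ← Real.exp_add]
          apply Real.one_le_exp
          have hc' : (U.T.dist (g₀⁻¹ • U.o) (ev U.e u • U.o) : ℝ) ≤ 2 * D := by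
            exact_mod_cast hc
          have hd : (0 : ℝ) ≤ U.T.dist (g₀⁻¹ • U.o) U.o := Nat.cast_nonneg _
          nlinarith
        · rw [RGR_ind_false hc]; positivity
      calc _ ≤ (Real.exp (2 * α * D) * Real.exp (-(α * ((U.T.dist (g₀⁻¹ • U.o)
        (ev U.e u • U.o) : ℝ) - U.T.dist (g₀⁻¹ • U.o) U.o)))) * N ^ r :=
            mul_le_mul_of_nonneg_right h4 (by positivity)
        _ = _ := by ring
    refine h2.trans ?_
    rw [wsum_mul]
    calc _ ≤ (Real.exp (2 * α * D) * N ^ r) * (C * κ ^ d * N ^ d) :=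
          mul_le_mul_of_nonneg_left (h d _) (by positivity)
      _ = _ := by rw [pow_add]; ring
  have h2 : wsum i (fun _ : List S => wsum (d + r) (fun q => RGR_ind (U.T.dist (g₀⁻¹ • U.o)
      (ev U.e (q.take d) • U.o) ≤ 2 * D))) ≤ wsum i (fun _ : List S =>
      Real.exp (2 * α * D) * C * κ ^ d * N ^ (d + r)) := wsum_le _ _ _ (fun _ _ => h1)
  refine h2.trans ?_
  rw [wsum_const, ← hN, pow_add N i]
  apply le_of_eq
  ring

omit [Nonempty S] in
/-- coincidences -/
theorem RGR_coin (s : List S) (t i d D : ℕ) (g₀ : G) (hs : ev U.e s = g₀) (u : V)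
    (hD : U.T.dist U.o u ≤ D) (w : List S)
    (hF : RGR_ev U s t i g₀ w)
    (hc : ev U.e (w.take i) • u = ev U.e (w.take (i + (s.length + d))) • u) :
    RGR_co U s D i d g₀ w := by
  refine ⟨hF.1, ?_⟩
  set q := (w.drop (i + s.length)).take d with hq
  have hw : w.take (i + (s.length + d)) = w.take i ++ (s ++ q) := by
    rw [List.take_add, List.take_add, List.drop_drop, hF.1]
  rw [hw, ev_append, ev_append, hs, mul_smul, mul_smul] at hc
  have hc' : u = g₀ • ev U.e q • u := by
    have := congrArg (fun v => (ev U.e (w.take i))⁻¹ • v) hc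
    simpa using this
  have e1 : U.T.dist (g₀⁻¹ • U.o) (ev U.e q • U.o) = U.T.dist U.o (g₀ • ev U.e q • U.o) := by
    have := dist_smul' U.act U.tree g₀ (g₀⁻¹ • U.o) (ev U.e q • U.o)
    rw [← this, smul_inv_smul]
  rw [e1]
  have e2 := U.tree.connected.dist_triangle (u := U.o) (v := u) (w := g₀ • ev U.e q • U.o)
  have e3 : U.T.dist u (g₀ • ev U.e q • U.o) = U.T.dist u U.o := by
    conv_lhs => rw [hc']
    rw [dist_smul' U.act U.tree, dist_smul' U.act U.tree]
  rw [e3, U.T.dist_comm (u := u) (v := U.o)] at e2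
  omega

/-- the pointwise inequality -/
theorem RGR_point (K : ℕ) (hK : 1 ≤ K) (s : List S) (t : ℕ) (g₀ : G) (hs : ev U.e s = g₀)
    (u v : V) (hr : Rigid G u v) (huv : U.T.dist u v = K)
    (hz : U.T.dist U.o u + K + U.T.dist v (g₀ • U.o) = U.T.dist U.o (g₀ • U.o))
    (hu : t ≤ U.T.dist U.o u) (hv : t ≤ U.T.dist v (g₀ • U.o))
    (j₁ m : ℕ) (w : List S) :
    ∑ k ∈ Finset.range m, RGR_ind (RGR_ev U s t (k * (s.length + j₁)) g₀ w) ≤
      (NR U.tree K (Rigid G) U.o (ev U.e w • U.o) : ℝ) +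
      ∑ k' ∈ Finset.range m, ∑ k ∈ Finset.range k',
        RGR_ind (RGR_co U s (U.T.dist U.o u) (k * (s.length + j₁))
          ((k' - k) * (s.length + j₁) - s.length) g₀ w) := by
  set F : ℕ → Prop := fun k => RGR_ev U s t (k * (s.length + j₁)) g₀ w with hF
  set f : ℕ → V × V := fun k => (ev U.e (w.take (k * (s.length + j₁))) • v,
    ev U.e (w.take (k * (s.length + j₁))) • u) with hf
  have h1 := RGR_card f F m
  have h2 : (((Finset.range m).filter F).image f).card ≤
      NR U.tree K (Rigid G) U.o (ev U.e w • U.o) := by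
    apply NR_ge_card
    intro q hq
    obtain ⟨k, hk, rfl⟩ := Finset.mem_image.mp hq
    have hk2 : RGR_ev U s t (k * (s.length + j₁)) g₀ w := (Finset.mem_filter.mp hk).2
    set i := k * (s.length + j₁) with hi
    set g := ev U.e (w.take i) with hg
    set r := ev U.e (w.drop (i + s.length)) with hrr
    have hw : ev U.e w = g * (g₀ * r) := by
      have : w = w.take i ++ (s ++ w.drop (i + s.length)) := by
        conv_lhs => rw [← List.take_append_drop i w, ← List.take_append_drop s.length (w.drop i),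
          hk2.1, List.drop_drop]
      conv_lhs => rw [this]
      rw [ev_append, ev_append, hs]
    have hwin := RGR_window U.tree K t hK U.o u v (g₀ • U.o) (g⁻¹ • U.o) (g₀ • r • U.o) huv hz
      hu hv hk2.2.1 (by
        have e := hk2.2.2
        have e1 : gro U.T (g₀ • U.o) U.o (g₀ • r • U.o) = gro U.T U.o (g₀⁻¹ • U.o) (r • U.o) := by
          unfold gro
          have a1 := dist_smul' U.act U.tree g₀ U.o (g₀⁻¹ • U.o)
          have a2 := dist_smul' U.act U.tree g₀ U.o (r • U.o)
          have a3 := dist_smul' U.act U.tree g₀ (g₀⁻¹ • U.o) (r • U.o)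
          rw [smul_inv_smul] at a1 a3
          rw [a1, a2, a3]
        rw [e1]; exact e)
    refine ⟨?_, ?_, ?_⟩
    · exact (Rigid_smul g v u).mpr ((Rigid_symm u v).mp hr)
    · show U.T.dist (g • v) (g • u) = K
      rw [dist_smul' U.act U.tree, U.T.dist_comm, huv]
    · show U.T.dist U.o (g • u) + K + U.T.dist (g • v) (ev U.e w • U.o) =
        U.T.dist U.o (ev U.e w • U.o)
      have a1 := dist_smul' U.act U.tree g (g⁻¹ • U.o) u
      have a2 := dist_smul' U.act U.tree g (g⁻¹ • U.o) (g₀ • r • U.o)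
      rw [smul_inv_smul] at a1 a2
      rw [hw, mul_smul, mul_smul, a1, a2, dist_smul' U.act U.tree]
      exact hwin
  have h3 : ∑ k ∈ Finset.range m, RGR_ind (F k) = (((Finset.range m).filter F).card : ℝ) := by
    rw [Finset.card_filter]
    push_cast
    apply Finset.sum_congr rfl
    intro k _
    rw [RGR_ind_eq]
  have h4 : ∀ k' ∈ Finset.range m, (((Finset.range k').filter
        (fun k => F k ∧ F k' ∧ f k = f k')).card : ℝ) ≤ ∑ k ∈ Finset.range k',
        RGR_ind (RGR_co U s (U.T.dist U.o u) (k * (s.length + j₁))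
          ((k' - k) * (s.length + j₁) - s.length) g₀ w) := by
    intro k' _
    rw [Finset.card_filter]
    push_cast
    apply Finset.sum_le_sum
    intro k hk
    have hkk : k < k' := Finset.mem_range.mp hk
    split_ifs with hc
    · rw [RGR_ind_true]
      refine RGR_coin U s t _ _ _ g₀ hs u le_rfl w hc.1 ?_
      have e : k * (s.length + j₁) + (s.length + ((k' - k) * (s.length + j₁) - s.length)) =
          k' * (s.length + j₁) := by
        obtain ⟨a, rfl⟩ : ∃ a, k' = k + 1 + a := ⟨k' - (k + 1), by omega⟩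
        have e1 : k + 1 + a - k = a + 1 := by omega
        rw [e1]
        have e2 : s.length ≤ (a + 1) * (s.length + j₁) := by nlinarith
        have e3 : s.length + ((a + 1) * (s.length + j₁) - s.length) =
          (a + 1) * (s.length + j₁) := by omega
        rw [e3]; ring
      rw [e]
      exact (Prod.ext_iff.mp hc.2.2).2
    · exact RGR_ind_nonneg _
  have h5 : (((Finset.range m).filter F).card : ℝ) ≤ ((((Finset.range m).filter F).image f).card
      : ℝ) + ∑ k' ∈ Finset.range m, (((Finset.range k').filter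
        (fun k => F k ∧ F k' ∧ f k = f k')).card : ℝ) := by
    exact_mod_cast h1
  have h6 : ((((Finset.range m).filter F).image f).card : ℝ) ≤
      (NR U.tree K (Rigid G) U.o (ev U.e w • U.o) : ℝ) := by exact_mod_cast h2
  calc _ = (((Finset.range m).filter F).card : ℝ) := h3
    _ ≤ _ := h5
    _ ≤ _ := add_le_add h6 (Finset.sum_le_sum h4)

end RGRmain

theorem rigid_growth {S G V : Type*} [Fintype S] [Nonempty S] [Group G] [MulAction G V]
    (U : Setup S G V) (K : ℕ) (hK : 1 ≤ K)
    (deep : ∀ t : ℕ, ∃ (g : G) (u v : V), Rigid G u v ∧ U.T.dist u v = K ∧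
      U.T.dist U.o u + K + U.T.dist v (g • U.o) = U.T.dist U.o (g • U.o) ∧
      t ≤ U.T.dist U.o u ∧ t ≤ U.T.dist v (g • U.o))
    (α κ C C' : ℝ) (hα : 0 < α) (hκ0 : 0 < κ) (hκ : κ < 1)
    (h : ∀ (n : ℕ) (x : V),
      wsum n (fun w => Real.exp (-(α * ((U.T.dist x (ev U.e w • U.o) : ℝ) -
        U.T.dist x U.o)))) ≤ C * κ ^ n * (Fintype.card S : ℝ) ^ n)
    (h' : ∀ (n : ℕ) (x : V) (t : ℕ),
      wsum n (fun w => if (t : ℝ) ≤ gro U.T U.o x (ev U.e w • U.o) then (1 : ℝ) else 0) ≤
        C' * Real.exp (-(α * t)) * (Fintype.card S : ℝ) ^ n) :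
    ∃ q : ℝ, 0 < q ∧ ∃ C₁ : ℝ, ∀ n : ℕ, (q * n - C₁) * (Fintype.card S : ℝ) ^ n ≤
      wsum n (fun w => (NR U.tree K (Rigid G) U.o (ev U.e w • U.o) : ℝ)) := by
  -- choose t
  obtain ⟨t, ht⟩ : ∃ t : ℕ, C' * Real.exp (-(α * t)) ≤ 1 / 8 := by
    have h1 : Filter.Tendsto (fun t : ℕ => C' * Real.exp (-(α * t))) Filter.atTop (nhds 0) := by
      have h2 : Filter.Tendsto (fun t : ℕ => α * (t : ℝ)) Filter.atTop Filter.atTop :=
        Filter.Tendsto.const_mul_atTop hα tendsto_natCast_atTop_atTop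
      have h3 := (Real.tendsto_exp_neg_atTop_nhds_zero.comp h2).const_mul C'
      simpa using h3
    have h2 := h1.eventually (gt_mem_nhds (by norm_num : (0 : ℝ) < 1 / 8))
    obtain ⟨t, ht⟩ := h2.exists
    exact ⟨t, ht.le⟩
  obtain ⟨g₀, u, v, hr, huv, hz, hu, hv⟩ := deep t
  obtain ⟨s, hs⟩ := U.gen g₀
  set D := U.T.dist U.o u with hD
  set N : ℝ := (Fintype.card S : ℝ) with hN
  have hN1 : 1 ≤ N := by
    rw [hN]; exact_mod_cast Fintype.card_pos
  have hC : 1 ≤ C := by
    have := h 0 U.o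
    simpa [wsum, ev] using this
  set c₀ : ℝ := Real.exp (2 * α * D) * C with hc₀
  have hc₀0 : 0 < c₀ := by positivity
  obtain ⟨j₁, hj₁, hj₁1⟩ : ∃ j₁ : ℕ, c₀ * (κ ^ j₁ * (1 - κ)⁻¹) ≤ 1 / 4 ∧ 1 ≤ j₁ := by
    have h1 : Filter.Tendsto (fun j : ℕ => c₀ * (κ ^ j * (1 - κ)⁻¹)) Filter.atTop (nhds 0) := by
      have h2 := (tendsto_pow_atTop_nhds_zero_of_lt_one hκ0.le hκ)
      have h3 := (h2.mul_const (1 - κ)⁻¹).const_mul c₀
      simpa using h3
    have h2 := h1.eventually (gt_mem_nhds (by norm_num : (0 : ℝ) < 1 / 4))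
    obtain ⟨j, hj, hj1⟩ := (h2.and (Filter.eventually_ge_atTop 1)).exists
    exact ⟨j, hj.le, hj1⟩
  set l := s.length with hl
  set j₀ := l + j₁ with hj₀
  have hj₀0 : (0 : ℝ) < j₀ := by
    rw [hj₀]; push_cast
    have : (1 : ℝ) ≤ j₁ := by exact_mod_cast hj₁1
    have : (0 : ℝ) ≤ l := Nat.cast_nonneg _
    linarith
  set q : ℝ := 1 / (2 * j₀ * N ^ l) with hq
  have hq0 : 0 < q := by positivity
  refine ⟨q, hq0, q * l, ?_⟩
  intro n
  have hnn : 0 ≤ wsum n (fun w => (NR U.tree K (Rigid G) U.o (ev U.e w • U.o) : ℝ)) := by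
    have := wsum_le n (fun _ : List S => (0 : ℝ))
      (fun w => (NR U.tree K (Rigid G) U.o (ev U.e w • U.o) : ℝ)) (fun w _ => Nat.cast_nonneg _)
    rwa [wsum_const, zero_mul] at this
  rcases lt_or_ge n l with hnl | hnl
  · refine le_trans ?_ hnn
    have : (n : ℝ) ≤ l := by exact_mod_cast hnl.le
    have h1 : q * n - q * l ≤ 0 := by nlinarith
    exact mul_nonpos_of_nonpos_of_nonneg h1 (by positivity)
  obtain ⟨n', rfl⟩ : ∃ n', n = l + n' := ⟨n - l, by omega⟩
  set m := n' / j₀ + 1 with hm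
  have hpt := wsum_le (l + n') _ _ (fun w _ =>
    RGR_point U K hK s t g₀ hs u v hr huv hz hu hv j₁ m w)
  rw [wsum_finset, wsum_add, wsum_finset] at hpt
  -- lower bound of the main terms
  have hj0n : 0 < j₀ := by omega
  have hmk : ∀ k, k < m → k * j₀ ≤ n' := by
    intro k hk
    have : k ≤ n' / j₀ := by omega
    exact (Nat.mul_le_mul_right j₀ this).trans (Nat.div_mul_le_self n' j₀)
  have hF : ∀ k ∈ Finset.range m, 3 / 4 * N ^ n' ≤ wsum (l + n') (fun w =>
      RGR_ind (RGR_ev U s t (k * (s.length + j₁)) g₀ w)) := by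
    intro k hk
    have hk' := hmk k (Finset.mem_range.mp hk)
    have := RGR_F U s t (k * (s.length + j₁)) (n' - k * j₀) g₀ α C' h' ht
    have e1 : k * (s.length + j₁) + (s.length + (n' - k * j₀)) = l + n' := by
      rw [← hl, ← hj₀]; omega
    have e2 : k * (s.length + j₁) + (n' - k * j₀) = n' := by
      rw [← hl, ← hj₀]; omega
    rw [e1, e2] at this
    exact this
  have hG : ∀ k' ∈ Finset.range m, wsum (l + n') (fun w => ∑ k ∈ Finset.range k',
        RGR_ind (RGR_co U s D (k * (s.length + j₁))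
          ((k' - k) * (s.length + j₁) - s.length) g₀ w)) ≤ 1 / 4 * N ^ n' := by
    intro k' hk'
    have hk'1 := hmk k' (Finset.mem_range.mp hk')
    rw [wsum_finset]
    have h1 : ∀ k ∈ Finset.range k', wsum (l + n') (fun w =>
        RGR_ind (RGR_co U s D (k * (s.length + j₁))
          ((k' - k) * (s.length + j₁) - s.length) g₀ w)) ≤
          (c₀ * κ ^ j₁ * N ^ n') * κ ^ (k' - 1 - k) := by
      intro k hk
      have hkk : k < k' := Finset.mem_range.mp hk
      obtain ⟨a, rfl⟩ : ∃ a, k' = k + 1 + a := ⟨k' - (k + 1), by omega⟩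
      have e1 : k + 1 + a - k = a + 1 := by omega
      have e2 : k + 1 + a - 1 - k = a := by omega
      rw [e1, e2, ← hl, ← hj₀]
      have e3 : l ≤ (a + 1) * j₀ := by nlinarith
      have e4 : k * j₀ + (a + 1) * j₀ ≤ n' := by
        calc k * j₀ + (a + 1) * j₀ = (k + 1 + a) * j₀ := by ring
          _ ≤ n' := hk'1
      set d := (a + 1) * j₀ - l with hd
      have hdj : d = a * j₀ + j₁ := by
        rw [hd, add_mul, one_mul]; omega
      obtain ⟨r, hr'⟩ : ∃ r, n' = k * j₀ + (d + r) := ⟨n' - (k * j₀ + d), by omega⟩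
      have := RGR_G U s D (k * j₀) d r g₀ α κ C hα h
      have e5 : k * j₀ + (s.length + (d + r)) = l + n' := by rw [← hl]; omega
      rw [e5, ← hr', ← hN, ← hc₀] at this
      refine this.trans ?_
      have e6 : κ ^ d ≤ κ ^ j₁ * κ ^ a := by
        rw [← pow_add]
        apply pow_le_pow_of_le_one hκ0.le hκ.le
        rw [hdj]
        nlinarith
      calc c₀ * κ ^ d * N ^ n' ≤ c₀ * (κ ^ j₁ * κ ^ a) * N ^ n' := by gcongr
        _ = _ := by ring
    refine (Finset.sum_le_sum h1).trans ?_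
    rw [← Finset.mul_sum, Finset.sum_range_reflect (fun k => κ ^ k) k']
    have h2 : ∑ k ∈ Finset.range k', κ ^ k ≤ (1 - κ)⁻¹ := by
      have := (summable_geometric_of_lt_one hκ0.le hκ).sum_le_tsum (Finset.range k')
        (fun k _ => by positivity)
      rwa [tsum_geometric_of_lt_one hκ0.le hκ] at this
    calc (c₀ * κ ^ j₁ * N ^ n') * ∑ k ∈ Finset.range k', κ ^ k ≤
          (c₀ * κ ^ j₁ * N ^ n') * (1 - κ)⁻¹ := by gcongr
      _ = (c₀ * (κ ^ j₁ * (1 - κ)⁻¹)) * N ^ n' := by ring
      _ ≤ 1 / 4 * N ^ n' := by gcongr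
  have h1 := Finset.sum_le_sum hF
  have h2 := Finset.sum_le_sum hG
  rw [Finset.sum_const, Finset.card_range, nsmul_eq_mul] at h1 h2
  have h3 : (m : ℝ) * (1 / 2 * N ^ n') ≤
      wsum (l + n') (fun w => (NR U.tree K (Rigid G) U.o (ev U.e w • U.o) : ℝ)) := by
    linarith
  refine le_trans ?_ h3
  have h4 : (n' : ℝ) ≤ m * j₀ := by
    have := Nat.lt_div_mul_add (a := n') hj0n
    have h5 : n' ≤ m * j₀ := by
      rw [hm, add_mul, one_mul]; omega
    exact_mod_cast h5
  have h5 : (q * ((l + n' : ℕ) : ℝ) - q * l) * N ^ (l + n') = n' / (2 * j₀) * N ^ n' := by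
    rw [hq, pow_add]
    push_cast
    field_simp
    ring
  rw [h5]
  have h6 : (n' : ℝ) / (2 * j₀) ≤ m * (1 / 2) := by
    rw [div_le_iff₀ (by positivity)]
    nlinarith
  calc (n' : ℝ) / (2 * j₀) * N ^ n' ≤ m * (1 / 2) * N ^ n' := by gcongr
    _ = _ := by ring

end GWP
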