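import Pool.Agent.H55.GWP.WSM
import Pool.Agent.H55.GWP.NRF

/-! SHD: exponential decay of shadows.  If `(x | w o)_o ≥ t ≥ 1` let `x'` be the point at distance
`t` from `o` on the geodesic from `o` to `x`; the walk along the prefixes of `w` must pass
within `J` of `x'`, so the indicator is at most
`∑_{j ≤ n} 1[d(x', w_j o) ≤ J] ≤ ∑_j exp(-α (d(x', w_j o) - d(x', o) + t - J))`. -/

set_option autoImplicit false
open Classical
namespace GWP

/-- a point of a geodesic is on one of the two halves -/
theorem SHD_split {V : Type*} {T : SimpleGraph V} (hT : T.IsTree) (a b p z : V)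
    (hp : T.dist a p + T.dist p b = T.dist a b) (hz : T.dist a z + T.dist z b = T.dist a b) :
    T.dist a z + T.dist z p = T.dist a p ∨ T.dist p z + T.dist z b = T.dist p b := by
  have h1 : z ∈ tpath hT a b := (mem_tpath_iff hT a b z).2 hz
  rw [tpath_split hT a b p hp, List.mem_append] at h1
  rcases h1 with h1 | h1
  · right
    exact (mem_tpath_iff hT p b z).1 (List.mem_of_mem_dropLast h1)
  · left
    exact (mem_tpath_iff hT a p z).1 h1

/-- a point of `[o, b]` is on `[o, a]` or on `[a, b]` -/
theorem SHD_tri {V : Type*} {T : SimpleGraph V} (hT : T.IsTree) (o a b z : V)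
    (hz : T.dist o z + T.dist z b = T.dist o b) :
    T.dist o z + T.dist z a = T.dist o a ∨ T.dist a z + T.dist z b = T.dist a b := by
  obtain ⟨p, h1, h2, h3⟩ := exists_center hT o a b
  have tri : ∀ x y w : V, T.dist x w ≤ T.dist x y + T.dist y w :=
    fun x y w => hT.connected.dist_triangle
  rcases SHD_split hT o b p z h3 hz with h | h
  · left
    have e1 := tri o z a
    have e2 := tri z p a
    omega
  · right
    have e1 := tri a z b
    have e2 := tri a p z
    omega

/-- if the Gromov product is at least `t`, the point at distance `t` is on both geodesics -/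
theorem SHD_on {V : Type*} {T : SimpleGraph V} (hT : T.IsTree) (o x y z : V) (t : ℕ)
    (hz : T.dist o z + T.dist z x = T.dist o x) (ht : T.dist o z = t)
    (h : (t : ℝ) ≤ gro T o x y) : T.dist o z + T.dist z y = T.dist o y := by
  obtain ⟨p, h1, h2, h3⟩ := exists_center hT x o y
  have tri : ∀ x y w : V, T.dist x w ≤ T.dist x y + T.dist y w :=
    fun x y w => hT.connected.dist_triangle
  have c1 : T.dist x p = T.dist p x := T.dist_comm
  have c2 : T.dist p o = T.dist o p := T.dist_comm
  have c3 : T.dist x o = T.dist o x := T.dist_comm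
  have hg : gro T o x y = T.dist o p := by
    unfold gro
    have e1 : (T.dist o x : ℝ) = T.dist x p + T.dist o p := by
      rw [← c3, ← c2]; exact_mod_cast h1.symm
    have e2 : (T.dist o y : ℝ) = T.dist o p + T.dist p y := by exact_mod_cast h2.symm
    have e3 : (T.dist x y : ℝ) = T.dist x p + T.dist p y := by exact_mod_cast h3.symm
    rw [e1, e2, e3]; ring
  rw [hg] at h
  have h' : t ≤ T.dist o p := by exact_mod_cast h
  have hp : T.dist o p + T.dist p x = T.dist o x := by omega
  have e1 := tri o z y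
  rcases SHD_split hT o x p z hp hz with hh | hh
  · have e2 := tri z p y
    omega
  · have e2 := tri o p z
    have e3 : T.dist p z = 0 := by omega
    have e4 : p = z := hT.connected.dist_eq_zero_iff.1 e3
    rw [← e4]; exact h2

/-- the walk along the prefixes passes near each point of the geodesic -/
theorem SHD_pass {S G V : Type*} [Fintype S] [Group G] [MulAction G V]
    (U : Setup S G V) (J : ℕ) (hJ : ∀ s, U.T.dist U.o (U.e s • U.o) ≤ J) (z : V) (w : List S)
    (hz : U.T.dist U.o z + U.T.dist z (ev U.e w • U.o) = U.T.dist U.o (ev U.e w • U.o)) :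
    ∃ j ∈ Finset.range (w.length + 1), U.T.dist z (ev U.e (w.take j) • U.o) ≤ J := by
  induction w using List.reverseRecOn with
  | nil =>
    refine ⟨0, by simp, ?_⟩
    simp only [List.take_nil, ev_nil, one_smul] at hz ⊢
    have : U.T.dist U.o U.o = 0 := SimpleGraph.dist_self
    omega
  | append_singleton w s ih =>
    rcases SHD_tri U.tree U.o (ev U.e w • U.o) _ z hz with h | h
    · obtain ⟨j, hj, hj'⟩ := ih h
      refine ⟨j, ?_, ?_⟩
      · rw [Finset.mem_range] at hj ⊢
        rw [List.length_append]; simp; omega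
      · rw [List.take_append_of_le_length (by rw [Finset.mem_range] at hj; omega)]
        exact hj'
    · refine ⟨(w ++ [s]).length, by simp, ?_⟩
      rw [List.take_length]
      have h1 : U.T.dist (ev U.e w • U.o) (ev U.e (w ++ [s]) • U.o) ≤ J := by
        rw [ev_append, mul_smul, dist_smul' U.act U.tree]
        have : ev U.e [s] = U.e s := by simp [ev]
        rw [this]
        exact hJ s
      omega

theorem SHD_take {S : Type*} [Fintype S] (n j : ℕ) (hj : j ≤ n) (F : List S → ℝ) :
    wsum n (fun w => F (w.take j)) = (Fintype.card S : ℝ) ^ (n - j) * wsum j F := by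
  obtain ⟨m, rfl⟩ := Nat.exists_eq_add_of_le hj
  rw [wsum_append, Nat.add_sub_cancel_left, ← wsum_mul]
  refine wsum_congr j _ _ fun u hu => ?_
  have : (fun v : List S => F ((u ++ v).take j)) = fun _ => F u := by
    funext v
    rw [List.take_append_of_le_length (by omega), List.take_of_length_le (by omega)]
  rw [this, wsum_const, mul_comm]

theorem shadow_tail {S G V : Type*} [Fintype S] [Nonempty S] [Group G] [MulAction G V]
    (U : Setup S G V) (α κ C : ℝ) (hα : 0 < α) (hκ0 : 0 < κ) (hκ : κ < 1) (hC : 0 < C)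
    (h : ∀ (n : ℕ) (x : V),
      wsum n (fun w => Real.exp (-(α * ((U.T.dist x (ev U.e w • U.o) : ℝ) -
        U.T.dist x U.o)))) ≤ C * κ ^ n * (Fintype.card S : ℝ) ^ n) :
    ∃ C' : ℝ, 0 < C' ∧ ∀ (n : ℕ) (x : V) (t : ℕ),
      wsum n (fun w => if (t : ℝ) ≤ gro U.T U.o x (ev U.e w • U.o) then (1 : ℝ) else 0) ≤
        C' * Real.exp (-(α * t)) * (Fintype.card S : ℝ) ^ n := by
  obtain ⟨J, hJ⟩ : ∃ J : ℕ, ∀ s, U.T.dist U.o (U.e s • U.o) ≤ J := by
    obtain ⟨J, hJ⟩ := (Set.finite_range (fun s => U.T.dist U.o (U.e s • U.o))).bddAbove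
    exact ⟨J, fun s => hJ ⟨s, rfl⟩⟩
  have h1κ : 0 < 1 - κ := by linarith
  have hN : (0 : ℝ) < (Fintype.card S : ℝ) := by
    have : 0 < Fintype.card S := Fintype.card_pos
    exact_mod_cast this
  refine ⟨Real.exp (α * J) * (C / (1 - κ)), by positivity, fun n x t => ?_⟩
  by_cases ht : t ≤ U.T.dist U.o x
  · -- the point at distance `t`
    obtain ⟨z, hz1, hz2⟩ : ∃ z, U.T.dist U.o z = t ∧
        U.T.dist U.o z + U.T.dist z x = U.T.dist U.o x := by
      have hlen := tpath_length U.tree x U.o
      have c3 : U.T.dist x U.o = U.T.dist U.o x := U.T.dist_comm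
      have hlt : t < (tpath U.tree x U.o).length := by omega
      have := tpath_get U.tree x U.o _ t (List.getElem?_eq_getElem hlt)
      refine ⟨(tpath U.tree x U.o)[t], this.1, ?_⟩
      have h2 := this.2
      rw [c3, U.T.dist_comm (u := x), U.T.dist_comm (v := U.o)] at h2
      omega
    have step : ∀ w : List S, w.length = n →
        (if (t : ℝ) ≤ gro U.T U.o x (ev U.e w • U.o) then (1 : ℝ) else 0) ≤
        ∑ j ∈ Finset.range (n + 1), (Real.exp (α * J) * Real.exp (-(α * t))) *
          (fun v : List S => Real.exp (-(α * ((U.T.dist z (ev U.e v • U.o) : ℝ) -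
        U.T.dist z U.o)))) (w.take j) := by
      intro w hw
      have hpos : ∀ j ∈ Finset.range (n + 1), 0 ≤ (Real.exp (α * J) * Real.exp (-(α * t))) *
          (fun v : List S => Real.exp (-(α * ((U.T.dist z (ev U.e v • U.o) : ℝ) -
        U.T.dist z U.o)))) (w.take j) := fun j _ => by positivity
      split_ifs with hg
      · obtain ⟨j, hj, hj'⟩ := SHD_pass U J hJ z w
          (SHD_on U.tree U.o x _ z t hz2 hz1 hg)
        rw [hw] at hj
        refine le_trans ?_ (Finset.single_le_sum hpos hj)
        show (1 : ℝ) ≤ (Real.exp (α * J) * Real.exp (-(α * t))) *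
          Real.exp (-(α * ((U.T.dist z (ev U.e (w.take j) • U.o) : ℝ) - U.T.dist z U.o)))
        rw [← Real.exp_add, ← Real.exp_add, ← Real.exp_zero]
        apply Real.exp_le_exp.2
        have hj'' : (U.T.dist z (ev U.e (w.take j) • U.o) : ℝ) ≤ J := by exact_mod_cast hj'
        have hz3 : (U.T.dist z U.o : ℝ) = t := by
          rw [U.T.dist_comm, hz1]
        rw [hz3]
        nlinarith
      · exact Finset.sum_nonneg hpos
    refine le_trans (wsum_le n _ _ step) ?_
    rw [wsum_finset]
    have hterm : ∀ j ∈ Finset.range (n + 1), wsum n (fun w : List S =>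
        (Real.exp (α * J) * Real.exp (-(α * t))) *
          (fun v : List S => Real.exp (-(α * ((U.T.dist z (ev U.e v • U.o) : ℝ) -
        U.T.dist z U.o)))) (w.take j)) ≤
        (Real.exp (α * J) * Real.exp (-(α * t))) * (C * κ ^ j * (Fintype.card S : ℝ) ^ n) := by
      intro j hj
      rw [wsum_mul]
      refine mul_le_mul_of_nonneg_left ?_ (by positivity)
      have hjn : j ≤ n := by rw [Finset.mem_range] at hj; omega
      rw [SHD_take n j hjn (fun v : List S => Real.exp (-(α * ((U.T.dist z (ev U.e v • U.o) : ℝ) -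
        U.T.dist z U.o))))]
      calc (Fintype.card S : ℝ) ^ (n - j) * wsum j _
          ≤ (Fintype.card S : ℝ) ^ (n - j) * (C * κ ^ j * (Fintype.card S : ℝ) ^ j) :=
            mul_le_mul_of_nonneg_left (h j z) (by positivity)
        _ = C * κ ^ j * ((Fintype.card S : ℝ) ^ (n - j) * (Fintype.card S : ℝ) ^ j) := by ring
        _ = C * κ ^ j * (Fintype.card S : ℝ) ^ n := by rw [← pow_add, Nat.sub_add_cancel hjn]
    refine le_trans (Finset.sum_le_sum hterm) ?_
    have hgeo : ∑ j ∈ Finset.range (n + 1), κ ^ j ≤ 1 / (1 - κ) := by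
      rw [le_div_iff₀ h1κ]
      have := mul_neg_geom_sum κ (n + 1)
      rw [mul_comm] at this
      rw [this]
      have : 0 < κ ^ (n + 1) := by positivity
      linarith
    calc ∑ j ∈ Finset.range (n + 1),
        (Real.exp (α * J) * Real.exp (-(α * t))) * (C * κ ^ j * (Fintype.card S : ℝ) ^ n)
        = (Real.exp (α * J) * Real.exp (-(α * t)) * C * (Fintype.card S : ℝ) ^ n) *
          ∑ j ∈ Finset.range (n + 1), κ ^ j := by
          rw [Finset.mul_sum]; exact Finset.sum_congr rfl fun j _ => by ring
      _ ≤ (Real.exp (α * J) * Real.exp (-(α * t)) * C * (Fintype.card S : ℝ) ^ n) *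
          (1 / (1 - κ)) := mul_le_mul_of_nonneg_left hgeo (by positivity)
      _ = _ := by field_simp
  · -- the product is smaller than `t`
    have hz : ∀ w : List S, w.length = n →
        (if (t : ℝ) ≤ gro U.T U.o x (ev U.e w • U.o) then (1 : ℝ) else 0) = 0 := by
      intro w _
      rw [if_neg]
      intro hg
      apply ht
      have h2 : U.T.dist U.o (ev U.e w • U.o) ≤ U.T.dist U.o x + U.T.dist x (ev U.e w • U.o) :=
        U.tree.connected.dist_triangle
      have h2' : (U.T.dist U.o (ev U.e w • U.o) : ℝ) ≤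
        U.T.dist U.o x + U.T.dist x (ev U.e w • U.o) := by exact_mod_cast h2
      have h3 : (t : ℝ) ≤ U.T.dist U.o x := by
        refine le_trans hg ?_
        unfold gro
        linarith
      exact_mod_cast h3
    rw [wsum_congr n _ (fun _ => (0 : ℝ)) hz, wsum_const, zero_mul]
    positivity

theorem shadow_mean {S G V : Type*} [Fintype S] [Nonempty S] [Group G] [MulAction G V]
    (U : Setup S G V) (α C' : ℝ) (hα : 0 < α)
    (h : ∀ (n : ℕ) (x : V) (t : ℕ),
      wsum n (fun w => if (t : ℝ) ≤ gro U.T U.o x (ev U.e w • U.o) then (1 : ℝ) else 0) ≤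
        C' * Real.exp (-(α * t)) * (Fintype.card S : ℝ) ^ n) :
    ∃ C'' : ℝ, ∀ (n : ℕ) (x : V),
      wsum n (fun w => gro U.T U.o x (ev U.e w • U.o)) ≤
        C'' * (Fintype.card S : ℝ) ^ n := by
  set q := Real.exp (-α) with hq
  have hq0 : 0 < q := Real.exp_pos _
  have hq1 : 0 < 1 - q := by
    have : q < 1 := by rw [hq, Real.exp_lt_one_iff]; linarith
    linarith
  refine ⟨|C'| * (1 / (1 - q)), fun n x => ?_⟩
  set M := U.T.dist U.o x with hM
  have step : ∀ w : List S, w.length = n → gro U.T U.o x (ev U.e w • U.o) ≤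
      ∑ t ∈ Finset.range (M + 1),
        (if (t : ℝ) ≤ gro U.T U.o x (ev U.e w • U.o) then (1 : ℝ) else 0) := by
    intro w _
    set g := gro U.T U.o x (ev U.e w • U.o) with hg
    have hg0 : 0 ≤ g := gro_nonneg U.tree _ _ _
    have hgM : g ≤ M := by
      have h2 : U.T.dist U.o (ev U.e w • U.o) ≤ U.T.dist U.o x + U.T.dist x (ev U.e w • U.o) :=
        U.tree.connected.dist_triangle
      have h2' : (U.T.dist U.o (ev U.e w • U.o) : ℝ) ≤
        U.T.dist U.o x + U.T.dist x (ev U.e w • U.o) := by exact_mod_cast h2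
      rw [hg, hM]
      unfold gro
      linarith
    have hfl : ⌊g⌋₊ ≤ M := Nat.floor_le_of_le hgM
    calc g ≤ (⌊g⌋₊ : ℝ) + 1 := (Nat.lt_floor_add_one g).le
      _ = ∑ t ∈ Finset.range (⌊g⌋₊ + 1), (1 : ℝ) := by simp
      _ = ∑ t ∈ Finset.range (⌊g⌋₊ + 1), (if (t : ℝ) ≤ g then (1 : ℝ) else 0) := by
          refine Finset.sum_congr rfl fun t ht => ?_
          rw [if_pos]
          rw [Finset.mem_range] at ht
          exact (Nat.le_floor_iff hg0).1 (by omega)
      _ ≤ _ := by
          refine Finset.sum_le_sum_of_subset_of_nonneg ?_ ?_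
          · exact Finset.range_subset_range.2 (by omega)
          · intro t _ _
            split_ifs <;> norm_num
  refine le_trans (wsum_le n _ _ step) ?_
  rw [wsum_finset]
  have hN : (0 : ℝ) ≤ (Fintype.card S : ℝ) ^ n := by positivity
  have hterm : ∀ t ∈ Finset.range (M + 1), wsum n (fun w : List S =>
      if (t : ℝ) ≤ gro U.T U.o x (ev U.e w • U.o) then (1 : ℝ) else 0) ≤
      (|C'| * (Fintype.card S : ℝ) ^ n) * q ^ t := by
    intro t _
    refine le_trans (h n x t) ?_
    have e1 : Real.exp (-(α * t)) = q ^ t := by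
      rw [hq, ← Real.exp_nat_mul]; congr 1; ring
    rw [e1]
    have : C' * q ^ t * (Fintype.card S : ℝ) ^ n ≤ |C'| * q ^ t * (Fintype.card S : ℝ) ^ n := by
      gcongr
      exact le_abs_self _
    linarith
  refine le_trans (Finset.sum_le_sum hterm) ?_
  rw [← Finset.mul_sum]
  have hgeo : ∑ j ∈ Finset.range (M + 1), q ^ j ≤ 1 / (1 - q) := by
    rw [le_div_iff₀ hq1]
    have := mul_neg_geom_sum q (M + 1)
    rw [mul_comm] at this
    rw [this]
    have : 0 < q ^ (M + 1) := by positivity
    linarith
  calc (|C'| * (Fintype.card S : ℝ) ^ n) * ∑ j ∈ Finset.range (M + 1), q ^ j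
      ≤ (|C'| * (Fintype.card S : ℝ) ^ n) * (1 / (1 - q)) :=
        mul_le_mul_of_nonneg_left hgeo (by positivity)
    _ = _ := by ring

end GWP
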