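import Pool.Agent.H55.GWP.DRF
import Pool.Agent.H55.GWP.CTR
import Pool.Agent.H55.GWP.SHD
import Pool.Agent.H55.GWP.RGR

/-! NRD: assembly of the random walk part: exponential contraction for the number of rigid
windows.  `NR x (w o) - NR x o ≥ NR o (w o) - 2 (x | w o)_o` by `NR_tripod`; sum with
`rigid_growth` and `shadow_mean` to get a uniform drift, then `contraction_of_drift`. -/

set_option autoImplicit false
open Classical
namespace GWP

theorem rigid_contraction {S G V : Type*} [Fintype S] [Nonempty S] [Group G] [MulAction G V]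
    (U : Setup S G V) (K : ℕ) (hK : 1 ≤ K)
    (deep : ∀ t : ℕ, ∃ (g : G) (u v : V), Rigid G u v ∧ U.T.dist u v = K ∧
      U.T.dist U.o u + K + U.T.dist v (g • U.o) = U.T.dist U.o (g • U.o) ∧
      t ≤ U.T.dist U.o u ∧ t ≤ U.T.dist v (g • U.o))
    (a b : List S) (A₁ A₂ B₁ B₂ : Set V)
    (d1 : Disjoint A₁ A₂) (d2 : Disjoint A₁ B₁) (d3 : Disjoint A₁ B₂)
    (d4 : Disjoint A₂ B₁) (d5 : Disjoint A₂ B₂) (d6 : Disjoint B₁ B₂)
    (hA : ∀ v : V, v ∉ A₂ → ev U.e a • v ∈ A₁) (hB : ∀ v : V, v ∉ B₂ → ev U.e b • v ∈ B₁) :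
    ∃ m : ℕ, 1 ≤ m ∧ ∃ α : ℝ, 0 < α ∧ ∃ κ : ℝ, 0 < κ ∧ κ < 1 ∧ ∀ x : V,
      wsum m (fun w => Real.exp (-(α * ((NR U.tree K (Rigid G) x (ev U.e w • U.o) : ℝ) -
        NR U.tree K (Rigid G) x U.o)))) ≤ κ * (Fintype.card S : ℝ) ^ m := by
  have unb : ∀ R : ℕ, ∃ g : G, R < U.T.dist U.o (g • U.o) := by
    intro R
    obtain ⟨g, u, v, -, -, h3, h4, -⟩ := deep (R + 1)
    exact ⟨g, by omega⟩
  obtain ⟨m₁, c₁, hc₁, hd₁⟩ := uniform_drift U a b A₁ A₂ B₁ B₂ d1 d2 d3 d4 d5 d6 hA hB unb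
  have hdinv : ∀ (g : G) (x y : V), (U.T.dist (g • x) (g • y) : ℝ) = U.T.dist x y :=
    fun g x y => by rw [dist_smul' U.act U.tree]
  -- bound for the jumps
  obtain ⟨J, hJ⟩ : ∃ J : ℝ, ∀ s, (U.T.dist U.o (U.e s • U.o) : ℝ) ≤ J := by
    obtain ⟨J, hJ⟩ := (Set.finite_range (fun s => (U.T.dist U.o (U.e s • U.o) : ℝ))).bddAbove
    exact ⟨J, fun s => hJ ⟨s, rfl⟩⟩
  have htri : ∀ x y z : V, U.T.dist x z ≤ U.T.dist x y + U.T.dist y z :=
    fun x y z => U.tree.connected.dist_triangle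
  have hA1 : ∀ s x, |(U.T.dist x (U.e s • U.o) : ℝ) - U.T.dist x U.o| ≤ J := by
    intro s x
    have h1 := htri x U.o (U.e s • U.o)
    have h2 := htri x (U.e s • U.o) U.o
    have h3 := hJ s
    have h4 : U.T.dist (U.e s • U.o) U.o = U.T.dist U.o (U.e s • U.o) := U.T.dist_comm
    rw [h4] at h2
    have h1' : (U.T.dist x (U.e s • U.o) : ℝ) ≤ U.T.dist x U.o + U.T.dist U.o (U.e s • U.o) := by
      exact_mod_cast h1
    have h2' : (U.T.dist x U.o : ℝ) ≤ U.T.dist x (U.e s • U.o) + U.T.dist U.o (U.e s • U.o) := by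
      exact_mod_cast h2
    rw [abs_le]
    constructor <;> linarith
  obtain ⟨α₁, hα₁, κ₁, hκ₁, hκ₁', hcon₁⟩ := contraction_of_drift U.e U.o
    (fun x y => (U.T.dist x y : ℝ)) hdinv J hA1 m₁ c₁ hc₁ hd₁
  obtain ⟨κ₂, C₂, hκ₂, hκ₂', hC₂, hcon₂⟩ := contraction_iterate U.e U.o
    (fun x y => (U.T.dist x y : ℝ)) hdinv J hA1 m₁ α₁ κ₁ hα₁ hκ₁ hκ₁' hcon₁
  obtain ⟨C', hC', htail⟩ := shadow_tail U α₁ κ₂ C₂ hα₁ hκ₂ hκ₂' hC₂ hcon₂
  obtain ⟨C'', hmean⟩ := shadow_mean U α₁ C' hα₁ htail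
  obtain ⟨q, hq, C₃, hgrow⟩ := rigid_growth U K hK deep α₁ κ₂ C₂ C' hα₁ hκ₂ hκ₂' hcon₂ htail
  -- uniform drift for NR
  obtain ⟨m, hm⟩ : ∃ m : ℕ, (C₃ + 2 * C'' + 1) < q * m := by
    obtain ⟨m, hm⟩ := exists_nat_gt ((C₃ + 2 * C'' + 1) / q)
    exact ⟨m, by rwa [div_lt_iff₀' hq] at hm⟩
  have hNpos : (0 : ℝ) < (Fintype.card S : ℝ) ^ m := by
    have : 0 < Fintype.card S := Fintype.card_pos
    positivity
  have hdrift : ∀ x : V, (1 : ℝ) * (Fintype.card S : ℝ) ^ m ≤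
      wsum m (fun w => (NR U.tree K (Rigid G) x (ev U.e w • U.o) : ℝ) -
        NR U.tree K (Rigid G) x U.o) := by
    intro x
    have h1 : wsum m (fun w => (NR U.tree K (Rigid G) U.o (ev U.e w • U.o) : ℝ) +
        (-2) * gro U.T U.o x (ev U.e w • U.o)) ≤
        wsum m (fun w => (NR U.tree K (Rigid G) x (ev U.e w • U.o) : ℝ) -
        NR U.tree K (Rigid G) x U.o) := by
      refine wsum_le m _ _ fun w _ => ?_
      have := NR_tripod U.tree K hK (Rigid G) (fun u v => Rigid_symm u v) x U.o (ev U.e w • U.o)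
      linarith
    refine le_trans ?_ h1
    rw [wsum_add, wsum_mul]
    have h2 := hgrow m
    have h3 := hmean m x
    have h4 : (q * m - C₃ - 2 * C'') * (Fintype.card S : ℝ) ^ m ≥
        1 * (Fintype.card S : ℝ) ^ m := by
      apply mul_le_mul_of_nonneg_right _ hNpos.le
      linarith
    nlinarith
  have hNinv : ∀ (g : G) (x y : V), (NR U.tree K (Rigid G) (g • x) (g • y) : ℝ) =
      NR U.tree K (Rigid G) x y := fun g x y => by
    rw [NR_smul U.tree U.act K (Rigid G) (fun g u v => Rigid_smul g u v)]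
  have hA2 : ∀ s x, |(NR U.tree K (Rigid G) x (U.e s • U.o) : ℝ) -
      NR U.tree K (Rigid G) x U.o| ≤ J := by
    intro s x
    refine le_trans (NR_lipschitz U.tree K (Rigid G) x (U.e s • U.o) U.o) ?_
    have h4 : U.T.dist (U.e s • U.o) U.o = U.T.dist U.o (U.e s • U.o) := U.T.dist_comm
    rw [h4]
    exact hJ s
  obtain ⟨α, hα, κ, hκ, hκ', hcon⟩ := contraction_of_drift U.e U.o
    (fun x y => (NR U.tree K (Rigid G) x y : ℝ)) hNinv J hA2 m 1 one_pos hdrift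
  refine ⟨m, ?_, α, hα, κ, hκ, hκ', hcon⟩
  by_contra hm0
  have hm0' : m = 0 := by omega
  subst hm0'
  have := hdrift U.o
  simp [wsum, ev] at this
  linarith

end GWP
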