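import Pool.Agent.H55.GWP.TRB

/-! PNG: two independent axes give ping-pong sets.

`τ`-axis: `dist p (h^n p) = n τ` for `n : ℕ`, hence `dist (h^m p) (h^n p) = |m - n| τ` for integers.
Choose `L` large (`2 (L τ - D₀) > D₀ + B` with `D₀ = dist p (g p)`), `M = 2 L`, and
`A₁ = {x | dist p x = L τ + dist (h^L p) x}`, `A₂ = {x | dist p x = L τ + dist (h^(-L) p) x}`,
`B₁ = g A₁`, `B₂ = g A₂`.
`h^(2L) v ∈ A₁ ↔ h^(-L) p` is on the geodesic from `h^(-2L) p` to `v`; if `v ∉ A₂` the centre `c` of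
`h^(-2L) p, p, v` is strictly between `h^(-L) p` and `p`.  Disjointness: for
`x ∈ A_ε ∩ B_δ` one has `(h^(εL) p | x)_p = L τ` and `(g h^(δL) p | x)_p ≥ L τ - D₀`, so by the
four-point inequality (`four_point`) `(h^(εL) p | g h^(δL) p)_p ≥ L τ - D₀`, but this Gromov
product is at most `(D₀ + B) / 2` by independence. -/

set_option autoImplicit false
open Classical
namespace GWP

variable {V : Type*} {T : SimpleGraph V}

/-- four-point inequality (0-hyperbolicity) -/
theorem four_point (hT : T.IsTree) (w x y z : V) :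
    T.dist w x + T.dist y z ≤ max (T.dist w y + T.dist x z) (T.dist w z + T.dist x y) := by
  have tri : ∀ a b c : V, T.dist a c ≤ T.dist a b + T.dist b c := fun a b c =>
    hT.connected.dist_triangle
  obtain ⟨p, h1, h2, h3⟩ := exists_center hT x y z
  obtain ⟨q, k1, k2, k3⟩ := exists_center hT w y z
  have hp : p ∈ tpath hT y z := (mem_tpath_iff hT y z p).2 h2
  rw [tpath_split hT y z q k2, List.mem_append] at hp
  have s1 := T.dist_comm (u := p) (v := q)
  have s2 := T.dist_comm (u := x) (v := y)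
  have s3 := T.dist_comm (u := p) (v := x)
  have s4 := T.dist_comm (u := p) (v := y)
  have s5 := T.dist_comm (u := q) (v := y)
  have s6 := T.dist_comm (u := p) (v := w)
  have t1 := tri w p x
  have t2 := tri w q p
  rcases hp with hp | hp
  · have hp' := (mem_tpath_iff hT q z p).1 (List.mem_of_mem_dropLast hp)
    apply le_max_of_le_right
    omega
  · have hp' := (mem_tpath_iff hT y q p).1 hp
    apply le_max_of_le_left
    omega

theorem axis_dist {G : Type*} [Group G] [MulAction G V] (hT : T.IsTree)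
    (act : ∀ (g : G) (u v : V), T.Adj u v → T.Adj (g • u) (g • v)) (h : G) (p : V) (τ : ℕ)
    (hax : ∀ n : ℕ, T.dist p (h ^ n • p) = n * τ) (m n : ℤ) :
    T.dist (h ^ m • p) (h ^ n • p) = (m - n).natAbs * τ := by
  have key : ∀ (m n : ℤ), m ≤ n → T.dist (h ^ m • p) (h ^ n • p) = (m - n).natAbs * τ := by
    intro m n hmn
    obtain ⟨k, rfl⟩ := Int.le.dest hmn
    have : h ^ (m + (k : ℤ)) • p = h ^ m • (h ^ k • p) := by
      rw [zpow_add, mul_smul, zpow_natCast]
    rw [this, dist_smul' act hT, hax]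
    congr 1
    omega
  rcases le_total m n with hmn | hmn
  · exact key m n hmn
  · rw [T.dist_comm, key n m hmn]
    congr 1
    omega

theorem pingpong_of_indep {G : Type*} [Group G] [MulAction G V] (hT : T.IsTree)
    (act : ∀ (g : G) (u v : V), T.Adj u v → T.Adj (g • u) (g • v)) (h g : G) (p : V) (τ : ℕ)
    (hτ : 0 < τ) (hax : ∀ n : ℕ, T.dist p (h ^ n • p) = n * τ) (B : ℕ)
    (hind : ∀ m n : ℤ, (m.natAbs + n.natAbs) * τ ≤
      T.dist (h ^ m • p) (g • h ^ n • p) + B) :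
    ∃ (M : ℕ) (A₁ A₂ B₁ B₂ : Set V), Disjoint A₁ A₂ ∧ Disjoint A₁ B₁ ∧ Disjoint A₁ B₂ ∧
      Disjoint A₂ B₁ ∧ Disjoint A₂ B₂ ∧ Disjoint B₁ B₂ ∧
      (∀ v : V, v ∉ A₂ → h ^ M • v ∈ A₁) ∧
      (∀ v : V, v ∉ B₂ → (g * h ^ M * g⁻¹) • v ∈ B₁) := by
  have tri : ∀ a b c : V, T.dist a c ≤ T.dist a b + T.dist b c := fun a b c =>
    hT.connected.dist_triangle
  set D₀ := T.dist p (g • p) with hD₀
  obtain ⟨L, hL⟩ : ∃ L : ℕ, L = 3 * D₀ + B + 1 := ⟨_, rfl⟩
  have hLτ : L ≤ L * τ := Nat.le_mul_of_pos_right _ hτ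
  set R := L * τ with hR
  -- the sets
  set A : ℤ → Set V := fun e => {x | T.dist p x = R + T.dist (h ^ (e * L) • p) x} with hA
  have hdp : ∀ e : ℤ, e.natAbs = 1 → T.dist p (h ^ (e * (L : ℤ)) • p) = R := by
    intro e he
    have := axis_dist hT act h p τ hax 0 (e * L)
    rw [zpow_zero, one_smul] at this
    rw [this, zero_sub, Int.natAbs_neg, Int.natAbs_mul, he, one_mul, Int.natAbs_natCast]
  have hAA : Disjoint (A 1) (A (-1)) := by
    rw [Set.disjoint_left]
    intro x h1 h2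
    simp only [hA, Set.mem_ofPred_eq] at h1 h2
    have h3 := axis_dist hT act h p τ hax (1 * (L : ℤ)) (-1 * (L : ℤ))
    have h4 : (1 * (L : ℤ) - -1 * (L : ℤ)).natAbs = 2 * L := by omega
    rw [h4, Nat.mul_assoc, ← hR] at h3
    have h5 := four_point hT p x (h ^ (1 * (L : ℤ)) • p) (h ^ (-1 * (L : ℤ)) • p)
    have h6 := hdp 1 rfl
    have h7 := hdp (-1) rfl
    rw [T.dist_comm (u := x) (v := h ^ (1 * (L : ℤ)) • p),
      T.dist_comm (u := x) (v := h ^ (-1 * (L : ℤ)) • p)] at h5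
    have : R ≥ 1 := by omega
    rcases le_max_iff.1 h5 with h5 | h5 <;> omega
  have hAB : ∀ e f : ℤ, e.natAbs = 1 → f.natAbs = 1 → ∀ x, x ∈ A e → g⁻¹ • x ∈ A f → False := by
    intro e f he hf x h1 h2
    simp only [hA, Set.mem_ofPred_eq] at h1 h2
    have e1 : T.dist p (g⁻¹ • x) = T.dist (g • p) x := by
      rw [← dist_smul' act hT g p (g⁻¹ • x), smul_inv_smul]
    have e2 : T.dist (h ^ (f * (L : ℤ)) • p) (g⁻¹ • x) =
        T.dist (g • h ^ (f * (L : ℤ)) • p) x := by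
      rw [← dist_smul' act hT g (h ^ (f * (L : ℤ)) • p) (g⁻¹ • x), smul_inv_smul]
    rw [e1, e2] at h2
    have h3 := hind (e * L) (f * L)
    rw [Int.natAbs_mul, Int.natAbs_mul, he, hf, one_mul, Int.natAbs_natCast] at h3
    have h3' : (L + L) * τ = R + R := by rw [hR, Nat.add_mul]
    rw [h3'] at h3
    have h4 := hdp e he
    have h5 := hdp f hf
    have h5' := dist_smul' act hT g p (h ^ (f * (L : ℤ)) • p)
    rw [h5] at h5'
    have h6 := four_point hT p x (h ^ (e * (L : ℤ)) • p) (g • h ^ (f * (L : ℤ)) • p)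
    rw [T.dist_comm (u := x) (v := h ^ (e * (L : ℤ)) • p),
      T.dist_comm (u := x) (v := g • h ^ (f * (L : ℤ)) • p)] at h6
    have h7 := tri p (g • p) x
    have h7' := tri (g • p) p x
    have h7'' := T.dist_comm (u := g • p) (v := p)
    have h8 := tri p (g • p) (g • h ^ (f * (L : ℤ)) • p)
    rcases le_max_iff.1 h6 with h6 | h6 <;> omega
  have hstep : ∀ v : V, v ∉ A (-1) → h ^ (2 * L) • v ∈ A 1 := by
    intro v hv
    simp only [hA, Set.mem_ofPred_eq] at hv ⊢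
    have e1 : T.dist p (h ^ (2 * L) • v) = T.dist (h ^ (-(2 * (L : ℤ))) • p) v := by
      rw [← dist_smul' act hT (h ^ (2 * L)) (h ^ (-(2 * (L : ℤ))) • p) v, smul_smul,
        ← zpow_natCast, ← zpow_add]
      push_cast
      simp
    have e2 : T.dist (h ^ (1 * (L : ℤ)) • p) (h ^ (2 * L) • v) =
        T.dist (h ^ (-1 * (L : ℤ)) • p) v := by
      rw [← dist_smul' act hT (h ^ (2 * L)) (h ^ (-1 * (L : ℤ)) • p) v, smul_smul,
        ← zpow_natCast, ← zpow_add]
      congr 3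
      push_cast
      ring
    rw [e1, e2]
    have h1 := axis_dist hT act h p τ hax (-1 * (L : ℤ)) (-(2 * (L : ℤ)))
    have h1' : (-1 * (L : ℤ) - -(2 * (L : ℤ))).natAbs = L := by omega
    rw [h1', ← hR] at h1
    have h2 := axis_dist hT act h p τ hax (-(2 * (L : ℤ))) 0
    have h2' : (-(2 * (L : ℤ)) - 0).natAbs = 2 * L := by omega
    rw [h2', Nat.mul_assoc, ← hR, zpow_zero, one_smul] at h2
    have h3 := hdp (-1) rfl
    have h4 := four_point hT (h ^ (-1 * (L : ℤ)) • p) v (h ^ (-(2 * (L : ℤ))) • p) p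
    have h5 := T.dist_comm (u := h ^ (-1 * (L : ℤ)) • p) (v := p)
    have h6 := T.dist_comm (u := v) (v := p)
    have h7 := T.dist_comm (u := v) (v := h ^ (-(2 * (L : ℤ))) • p)
    have h8 := tri p (h ^ (-1 * (L : ℤ)) • p) v
    have h9 := tri (h ^ (-(2 * (L : ℤ))) • p) (h ^ (-1 * (L : ℤ)) • p) v
    have h10 := T.dist_comm (u := h ^ (-(2 * (L : ℤ))) • p) (v := h ^ (-1 * (L : ℤ)) • p)
    rcases le_max_iff.1 h4 with h4 | h4 <;> omega
  refine ⟨2 * L, A 1, A (-1), {x | g⁻¹ • x ∈ A 1}, {x | g⁻¹ • x ∈ A (-1)}, hAA, ?_, ?_, ?_, ?_,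
    ?_, hstep, ?_⟩
  · exact Set.disjoint_left.2 fun x h1 h2 => hAB 1 1 rfl rfl x h1 h2
  · exact Set.disjoint_left.2 fun x h1 h2 => hAB 1 (-1) rfl rfl x h1 h2
  · exact Set.disjoint_left.2 fun x h1 h2 => hAB (-1) 1 rfl rfl x h1 h2
  · exact Set.disjoint_left.2 fun x h1 h2 => hAB (-1) (-1) rfl rfl x h1 h2
  · exact Set.disjoint_left.2 fun x h1 h2 => Set.disjoint_left.1 hAA h1 h2
  · intro v hv
    simp only [Set.mem_ofPred_eq] at hv ⊢
    have := hstep _ hv
    rw [smul_smul] at this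
    rw [smul_smul]
    convert this using 2
    group

end GWP
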