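import Pool.Agent.H55.GWP.COC

/-! PRF: the words that are non-trivial in a finite quotient of a finitely presented group form
a computably enumerable set; a finitely presented group with infinitely many finite quotients
has generically computable word problem. -/

set_option autoImplicit false
open Classical
namespace GWP

/-! ### enumeration -/

theorem PRF_ex {A C : Type} [Primcodable A] [Primcodable C] {p : A → C → Prop}
    (hp : PrimrecPred (fun x : A × C => p x.1 x.2)) : REPred (fun a : A => ∃ c, p a c) := by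
  obtain ⟨hd, hp'⟩ := hp
  have h1 : Primrec (fun x : A × ℕ =>
      (Option.casesOn (Encodable.decode (α := C) x.2) false
        (fun c => decide (p x.1 c)) : Bool)) := by
    refine Primrec.option_casesOn (Primrec.decode.comp Primrec.snd) (Primrec.const false) ?_
    exact (hp'.comp ((Primrec.fst.comp Primrec.fst).pair Primrec.snd)).of_eq fun x => by
      simp only [decide_eq_decide]
  have h2 : Partrec (fun a : A => Nat.rfind (fun n => Part.some
      (Option.casesOn (Encodable.decode (α := C) n) false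
        (fun c => decide (p a c)) : Bool))) := by
    apply Partrec.rfind
    exact (h1.to_comp.partrec).to₂
  refine h2.dom_re.of_eq fun a => ?_
  refine Nat.rfind_dom.trans ?_
  constructor
  · rintro ⟨n, hn, -⟩
    cases hdec : (Encodable.decode (α := C) n) with
    | none => rw [hdec] at hn; simp at hn
    | some c => rw [hdec] at hn; exact ⟨c, by simpa using hn⟩
  · rintro ⟨c, hc⟩
    refine ⟨Encodable.encode c, ?_, fun _ => trivial⟩
    rw [Encodable.encodek]
    simpa using hc

theorem PRF_all {A β : Type} [Primcodable A] (q : β → A → Prop) (L : List β)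
    (h : ∀ s ∈ L, PrimrecPred (q s)) : PrimrecPred (fun x => ∀ s ∈ L, q s x) := by
  induction L with
  | nil =>
    exact PrimrecPred.of_eq (Primrec.eq.comp (Primrec.const 0) (Primrec.const 0) :
      PrimrecPred (fun _ : A => (0 : ℕ) = 0)) (fun x => by simp)
  | cons s L ih =>
    refine PrimrecPred.of_eq ((h s (by simp)).and (ih fun t ht => h t (by simp [ht])))
      (fun x => by simp)

/-! ### codes of finite quotients -/

section codes

variable {k : ℕ}

/-- a code: tables of the generators and of their inverses, the number of points, a point -/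
abbrev PRFC (k : ℕ) : Type := (Fin k → List ℕ × List ℕ) × (ℕ × ℕ)

/-- the table of a letter -/
def PRF_tab (T : Fin k → List ℕ × List ℕ) (s : Fin k × Bool) : List ℕ :=
  bif s.2 then (T s.1).1 else (T s.1).2

/-- action of a letter -/
def PRF_ap (T : Fin k → List ℕ × List ℕ) (s : Fin k × Bool) (y : ℕ) : ℕ :=
  (PRF_tab T s).getD y 0

/-- action of a word -/
def PRF_ev (T : Fin k → List ℕ × List ℕ) (w : List (Fin k × Bool)) (y : ℕ) : ℕ :=
  w.foldr (fun s z => PRF_ap T s z) y

/-- the test of a code -/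
def PRF_chk (Rl : List (List (Fin k × Bool))) (w : List (Fin k × Bool)) (c : PRFC k) : Prop :=
  (∀ y ∈ List.range c.2.1,
    (∀ s ∈ (Finset.univ : Finset (Fin k × Bool)).toList,
      PRF_ap c.1 s y < c.2.1 ∧ PRF_ap c.1 (s.1, !s.2) (PRF_ap c.1 s y) = y) ∧
    (∀ r ∈ Rl, PRF_ev c.1 r y = y)) ∧
  c.2.2 < c.2.1 ∧ PRF_ev c.1 w c.2.2 ≠ c.2.2

theorem PRF_ap_primrec :
    Primrec (fun p : (Fin k → List ℕ × List ℕ) × ((Fin k × Bool) × ℕ) =>
      PRF_ap p.1 p.2.1 p.2.2) := by
  have h1 : Primrec (fun p : (Fin k → List ℕ × List ℕ) × ((Fin k × Bool) × ℕ) =>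
      p.1 p.2.1.1) :=
    Primrec.fin_app.comp Primrec.fst
      (Primrec.fst.comp (Primrec.fst.comp Primrec.snd))
  have h2 : Primrec (fun p : (Fin k → List ℕ × List ℕ) × ((Fin k × Bool) × ℕ) =>
      PRF_tab p.1 p.2.1) :=
    Primrec.cond (Primrec.snd.comp (Primrec.fst.comp Primrec.snd))
      (Primrec.fst.comp h1) (Primrec.snd.comp h1)
  exact (Primrec.list_getD 0).comp h2 (Primrec.snd.comp Primrec.snd)

theorem PRF_ev_primrec :
    Primrec (fun p : (Fin k → List ℕ × List ℕ) × (List (Fin k × Bool) × ℕ) =>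
      PRF_ev p.1 p.2.1 p.2.2) := by
  have h1 : Primrec (fun q : ((Fin k → List ℕ × List ℕ) × (List (Fin k × Bool) × ℕ)) ×
      ((Fin k × Bool) × ℕ) => PRF_ap q.1.1 q.2.1 q.2.2) :=
    PRF_ap_primrec.comp ((Primrec.fst.comp Primrec.fst).pair Primrec.snd)
  exact Primrec.list_foldr (h := fun (p : (Fin k → List ℕ × List ℕ) ×
    (List (Fin k × Bool) × ℕ)) (q : (Fin k × Bool) × ℕ) => PRF_ap p.1 q.1 q.2)
    (Primrec.fst.comp Primrec.snd) (Primrec.snd.comp Primrec.snd) h1.to₂

theorem PRF_chk_primrec (Rl : List (List (Fin k × Bool))) :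
    PrimrecPred (fun x : List (Fin k × Bool) × PRFC k => PRF_chk Rl x.1 x.2) := by
  have hap : ∀ s : Fin k × Bool, Primrec (fun x : ℕ × PRFC k => PRF_ap x.2.1 s x.1) := by
    intro s
    exact PRF_ap_primrec.comp ((Primrec.fst.comp Primrec.snd).pair
      ((Primrec.const s).pair Primrec.fst))
  have hap2 : ∀ s s' : Fin k × Bool,
      Primrec (fun x : ℕ × PRFC k => PRF_ap x.2.1 s' (PRF_ap x.2.1 s x.1)) := by
    intro s s'
    exact PRF_ap_primrec.comp ((Primrec.fst.comp Primrec.snd).pair
      ((Primrec.const s').pair (hap s)))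
  have hev : ∀ r : List (Fin k × Bool), Primrec (fun x : ℕ × PRFC k => PRF_ev x.2.1 r x.1) := by
    intro r
    exact PRF_ev_primrec.comp ((Primrec.fst.comp Primrec.snd).pair
      ((Primrec.const r).pair Primrec.fst))
  have hn : Primrec (fun x : ℕ × PRFC k => x.2.2.1) :=
    Primrec.fst.comp (Primrec.snd.comp Primrec.snd)
  have h1 : PrimrecPred (fun x : ℕ × PRFC k =>
      (∀ s ∈ (Finset.univ : Finset (Fin k × Bool)).toList,
        PRF_ap x.2.1 s x.1 < x.2.2.1 ∧ PRF_ap x.2.1 (s.1, !s.2) (PRF_ap x.2.1 s x.1) = x.1) ∧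
      (∀ r ∈ Rl, PRF_ev x.2.1 r x.1 = x.1)) := by
    refine PrimrecPred.and (PRF_all _ _ fun s _ => ?_) (PRF_all _ _ fun r _ => ?_)
    · exact (Primrec.nat_lt.comp (hap s) hn).and (Primrec.eq.comp (hap2 s _) Primrec.fst)
    · exact Primrec.eq.comp (hev r) Primrec.fst
  have h2 : PrimrecRel (fun (y : ℕ) (c : PRFC k) =>
      (∀ s ∈ (Finset.univ : Finset (Fin k × Bool)).toList,
        PRF_ap c.1 s y < c.2.1 ∧ PRF_ap c.1 (s.1, !s.2) (PRF_ap c.1 s y) = y) ∧
      (∀ r ∈ Rl, PRF_ev c.1 r y = y)) := h1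
  have h3 := h2.forall_mem_list
  have h4 : PrimrecPred (fun x : List (Fin k × Bool) × PRFC k =>
      ∀ y ∈ List.range x.2.2.1,
      (∀ s ∈ (Finset.univ : Finset (Fin k × Bool)).toList,
        PRF_ap x.2.1 s y < x.2.2.1 ∧ PRF_ap x.2.1 (s.1, !s.2) (PRF_ap x.2.1 s y) = y) ∧
      (∀ r ∈ Rl, PRF_ev x.2.1 r y = y)) :=
    h3.comp (Primrec.list_range.comp (Primrec.fst.comp (Primrec.snd.comp Primrec.snd)))
      Primrec.snd
  refine h4.and (PrimrecPred.and ?_ ?_)
  · exact Primrec.nat_lt.comp (Primrec.snd.comp (Primrec.snd.comp Primrec.snd))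
      (Primrec.fst.comp (Primrec.snd.comp Primrec.snd))
  · refine PrimrecPred.not ?_
    refine Primrec.eq.comp ?_ (Primrec.snd.comp (Primrec.snd.comp Primrec.snd))
    exact PRF_ev_primrec.comp ((Primrec.fst.comp Primrec.snd).pair
      (Primrec.fst.pair (Primrec.snd.comp (Primrec.snd.comp Primrec.snd))))

/-! ### codes and subgroups of finite index -/

/-- the permutation of a letter -/
def PRF_perm (T : Fin k → List ℕ × List ℕ) (n : ℕ)
    (h : ∀ y < n, ∀ s : Fin k × Bool, PRF_ap T s y < n ∧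
      PRF_ap T (s.1, !s.2) (PRF_ap T s y) = y) (s : Fin k × Bool) : Equiv.Perm (Fin n) where
  toFun y := ⟨PRF_ap T s y, (h y y.2 s).1⟩
  invFun y := ⟨PRF_ap T (s.1, !s.2) y, (h y y.2 _).1⟩
  left_inv y := by
    apply Fin.ext
    exact (h y y.2 s).2
  right_inv y := by
    apply Fin.ext
    have := (h y y.2 (s.1, !s.2)).2
    simpa using this

theorem PRF_perm_inv (T : Fin k → List ℕ × List ℕ) (n : ℕ)
    (h : ∀ y < n, ∀ s : Fin k × Bool, PRF_ap T s y < n ∧
      PRF_ap T (s.1, !s.2) (PRF_ap T s y) = y) (s : Fin k × Bool) :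
    PRF_perm T n h (s.1, !s.2) = (PRF_perm T n h s)⁻¹ := by
  rw [eq_inv_iff_mul_eq_one]
  ext y
  exact (h y y.2 s).2

theorem PRF_lift (T : Fin k → List ℕ × List ℕ) (n : ℕ)
    (h : ∀ y < n, ∀ s : Fin k × Bool, PRF_ap T s y < n ∧
      PRF_ap T (s.1, !s.2) (PRF_ap T s y) = y) (w : List (Fin k × Bool)) (y : Fin n) :
    ((FreeGroup.lift (fun i => PRF_perm T n h (i, true)) (FreeGroup.mk w) y : Fin n) : ℕ) =
      PRF_ev T w y := by
  induction w with
  | nil =>
    rw [← FreeGroup.one_eq_mk, map_one]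
    rfl
  | cons s w ih =>
    have h1 : FreeGroup.mk (s :: w) = FreeGroup.mk [s] * FreeGroup.mk w := by
      rw [FreeGroup.mul_mk]; rfl
    rw [h1, map_mul, Equiv.Perm.mul_apply]
    have h2 : FreeGroup.lift (fun i => PRF_perm T n h (i, true)) (FreeGroup.mk [s]) =
        PRF_perm T n h s := by
      obtain ⟨i, b⟩ := s
      cases b with
      | true => simp
      | false =>
        have := PRF_perm_inv T n h (i, true)
        simp only [Bool.not_true] at this
        rw [this]
        simp
    rw [h2]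
    show PRF_ap T s _ = PRF_ap T s (PRF_ev T w y)
    rw [ih]

end codes

theorem re_profinite {k : ℕ} (rels : Finset (FreeGroup (Fin k))) :
    REPred (fun w : List (Fin k × Bool) => ∃ L : Subgroup (FreeGroup (Fin k)),
      Subgroup.normalClosure (rels : Set (FreeGroup (Fin k))) ≤ L ∧ L.index ≠ 0 ∧
        FreeGroup.mk w ∉ L) := by
  set Rl : List (List (Fin k × Bool)) := rels.toList.map FreeGroup.toWord with hRl
  refine (PRF_ex (PRF_chk_primrec Rl)).of_eq fun w => ?_
  constructor
  · rintro ⟨⟨T, n, x⟩, h1, hx, hw⟩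
    simp only at h1 hx hw
    have h : ∀ y < n, ∀ s : Fin k × Bool, PRF_ap T s y < n ∧
        PRF_ap T (s.1, !s.2) (PRF_ap T s y) = y := by
      intro y hy s
      exact (h1 y (List.mem_range.2 hy)).1 s (by simp)
    set Φ := FreeGroup.lift (fun i => PRF_perm T n h (i, true)) with hΦ
    set L : Subgroup (FreeGroup (Fin k)) :=
      (MulAction.stabilizer (Equiv.Perm (Fin n)) (⟨x, hx⟩ : Fin n)).comap Φ with hL
    refine ⟨L, ?_, ?_, ?_⟩
    · have hker : Subgroup.normalClosure (rels : Set (FreeGroup (Fin k))) ≤ Φ.ker := by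
        apply Subgroup.normalClosure_le_normal
        intro r hr
        show Φ r = 1
        ext y
        have h2 := PRF_lift T n h r.toWord y
        rw [FreeGroup.mk_toWord] at h2
        rw [hΦ, h2]
        exact (h1 y (List.mem_range.2 y.2)).2 r.toWord
          (List.mem_map.2 ⟨r, by simpa using hr, rfl⟩)
      intro g hg
      have h3 : Φ g = 1 := hker hg
      show Φ g ∈ MulAction.stabilizer (Equiv.Perm (Fin n)) (⟨x, hx⟩ : Fin n)
      rw [h3]
      exact Subgroup.one_mem _
    · have h4 : Φ.ker ≤ L := by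
        intro g hg
        show Φ g ∈ MulAction.stabilizer (Equiv.Perm (Fin n)) (⟨x, hx⟩ : Fin n)
        rw [show Φ g = 1 from hg]
        exact Subgroup.one_mem _
      have h5 : Φ.ker.index ≠ 0 := by
        rw [Subgroup.index_ker]
        exact Nat.card_pos.ne'
      intro h6
      exact h5 (Nat.eq_zero_of_zero_dvd (h6 ▸ Subgroup.index_dvd_of_le h4))
    · intro h6
      apply hw
      have h7 : Φ (FreeGroup.mk w) (⟨x, hx⟩ : Fin n) = ⟨x, hx⟩ := h6
      have h8 := PRF_lift T n h w ⟨x, hx⟩
      rw [← hΦ, h7] at h8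
      exact h8.symm
  · rintro ⟨L, hnorm, hidx, hw⟩
    have : Finite (FreeGroup (Fin k) ⧸ L) := Nat.finite_of_card_ne_zero hidx
    obtain ⟨n, ⟨e⟩⟩ := Finite.exists_equiv_fin (FreeGroup (Fin k) ⧸ L)
    -- the tables
    let tb : FreeGroup (Fin k) → List ℕ := fun g =>
      List.ofFn (fun y : Fin n => ((e (g • e.symm y) : Fin n) : ℕ))
    let T : Fin k → List ℕ × List ℕ := fun i => (tb (FreeGroup.of i), tb (FreeGroup.of i)⁻¹)
    have hap : ∀ (s : Fin k × Bool) (y : Fin n),
        PRF_ap T s y = ((e (FreeGroup.mk [s] • e.symm y) : Fin n) : ℕ) := by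
      intro s y
      have h1 : PRF_tab T s = tb (FreeGroup.mk [s]) := by
        obtain ⟨i, b⟩ := s
        cases b <;> rfl
      rw [PRF_ap, h1]
      simp only [tb]
      rw [List.getD_eq_getElem _ _ (by simp [y.2])]
      simp
    have hev : ∀ (v : List (Fin k × Bool)) (y : Fin n),
        PRF_ev T v y = ((e (FreeGroup.mk v • e.symm y) : Fin n) : ℕ) := by
      intro v
      induction v with
      | nil =>
        intro y
        rw [← FreeGroup.one_eq_mk, one_smul, Equiv.apply_symm_apply]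
        rfl
      | cons s v ih =>
        intro y
        have h1 : FreeGroup.mk (s :: v) = FreeGroup.mk [s] * FreeGroup.mk v := by
          rw [FreeGroup.mul_mk]; rfl
        show PRF_ap T s (PRF_ev T v y) = _
        rw [ih y, hap, h1, mul_smul, Equiv.symm_apply_apply]
    refine ⟨⟨T, n, e (QuotientGroup.mk 1)⟩, ?_, ?_, ?_⟩
    · intro y hy
      rw [List.mem_range] at hy
      simp only at hy
      refine ⟨fun s _ => ?_, fun r hr => ?_⟩
      · have h1 := hap s ⟨y, hy⟩
        have h2 := hap (s.1, !s.2) (e (FreeGroup.mk [s] • e.symm ⟨y, hy⟩))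
        simp only at h1 h2 ⊢
        rw [h1]
        refine ⟨Fin.is_lt _, ?_⟩
        rw [h2, Equiv.symm_apply_apply, smul_smul, FreeGroup.mul_mk]
        have h3 : (FreeGroup.mk ([(s.1, !s.2)] ++ [s]) : FreeGroup (Fin k)) = 1 := by
          have h4 : (FreeGroup.mk [(s.1, !s.2)] : FreeGroup (Fin k)) = (FreeGroup.mk [s])⁻¹ := by
            rw [FreeGroup.inv_mk]
            rfl
          rw [← FreeGroup.mul_mk, h4, inv_mul_cancel]
        rw [h3, one_smul, Equiv.apply_symm_apply]
      · obtain ⟨r', hr', rfl⟩ := List.mem_map.1 hr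
        have h1 := hev r'.toWord ⟨y, hy⟩
        simp only at h1 ⊢
        rw [h1, FreeGroup.mk_toWord]
        have h2 : r' ∈ Subgroup.normalClosure (rels : Set (FreeGroup (Fin k))) :=
          Subgroup.subset_normalClosure (by simpa using hr')
        have h3 : ∀ z : FreeGroup (Fin k) ⧸ L, r' • z = z := by
          intro z
          obtain ⟨a, rfl⟩ := QuotientGroup.mk_surjective z
          show ((r' * a : FreeGroup (Fin k)) : FreeGroup (Fin k) ⧸ L) = _
          rw [QuotientGroup.eq]
          apply hnorm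
          have h5 : (r' * a)⁻¹ * a = a⁻¹ * r'⁻¹ * a := by group
          rw [h5]
          have h6 := Subgroup.normalClosure_normal.conj_mem r'⁻¹
            ((Subgroup.normalClosure (rels : Set (FreeGroup (Fin k)))).inv_mem h2) a⁻¹
          rwa [inv_inv] at h6
        rw [h3, Equiv.apply_symm_apply]
    · exact Fin.is_lt _
    · intro h1
      apply hw
      have h2 := hev w (e (QuotientGroup.mk 1))
      simp only at h1
      rw [h1, Equiv.symm_apply_apply] at h2
      have h3 := e.injective (Fin.ext h2)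
      have h4 : ((1 : FreeGroup (Fin k)) : FreeGroup (Fin k) ⧸ L) =
          ((FreeGroup.mk w * 1 : FreeGroup (Fin k)) : FreeGroup (Fin k) ⧸ L) := h3
      rw [mul_one, QuotientGroup.eq, inv_one, one_mul] at h4
      exact h4

theorem profinite_generic {k : ℕ} (rels : Finset (FreeGroup (Fin k)))
    (hinf : ∀ n : ℕ, ∃ L : Subgroup (FreeGroup (Fin k)),
      Subgroup.normalClosure (rels : Set (FreeGroup (Fin k))) ≤ L ∧ L.index ≠ 0 ∧
        n ≤ L.index) :
    ∃ f : List (Fin k × Bool) →. Bool,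
      Partrec f ∧
      (∀ w : List (Fin k × Bool), ∀ b ∈ f w,
        (b = true ↔ FreeGroup.mk w ∈
          Subgroup.normalClosure (rels : Set (FreeGroup (Fin k))))) ∧
      Filter.Tendsto
        (fun n : ℕ =>
          ({w : List (Fin k × Bool) | w.length ≤ n ∧ (f w).Dom}.ncard : ℝ) /
            ({w : List (Fin k × Bool) | w.length ≤ n}.ncard : ℝ))
        Filter.atTop (nhds 1) := by
  set H : Subgroup (FreeGroup (Fin k)) :=
    sInf {L | Subgroup.normalClosure (rels : Set (FreeGroup (Fin k))) ≤ L ∧ L.index ≠ 0} with hH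
  apply coc_generic (rels : Set (FreeGroup (Fin k))) H
  · apply le_sInf
    intro L hL
    exact hL.1
  · by_contra h0
    obtain ⟨L, h1, h2, h3⟩ := hinf (H.index + 1)
    have h4 : H ≤ L := sInf_le ⟨h1, h2⟩
    have h5 := Nat.le_of_dvd (Nat.pos_of_ne_zero h0) (Subgroup.index_dvd_of_le h4)
    omega
  · refine (re_profinite rels).of_eq fun w => ?_
    rw [hH, Subgroup.mem_sInf]
    push Not
    constructor
    · rintro ⟨L, h1, h2, h3⟩
      exact ⟨L, ⟨h1, h2⟩, h3⟩
    · rintro ⟨L, ⟨h1, h2⟩, h3⟩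
      exact ⟨L, h1, h2, h3⟩

end GWP
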