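import Pool.Agent.H55.GWP.GAP

/-! SCH: return probabilities of the walk of the letters on an infinite transitive `G`-set tend
to zero. -/

set_option autoImplicit false
open Classical
namespace GWP

section hil

variable {S G F : Type*} [Fintype S] [Nonempty S] [Group G] [NormedAddCommGroup F]
  [InnerProductSpace ℝ F]

/-- the sum operator -/
noncomputable def SCH_P (e : S → G) (π : G →* (F ≃ₗᵢ[ℝ] F)) (f : F) : F := ∑ s, π (e s) f

theorem SCH_inner (g : G) (π : G →* (F ≃ₗᵢ[ℝ] F)) (f f' : F) :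
    inner ℝ (π g f) f' = inner ℝ f (π g⁻¹ f') := by
  have h1 : π g (π g⁻¹ f') = f' := by
    have : π g (π g⁻¹ f') = (π g * π g⁻¹) f' := rfl
    rw [this, ← map_mul, mul_inv_cancel, map_one]
    rfl
  conv_lhs => rw [← h1]
  exact (π g).inner_map_map f (π g⁻¹ f')

theorem SCH_symm (e : S → G) (inv : S → S) (hinv : ∀ s, inv (inv s) = s)
    (he : ∀ s, e (inv s) = (e s)⁻¹) (π : G →* (F ≃ₗᵢ[ℝ] F)) (f f' : F) :
    inner ℝ (SCH_P e π f) f' = inner ℝ f (SCH_P e π f') := by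
  unfold SCH_P
  rw [sum_inner, inner_sum]
  have h1 : ∀ s, inner ℝ (π (e s) f) f' = inner ℝ f (π (e (inv s)) f') := fun s => by
    rw [SCH_inner, he]
  rw [Finset.sum_congr rfl fun s _ => h1 s]
  exact (Equiv.sum_comp (⟨inv, inv, hinv, hinv⟩ : S ≃ S) (fun s => inner ℝ f (π (e s) f')))

theorem SCH_norm (e : S → G) (π : G →* (F ≃ₗᵢ[ℝ] F)) (f : F) :
    ‖SCH_P e π f‖ ≤ Fintype.card S * ‖f‖ := by
  unfold SCH_P
  refine (norm_sum_le _ _).trans ?_
  simp

end hil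

section main

variable {S G E : Type*} [Fintype S] [Nonempty S] [Group G] [MulAction G E]

/-- normalised powers -/
noncomputable def SCH_x (e : S → G)
    (π : G →* (lp (fun _ : E => ℝ) 2 ≃ₗᵢ[ℝ] lp (fun _ : E => ℝ) 2))
    (δ : lp (fun _ : E => ℝ) 2) : ℕ → lp (fun _ : E => ℝ) 2
  | 0 => δ
  | n + 1 => (Fintype.card S : ℝ)⁻¹ • SCH_P e π (SCH_x e π δ n)

theorem SCH_x_wsum (e : S → G)
    (π : G →* (lp (fun _ : E => ℝ) 2 ≃ₗᵢ[ℝ] lp (fun _ : E => ℝ) 2))
    (δ : lp (fun _ : E => ℝ) 2) (n : ℕ) :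
    wsum n (fun w : List S => π (ev e w) δ) = (Fintype.card S : ℝ) ^ n • SCH_x e π δ n := by
  have hN : (Fintype.card S : ℝ) ≠ 0 := by
    have : 0 < Fintype.card S := Fintype.card_pos
    positivity
  induction n with
  | zero =>
    show π (ev e []) δ = _
    rw [ev_nil, map_one]
    simp [SCH_x]
  | succ n ih =>
    show ∑ s, wsum n (fun w => π (ev e (s :: w)) δ) = _
    have h1 : ∀ s, wsum n (fun w : List S => π (ev e (s :: w)) δ) =
        π (e s) (wsum n (fun w : List S => π (ev e w) δ)) := by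
      intro s
      have h2 := wsum_map (S := S)
        ((π (e s)).toLinearEquiv.toLinearMap.toAddMonoidHom) n (fun w => π (ev e w) δ)
      have h3 : ∀ w : List S, π (ev e (s :: w)) δ = π (e s) (π (ev e w) δ) := by
        intro w
        rw [ev_cons, map_mul]
        rfl
      rw [show (fun w : List S => π (ev e (s :: w)) δ) = fun w => π (e s) (π (ev e w) δ) from
        funext h3]
      exact h2.symm
    rw [Finset.sum_congr rfl fun s _ => h1 s, ih]
    show SCH_P e π ((Fintype.card S : ℝ) ^ n • SCH_x e π δ n) = (Fintype.card S : ℝ) ^ (n + 1) •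
      ((Fintype.card S : ℝ)⁻¹ • SCH_P e π (SCH_x e π δ n))
    rw [smul_smul, pow_succ, mul_assoc, mul_inv_cancel₀ hN, mul_one]
    unfold SCH_P
    rw [Finset.smul_sum]
    refine Finset.sum_congr rfl fun s _ => ?_
    rw [map_smul]

variable (e : S → G) (inv : S → S) (hinv : ∀ s, inv (inv s) = s)
    (he : ∀ s, e (inv s) = (e s)⁻¹)
    (π : G →* (lp (fun _ : E => ℝ) 2 ≃ₗᵢ[ℝ] lp (fun _ : E => ℝ) 2))
    (δ : lp (fun _ : E => ℝ) 2)

include hinv he in
theorem SCH_shift (n m : ℕ) :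
    inner ℝ (SCH_x e π δ (n + 1)) (SCH_x e π δ m) =
      inner ℝ (SCH_x e π δ n) (SCH_x e π δ (m + 1)) := by
  show inner ℝ ((Fintype.card S : ℝ)⁻¹ • SCH_P e π (SCH_x e π δ n)) (SCH_x e π δ m) =
    inner ℝ (SCH_x e π δ n) ((Fintype.card S : ℝ)⁻¹ • SCH_P e π (SCH_x e π δ m))
  rw [inner_smul_left, inner_smul_right, SCH_symm e inv hinv he]
  simp

include hinv he in
theorem SCH_inner_add (n m : ℕ) :
    inner ℝ (SCH_x e π δ n) (SCH_x e π δ m) = inner ℝ (SCH_x e π δ (n + m)) δ := by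
  induction m generalizing n with
  | zero => rfl
  | succ m ih =>
    rw [← SCH_shift e inv hinv he π δ n m, ih (n + 1)]
    congr 2
    omega

theorem SCH_norm_le (n : ℕ) : ‖SCH_x e π δ (n + 1)‖ ≤ ‖SCH_x e π δ n‖ := by
  have hN : 0 < (Fintype.card S : ℝ) := by
    have : 0 < Fintype.card S := Fintype.card_pos
    positivity
  show ‖(Fintype.card S : ℝ)⁻¹ • SCH_P e π (SCH_x e π δ n)‖ ≤ _
  rw [norm_smul, norm_inv, Real.norm_of_nonneg hN.le, inv_mul_le_iff₀ hN]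
  exact SCH_norm e π _

/-- a vector fixed by the square of the averaging operator is fixed by the products of two
letters -/
theorem SCH_fixed (f : lp (fun _ : E => ℝ) 2)
    (hf : ‖(Fintype.card S : ℝ)⁻¹ • SCH_P e π f‖ = ‖f‖) (s t : S) : π (e s) f = π (e t) f := by
  have hN : (Fintype.card S : ℝ) ≠ 0 := by
    have : 0 < Fintype.card S := Fintype.card_pos
    positivity
  have h1 := GPB_var (fun s => π (e s) f) ((Fintype.card S : ℝ)⁻¹ • SCH_P e π f) (by
    rw [smul_smul, mul_inv_cancel₀ hN, one_smul]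
    rfl)
  have h2 : ∑ s : S, ‖π (e s) f‖ ^ 2 = Fintype.card S * ‖f‖ ^ 2 := by
    rw [Finset.sum_congr rfl fun s _ => by rw [LinearIsometryEquiv.norm_map]]
    simp
  rw [h2, hf, sub_self] at h1
  have h3 := (Finset.sum_eq_zero_iff_of_nonneg (fun s _ => by positivity)).1 h1
  have h4 : ∀ s, π (e s) f = (Fintype.card S : ℝ)⁻¹ • SCH_P e π f := by
    intro s
    have := h3 s (Finset.mem_univ s)
    have h5 : ‖π (e s) f - (Fintype.card S : ℝ)⁻¹ • SCH_P e π f‖ = 0 := by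
      simpa using this
    exact sub_eq_zero.1 (norm_eq_zero.1 h5)
  rw [h4 s, h4 t]

include hinv he in
/-- an `ℓ²` function invariant under even words on an infinite transitive set vanishes -/
theorem SCH_zero (hπ : ∀ (g : G) (f : lp (fun _ : E => ℝ) 2) (x : E),
      (π g f : ∀ _ : E, ℝ) x = (f : ∀ _ : E, ℝ) (g⁻¹ • x))
    (htr : ∀ x y : E, ∃ w : List S, ev e w • x = y) [Infinite E]
    (f : lp (fun _ : E => ℝ) 2)
    (hf : ∀ s t, π (e s) f = π (e t) f) : f = 0 := by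
  have heven : ∀ (n : ℕ) (w : List S), w.length = 2 * n → π (ev e w) f = f := by
    intro n w hw
    have := GPB_even e inv hinv he π f 0 (fun s t => by rw [hf s t]; simp) n w hw
    rw [mul_zero] at this
    have h1 : ‖π (ev e w) f - f‖ = 0 := le_antisymm this (norm_nonneg _)
    exact sub_eq_zero.1 (norm_eq_zero.1 h1)
  ext x₀
  show (f : ∀ _ : E, ℝ) x₀ = 0
  by_contra hx
  -- the set where `|f| ≥ |f x₀|` is finite
  have hsum := (GPB_hasSum f).summable
  have hfin : {x : E | (f : ∀ _ : E, ℝ) x₀ ^ 2 ≤ (f : ∀ _ : E, ℝ) x ^ 2}.Finite := by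
    have h1 := hsum.tendsto_cofinite_zero
    have h2 : ∀ᶠ x in Filter.cofinite, (f : ∀ _ : E, ℝ) x ^ 2 < (f : ∀ _ : E, ℝ) x₀ ^ 2 :=
      h1.eventually (gt_mem_nhds (by positivity))
    have h3 := h2
    rw [Filter.eventually_cofinite] at h3
    refine h3.subset ?_
    intro x hx'
    simp only [Set.mem_setOf_eq, not_lt] at hx' ⊢
    exact hx'
  -- the even orbit
  obtain ⟨s₀⟩ := ‹Nonempty S›
  have hcover : (Set.univ : Set E) ⊆ {x : E | (f : ∀ _ : E, ℝ) x₀ ^ 2 ≤ (f : ∀ _ : E, ℝ) x ^ 2} ∪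
      (fun x => e s₀ • x) '' {x : E | (f : ∀ _ : E, ℝ) x₀ ^ 2 ≤ (f : ∀ _ : E, ℝ) x ^ 2} := by
    intro y _
    have hev : ∀ (n : ℕ) (w : List S), w.length = 2 * n →
        (f : ∀ _ : E, ℝ) (ev e w • x₀) = (f : ∀ _ : E, ℝ) x₀ := by
      intro n w hw
      have h4 := heven n w hw
      have h5 : (π (ev e w) f : ∀ _ : E, ℝ) (ev e w • x₀) = (f : ∀ _ : E, ℝ) (ev e w • x₀) := by
        rw [h4]
      rw [hπ, inv_smul_smul] at h5
      exact h5.symm
    obtain ⟨w, hw⟩ := htr x₀ y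
    rcases Nat.even_or_odd w.length with ⟨n, hn⟩ | ⟨n, hn⟩
    · left
      show (f : ∀ _ : E, ℝ) x₀ ^ 2 ≤ (f : ∀ _ : E, ℝ) y ^ 2
      rw [← hw, hev n w (by omega)]
    · right
      refine ⟨(e s₀)⁻¹ • y, ?_, smul_inv_smul _ _⟩
      show (f : ∀ _ : E, ℝ) x₀ ^ 2 ≤ (f : ∀ _ : E, ℝ) ((e s₀)⁻¹ • y) ^ 2
      have h6 : (e s₀)⁻¹ • y = ev e (inv s₀ :: w) • x₀ := by
        rw [ev_cons, mul_smul, hw, he]
      rw [h6, hev (n + 1) (inv s₀ :: w) (by simp; omega)]
  exact Set.infinite_univ ((hfin.union (hfin.image _)).subset hcover)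

include hinv he in
/-- the normalised powers tend to zero -/
theorem SCH_tendsto (hπ : ∀ (g : G) (f : lp (fun _ : E => ℝ) 2) (x : E),
      (π g f : ∀ _ : E, ℝ) x = (f : ∀ _ : E, ℝ) (g⁻¹ • x))
    (htr : ∀ x y : E, ∃ w : List S, ev e w • x = y) [Infinite E] :
    Filter.Tendsto (fun n => ‖SCH_x e π δ n‖) Filter.atTop (nhds 0) := by
  have hanti : Antitone (fun n => ‖SCH_x e π δ n‖) :=
    antitone_nat_of_succ_le (SCH_norm_le e π δ)
  have hbdd : BddBelow (Set.range fun n => ‖SCH_x e π δ n‖) :=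
    ⟨0, by rintro _ ⟨n, rfl⟩; exact norm_nonneg _⟩
  have hlim := tendsto_atTop_ciInf hanti hbdd
  set L := ⨅ n, ‖SCH_x e π δ n‖ with hL
  -- `x_{2n}` is a Cauchy sequence
  have hsq : ∀ n m : ℕ, ‖SCH_x e π δ (2 * n) - SCH_x e π δ (2 * m)‖ ^ 2 =
      ‖SCH_x e π δ (2 * n)‖ ^ 2 - 2 * ‖SCH_x e π δ (n + m)‖ ^ 2 + ‖SCH_x e π δ (2 * m)‖ ^ 2 := by
    intro n m
    rw [norm_sub_sq_real]
    congr 2
    rw [← real_inner_self_eq_norm_sq, SCH_inner_add e inv hinv he, SCH_inner_add e inv hinv he]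
    congr 3
    omega
  have hcauchy : CauchySeq (fun n => SCH_x e π δ (2 * n)) := by
    rw [Metric.cauchySeq_iff']
    intro ε hε
    have h1 : Filter.Tendsto (fun n => ‖SCH_x e π δ n‖ ^ 2) Filter.atTop (nhds (L ^ 2)) :=
      hlim.pow 2
    have h2 : ∀ᶠ n in Filter.atTop, |‖SCH_x e π δ n‖ ^ 2 - L ^ 2| < ε ^ 2 / 4 := by
      have := (Metric.tendsto_nhds.1 h1) (ε ^ 2 / 4) (by positivity)
      simpa [Real.dist_eq] using this
    obtain ⟨n₀, hn₀⟩ := Filter.eventually_atTop.1 h2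
    refine ⟨n₀, fun n hn => ?_⟩
    rw [dist_eq_norm]
    have h3 := hsq n n₀
    have a1 := abs_lt.1 (hn₀ (2 * n) (by omega))
    have a2 := abs_lt.1 (hn₀ (n + n₀) (by omega))
    have a3 := abs_lt.1 (hn₀ (2 * n₀) (by omega))
    have h4 : ‖SCH_x e π δ (2 * n) - SCH_x e π δ (2 * n₀)‖ ^ 2 < ε ^ 2 := by
      rw [h3]
      linarith [a1.1, a1.2, a2.1, a2.2, a3.1, a3.2]
    exact lt_of_pow_lt_pow_left₀ 2 hε.le h4
  obtain ⟨f, hf⟩ := cauchySeq_tendsto_of_complete hcauchy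
  -- `‖f‖ = L` and `‖M f‖ = L`
  have hnf : ‖f‖ = L := by
    have h1 : Filter.Tendsto (fun n => ‖SCH_x e π δ (2 * n)‖) Filter.atTop (nhds ‖f‖) := hf.norm
    have h2 : Filter.Tendsto (fun n : ℕ => ‖SCH_x e π δ (2 * n)‖) Filter.atTop (nhds L) :=
      hlim.comp (Filter.tendsto_id.const_mul_atTop' (by norm_num : 0 < 2))
    exact tendsto_nhds_unique h1 h2
  have hcont : Continuous (fun f : lp (fun _ : E => ℝ) 2 =>
      (Fintype.card S : ℝ)⁻¹ • SCH_P e π f) := by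
    have h0 : Continuous (fun f : lp (fun _ : E => ℝ) 2 => SCH_P e π f) :=
      continuous_finset_sum _ fun s _ => (π (e s)).continuous
    exact Continuous.const_smul h0 ((Fintype.card S : ℝ)⁻¹)
  have hnMf : ‖(Fintype.card S : ℝ)⁻¹ • SCH_P e π f‖ = L := by
    have h1 : Filter.Tendsto (fun n => ‖(Fintype.card S : ℝ)⁻¹ •
        SCH_P e π (SCH_x e π δ (2 * n))‖) Filter.atTop
        (nhds ‖(Fintype.card S : ℝ)⁻¹ • SCH_P e π f‖) :=
      ((hcont.tendsto f).comp hf).norm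
    have h2 : Filter.Tendsto (fun n : ℕ => ‖SCH_x e π δ (2 * n + 1)‖) Filter.atTop (nhds L) := by
      have h3 : Filter.Tendsto (fun n : ℕ => 2 * n + 1) Filter.atTop Filter.atTop :=
        Filter.tendsto_atTop_mono (fun n => by show n ≤ 2 * n + 1; omega) Filter.tendsto_id
      exact hlim.comp h3
    exact tendsto_nhds_unique h1 h2
  have hf0 : f = 0 := SCH_zero e inv hinv he π hπ htr f
    (fun s t => SCH_fixed e π f (by rw [hnMf, hnf]) s t)
  rw [hf0, norm_zero] at hnf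
  rw [hnf]
  exact hlim

end main

end GWP
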