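import Pool.Agent.H55.GWP.INV0

/-! SEG: the vertices of the top segment.  `seg_get`: `verts u (E ++ it :: rest)` at place `E.length`
is `(it.con * cprod E * u)⁻¹ • it.pos`. -/

set_option autoImplicit false
open Classical
namespace GWP

variable {S G V : Type*} [Fintype S] [Group G] [MulAction G V]

/-- the product of the contents of a list of items, lowest first -/
def cprod (E : List (Item V G)) : G := (E.map Item.con).reverse.prod

theorem SEG_verts (E rest : List (Item V G)) (it : Item V G) (hE : ∀ x ∈ E, ¬ x.isHole) (u : G) :
    (verts u (E ++ it :: rest))[E.length]? = some ((it.con * (cprod E * u))⁻¹ • it.pos) := by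
  induction E generalizing u with
  | nil =>
    cases it <;> simp [verts, cprod, Item.con, Item.pos]
  | cons e E ih =>
    cases e with
    | hole q c => exact absurd (show (Item.hole q c : Item V G).isHole from trivial) (hE _ (by simp))
    | edge p q c =>
      have h1 : verts u (.edge p q c :: (E ++ it :: rest)) =
          ((c * u)⁻¹ • q) :: verts (c * u) (E ++ it :: rest) := rfl
      rw [List.cons_append, h1, List.length_cons, List.getElem?_cons_succ,
        ih (fun x hx => hE x (by simp [hx]))]
      have h2 : cprod (.edge p q c :: E) = cprod E * c := by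
        simp [cprod, Item.con]
      rw [h2, mul_assoc]

theorem seg_zero (U : Setup S G V) (a : V) (D : List (Item V G)) (h : Inv U a D) :
    (seg D)[0]? = some a := by
  have hw := h.wf
  have ha := h.at_
  cases D with
  | nil => exact absurd hw (by simp [WF])
  | cons it D =>
    have h1 : it.con • a = it.pos := ha it rfl
    have h2 := SEG_verts [] D it (by simp) 1
    simp only [List.nil_append, List.length_nil] at h2
    unfold seg
    rw [h2, ← h1]
    simp [cprod]

/-- the vertex below a list of edges -/
theorem seg_get (E rest : List (Item V G)) (it : Item V G) (hE : ∀ x ∈ E, ¬ x.isHole) :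
    (seg (E ++ it :: rest))[E.length]? = some ((cprod E)⁻¹ • (it.con)⁻¹ • it.pos) := by
  unfold seg
  rw [SEG_verts E rest it hE 1, mul_one, mul_inv_rev, mul_smul]

/-- well-formedness of suffixes -/
theorem WF_suffix (T : SimpleGraph V) (D₁ l : List (Item V G)) (hl : l ≠ [])
    (h : WF T (D₁ ++ l)) : WF T l := by
  induction D₁ with
  | nil => simpa using h
  | cons d D₁ ih =>
    apply ih
    rw [List.cons_append] at h
    cases hq : D₁ ++ l with
    | nil => exact absurd (List.append_eq_nil_iff.1 hq).2 hl
    | cons f F =>
      rw [hq] at h
      cases d with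
      | hole q c => exact h
      | edge p q c => exact h.2.2.2

/-- the vertex below a list of edges, expressed by the lowest of these edges -/
theorem seg_get_low (U : Setup S G V) (a : V) (E rest : List (Item V G)) (e it : Item V G)
    (hE : ∀ x ∈ E, ¬ x.isHole) (he : ¬ e.isHole)
    (h : Inv U a (E ++ e :: it :: rest)) :
    (seg (E ++ e :: it :: rest))[E.length + 1]? = some ((cprod (E ++ [e]))⁻¹ • e.low) := by
  have h1 := seg_get (E ++ [e]) rest it (by
    intro x hx
    rw [List.mem_append, List.mem_singleton] at hx
    rcases hx with hx | hx
    · exact hE x hx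
    · rw [hx]; exact he)
  rw [List.append_assoc, List.singleton_append, List.length_append, List.length_singleton] at h1
  rw [h1]
  have h2 : WF U.T (e :: it :: rest) := WF_suffix U.T E _ (by simp) h.wf
  cases e with
  | hole q c => exact absurd trivial he
  | edge p q c =>
    have h3 : it.con • p = it.pos := h2.2.1
    rw [← h3, inv_smul_smul]
    rfl

theorem win_eq_one (K : ℕ) (Rig : V → V → Prop) (D : List (Item V G)) :
    win K Rig D = 1 ↔ ∃ x y, (seg D)[0]? = some x ∧ (seg D)[K]? = some y ∧ Rig x y := by
  unfold win
  split
  · rename_i h
    simpa using h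
  · rename_i h
    simpa using h

theorem win_le_one (K : ℕ) (Rig : V → V → Prop) (D : List (Item V G)) :
    win K Rig D ≤ 1 := by
  unfold win
  split <;> simp

theorem SEG_items (K : ℕ) (D : List (Item V G)) (u : G) (y : V)
    (h : (verts u D)[K]? = some y) :
    ∃ (E rest : List (Item V G)) (it : Item V G), D = E ++ it :: rest ∧ E.length = K ∧
      ∀ x ∈ E, ¬ x.isHole := by
  induction K generalizing D u with
  | zero =>
    cases D with
    | nil => simp [verts] at h
    | cons it D => exact ⟨[], D, it, rfl, rfl, by simp⟩
  | succ K ih =>
    cases D with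
    | nil => simp [verts] at h
    | cons it D =>
      cases it with
      | hole q c => simp [verts] at h
      | edge p q c =>
        have h1 : verts u (.edge p q c :: D) = ((c * u)⁻¹ • q) :: verts (c * u) D := rfl
        rw [h1, List.getElem?_cons_succ] at h
        obtain ⟨E, rest, it, hD, hE, hE'⟩ := ih D (c * u) h
        refine ⟨.edge p q c :: E, rest, it, by rw [hD]; rfl, by rw [List.length_cons, hE], ?_⟩
        intro x hx
        rw [List.mem_cons] at hx
        rcases hx with hx | hx
        · rw [hx]; exact id
        · exact hE' x hx

/-- a rigid top window consists of `K` edges and the item below -/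
theorem win_items (K : ℕ) (Rig : V → V → Prop) (D : List (Item V G)) (h : win K Rig D = 1) :
    ∃ (E rest : List (Item V G)) (it : Item V G), D = E ++ it :: rest ∧ E.length = K ∧
      ∀ x ∈ E, ¬ x.isHole := by
  obtain ⟨x, y, hx, hy, hr⟩ := (win_eq_one K Rig D).1 h
  exact SEG_items K D 1 y hy

theorem SEG_take (n : ℕ) (D : List (Item V G)) (u : G) :
    verts u (D.take n) = (verts u D).take n := by
  induction n generalizing D u with
  | zero => simp [verts]
  | succ n ih =>
    cases D with
    | nil => simp [verts]
    | cons it D =>
      cases it with
      | hole q c => simp [verts]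
      | edge p q c =>
        have h1 : verts u (.edge p q c :: D) = ((c * u)⁻¹ • q) :: verts (c * u) D := rfl
        rw [h1, List.take_succ_cons, List.take_succ_cons, ← ih]
        rfl

/-- the top window depends on the `K + 1` top items only -/
theorem seg_take (n : ℕ) (D : List (Item V G)) : seg (D.take n) = (seg D).take n :=
  SEG_take n D 1

theorem win_take (K : ℕ) (Rig : V → V → Prop) (D : List (Item V G)) :
    win K Rig (D.take (K + 1)) = win K Rig D := by
  unfold win
  have h0 : (seg (D.take (K + 1)))[0]? = (seg D)[0]? := by
    rw [seg_take, List.getElem?_take, if_pos (by omega)]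
  have h1 : (seg (D.take (K + 1)))[K]? = (seg D)[K]? := by
    rw [seg_take, List.getElem?_take, if_pos (by omega)]
  rw [h0, h1]

end GWP
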