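import Pool.Agent.H55.GWP.SNA1
import Pool.Agent.H55.GWP.CL0

/-! SNA2: segments of realised states.  By induction on `Real` (generalise over `D`); the head of
`segsAbs D vs` is `(seg D).map (g • ·)`.  `cnt_eq`: `win K (Rigid G) D` is the indicator that the top window of
the top segment is rigid (`real_seg`, invariance of `Rigid`), for a hole on top it is `0` as `K ≥ 1`. -/

set_option autoImplicit false
open Classical
namespace GWP

variable {S G V : Type*} [Fintype S] [Group G] [MulAction G V]

theorem SNA2_ne (D : List (Item V G)) (vs : List V) (hD : D ≠ []) (hvs : vs ≠ []) :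
    segsAbs D vs ≠ [] := by
  cases D with
  | nil => exact absurd rfl hD
  | cons it D =>
    cases vs with
    | nil => exact absurd rfl hvs
    | cons v vs =>
      cases D with
      | nil => simp [segsAbs]
      | cons it' D =>
        by_cases h : it.isHole
        · simp [segsAbs, h]
        · simp only [segsAbs, h, if_false]
          split <;> simp

theorem SNA2_edge (p q : V) (c : G) (D : List (Item V G)) (hD : D ≠ []) (v : V) (vs P : List V)
    (Ps : List (List V)) (h : segsAbs D vs = P :: Ps) :
    segsAbs (.edge p q c :: D) (v :: vs) = (v :: P) :: Ps := by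
  cases D with
  | nil => exact absurd rfl hD
  | cons d D =>
    simp only [segsAbs, Item.isHole]
    rw [h]
    exact if_neg id

theorem SNA2_hole (q : V) (c : G) (D : List (Item V G)) (hD : D ≠ []) (v : V) (vs : List V) :
    segsAbs (.hole q c :: D) (v :: vs) = [v] :: segsAbs D vs := by
  cases D with
  | nil => exact absurd rfl hD
  | cons d D =>
    simp only [segsAbs, Item.isHole]
    exact if_pos trivial

theorem SNA2_verts (D : List (Item V G)) (x u : G) :
    verts (x * u) D = (verts x D).map (u⁻¹ • ·) := by
  induction D generalizing x with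
  | nil => rfl
  | cons it D ih =>
    cases it with
    | hole q c =>
      show [((c * (x * u))⁻¹ • q)] = [u⁻¹ • ((c * x)⁻¹ • q)]
      rw [← mul_assoc, mul_inv_rev, mul_smul]
    | edge p q c =>
      show ((c * (x * u))⁻¹ • q) :: verts (c * (x * u)) D =
        (u⁻¹ • ((c * x)⁻¹ • q)) :: (verts (c * x) D).map (u⁻¹ • ·)
      rw [← mul_assoc, ih, mul_inv_rev, mul_smul]

theorem SNA2_wf_edge {T : SimpleGraph V} {p q : V} {c : G} {D : List (Item V G)} (hD : D ≠ [])
    (h : WF T (.edge p q c :: D)) : WF T D := by
  cases D with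
  | nil => exact absurd rfl hD
  | cons d D => exact h.2.2.2

theorem SNA2_wf_hole {T : SimpleGraph V} {q : V} {c : G} {D : List (Item V G)} (hD : D ≠ [])
    (h : WF T (.hole q c :: D)) : WF T D := by
  cases D with
  | nil => exact absurd rfl hD
  | cons d D => exact h

theorem SNA2_list {D : List (Item V G)} {o : V} {g : G} {v : V} {vs : List V}
    (h : Real o D g (v :: vs)) : ∃ P Ps, segsAbs D (v :: vs) = P :: Ps := by
  cases hs : segsAbs D (v :: vs) with
  | nil => exact absurd hs (SNA2_ne _ _ (real_ne_nil h) (by simp))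
  | cons P Ps => exact ⟨P, Ps, rfl⟩

/-- the top segment in absolute coordinates -/
theorem real_seg (U : Setup S G V) {D : List (Item V G)} {g : G} {vs : List V}
    (hi : WF U.T D) (h : Real U.o D g vs) :
    (segsAbs D vs).head? = some ((seg D).map (g • ·)) := by
  induction h with
  | base h c q hq =>
    show some [U.o] = some [(h * c) • ((c * 1)⁻¹ • q)]
    rw [mul_one, mul_smul, smul_inv_smul, hq]
  | edge D g v vs p q c hR hp ih =>
    have hDne := real_ne_nil hR
    obtain ⟨P, Ps, hs⟩ := SNA2_list hR
    rw [SNA2_edge p q c D hDne (g • q) (v :: vs) P Ps hs]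
    have ih' := ih (SNA2_wf_edge hDne hi)
    rw [hs] at ih'
    simp only [List.head?_cons, Option.some.injEq] at ih' ⊢
    show g • q :: P = ((g * c) • ((c * 1)⁻¹ • q)) :: (verts (c * 1) D).map ((g * c) • ·)
    have h1 : verts (c * 1) D = (verts 1 D).map (c⁻¹ • ·) := by
      rw [mul_one]
      have := SNA2_verts D 1 c
      rwa [one_mul] at this
    rw [h1, mul_one, mul_smul, smul_inv_smul, List.map_map, ih']
    congr 1
    apply List.map_congr_left
    intro x _
    simp only [Function.comp]
    rw [mul_smul, smul_inv_smul]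
  | hole D g v vs h q c hR hq ih =>
    have hDne := real_ne_nil hR
    rw [SNA2_hole q c D hDne v (v :: vs)]
    show some [v] = some [(h * c) • ((c * 1)⁻¹ • q)]
    rw [mul_one, mul_smul, smul_inv_smul, hq]

theorem segs_length (U : Setup S G V) {D : List (Item V G)} {g : G} {vs : List V}
    (hi : WF U.T D) (h : Real U.o D g vs) : (segsAbs D vs).length = holes D := by
  induction h with
  | base h c q hq =>
    show 1 = holes [(Item.hole q c : Item V G)]
    simp [holes, Item.isHole]
  | edge D g v vs p q c hR hp ih =>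
    have hDne := real_ne_nil hR
    obtain ⟨P, Ps, hs⟩ := SNA2_list hR
    rw [SNA2_edge p q c D hDne (g • q) (v :: vs) P Ps hs]
    have ih' := ih (SNA2_wf_edge hDne hi)
    rw [hs] at ih'
    have hh : holes (.edge p q c :: D : List (Item V G)) = holes D := by
      simp [holes, Item.isHole]
    rw [hh, ← ih']
    simp
  | hole D g v vs h q c hR hq ih =>
    have hDne := real_ne_nil hR
    rw [SNA2_hole q c D hDne v (v :: vs)]
    have ih' := ih (SNA2_wf_hole hDne hi)
    have hh : holes (.hole q c :: D : List (Item V G)) = holes D + 1 := by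
      simp [holes, Item.isHole]
    rw [hh, ← ih']
    simp

theorem segs_head (U : Setup S G V) {D : List (Item V G)} {g : G} {vs : List V}
    (hi : WF U.T D) (h : Real U.o D g vs) :
    ∃ P ∈ (segsAbs D vs).head?, P.head? = vs.head? := by
  cases h with
  | base h c q hq => exact ⟨[U.o], rfl, rfl⟩
  | edge D g v vs p q c hR hp =>
    have hDne := real_ne_nil hR
    obtain ⟨P, Ps, hs⟩ := SNA2_list hR
    rw [SNA2_edge p q c D hDne (g • q) (v :: vs) P Ps hs]
    exact ⟨_, rfl, rfl⟩
  | hole D g v vs h q c hR hq =>
    have hDne := real_ne_nil hR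
    rw [SNA2_hole q c D hDne v (v :: vs)]
    exact ⟨_, rfl, rfl⟩

theorem segs_NB (U : Setup S G V) {D : List (Item V G)} {g : G} {vs : List V}
    (hi : WF U.T D) (h : Real U.o D g vs) : ∀ P ∈ segsAbs D vs, NB U.T P := by
  induction h with
  | base h c q hq =>
    intro P hP
    have : P = [U.o] := by
      have h1 : segsAbs [(Item.hole q c : Item V G)] [U.o] = [[U.o]] := rfl
      rw [h1] at hP
      simpa using hP
    rw [this]
    exact trivial
  | edge D g v vs p q c hR hp ih =>
    have hDne := real_ne_nil hR
    have hWD := SNA2_wf_edge hDne hi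
    obtain ⟨P, Ps, hs⟩ := SNA2_list hR
    rw [SNA2_edge p q c D hDne (g • q) (v :: vs) P Ps hs]
    have ih' := ih hWD
    rw [hs] at ih'
    obtain ⟨P₁, hP₁, hP₁'⟩ := segs_head U hWD hR
    rw [hs] at hP₁
    have hPP : P = P₁ := by simpa using hP₁
    subst hPP
    obtain ⟨Pt, hPt⟩ : ∃ Pt, P = v :: Pt := by
      cases P with
      | nil => simp at hP₁'
      | cons z Pt => exact ⟨Pt, by rw [(by simpa using hP₁' : z = v)]⟩
    intro Q hQ
    rw [List.mem_cons] at hQ
    rcases hQ with rfl | hQ
    swap
    · exact ih' Q (by simp [hQ])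
    rw [hPt]
    have hadj : U.T.Adj p q := by
      cases D with
      | nil => exact absurd rfl hDne
      | cons d D => exact hi.1
    refine ⟨?_, ?_, ?_⟩
    · rw [← hp]
      exact U.act g q p hadj.symm
    · intro x hx
      -- the second vertex below
      cases hR with
      | base h₀ c₀ q₀ hq₀ =>
        have h1 : segsAbs [(Item.hole q₀ c₀ : Item V G)] [U.o] = [[U.o]] := rfl
        rw [h1] at hs
        have h2 : [U.o] = U.o :: Pt := by
          rw [← hPt]
          simpa using (List.cons.inj hs).1
        have h3 : Pt = [] := by simpa using h2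
        rw [h3] at hx
        simp at hx
      | edge D' g₀ v' vs' p' q' c' hR' hp' =>
        have hD'ne := real_ne_nil hR'
        obtain ⟨P0, Ps0, hs0⟩ := SNA2_list hR'
        rw [SNA2_edge p' q' c' D' hD'ne (g₀ • q') (v' :: vs') P0 Ps0 hs0] at hs
        have h2 : (g₀ • q') :: P0 = P := (List.cons.inj hs).1
        rw [hPt] at h2
        have h3 : P0 = Pt := (List.cons.inj h2).2
        obtain ⟨P₂, hP₂, hP₂'⟩ := segs_head U (SNA2_wf_edge hD'ne hWD) hR'
        rw [hs0] at hP₂
        have h4 : P0 = P₂ := by simpa using hP₂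
        rw [← h3, h4, hP₂'] at hx
        have h5 : v' = x := by simpa using hx
        have h6 : c' • q ≠ p' := hi.2.2.1 id
        rw [← h5, ← hp']
        intro h7
        rw [mul_smul] at h7
        exact h6 (MulAction.injective g₀ h7)
      | hole D' g₀ v' vs' h₀ q' c' hR' hq' =>
        have hD'ne := real_ne_nil hR'
        rw [SNA2_hole q' c' D' hD'ne v (v :: vs')] at hs
        have h2 : [v] = P := (List.cons.inj hs).1
        rw [hPt] at h2
        have h3 : Pt = [] := by simpa using h2
        rw [h3] at hx
        simp at hx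
    · rw [← hPt]
      exact ih' P (by simp)
  | hole D g v vs h q c hR hq ih =>
    have hDne := real_ne_nil hR
    rw [SNA2_hole q c D hDne v (v :: vs)]
    intro P hP
    rw [List.mem_cons] at hP
    rcases hP with rfl | hP
    · exact trivial
    · exact ih (SNA2_wf_hole hDne hi) P hP

theorem segs_linked (U : Setup S G V) {D : List (Item V G)} {g : G} {vs : List V}
    (hi : WF U.T D) (h : Real U.o D g vs) : Linked (segsAbs D vs) := by
  induction h with
  | base h c q hq => exact trivial
  | edge D g v vs p q c hR hp ih =>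
    have hDne := real_ne_nil hR
    have hWD := SNA2_wf_edge hDne hi
    obtain ⟨P, Ps, hs⟩ := SNA2_list hR
    rw [SNA2_edge p q c D hDne (g • q) (v :: vs) P Ps hs]
    have ih' := ih hWD
    rw [hs] at ih'
    have hPne : P ≠ [] := by
      intro h0
      have := segs_NB U hWD hR P (by rw [hs]; simp)
      rw [h0] at this
      exact this
    cases Ps with
    | nil => exact trivial
    | cons P' Ps =>
      refine ⟨?_, ih'.2⟩
      rw [← ih'.1]
      obtain ⟨z, Pt, rfl⟩ : ∃ z Pt, P = z :: Pt := by
        cases P with
        | nil => exact absurd rfl hPne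
        | cons z Pt => exact ⟨z, Pt, rfl⟩
      rw [List.getLast?_cons_cons]
  | hole D g v vs h q c hR hq ih =>
    have hDne := real_ne_nil hR
    have hWD := SNA2_wf_hole hDne hi
    rw [SNA2_hole q c D hDne v (v :: vs)]
    obtain ⟨P, Ps, hs⟩ := SNA2_list hR
    have ih' := ih hWD
    obtain ⟨P₁, hP₁, hP₁'⟩ := segs_head U hWD hR
    rw [hs] at hP₁ ih' ⊢
    have hPP : P = P₁ := by simpa using hP₁
    refine ⟨?_, ih'⟩
    rw [hPP, hP₁']
    rfl

theorem segs_last (U : Setup S G V) {D : List (Item V G)} {g : G} {vs : List V}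
    (hi : WF U.T D) (h : Real U.o D g vs) :
    ∃ P ∈ (segsAbs D vs).getLast?, P.getLast? = some U.o := by
  induction h with
  | base h c q hq => exact ⟨[U.o], rfl, rfl⟩
  | edge D g v vs p q c hR hp ih =>
    have hDne := real_ne_nil hR
    have hWD := SNA2_wf_edge hDne hi
    obtain ⟨P, Ps, hs⟩ := SNA2_list hR
    rw [SNA2_edge p q c D hDne (g • q) (v :: vs) P Ps hs]
    obtain ⟨Q, hQ, hQ'⟩ := ih hWD
    rw [hs] at hQ
    cases Ps with
    | nil =>
      have hPQ : P = Q := by simpa using hQ
      refine ⟨(g • q) :: P, by simp, ?_⟩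
      rw [← hPQ] at hQ'
      cases P with
      | nil => simp at hQ'
      | cons z Pt => rw [List.getLast?_cons_cons]; exact hQ'
    | cons P' Ps =>
      refine ⟨Q, ?_, hQ'⟩
      rw [List.getLast?_cons_cons] at hQ ⊢
      exact hQ
  | hole D g v vs h q c hR hq ih =>
    have hDne := real_ne_nil hR
    have hWD := SNA2_wf_hole hDne hi
    rw [SNA2_hole q c D hDne v (v :: vs)]
    obtain ⟨P, Ps, hs⟩ := SNA2_list hR
    obtain ⟨Q, hQ, hQ'⟩ := ih hWD
    refine ⟨Q, ?_, hQ'⟩
    rw [hs] at hQ ⊢
    rw [List.getLast?_cons_cons]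
    exact hQ

theorem SNA2_hole_win (K : ℕ) (hK : 1 ≤ K) (q : V) (c : G) (D : List (Item V G))
    (Rig : V → V → Prop) : win K Rig (.hole q c :: D) = 0 := by
  unfold win
  rw [if_neg]
  rintro ⟨x, y, h1, h2, h3⟩
  have : seg (.hole q c :: D) = [(c * 1)⁻¹ • q] := rfl
  rw [this, List.getElem?_eq_none (by simp; omega)] at h2
  simp at h2

theorem cnt_eq (U : Setup S G V) (K : ℕ) (hK : 1 ≤ K) {D : List (Item V G)} {g : G}
    {vs : List V} (hi : WF U.T D) (h : Real U.o D g vs) :
    cnt K (Rigid G) D = ((segsAbs D vs).map (cntR K (Rigid G))).sum := by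
  induction h with
  | base h c q hq =>
    show cnt K (Rigid G) [] + win K (Rigid G) [.hole q c] = ([[U.o]].map (cntR K (Rigid G))).sum
    rw [SNA2_hole_win K hK]
    simp [cnt, cntR_single K hK]
  | edge D g v vs p q c hR hp ih =>
    have hseg := real_seg U hi (Real.edge D g v vs p q c hR hp)
    have hDne := real_ne_nil hR
    have hWD := SNA2_wf_edge hDne hi
    obtain ⟨P, Ps, hs⟩ := SNA2_list hR
    rw [SNA2_edge p q c D hDne (g • q) (v :: vs) P Ps hs] at hseg ⊢
    have ih' := ih hWD
    rw [hs] at ih'
    have h1 : cnt K (Rigid G) (.edge p q c :: D) = cnt K (Rigid G) D +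
      win K (Rigid G) (.edge p q c :: D) := rfl
    rw [h1, ih', List.map_cons, List.sum_cons, List.map_cons, List.sum_cons]
    have h2 : cntR K (Rigid G) ((g • q) :: P) = cntR K (Rigid G) P +
      (if ∃ u, ((g • q) :: P)[K]? = some u ∧ Rigid G (g • q) u then 1 else 0) := rfl
    have h3 : win K (Rigid G) (.edge p q c :: D) =
        (if ∃ u, ((g • q) :: P)[K]? = some u ∧ Rigid G (g • q) u then 1 else 0) := by
      unfold win
      have h4 : (g • q) :: P = (seg (.edge p q c :: D)).map ((g * c) • ·) := by
        simpa using hseg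
      congr 1
      apply propext
      constructor
      · rintro ⟨x, y, hx, hy, hr⟩
        refine ⟨(g * c) • y, ?_, ?_⟩
        · rw [h4, List.getElem?_map, hy]
          rfl
        · have h5 : ((g • q) :: P)[0]? = some ((g * c) • x) := by
            rw [h4, List.getElem?_map, hx]
            rfl
          have h6 : g • q = (g * c) • x := by simpa using h5
          rw [h6]
          exact (Rigid_smul (g * c) x y).2 hr
      · rintro ⟨u, hu, hr⟩
        rw [h4, List.getElem?_map] at hu
        cases hy : (seg (.edge p q c :: D))[K]? with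
        | none => rw [hy] at hu; simp at hu
        | some y =>
          rw [hy] at hu
          have hu' : (g * c) • y = u := by simpa using hu
          have hx : (seg (.edge p q c :: D))[0]? = some ((c * 1)⁻¹ • q) := rfl
          refine ⟨_, y, hx, rfl, ?_⟩
          rw [← Rigid_smul (g * c), hu', mul_one, mul_smul, smul_inv_smul]
          exact hr
    rw [h2, h3]
    omega
  | hole D g v vs h q c hR hq ih =>
    have hDne := real_ne_nil hR
    have hWD := SNA2_wf_hole hDne hi
    rw [SNA2_hole q c D hDne v (v :: vs)]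
    have ih' := ih hWD
    have h1 : cnt K (Rigid G) (.hole q c :: D) = cnt K (Rigid G) D +
      win K (Rigid G) (.hole q c :: D) := rfl
    rw [h1, SNA2_hole_win K hK, List.map_cons, List.sum_cons, ih', cntR_single K hK]
    omega

end GWP
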