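import Pool.Agent.H55.GWP.SNA1
import Pool.Agent.H55.GWP.CL0

/-! SNA3: places in the segments of a realised state; sub-collections of segments.
The items of `D` correspond to the pairs (segment `j`, index `n`): a segment is a maximal run of edges
together with the hole below it. -/

set_option autoImplicit false
open Classical
namespace GWP

variable {S G V : Type*} [Fintype S] [Group G] [MulAction G V]

theorem SNA3_ne (D : List (Item V G)) (vs : List V) (hD : D ≠ []) (hvs : vs ≠ []) :
    segsAbs D vs ≠ [] := by
  cases D with
  | nil => exact absurd rfl hD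
  | cons it D =>
    cases vs with
    | nil => exact absurd rfl hvs
    | cons v vs =>
      cases D with
      | nil => simp [segsAbs]
      | cons it' D =>
        by_cases h : it.isHole
        · simp [segsAbs, h]
        · simp only [segsAbs, h, if_false]
          split <;> simp

theorem SNA3_edge (p q : V) (c : G) (D : List (Item V G)) (hD : D ≠ []) (v : V) (vs P : List V)
    (Ps : List (List V)) (h : segsAbs D vs = P :: Ps) :
    segsAbs (.edge p q c :: D) (v :: vs) = (v :: P) :: Ps := by
  cases D with
  | nil => exact absurd rfl hD
  | cons d D =>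
    simp only [segsAbs, Item.isHole]
    rw [h]
    exact if_neg id

theorem SNA3_hole (q : V) (c : G) (D : List (Item V G)) (hD : D ≠ []) (v : V) (vs : List V) :
    segsAbs (.hole q c :: D) (v :: vs) = [v] :: segsAbs D vs := by
  cases D with
  | nil => exact absurd rfl hD
  | cons d D =>
    simp only [segsAbs, Item.isHole]
    exact if_pos trivial

/-- Every place (segment `j`, index `n`) is an item. -/
theorem segs_locate (U : Setup S G V) {D : List (Item V G)} {g : G} {vs : List V}
    (hi : WF U.T D) (h : Real U.o D g vs) (j n : ℕ) (P : List V)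
    (hj : (segsAbs D vs)[j]? = some P) (hn : n < P.length) :
    ∃ D₁ l : List (Item V G), D = D₁ ++ l ∧ l ≠ [] ∧ holes D = holes l + j ∧
      segsAbs l (vs.drop D₁.length) = P.drop n :: (segsAbs D vs).drop (j + 1) := by
  induction h generalizing j n P with
  | base h c q hq =>
    have h1 : segsAbs [(Item.hole q c : Item V G)] [U.o] = [[U.o]] := rfl
    rw [h1] at hj ⊢
    have hj0 : j = 0 := by
      by_contra hcon
      rw [List.getElem?_eq_none (by simp; omega)] at hj
      simp at hj
    subst hj0
    have hP : [U.o] = P := by simpa using hj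
    subst hP
    have hn0 : n = 0 := by simpa using hn
    subst hn0
    exact ⟨[], [.hole q c], rfl, by simp, rfl, rfl⟩
  | edge D g v vs p q c hR hp ih =>
    have hDne := real_ne_nil hR
    have hW : WF U.T D := by
      cases D with
      | nil => exact absurd rfl hDne
      | cons d D => exact hi.2.2.2
    have hh : holes (.edge p q c :: D : List (Item V G)) = holes D := by
      simp [holes, Item.isHole]
    cases hs : segsAbs D (v :: vs) with
    | nil => exact absurd hs (SNA3_ne _ _ hDne (by simp))
    | cons P0 Ps0 =>
      have hs' := SNA3_edge p q c D hDne (g • q) (v :: vs) P0 Ps0 hs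
      rw [hs'] at hj ⊢
      cases j with
      | zero =>
        have hP : (g • q) :: P0 = P := by simpa using hj
        subst hP
        cases n with
        | zero =>
          exact ⟨[], .edge p q c :: D, rfl, by simp, rfl, by simpa using hs'⟩
        | succ n =>
          obtain ⟨D₁, l, h1, h2, h3, h4⟩ := ih hW 0 n P0 (by rw [hs]; rfl) (by simpa using hn)
          refine ⟨.edge p q c :: D₁, l, by rw [h1]; rfl, h2, by rw [hh, h3], ?_⟩
          rw [List.length_cons, List.drop_succ_cons, h4, hs]
          simp
      | succ j =>
        obtain ⟨D₁, l, h1, h2, h3, h4⟩ := ih hW (j + 1) n P (by rw [hs]; simpa using hj) hn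
        refine ⟨.edge p q c :: D₁, l, by rw [h1]; rfl, h2, by rw [hh, h3], ?_⟩
        rw [List.length_cons, List.drop_succ_cons, h4, hs]
        simp
  | hole D g v vs h q c hR hq ih =>
    have hDne := real_ne_nil hR
    have hW : WF U.T D := by
      cases D with
      | nil => exact absurd rfl hDne
      | cons d D => exact hi
    have hh : holes (.hole q c :: D : List (Item V G)) = holes D + 1 := by
      simp [holes, Item.isHole]
    have hs' := SNA3_hole q c D hDne v (v :: vs)
    rw [hs'] at hj ⊢
    cases j with
    | zero =>
      have hP : [v] = P := by simpa using hj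
      subst hP
      have hn0 : n = 0 := by simpa using hn
      subst hn0
      exact ⟨[], .hole q c :: D, rfl, by simp, rfl, by simpa using hs'⟩
    | succ j =>
      obtain ⟨D₁, l, h1, h2, h3, h4⟩ := ih hW j n P (by simpa using hj) hn
      refine ⟨.hole q c :: D₁, l, by rw [h1]; rfl, h2, by rw [hh, h3]; ring, ?_⟩
      rw [List.length_cons, List.drop_succ_cons, h4]
      simp

/-- Sub-collections have no matches either. -/
theorem noMatch_drop (K : ℕ) (Rig : V → V → Prop) (segs : List (List V)) (j n : ℕ) (P : List V)
    (hj : segs[j]? = some P) (h : NoMatch K Rig segs) :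
    NoMatch K Rig (P.drop n :: segs.drop (j + 1)) := by
  intro i i' hii' Q Q' hQ hQ' a b x y h1 h2 h3 h4
  obtain ⟨i', rfl⟩ : ∃ k, i' = k + 1 := ⟨i' - 1, by omega⟩
  rw [List.getElem?_cons_succ, List.getElem?_drop] at hQ'
  cases i with
  | zero =>
    have hQP : P.drop n = Q := by simpa using hQ
    subst hQP
    rw [List.getElem?_drop] at h1 h2
    exact h j (j + 1 + i') (by omega) P Q' hj hQ' (n + a) b x y h1
      (by rw [add_assoc]; exact h2) h3 h4
  | succ i =>
    rw [List.getElem?_cons_succ, List.getElem?_drop] at hQ
    exact h (j + 1 + i) (j + 1 + i') (by omega) Q Q' hQ hQ' a b x y h1 h2 h3 h4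

theorem noMatch_single (K : ℕ) (hK : 1 ≤ K) (Rig : V → V → Prop) (segs : List (List V)) (v : V)
    (h : NoMatch K Rig segs) : NoMatch K Rig ([v] :: segs) := by
  intro i i' hii' Q Q' hQ hQ' a b x y h1 h2 h3 h4
  obtain ⟨i', rfl⟩ : ∃ k, i' = k + 1 := ⟨i' - 1, by omega⟩
  rw [List.getElem?_cons_succ] at hQ'
  cases i with
  | zero =>
    have hQP : [v] = Q := by simpa using hQ
    subst hQP
    rw [List.getElem?_eq_none (by simp; omega)] at h2
    simp at h2
  | succ i =>
    rw [List.getElem?_cons_succ] at hQ
    exact h i i' (by omega) Q Q' hQ hQ' a b x y h1 h2 h3 h4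

end GWP
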