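import Pool.Agent.H55.GWP.SNA1
import Pool.Agent.H55.GWP.SNA2
import Pool.Agent.H55.GWP.SNA3

/-! SNA: facts on realised states. -/
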