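import Pool.Agent.H55.GWP.INV
import Pool.Agent.H55.GWP.MMB

/-! SNA1: facts on realised states (induction on `Real` / on the list). -/

set_option autoImplicit false
open Classical
namespace GWP

variable {S G V : Type*} [Fintype S] [Group G] [MulAction G V]

theorem real_length {o : V} {D : List (Item V G)} {g : G} {vs : List V} (h : Real o D g vs) :
    vs.length = D.length := by
  induction h with
  | base h c q hq => rfl
  | edge D g v vs p q c hR hp ih => simpa using ih
  | hole D g v vs h q c hR hq ih => simpa using ih

theorem real_ne_nil {o : V} {D : List (Item V G)} {g : G} {vs : List V} (h : Real o D g vs) :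
    D ≠ [] := by
  cases h <;> simp

theorem real_head (U : Setup S G V) {a : V} {D : List (Item V G)} {g : G} {vs : List V}
    (h : Real U.o D g vs) (hi : Inv U a D) : vs.head? = some (g • a) := by
  have ha := hi.at_
  cases h with
  | base h c q hq =>
    have h1 : c • a = q := ha _ rfl
    rw [mul_smul, h1, hq]
    rfl
  | edge D g v vs p q c hR hp =>
    have h1 : c • a = q := ha _ rfl
    rw [mul_smul, h1]
    rfl
  | hole D g v vs h q c hR hq =>
    have h1 : c • a = q := ha _ rfl
    rw [mul_smul, h1, hq]
    rfl

/-- change of the content of the top item -/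
theorem real_top {o : V} {it : Item V G} {D : List (Item V G)} {g x : G} {vs : List V}
    (h : Real o (it :: D) g vs) : Real o (it.mul x :: D) (g * x) vs := by
  cases h with
  | base h c q hq =>
    rw [mul_assoc]
    exact Real.base h (c * x) q hq
  | edge D g v vs p q c hR hp =>
    rw [mul_assoc]
    exact Real.edge D g v vs p q (c * x) hR hp
  | hole D g v vs h q c hR hq =>
    rw [mul_assoc]
    exact Real.hole D g v vs h q (c * x) hR hq

/-- the content of the top item is forgotten -/
theorem real_ovf {o a : V} {it : Item V G} {D : List (Item V G)} {g : G} {vs : List V}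
    (h : Real o (it :: D) g vs) (ha : it.con • a = it.pos) :
    ∃ vs', Real o (ovfTop a it ++ D) g vs' ∧
      (vs' = vs ∨ ∃ v, vs.head? = some v ∧ vs' = v :: vs) := by
  cases h with
  | base h c q hq =>
    refine ⟨[o], ?_, Or.inl rfl⟩
    have h1 : (h * c) • a = o := by
      rw [mul_smul]
      rw [show c • a = q from ha, hq]
    have := Real.base (o := o) (h * c) 1 a h1
    simpa [ovfTop] using this
  | edge D g₀ v vs p q c hR hp =>
    have h1 : (g₀ * c) • a = g₀ • q := by
      rw [mul_smul]
      rw [show c • a = q from ha]
    have h2 : Real o (.edge p q 1 :: D) (g₀ * 1) (g₀ • q :: v :: vs) :=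
      Real.edge D g₀ v vs p q 1 hR hp
    have h3 := Real.hole _ _ _ _ (g₀ * c) a 1 h2 h1
    exact ⟨_, by simpa [ovfTop] using h3, Or.inr ⟨_, rfl, rfl⟩⟩
  | hole D g₀ v vs h q c hR hq =>
    have h1 : (h * c) • a = v := by
      rw [mul_smul]
      rw [show c • a = q from ha, hq]
    have h3 := Real.hole _ _ _ _ (h * c) a 1 hR h1
    exact ⟨_, by simpa [ovfTop] using h3, Or.inl rfl⟩

/-- suffixes of realised states are realised -/
theorem real_suffix {o : V} {D₁ l : List (Item V G)} {g : G} {vs : List V} (hl : l ≠ [])
    (h : Real o (D₁ ++ l) g vs) : ∃ g', Real o l g' (vs.drop D₁.length) := by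
  induction D₁ generalizing g vs with
  | nil => exact ⟨g, by simpa using h⟩
  | cons d D₁ ih =>
    rw [List.cons_append] at h
    generalize hq : D₁ ++ l = D' at h
    cases h with
    | base h c q hq' =>
      exfalso
      exact hl (List.append_eq_nil_iff.1 hq).2
    | edge D g v vs p q c hR hp =>
      rw [← hq] at hR
      obtain ⟨g', hg'⟩ := ih hR
      exact ⟨g', by simpa using hg'⟩
    | hole D g v vs h q c hR hq' =>
      rw [← hq] at hR
      obtain ⟨g', hg'⟩ := ih hR
      exact ⟨g', by simpa using hg'⟩

/-- frames over a list of edges -/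
theorem real_edges {o : V} {E l : List (Item V G)} {g : G} {vs : List V} (hl : l ≠ [])
    (hE : ∀ it ∈ E, ¬ it.isHole) (h : Real o (E ++ l) g vs) :
    ∃ g', Real o l g' (vs.drop E.length) ∧ g = g' * (E.map Item.con).reverse.prod := by
  induction E generalizing g vs with
  | nil => exact ⟨g, by simpa using h, by simp⟩
  | cons d E ih =>
    rw [List.cons_append] at h
    generalize hq : E ++ l = D' at h
    cases h with
    | base h c q hq' =>
      exfalso
      exact hl (List.append_eq_nil_iff.1 hq).2
    | edge D g v vs p q c hR hp =>
      rw [← hq] at hR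
      obtain ⟨g', hg', hg''⟩ := ih (fun x hx => hE x (by simp [hx])) hR
      refine ⟨g', by simpa using hg', ?_⟩
      rw [List.map_cons, List.reverse_cons, List.prod_append, ← mul_assoc, ← hg'']
      simp [Item.con]
    | hole D g v vs h q c hR hq' =>
      exact absurd (show (Item.hole q c : Item V G).isHole from trivial) (hE _ (by simp))

end GWP
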