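import Pool.Agent.H55.GWP.SNB3

/-! SNB: one step of the true run.

`mv a a'`: if the top is popped, the segments are cut; otherwise a vertex is pushed on the top
segment (new content `1`, so `chk` does nothing, `wlen_one`).  If the new collection of segments
has no match, take the main transition.  Otherwise use `claim_step`.
`ap s`: `real_top`; if the content is forgotten: `SNB3_ovf`. -/

set_option autoImplicit false
open Classical
namespace GWP

variable {S G V : Type*} [Fintype S] [Group G] [MulAction G V]

/-- the value of an operation -/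
def opval (U : Setup S G V) : Op V S → G
  | .mv _ _ => 1
  | .ap s => U.e s

theorem tru_init (U : Setup S G V) (K : ℕ) : Tru U K U.o (init U) 1 := by
  refine ⟨init_inv U, [U.o], ?_, ?_⟩
  · have := Real.base (o := U.o) (1 : G) (1 : G) U.o (one_smul _ _)
    simpa [init] using this
  · intro i j hij P P' hP hP'
    have : segsAbs (init U) [U.o] = [[U.o]] := rfl
    rw [this] at hP'
    have : j < 1 := by
      by_contra hcon
      rw [List.getElem?_eq_none (by simp; omega)] at hP'
      simp at hP'
    omega

/-- the length check at the top -/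
theorem SNB_chk (U : Setup S G V) (K L s0 : ℕ) (hK : 1 ≤ K) (b : V) (i : Op V S)
    (hb : cur (parOf U K L s0) i = b)
    (D : List (Item V G)) (g : G) (vs : List V) (h : Real U.o D g vs) (hI : Inv U b D)
    (hN : NoMatch K (Rigid G) (segsAbs D vs)) :
    ∃ vs', Real U.o (chk (parOf U K L s0) i D) g vs' ∧
      NoMatch K (Rigid G) (segsAbs (chk (parOf U K L s0) i D) vs') := by
  cases D with
  | nil => exact absurd rfl (real_ne_nil h)
  | cons it l =>
    have hhead := real_head U h hI
    show ∃ vs', Real U.o (nrmTop (wlen U.e) L (cur (parOf U K L s0) i) it ++ l) g vs' ∧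
      NoMatch K (Rigid G) (segsAbs (nrmTop (wlen U.e) L (cur (parOf U K L s0) i) it ++ l) vs')
    rw [hb]
    unfold nrmTop
    by_cases hlen : wlen U.e it.con ≤ L
    · rw [if_pos hlen]
      exact ⟨vs, h, hN⟩
    · rw [if_neg hlen]
      exact SNB3_ovf K hK (Rigid G) h hhead hN

theorem SNB_edge (p q : V) (c : G) (D : List (Item V G)) (hD : D ≠ []) (v : V) (vs P : List V)
    (Ps : List (List V)) (h : segsAbs D vs = P :: Ps) :
    segsAbs (.edge p q c :: D) (v :: vs) = (v :: P) :: Ps := by
  cases D with
  | nil => exact absurd rfl hD
  | cons d D =>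
    simp only [segsAbs, Item.isHole]
    rw [h]
    exact if_neg id

theorem SNB_noMatch_tail (K : ℕ) (Rig : V → V → Prop) (P : List V) (Ps : List (List V))
    (h : NoMatch K Rig (P :: Ps)) : NoMatch K Rig (P.tail :: Ps) := by
  have := noMatch_drop K Rig (P :: Ps) 0 1 P rfl h
  simpa using this

theorem tru_step (U : Setup S G V) (K L s0 : ℕ) (hK : 1 ≤ K) (a b : V) (i : Op V S)
    (D : List (Item V G)) (g : G) (hi : OpsOK U a [i] b) (h : Tru U K a D g) :
    ∃ D' ∈ stepOp (parOf U K L s0) i D, Tru U K b D' (g * opval U i) := by
  obtain ⟨hI, vs, hR, hN⟩ := h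
  have hImm := mm_inv U K L s0 a b i D hi hI
  have hIm : Inv U b (mainOp (parOf U K L s0) i D) := chk_inv U K L s0 a b i _ hi hImm
  have hbV : b ∈ V0 U := by
    cases i with
    | mv x x' =>
      obtain ⟨_, _, _, h4, h5⟩ := hi
      rw [← (show x' = b from h5)]
      exact h4
    | ap s =>
      obtain ⟨_, h2⟩ := hi
      rw [← (show U.o = b from h2)]
      exact Or.inl rfl
  have hcur : cur (parOf U K L s0) i = b := by
    cases i with
    | mv x x' =>
      obtain ⟨_, _, _, _, h5⟩ := hi
      exact h5
    | ap s =>
      obtain ⟨_, h2⟩ := hi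
      exact h2
  -- it suffices to realise the state before the length check without matches
  have key1 : (∃ vs', Real U.o (mm (parOf U K L s0) i D) (g * opval U i) vs' ∧
      NoMatch K (Rigid G) (segsAbs (mm (parOf U K L s0) i D) vs')) →
      ∃ D' ∈ stepOp (parOf U K L s0) i D, Tru U K b D' (g * opval U i) := by
    rintro ⟨vs', hR', hN'⟩
    obtain ⟨vs'', hR'', hN''⟩ := SNB_chk U K L s0 hK b i hcur _ _ vs' hR' hImm hN'
    exact ⟨_, List.mem_cons_self, hIm, vs'', hR'', hN''⟩
  cases i with
  | ap s =>
    apply key1
    cases D with
    | nil => exact absurd rfl (real_ne_nil hR)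
    | cons it l =>
      refine ⟨vs, real_top hR, ?_⟩
      show NoMatch K (Rigid G) (segsAbs (it.mul (U.e s) :: l) vs)
      rw [SNB3_mul]
      exact hN
  | mv x x' =>
    obtain ⟨hax, hadj, hxV, hxV', hxb⟩ := hi
    have hxb' : x' = b := hxb
    subst hax
    subst hxb'
    simp only [opval, mul_one]
    -- the push case
    have push : mm (parOf U K L s0) (.mv a x') D = .edge a x' 1 :: D →
        ∃ D' ∈ stepOp (parOf U K L s0) (.mv a x') D, Tru U K x' D' g := by
      intro hpush
      have hhead := real_head U hR hI
      obtain ⟨v0, vs0, hvs0⟩ : ∃ v0 vs0, vs = v0 :: vs0 := by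
        cases vs with
        | nil => simp at hhead
        | cons v0 vs0 => exact ⟨v0, vs0, rfl⟩
      have hv0 : g • a = v0 := by
        rw [hvs0] at hhead
        simpa using hhead.symm
      have hR2 : Real U.o (.edge a x' 1 :: D) (g * 1) (g • x' :: v0 :: vs0) := by
        rw [hvs0] at hR
        exact Real.edge D g v0 vs0 a x' 1 hR hv0
      rw [mul_one] at hR2
      obtain ⟨P, Ps, hPs⟩ : ∃ P Ps, segsAbs D vs = P :: Ps := by
        cases hq : segsAbs D vs with
        | nil => exact absurd hq (SNB3_ne D vs (real_ne_nil hR) (by rw [hvs0]; simp))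
        | cons P Ps => exact ⟨P, Ps, rfl⟩
      have hPne : P ≠ [] := by
        have := segs_NB U hI.wf hR P (by rw [hPs]; simp)
        intro h0
        subst h0
        exact this
      have hsegs : segsAbs (.edge a x' 1 :: D) (g • x' :: v0 :: vs0) = (g • x' :: P) :: Ps := by
        exact SNB_edge a x' 1 D (real_ne_nil hR) _ _ P Ps (by rw [← hvs0]; exact hPs)
      have hmain : mainOp (parOf U K L s0) (.mv a x') D = .edge a x' 1 :: D := by
        unfold mainOp
        rw [hpush]
        show nrmTop (wlen U.e) L _ (.edge a x' 1) ++ D = _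
        unfold nrmTop
        rw [if_pos]
        · rfl
        · show wlen U.e (1 : G) ≤ L
          rw [wlen_one]
          exact Nat.zero_le _
      by_cases hM : NoMatch K (Rigid G) ((g • x' :: P) :: Ps)
      · have := key1 ⟨g • x' :: v0 :: vs0, by rw [hpush]; simpa [opval] using hR2,
          by rw [hpush, hsegs]; exact hM⟩
        simpa [opval] using this
      · rw [hPs] at hN
        have hI2 : Inv U x' (.edge a x' 1 :: D) := by
          rw [← hmain]
          exact hIm
        obtain ⟨D', hD', hT⟩ := claim_step U K L s0 hK x' (.edge a x' 1 :: D) g hbV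
          (g • x' :: v0 :: vs0) hI2 hR2 (g • x') P Ps hsegs hPne hN hM
        refine ⟨D', ?_, hT⟩
        unfold stepOp
        rw [hmain, hcur]
        exact List.mem_cons_of_mem _ hD'
    -- the cases
    match D, hI, hR, hN, hImm, hIm, key1, push with
    | [], _, hR, _, _, _, _, _ => exact absurd rfl (real_ne_nil hR)
    | .hole q c :: l, hI, hR, hN, hImm, hIm, key1, push =>
      apply push
      rfl
    | [.edge p q c], hI, hR, hN, hImm, hIm, key1, push =>
      exact absurd hI.wf (by simp [WF])
    | .edge p q c :: it :: l, hI, hR, hN, hImm, hIm, key1, push =>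
      by_cases hpop : c • x' = p
      · have hmm : mm (parOf U K L s0) (.mv a x') (.edge p q c :: it :: l) = it.mul c :: l := by
          show (if c • x' = p then _ else _) = _
          rw [if_pos hpop]
        simp only [opval, mul_one] at key1
        apply key1
        cases hR with
        | edge _ g₀ v vs' _ _ _ hR' hp' =>
          refine ⟨v :: vs', ?_, ?_⟩
          · rw [hmm]
            exact real_top hR'
          · rw [hmm, SNB3_mul]
            have hsne : segsAbs (it :: l) (v :: vs') ≠ [] := SNB3_ne _ _ (by simp) (by simp)
            cases hs : segsAbs (it :: l) (v :: vs') with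
            | nil => exact absurd hs hsne
            | cons P Ps =>
              have hsegs : segsAbs (.edge p q c :: it :: l) (g₀ • q :: v :: vs') =
                  (g₀ • q :: P) :: Ps := by
                exact SNB_edge p q c (it :: l) (by simp) _ _ P Ps hs
              rw [hsegs] at hN
              exact SNB_noMatch_tail K _ _ _ hN
      · apply push
        show (if c • x' = p then _ else _) = _
        rw [if_neg hpop]

end GWP
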