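import Pool.Agent.H55.GWP.SNA
import Pool.Agent.H55.GWP.CLC

/-! SNB1: the condition on `cnt` in a true claim.

`D` is a realised state with top segment `P = segs[0] = v :: Pt`; without the new vertex `v` there
are no matches.  The vertex `P[K] = y` is also `P'[n]`, where `P' = segs[j]`, `j ≥ 1`, and `l` is the
suffix located there.  `closed_count` applies to
`P.drop K :: segs[1], …, segs[j-1], P'.take (n + 1)` (`j + 1` lists, closed at `y`; all windows are
windows of `Pt :: segs.tail`), so their number of rigid windows is `≤ 3 K j`; and
`cnt D ≤ K + 3 K j + (K - 1) + cnt l` by `cnt_eq` (for `D` and for `l`), `cntR_append_le`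
(`P = P.take K ++ P.drop K`) and `cntR_split` (`P'` cut at the index `n`). -/

set_option autoImplicit false
open Classical
namespace GWP

variable {S G V : Type*} [Fintype S] [Group G] [MulAction G V]

theorem SNB1_linked_iff (P : List V) (Ps : List (List V)) :
    Linked (P :: Ps) ↔ (∀ P' ∈ Ps.head?, P.getLast? = P'.head?) ∧ Linked Ps := by
  cases Ps with
  | nil => simp [Linked]
  | cons P' Ps => simp [Linked]

/-- replacing the first list by a suffix, and the list at place `j` (in the tail) by a prefix,
dropping everything below -/
theorem SNB1_take (rest : List (List V)) (j n : ℕ) (P' : List V) (hj : rest[j]? = some P')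
    (hn : n < P'.length) (hL : Linked rest) :
    Linked (rest.take j ++ [P'.take (n + 1)]) ∧
      (rest.take j ++ [P'.take (n + 1)]).head?.map List.head? = rest.head?.map List.head? := by
  induction j generalizing rest with
  | zero =>
    cases rest with
    | nil => simp at hj
    | cons R rest =>
      have hR : R = P' := by simpa using hj
      subst hR
      refine ⟨trivial, ?_⟩
      simp only [List.take_zero, List.nil_append, List.head?_cons, Option.map_some,
        Option.some.injEq]
      cases R with
      | nil => simp at hn
      | cons z R => simp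
  | succ j ih =>
    cases rest with
    | nil => simp at hj
    | cons R rest =>
      rw [SNB1_linked_iff] at hL
      obtain ⟨h1, h2⟩ := ih rest (by simpa using hj) hL.2
      rw [List.take_succ_cons, List.cons_append, SNB1_linked_iff]
      refine ⟨⟨?_, h1⟩, by simp⟩
      intro Q hQ
      have h3 : (rest.take j ++ [P'.take (n + 1)]).head?.map List.head? = some Q.head? := by
        rw [Option.mem_def.1 hQ]
        rfl
      rw [h2] at h3
      cases rest with
      | nil => simp at hj
      | cons R' rest =>
        have h4 : R'.head? = Q.head? := by simpa using h3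
        rw [← h4]
        exact hL.1 R' rfl

theorem SNB1_getLast (Q : List V) (n : ℕ) (y : V) (hy : Q[n]? = some y) :
    (Q.take (n + 1)).getLast? = some y := by
  have hn : n < Q.length := by
    by_contra hcon
    rw [List.getElem?_eq_none (by omega)] at hy
    simp at hy
  rw [List.getLast?_eq_getElem?, List.length_take, min_eq_left (by omega)]
  rw [List.getElem?_take, if_pos (by omega)]
  simpa using hy

theorem count_cond (U : Setup S G V) (K : ℕ) (hK : 1 ≤ K) (a : V) (D : List (Item V G)) (g : G)
    (vs : List V) (hI : Inv U a D) (h : Real U.o D g vs) (v y : V) (Pt : List V)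
    (rest : List (List V)) (hsegs : segsAbs D vs = (v :: Pt) :: rest)
    (hPt : Pt ≠ []) (hNM : NoMatch K (Rigid G) (Pt :: rest))
    (hy : (v :: Pt)[K]? = some y)
    (j n : ℕ) (P' : List V) (hj : rest[j]? = some P') (hn : P'[n]? = some y)
    (D₁ l : List (Item V G)) (hD : D = D₁ ++ l) (hl : l ≠ [])
    (hlseg : segsAbs l (vs.drop D₁.length) = P'.drop n :: rest.drop (j + 1)) :
    cnt K (Rigid G) D ≤ cnt K (Rigid G) l + 3 * K * (j + 1) + 2 * K := by
  have hnl : n < P'.length := by
    by_contra hcon
    rw [List.getElem?_eq_none (by omega)] at hn
    simp at hn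
  have hKl : K < (v :: Pt).length := by
    by_contra hcon
    rw [List.getElem?_eq_none (by omega)] at hy
    simp at hy
  have hjl : j < rest.length := by
    by_contra hcon
    rw [List.getElem?_eq_none (by omega)] at hj
    simp at hj
  obtain ⟨gl, hRl⟩ := real_suffix (D₁ := D₁) hl (by rw [← hD]; exact h)
  have hWl : WF U.T l := WF_suffix U.T D₁ l hl (by rw [← hD]; exact hI.wf)
  have hNB := segs_NB U hI.wf h
  have hLk := segs_linked U hI.wf h
  rw [hsegs] at hNB hLk
  rw [SNB1_linked_iff] at hLk
  -- the closed polygon
  set mid : List (List V) := (v :: Pt).drop K :: (rest.take j ++ [P'.take (n + 1)]) with hmid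
  have hmidNB : ∀ P ∈ mid, NB U.T P := by
    intro P hP
    rw [hmid, List.mem_cons, List.mem_append, List.mem_singleton] at hP
    rcases hP with rfl | hP | rfl
    · apply NB_append_right ((v :: Pt).take K)
      · rw [List.take_append_drop]
        exact hNB _ (by simp)
      · intro h0
        rw [List.drop_eq_nil_iff] at h0
        omega
    · exact hNB P (List.mem_cons_of_mem _ (List.mem_of_mem_take hP))
    · apply NB_append_left _ (P'.drop (n + 1))
      · rw [List.take_append_drop]
        exact hNB _ (List.mem_cons_of_mem _ (List.mem_of_getElem? hj))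
      · intro h0
        rw [List.take_eq_nil_iff] at h0
        rcases h0 with h0 | h0
        · omega
        · rw [h0] at hnl
          simp at hnl
  obtain ⟨t1, t2⟩ := SNB1_take rest j n P' hj hnl hLk.2
  have hmidL : Linked mid := by
    rw [hmid, SNB1_linked_iff]
    refine ⟨?_, t1⟩
    intro Q hQ
    have h3 : (rest.take j ++ [P'.take (n + 1)]).head?.map List.head? = some Q.head? := by
      rw [Option.mem_def.1 hQ]
      rfl
    rw [t2] at h3
    obtain ⟨R, rest', hR⟩ : ∃ R rest', rest = R :: rest' := by
      cases rest with
      | nil => simp at hjl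
      | cons R rest' => exact ⟨R, rest', rfl⟩
    rw [hR] at h3
    have h4 : R.head? = Q.head? := by simpa using h3
    rw [← h4, ← hLk.1 R (by rw [hR]; rfl)]
    rw [List.getLast?_drop, if_neg (by omega)]
  have hmidNM : NoMatch K (Rigid G) mid := by
    -- every window of `mid` is a window of `Pt :: rest`
    have hwin : ∀ (i : ℕ) (Q : List V), mid[i]? = some Q → ∃ (Q' : List V) (s : ℕ),
        (Pt :: rest)[i]? = some Q' ∧ ∀ (b : ℕ) (z : V), Q[b]? = some z → Q'[s + b]? = some z := by
      intro i Q hQ
      cases i with
      | zero =>
        have hQ' : (v :: Pt).drop K = Q := by simpa [hmid] using hQ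
        refine ⟨Pt, K - 1, rfl, ?_⟩
        intro b z hz
        rw [← hQ', List.getElem?_drop] at hz
        have : K + b = (K - 1 + b) + 1 := by omega
        rw [this, List.getElem?_cons_succ] at hz
        exact hz
      | succ i =>
        rw [hmid, List.getElem?_cons_succ] at hQ
        rw [List.getElem?_cons_succ]
        by_cases hij : i < j
        · rw [List.getElem?_append_left (by rw [List.length_take]; omega), List.getElem?_take,
            if_pos hij] at hQ
          exact ⟨Q, 0, hQ, fun b z hz => by rw [zero_add]; exact hz⟩
        · have hle : (rest.take j).length ≤ i := by rw [List.length_take]; omega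
          rw [List.getElem?_append_right hle] at hQ
          have hi0 : i - (rest.take j).length = 0 := by
            by_contra hcon
            rw [List.getElem?_eq_none (by simp only [List.length_singleton]; omega)] at hQ
            simp at hQ
          have hlen : (rest.take j).length = j := by rw [List.length_take]; omega
          have hij' : i = j := by omega
          rw [hi0] at hQ
          have hQ' : P'.take (n + 1) = Q := by simpa using hQ
          refine ⟨P', 0, by rw [hij']; exact hj, ?_⟩
          intro b z hz
          rw [zero_add]
          rw [← hQ', List.getElem?_take] at hz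
          split at hz
          · exact hz
          · simp at hz
    intro i i' hii' Q Q' hQ hQ' b b' x z h1 h2 h3 h4
    obtain ⟨R, s, hR, hRs⟩ := hwin i Q hQ
    obtain ⟨R', s', hR', hRs'⟩ := hwin i' Q' hQ'
    exact hNM i i' hii' R R' hR hR' (s + b) (s' + b') x z (hRs _ _ h1)
      (by rw [add_assoc]; exact hRs _ _ h2) (hRs' _ _ h3) (by rw [add_assoc]; exact hRs' _ _ h4)
  have hcc := closed_count U.tree K hK (Rigid G) (fun u w => Rigid_symm u w) mid y hmidNB hmidL
    ⟨_, rfl, by rw [List.head?_drop]; exact hy⟩
    ⟨P'.take (n + 1), by rw [hmid]; simp [List.getLast?_cons, List.getLast?_append],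
      SNB1_getLast P' n y hn⟩ hmidNM
  have hmidlen : mid.length = j + 2 := by
    rw [hmid, List.length_cons, List.length_append, List.length_take, List.length_singleton,
      min_eq_left (by omega)]
  rw [hmidlen] at hcc
  rw [hmid, List.map_cons, List.sum_cons, List.map_append, List.sum_append, List.map_singleton,
    List.sum_singleton] at hcc
  -- the counts
  have e1 := cnt_eq U K hK hI.wf h
  have e2 := cnt_eq U K hK hWl hRl
  rw [hsegs, List.map_cons, List.sum_cons] at e1
  rw [hlseg, List.map_cons, List.sum_cons] at e2
  have e3 : (rest.map (cntR K (Rigid G))).sum = ((rest.take j).map (cntR K (Rigid G))).sum +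
      (cntR K (Rigid G) P' + ((rest.drop (j + 1)).map (cntR K (Rigid G))).sum) := by
    have h5 : rest = rest.take j ++ (P' :: rest.drop (j + 1)) := by
      conv_lhs => rw [← List.take_append_drop j rest]
      congr 1
      rw [List.drop_eq_getElem_cons hjl]
      congr 1
      rw [List.getElem?_eq_getElem hjl] at hj
      simpa using hj
    conv_lhs => rw [h5]
    rw [List.map_append, List.sum_append, List.map_cons, List.sum_cons]
  have e4 : cntR K (Rigid G) (v :: Pt) ≤ cntR K (Rigid G) ((v :: Pt).drop K) + K := by
    have h6 := cntR_append_le K (Rigid G) ((v :: Pt).take K) ((v :: Pt).drop K)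
    rw [List.take_append_drop] at h6
    refine le_trans h6 ?_
    rw [List.length_take]
    omega
  have e5 : cntR K (Rigid G) P' ≤ cntR K (Rigid G) (P'.take (n + 1)) +
      cntR K (Rigid G) (P'.drop n) + (K - 1) := by
    have h7 : P'.drop n = y :: P'.drop (n + 1) := by
      rw [List.drop_eq_getElem_cons hnl]
      congr 1
      rw [List.getElem?_eq_getElem hnl] at hn
      simpa using hn
    have h8 : P'.take (n + 1) = P'.take n ++ [y] := by
      rw [List.take_add_one, hn]
      rfl
    have h9 := cntR_split K hK (Rigid G) (P'.take n) (P'.drop (n + 1)) y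
    rw [← h7, ← h8, List.take_append_drop] at h9
    exact h9
  have e6 : 3 * K * (j + 2 - 1) = 3 * K * (j + 1) := by
    congr 1
  rw [e6] at hcc
  omega

end GWP
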