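import Pool.Agent.H55.GWP.SNA
import Pool.Agent.H55.GWP.CLC

/-! SNB2: the true group element of a match is one of the elements of `gam`.

`topW` is the top of `D`, the suffix `l` of `D` has its top window `(zK, …, z0)` = reverse of the
top window `(y0, …, yK)` of `D` (absolute positions: `P[0] = x`, `P[K] = y`, `P'[n] = y`,
`P'[n+K] = x`).  Let `g'` be the group element of the suffix `it :: rest = l.drop K` (`real_edges`)
and `γ = g'⁻¹ g`. -/

set_option autoImplicit false
open Classical
namespace GWP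

variable {S G V : Type*} [Fintype S] [Group G] [MulAction G V]

/-- the true state at the group element `g` and the local vertex `a` -/
def Tru (U : Setup S G V) (K : ℕ) (a : V) (D : List (Item V G)) (g : G) : Prop :=
  Inv U a D ∧ ∃ vs, Real U.o D g vs ∧ NoMatch K (Rigid G) (segsAbs D vs)

theorem gam_finite (U : Setup S G V) (K L s0 : ℕ) (top low : List (Item V G))
    (h : win K (Rigid G) top = 1) : (gam (parOf U K L s0) top low).Finite := by
  obtain ⟨x, y, hx, hy, hr⟩ := (win_eq_one K (Rigid G) top).1 h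
  by_cases hne : (gam (parOf U K L s0) top low).Nonempty
  · obtain ⟨γ₀, y0, yK, z0, zK, h1, h2, h3, h4, h5, h6⟩ := hne
    have hr' : {g : G | g • x = x ∧ g • y = y}.Finite := hr
    have h1' : some x = some y0 := by rw [← hx]; exact h1
    have h2' : some y = some yK := by rw [← hy]; exact h2
    simp only [Option.some.injEq] at h1' h2'
    subst h1' h2'
    refine (hr'.image (fun g => γ₀ * g)).subset ?_
    rintro γ ⟨y0, yK, z0', zK', k1, k2, k3, k4, k5, k6⟩
    have e1 : some x = some y0 := by rw [← hx]; exact k1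
    have e2 : some y = some yK := by rw [← hy]; exact k2
    simp only [Option.some.injEq] at e1 e2
    subst e1 e2
    have e3 : some zK = some zK' := by rw [← h3]; exact k3
    have e4 : some z0 = some z0' := by rw [← h4]; exact k4
    simp only [Option.some.injEq] at e3 e4
    subst e3 e4
    refine ⟨γ₀⁻¹ * γ, ⟨?_, ?_⟩, by simp⟩
    · rw [mul_smul, k5, ← h5, inv_smul_smul]
    · rw [mul_smul, k6, ← h6, inv_smul_smul]
  · rw [Set.not_nonempty_iff_eq_empty.1 hne]
    exact Set.finite_empty

theorem mem_listOf {α : Type*} (s : Set α) (hs : s.Finite) (x : α) : x ∈ listOf s ↔ x ∈ s := by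
  unfold listOf
  rw [dif_pos hs]
  simp

theorem gam_true (U : Setup S G V) (K L s0 : ℕ) (hK : 1 ≤ K) (a : V) (g gl g' : G)
    (D₁ E rest : List (Item V G)) (it : Item V G) (vs : List V)
    (hI : Inv U a (D₁ ++ (E ++ it :: rest))) (hE : ∀ x ∈ E, ¬ x.isHole) (hEK : E.length = K)
    (h : Real U.o (D₁ ++ (E ++ it :: rest)) g vs)
    (hl : Real U.o (E ++ it :: rest) gl (vs.drop D₁.length))
    (h' : Real U.o (it :: rest) g' (vs.drop (D₁.length + K))) (hgl : gl = g' * cprod E)
    (x y : V) (hx : (seg (D₁ ++ (E ++ it :: rest)))[0]? = some (g⁻¹ • x))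
    (hy : (seg (D₁ ++ (E ++ it :: rest)))[K]? = some (g⁻¹ • y))
    (hy' : (seg (E ++ it :: rest))[0]? = some (gl⁻¹ • y))
    (hx' : (seg (E ++ it :: rest))[K]? = some (gl⁻¹ • x)) :
    g'⁻¹ * g ∈ gam (parOf U K L s0) ((D₁ ++ (E ++ it :: rest)).take (K + 1))
      ((E ++ it :: rest).take (K + 1)) := by
  have htp : topProd K ((E ++ it :: rest).take (K + 1)) = cprod E := by
    unfold topProd cprod
    congr 3
    rw [List.take_take, ← hEK]
    simp
  refine ⟨g⁻¹ • x, g⁻¹ • y, gl⁻¹ • x, gl⁻¹ • y, ?_, ?_, ?_, ?_, ?_, ?_⟩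
  · rw [seg_take, List.getElem?_take, if_pos (by omega)]
    exact hx
  · show (seg ((D₁ ++ (E ++ it :: rest)).take (K + 1)))[K]? = _
    rw [seg_take, List.getElem?_take, if_pos (by omega)]
    exact hy
  · rw [seg_take, List.getElem?_take, if_pos (by omega)]
    exact hy'
  · show (seg ((E ++ it :: rest).take (K + 1)))[K]? = _
    rw [seg_take, List.getElem?_take, if_pos (by omega)]
    exact hx'
  · show (g'⁻¹ * g) • g⁻¹ • x = topProd K ((E ++ it :: rest).take (K + 1)) • gl⁻¹ • x
    rw [htp, hgl, smul_smul, smul_smul]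
    congr 1
    group
  · show (g'⁻¹ * g) • g⁻¹ • y = topProd K ((E ++ it :: rest).take (K + 1)) • gl⁻¹ • y
    rw [htp, hgl, smul_smul, smul_smul]
    congr 1
    group

end GWP
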