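import Pool.Agent.H55.GWP.SNB1
import Pool.Agent.H55.GWP.SNB2

/-! SNB3: after a push that creates a match, some claim restores the absence of matches. -/

set_option autoImplicit false
open Classical
namespace GWP

variable {S G V : Type*} [Fintype S] [Group G] [MulAction G V]

theorem SNB3_ne (D : List (Item V G)) (vs : List V) (hD : D ≠ []) (hvs : vs ≠ []) :
    segsAbs D vs ≠ [] := by
  cases D with
  | nil => exact absurd rfl hD
  | cons it D =>
    cases vs with
    | nil => exact absurd rfl hvs
    | cons v vs =>
      cases D with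
      | nil => simp [segsAbs]
      | cons it' D =>
        by_cases h : it.isHole
        · simp [segsAbs, h]
        · simp only [segsAbs, h, if_false]
          split <;> simp

theorem SNB3_mul (it : Item V G) (x : G) (D : List (Item V G)) (vs : List V) :
    segsAbs (it.mul x :: D) vs = segsAbs (it :: D) vs := by
  cases vs with
  | nil => rfl
  | cons v vs =>
    cases D with
    | nil => rfl
    | cons it' D =>
      cases it <;> simp [segsAbs, Item.mul, Item.isHole]

theorem SNB3_drop (E l : List (Item V G)) (hE : ∀ x ∈ E, ¬ x.isHole) (hl : l ≠ [])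
    (vs : List V) (hlen : vs.length = (E ++ l).length) (P : List V) (Ps : List (List V))
    (h : segsAbs (E ++ l) vs = P :: Ps) :
    segsAbs l (vs.drop E.length) = P.drop E.length :: Ps := by
  induction E generalizing vs P Ps with
  | nil => simpa using h
  | cons e E ih =>
    cases vs with
    | nil => simp at hlen
    | cons v vs =>
      have hne : E ++ l ≠ [] := by simp [hl]
      have hvs : vs ≠ [] := by
        intro h0
        subst h0
        simp at hlen
        exact hl hlen.2
      have he : ¬ e.isHole := hE e (by simp)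
      have hlen' : vs.length = (E ++ l).length := by simpa using hlen
      obtain ⟨f, F, hF⟩ : ∃ f F, E ++ l = f :: F := by
        cases hq : E ++ l with
        | nil => exact absurd hq hne
        | cons f F => exact ⟨f, F, rfl⟩
      rw [List.cons_append, hF] at h
      simp only [segsAbs, he, if_false] at h
      rw [← hF] at h
      cases hs : segsAbs (E ++ l) vs with
      | nil => exact absurd hs (SNB3_ne _ _ hne hvs)
      | cons P0 Ps0 =>
        rw [hs] at h
        simp only [List.cons.injEq] at h
        obtain ⟨h1, h2⟩ := h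
        have := ih (fun x hx => hE x (by simp [hx])) vs hlen' P0 Ps0 hs
        simp only [List.length_cons, List.drop_succ_cons]
        rw [this, ← h1, ← h2]
        simp

/-- the vertex of the top item -/
theorem SNB3_pos {o : V} {it : Item V G} {D : List (Item V G)} {g : G} {vs : List V}
    (h : Real o (it :: D) g vs) : vs.head? = some (g • (it.con⁻¹ • it.pos)) := by
  cases h with
  | base h c q hq =>
    simp only [Item.con, Item.pos, List.head?_cons, Option.some.injEq]
    rw [← hq, mul_smul, smul_inv_smul]
  | edge D g v vs p q c hR hp =>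
    simp only [Item.con, Item.pos, List.head?_cons, Option.some.injEq]
    rw [mul_smul, smul_inv_smul]
  | hole D g v vs h q c hR hq =>
    simp only [Item.con, Item.pos, List.head?_cons, Option.some.injEq]
    rw [← hq, mul_smul, smul_inv_smul]

/-- forgetting -/
theorem SNB3_ovf (K : ℕ) (hK : 1 ≤ K) (Rig : V → V → Prop) {o a : V} {it : Item V G}
    {D : List (Item V G)} {g g' : G} {vs : List V}
    (h : Real o (it :: D) g' vs) (ha : vs.head? = some (g • a))
    (hN : NoMatch K Rig (segsAbs (it :: D) vs)) :
    ∃ vs', Real o (ovfTop a it ++ D) g vs' ∧ NoMatch K Rig (segsAbs (ovfTop a it ++ D) vs') := by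
  cases h with
  | base h c q hq =>
    refine ⟨[o], ?_, ?_⟩
    · have h1 : g • a = o := by simpa using ha.symm
      have := Real.base (o := o) g 1 a h1
      simpa [ovfTop] using this
    · simpa [segsAbs, ovfTop] using hN
  | edge D g₀ v vs p q c hR hp =>
    have h1 : g • a = g₀ • q := by simpa using ha.symm
    have h2 : Real o (.edge p q 1 :: D) (g₀ * 1) (g₀ • q :: v :: vs) := Real.edge D g₀ v vs p q 1 hR hp
    have h3 := Real.hole _ _ _ _ g a 1 h2 h1
    refine ⟨g₀ • q :: g₀ • q :: v :: vs, by simpa [ovfTop] using h3, ?_⟩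
    have h4 : segsAbs (Item.hole a (1 : G) :: Item.edge p q 1 :: D) (g₀ • q :: g₀ • q :: v :: vs) =
        [g₀ • q] :: segsAbs (Item.edge p q c :: D) (g₀ • q :: v :: vs) := by
      have h5 : segsAbs (Item.edge p q (1 : G) :: D) (g₀ • q :: v :: vs) =
          segsAbs (Item.edge p q c :: D) (g₀ • q :: v :: vs) := by
        have := SNB3_mul (Item.edge p q (1 : G)) c D (g₀ • q :: v :: vs)
        simpa [Item.mul] using this.symm
      rw [← h5]
      simp [segsAbs, Item.isHole]
    show NoMatch K Rig (segsAbs (Item.hole a (1 : G) :: Item.edge p q 1 :: D) _)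
    rw [h4]
    exact noMatch_single K hK Rig _ _ hN
  | hole D g₀ v vs h q c hR hq =>
    have h1 : g • a = v := by simpa using ha.symm
    have h3 := Real.hole _ _ _ _ g a 1 hR h1
    refine ⟨v :: v :: vs, by simpa [ovfTop] using h3, ?_⟩
    have h4 : segsAbs (Item.hole a (1 : G) :: D) (v :: v :: vs) =
        segsAbs (Item.hole q c :: D) (v :: v :: vs) := by
      cases D with
      | nil => rfl
      | cons d D => simp [segsAbs, Item.isHole]
    show NoMatch K Rig (segsAbs (Item.hole a (1 : G) :: D) _)
    rw [h4]
    exact hN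

theorem claim_step (U : Setup S G V) (K L s0 : ℕ) (hK : 1 ≤ K) (a : V)
    (D : List (Item V G)) (g : G) (ha : a ∈ V0 U)
    (vs : List V) (hI : Inv U a D) (h : Real U.o D g vs) (v : V) (Pt : List V)
    (rest : List (List V)) (hsegs : segsAbs D vs = (v :: Pt) :: rest)
    (hPt : Pt ≠ []) (hNM : NoMatch K (Rigid G) (Pt :: rest))
    (hM : ¬ NoMatch K (Rigid G) ((v :: Pt) :: rest)) :
    ∃ D' ∈ claims (parOf U K L s0) a D, Tru U K a D' g := by
  unfold NoMatch at hM
  push Not at hM
  obtain ⟨i, j, hij, P, P', hP, hP', b0, n, x, y, h1, h2, h3, h4, hrig⟩ := hM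
  obtain ⟨j, rfl⟩ : ∃ j', j = j' + 1 := ⟨j - 1, by omega⟩
  have hi0 : i = 0 := by
    by_contra hi0
    obtain ⟨i, rfl⟩ : ∃ i', i = i' + 1 := ⟨i - 1, by omega⟩
    exact hNM (i + 1) (j + 1) hij P P' (by simpa using hP) (by simpa using hP') b0 n x y h1 h2 h3
      h4 hrig
  subst hi0
  obtain rfl : v :: Pt = P := by simpa using hP
  have hP'' : rest[j]? = some P' := by simpa using hP'
  have hb0 : b0 = 0 := by
    by_contra hb0
    obtain ⟨b0, rfl⟩ : ∃ b', b0 = b' + 1 := ⟨b0 - 1, by omega⟩
    refine hNM 0 (j + 1) hij Pt P' rfl (by simpa using hP') b0 n x y (by simpa using h1) ?_ h3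
      h4 hrig
    have : b0 + 1 + K = (b0 + K) + 1 := by omega
    rw [this] at h2
    simpa using h2
  subst hb0
  obtain rfl : v = x := by simpa using h1
  rw [Nat.zero_add] at h2
  have hnK : n + K < P'.length := by
    by_contra hcon
    rw [List.getElem?_eq_none (by omega)] at h4
    simp at h4
  obtain ⟨D₁, l, hD, hl, hholes, hlseg⟩ := segs_locate U hI.wf h (j + 1) n P'
    (by rw [hsegs]; simpa using hP'') (by omega)
  rw [hsegs, List.drop_succ_cons] at hlseg
  obtain ⟨gl, hRl⟩ := real_suffix (D₁ := D₁) hl (by rw [← hD]; exact h)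
  have hWl : WF U.T l := WF_suffix U.T D₁ l hl (by rw [← hD]; exact hI.wf)
  have hsl := real_seg U hWl hRl
  rw [hlseg] at hsl
  simp only [List.head?_cons, Option.some.injEq] at hsl
  have hsD := real_seg U hI.wf h
  rw [hsegs] at hsD
  simp only [List.head?_cons, Option.some.injEq] at hsD
  have hl0 : (seg l)[0]? = some (gl⁻¹ • y) := by
    have : ((seg l).map (gl • ·))[0]? = some y := by
      rw [← hsl]
      simpa using h3
    rw [List.getElem?_map] at this
    cases hq : (seg l)[0]? with
    | none => rw [hq] at this; simp at this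
    | some z =>
      rw [hq] at this
      simp only [Option.map_some, Option.some.injEq] at this
      rw [← this, inv_smul_smul]
  have hlK : (seg l)[K]? = some (gl⁻¹ • v) := by
    have : ((seg l).map (gl • ·))[K]? = some v := by
      rw [← hsl]
      rw [List.getElem?_drop]
      exact h4
    rw [List.getElem?_map] at this
    cases hq : (seg l)[K]? with
    | none => rw [hq] at this; simp at this
    | some z =>
      rw [hq] at this
      simp only [Option.map_some, Option.some.injEq] at this
      rw [← this, inv_smul_smul]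
  have hD0 : (seg D)[0]? = some (g⁻¹ • v) := by
    have : ((seg D).map (g • ·))[0]? = some v := by
      rw [← hsD]
      simp
    rw [List.getElem?_map] at this
    cases hq : (seg D)[0]? with
    | none => rw [hq] at this; simp at this
    | some z =>
      rw [hq] at this
      simp only [Option.map_some, Option.some.injEq] at this
      rw [← this, inv_smul_smul]
  have hDK : (seg D)[K]? = some (g⁻¹ • y) := by
    have : ((seg D).map (g • ·))[K]? = some y := by
      rw [← hsD]
      exact h2
    rw [List.getElem?_map] at this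
    cases hq : (seg D)[K]? with
    | none => rw [hq] at this; simp at this
    | some z =>
      rw [hq] at this
      simp only [Option.map_some, Option.some.injEq] at this
      rw [← this, inv_smul_smul]
  have hwD : win K (Rigid G) D = 1 :=
    (win_eq_one K _ D).2 ⟨_, _, hD0, hDK, (Rigid_smul g⁻¹ v y).2 hrig⟩
  have hwl : win K (Rigid G) l = 1 :=
    (win_eq_one K _ l).2 ⟨_, _, hl0, hlK, (Rigid_smul gl⁻¹ y v).2 ((Rigid_symm v y).1 hrig)⟩
  obtain ⟨E, rest2, it, hlE, hEK, hE⟩ := win_items K _ l hwl
  have hRl' := hRl
  rw [hlE] at hRl'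
  obtain ⟨g', hR', hgl⟩ := real_edges (by simp) hE hRl'
  have hgl' : gl = g' * cprod E := hgl
  rw [List.drop_drop] at hR'
  -- the segments below
  have hlenl : (vs.drop D₁.length).length = (E ++ it :: rest2).length := by
    rw [← hlE]
    exact real_length hRl
  have hseg2 : segsAbs (it :: rest2) (vs.drop (D₁.length + E.length)) =
      (P'.drop n).drop K :: rest.drop (j + 1) := by
    have h6 := SNB3_drop E (it :: rest2) hE (by simp) (vs.drop D₁.length) hlenl (P'.drop n)
      (rest.drop (j + 1)) (by rw [← hlE]; exact hlseg)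
    rw [List.drop_drop, hEK] at h6
    rw [hEK]
    exact h6
  have hNM2 : NoMatch K (Rigid G) (segsAbs (it :: rest2) (vs.drop (D₁.length + E.length))) := by
    rw [hseg2, List.drop_drop]
    have h7 := noMatch_drop K (Rigid G) (Pt :: rest) (j + 1) (n + K) P' (by simpa using hP'') hNM
    simpa using h7
  -- the head
  have hva : v = g • a := by
    have h8 := real_head U h hI
    obtain ⟨P0, hP0, hP0'⟩ := segs_head U hI.wf h
    rw [hsegs] at hP0
    simp only [List.head?_cons, Option.mem_def, Option.some.injEq] at hP0
    rw [← hP0, h8] at hP0'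
    simpa using hP0'
  have hWit : WF U.T (it :: rest2) := WF_suffix U.T E (it :: rest2) (by simp) (by rw [← hlE]; exact hWl)
  have hhead : (vs.drop (D₁.length + E.length)).head? = some (g • a) := by
    obtain ⟨P0, hP0, hP0'⟩ := segs_head U hWit hR'
    rw [hseg2] at hP0
    simp only [List.head?_cons, Option.mem_def, Option.some.injEq] at hP0
    rw [← hP0'] 
    rw [← hP0, ← hva]
    rw [List.drop_drop, List.head?_drop]
    exact h4
  have hgam : g'⁻¹ * g ∈ gam (parOf U K L s0) ((D₁ ++ (E ++ it :: rest2)).take (K + 1))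
      ((E ++ it :: rest2).take (K + 1)) := by
    apply gam_true U K L s0 hK a g gl g' D₁ E rest2 it vs (by rw [← hlE, ← hD]; exact hI) hE hEK
      (by rw [← hlE, ← hD]; exact h) (by rw [← hlE]; exact hRl) (by rw [← hEK]; exact hR') hgl'
      v y (by rw [← hlE, ← hD]; exact hD0) (by rw [← hlE, ← hD]; exact hDK)
      (by rw [← hlE]; exact hl0) (by rw [← hlE]; exact hlK)
  rw [← hlE, ← hD] at hgam
  have hcc := count_cond U K hK a D g vs hI h v y Pt rest hsegs hPt hNM h2 j n P' hP'' h3 D₁ l hD
    hl hlseg
  have hhl : holes D - holes l = j + 1 := by omega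
  -- membership in the claims
  have hmem : ∀ X ∈ claimTop (parOf U K L s0) a (D.take (K + 1)) (l.take (K + 1)),
      X ++ rest2 ∈ claims (parOf U K L s0) a D := by
    intro X hX
    unfold claims
    rw [List.mem_flatMap]
    refine ⟨l, ?_, ?_⟩
    · rw [List.mem_tails]
      exact ⟨D₁, hD.symm⟩
    · show X ++ rest2 ∈ (if holes l < holes D ∧ cnt K (Rigid G) D ≤ cnt K (Rigid G) l +
        3 * K * (holes D - holes l) + 2 * K then _ else [])
      rw [if_pos ⟨by omega, by rw [hhl]; exact hcc⟩]
      rw [List.mem_map]
      refine ⟨X, hX, ?_⟩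
      congr 1
      show l.drop (K + 1) = rest2
      rw [hlE, ← hEK]
      simp [List.drop_append]
  have hlow : (l.take (K + 1)).drop K = [it] := by
    rw [hlE, ← hEK]
    simp [List.take_append, List.drop_append]
  have hwD' : win K (Rigid G) (D.take (K + 1)) = 1 := by rw [win_take, hwD]
  have hwl' : win K (Rigid G) (l.take (K + 1)) = 1 := by rw [win_take, hwl]
  have hclaim : claimTop (parOf U K L s0) a (D.take (K + 1)) (l.take (K + 1)) =
      if ∀ x ∈ (D.take (K + 1)).take K ++ (l.take (K + 1)).take K, wlen U.e x.con ≤ s0 then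
        (listOf (gam (parOf U K L s0) (D.take (K + 1)) (l.take (K + 1)))).map
          (fun γ => nrmTop (wlen U.e) L a (it.mul γ))
      else [ovfTop a it] := by
    unfold claimTop
    show (if win K (Rigid G) (D.take (K + 1)) = 1 ∧ win K (Rigid G) (l.take (K + 1)) = 1 then
      (match (l.take (K + 1)).drop K with
       | it :: _ => _
       | [] => _) else []) = _
    rw [if_pos ⟨hwD', hwl'⟩, hlow]
    rfl
  by_cases hall : ∀ x ∈ (D.take (K + 1)).take K ++ (l.take (K + 1)).take K,
      wlen U.e x.con ≤ s0
  · rw [if_pos hall] at hclaim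
    have hR2 : Real U.o (it.mul (g'⁻¹ * g) :: rest2) g (vs.drop (D₁.length + E.length)) := by
      have := real_top (x := g'⁻¹ * g) hR'
      rwa [mul_inv_cancel_left] at this
    have hX : nrmTop (wlen U.e) L a (it.mul (g'⁻¹ * g)) ∈
        claimTop (parOf U K L s0) a (D.take (K + 1)) (l.take (K + 1)) := by
      rw [hclaim, List.mem_map]
      refine ⟨g'⁻¹ * g, ?_, rfl⟩
      exact (mem_listOf _ (gam_finite U K L s0 _ _ hwD') _).2 hgam
    have hm := hmem _ hX
    refine ⟨_, hm, claims_inv U K L s0 hK a D ha hI _ hm, ?_⟩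
    unfold nrmTop
    by_cases hlen : wlen U.e (it.mul (g'⁻¹ * g)).con ≤ L
    · rw [if_pos hlen]
      refine ⟨_, by simpa using hR2, ?_⟩
      show NoMatch K (Rigid G) (segsAbs (it.mul (g'⁻¹ * g) :: rest2) _)
      rw [SNB3_mul]
      exact hNM2
    · rw [if_neg hlen]
      have hov : ovfTop a (it.mul (g'⁻¹ * g)) = ovfTop a it := by
        cases it <;> rfl
      rw [hov]
      exact SNB3_ovf K hK (Rigid G) hR' hhead hNM2
  · rw [if_neg hall] at hclaim
    have hX : ovfTop a it ∈
        claimTop (parOf U K L s0) a (D.take (K + 1)) (l.take (K + 1)) := by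
      rw [hclaim]
      simp
    have hm := hmem _ hX
    refine ⟨_, hm, claims_inv U K L s0 hK a D ha hI _ hm, ?_⟩
    exact SNB3_ovf K hK (Rigid G) hR' hhead hNM2

end GWP
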