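import Pool.Agent.H55.GWP.IND
import Pool.Agent.H55.GWP.CLB
import Pool.Agent.H55.GWP.BLK
import Pool.Agent.H55.GWP.CTA

/-! TOT1: choice of the constants, contraction of the total potential over a block. -/

set_option autoImplicit false
open Classical
namespace GWP

variable {S G V : Type*} [Fintype S] [Group G] [MulAction G V]

/-- The number of operations of a word. -/
theorem TOT1_len (U : Setup S G V) : ∃ l : ℕ, ∀ w : List S, (opsW U w).length ≤ w.length * l := by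
  refine ⟨Finset.univ.sup (fun s => (opsL U s).length), fun w => ?_⟩
  induction w with
  | nil => simp [opsW]
  | cons s w ih =>
    have h1 : opsW U (s :: w) = opsL U s ++ opsW U w := by
      unfold opsW
      rw [List.flatMap_cons]
    have h2 : (opsL U s).length ≤ Finset.univ.sup (fun s => (opsL U s).length) :=
      Finset.le_sup (f := fun s => (opsL U s).length) (Finset.mem_univ s)
    rw [h1, List.length_append, List.length_cons, Nat.succ_mul]
    omega

/-- The increment of `NR` over a word. -/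
theorem TOT1_NR (U : Setup S G V) [Nonempty S] (K : ℕ) : ∃ J : ℝ, ∀ (w : List S) (x : V),
    |(NR U.tree K (Rigid G) x (ev U.e w • U.o) : ℝ) - NR U.tree K (Rigid G) x U.o| ≤
      w.length * J := by
  obtain ⟨J, hJ⟩ : ∃ J : ℝ, ∀ s, (U.T.dist (U.e s • U.o) U.o : ℝ) ≤ J := by
    obtain ⟨J, hJ⟩ := (Set.finite_range (fun s => (U.T.dist (U.e s • U.o) U.o : ℝ))).bddAbove
    exact ⟨J, fun s => hJ ⟨s, rfl⟩⟩
  refine ⟨J, fun w x => ?_⟩
  exact CTA_word U.e U.o (fun x y => (NR U.tree K (Rigid G) x y : ℝ)) (fun g x y => by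
    show (NR U.tree K (Rigid G) (g • x) (g • y) : ℝ) = NR U.tree K (Rigid G) x y
    rw [NR_smul U.tree U.act K (Rigid G) (fun g u v => Rigid_smul g u v)]) J (fun s x =>
    (NR_lipschitz U.tree K (Rigid G) x (U.e s • U.o) U.o).trans (hJ s)) w x

/-- TOT1.  Choose `b > 1` with `b ^ m * κ < 1`, then (`T₀` = max number of operations of a word of
length `≤ m`, finite because the alphabet is finite) `δ ≤ 1` with
`b^m κ + ((1+2δ)^{T₀} - 1) (e^α b)^{T₀} < 1`; `claims_bound` gives `s0, Q₁`; `Q := max Q₁ 1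
(exp (3 K α))`; then `L` from `claims_bound` and `ovf_bound`; use `runOps_sum_le`, `main_block`
(with `x` = base of the top segment, `seg_eq_tpath`) and the hypothesis `hcon` at `x`. -/
theorem block_contraction [Nonempty S] (U : Setup S G V) (K : ℕ) (hK : 1 ≤ K) (m : ℕ)
    (hm : 1 ≤ m) (α κ : ℝ) (hα : 0 < α) (hκ0 : 0 < κ) (hκ : κ < 1)
    (hcon : ∀ x : V,
      wsum m (fun w => Real.exp (-(α * ((NR U.tree K (Rigid G) x (ev U.e w • U.o) : ℝ) -
        NR U.tree K (Rigid G) x U.o)))) ≤ κ * (Fintype.card S : ℝ) ^ m) :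
    ∃ L s0 : ℕ, ∃ Q b κ₁ C₂ : ℝ, 1 ≤ Q ∧ Real.exp (3 * K * α) ≤ Q ∧ 1 < b ∧ 0 < κ₁ ∧ κ₁ < 1 ∧
      0 < C₂ ∧
      (∀ (w : List S) (D : List (Item V G)), w.length ≤ m → Inv U U.o D →
        ((runOps (parOf U K L s0) (opsW U w) D).map (pot K (Rigid G) (wlen U.e) α Q b)).sum ≤
          C₂ * pot K (Rigid G) (wlen U.e) α Q b D) ∧
      (∀ D : List (Item V G), Inv U U.o D →
        wsum m (fun w => ((runOps (parOf U K L s0) (opsW U w) D).map
          (pot K (Rigid G) (wlen U.e) α Q b)).sum) ≤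
          κ₁ * (Fintype.card S : ℝ) ^ m * pot K (Rigid G) (wlen U.e) α Q b D) := by
  -- the base
  obtain ⟨b, hb1, hbm⟩ : ∃ b : ℝ, 1 < b ∧ b ^ m * κ < 1 := by
    have hcont : Continuous fun b : ℝ => b ^ m * κ := by fun_prop
    have h1 : ∀ᶠ b in nhds (1 : ℝ), b ^ m * κ < 1 := by
      refine hcont.continuousAt.eventually_lt continuousAt_const ?_
      rw [one_pow, one_mul]
      exact hκ
    have h2 : ∀ᶠ b in nhdsWithin (1 : ℝ) (Set.Ioi 1), 1 < b ∧ b ^ m * κ < 1 :=
      (eventually_mem_nhdsWithin).and (h1.filter_mono nhdsWithin_le_nhds)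
    exact h2.exists
  have hb0 : 0 < b := by linarith
  obtain ⟨l, hl⟩ := TOT1_len U
  obtain ⟨J, hJ⟩ := TOT1_NR U K
  obtain ⟨T, hT⟩ : ∃ T : ℕ, T = m * l := ⟨_, rfl⟩
  obtain ⟨M, hM⟩ : ∃ M : ℝ, M = Real.exp α * b := ⟨_, rfl⟩
  have hM1 : 1 ≤ M := by
    rw [hM]
    have h1 : 1 ≤ Real.exp α := Real.one_le_exp hα.le
    nlinarith
  -- the small number
  obtain ⟨δ, hδ0, hδ1, hδ⟩ : ∃ δ : ℝ, 0 < δ ∧ δ ≤ 1 ∧
      b ^ m * κ + ((1 + 2 * δ) ^ T - 1) * M ^ T < 1 := by
    have hcont : Continuous fun δ : ℝ => b ^ m * κ + ((1 + 2 * δ) ^ T - 1) * M ^ T := by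
      fun_prop
    have h1 : ∀ᶠ δ in nhds (0 : ℝ), b ^ m * κ + ((1 + 2 * δ) ^ T - 1) * M ^ T < 1 := by
      refine hcont.continuousAt.eventually_lt continuousAt_const ?_
      rw [mul_zero, add_zero, one_pow, sub_self, zero_mul, add_zero]
      exact hbm
    have h2 : ∀ᶠ δ in nhdsWithin (0 : ℝ) (Set.Ioi 0), 0 < δ ∧ δ ≤ 1 ∧
        b ^ m * κ + ((1 + 2 * δ) ^ T - 1) * M ^ T < 1 := by
      refine (eventually_mem_nhdsWithin).and (Filter.Eventually.and ?_
        (h1.filter_mono nhdsWithin_le_nhds))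
      exact (eventually_le_nhds (by norm_num : (0 : ℝ) < 1)).filter_mono nhdsWithin_le_nhds
    exact h2.exists
  obtain ⟨s0, Q₁, hcl⟩ := claims_bound U K hK α b δ hα hb1 hδ0
  obtain ⟨Q, hQ⟩ : ∃ Q : ℝ, Q = max Q₁ (max 1 (Real.exp (3 * K * α))) := ⟨_, rfl⟩
  have hQ1 : Q₁ ≤ Q := by rw [hQ]; exact le_max_left _ _
  have hQ2 : 1 ≤ Q := by rw [hQ]; exact (le_max_left _ _).trans (le_max_right _ _)
  have hQ3 : Real.exp (3 * K * α) ≤ Q := by
    rw [hQ]; exact (le_max_right _ _).trans (le_max_right _ _)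
  obtain ⟨L₁, hL₁⟩ := hcl Q hQ1 hQ2
  obtain ⟨L₂, hL₂⟩ := ovf_bound U K hK α b δ hα hb1 hδ0 Q hQ2
  obtain ⟨L, hL⟩ : ∃ L : ℕ, L = max L₁ L₂ := ⟨_, rfl⟩
  have hLa := hL₁ L (by rw [hL]; exact le_max_left _ _)
  have hLb := hL₂ L (by rw [hL]; exact le_max_right _ _)
  have hpot : ∀ D : List (Item V G), 0 < pot K (Rigid G) (wlen U.e) α Q b D := fun D =>
    pot_pos K (Rigid G) (wlen U.e) α Q b (by linarith) hb0 D
  obtain ⟨R, hR⟩ : ∃ R : ℝ, R = ((1 + 2 * δ) ^ T - 1) * M ^ T := ⟨_, rfl⟩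
  have h12 : 1 ≤ 1 + 2 * δ := by linarith
  have hR0 : 0 ≤ R := by
    rw [hR]
    have h1 : 1 ≤ (1 + 2 * δ) ^ T := one_le_pow₀ h12
    have h2 : 0 ≤ M ^ T := by positivity
    exact mul_nonneg (by linarith) h2
  -- one word
  have key : ∀ (w : List S) (D : List (Item V G)), w.length ≤ m → Inv U U.o D → ∀ x : V,
      (seg D).getLast? = some x →
      ((runOps (parOf U K L s0) (opsW U w) D).map (pot K (Rigid G) (wlen U.e) α Q b)).sum ≤
        b ^ w.length * Real.exp (-(α * ((NR U.tree K (Rigid G) x (ev U.e w • U.o) : ℝ) -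
        NR U.tree K (Rigid G) x U.o))) * pot K (Rigid G) (wlen U.e) α Q b D +
        R * pot K (Rigid G) (wlen U.e) α Q b D := by
    intro w D hw hD x hx
    have h1 := runOps_sum_le U K L s0 hK α Q b δ hα hQ2 hb1 hδ0 hδ1 hLa hLb (opsW U w) U.o U.o D
      (opsW_ok U w) hD
    have h2 := main_block U K L s0 hK α Q b hα hQ2 hb1.le D hD x hx w
    rw [← hM] at h1
    have hlen : (opsW U w).length ≤ T := by
      rw [hT]
      exact (hl w).trans (Nat.mul_le_mul_right _ hw)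
    have h3 : ((1 + 2 * δ) ^ (opsW U w).length - 1) * M ^ (opsW U w).length ≤ R := by
      rw [hR]
      have h4 : (1 + 2 * δ) ^ (opsW U w).length ≤ (1 + 2 * δ) ^ T := pow_le_pow_right₀ h12 hlen
      have h5 : M ^ (opsW U w).length ≤ M ^ T := pow_le_pow_right₀ hM1 hlen
      have h6 : 1 ≤ (1 + 2 * δ) ^ T := one_le_pow₀ h12
      exact mul_le_mul (by linarith) h5 (by positivity) (by linarith)
    have h7 := mul_le_mul_of_nonneg_right h3 (hpot D).le
    linarith
  have hJ0 : 0 ≤ (m : ℝ) * |J| := by positivity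
  refine ⟨L, s0, Q, b, b ^ m * κ + R, b ^ m * Real.exp (α * (m * |J|)) + R, hQ2, hQ3, hb1,
    by positivity, by rw [hR]; exact hδ, by positivity, fun w D hw hD => ?_, fun D hD => ?_⟩
  · obtain ⟨x, hx, -⟩ := seg_eq_tpath U U.o D hD
    refine (key w D hw hD x hx).trans ?_
    rw [add_mul]
    refine add_le_add (mul_le_mul_of_nonneg_right ?_ (hpot D).le) le_rfl
    refine mul_le_mul (pow_le_pow_right₀ hb1.le hw) (Real.exp_le_exp.2 ?_) (Real.exp_pos _).le
      (by positivity)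
    have h1 := (abs_le.1 (hJ w x)).1
    have h2 : (w.length : ℝ) * J ≤ m * |J| := by
      have h3 : (w.length : ℝ) ≤ m := by exact_mod_cast hw
      have h4 : (w.length : ℝ) * J ≤ w.length * |J| :=
        mul_le_mul_of_nonneg_left (le_abs_self J) (Nat.cast_nonneg _)
      exact h4.trans (mul_le_mul_of_nonneg_right h3 (abs_nonneg J))
    have h5 := mul_le_mul_of_nonneg_left h1 hα.le
    have h6 := mul_le_mul_of_nonneg_left h2 hα.le
    linarith
  · obtain ⟨x, hx, -⟩ := seg_eq_tpath U U.o D hD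
    have h1 : wsum m (fun w => ((runOps (parOf U K L s0) (opsW U w) D).map
          (pot K (Rigid G) (wlen U.e) α Q b)).sum) ≤
        wsum m (fun w => (b ^ m * pot K (Rigid G) (wlen U.e) α Q b D) *
          Real.exp (-(α * ((NR U.tree K (Rigid G) x (ev U.e w • U.o) : ℝ) -
          NR U.tree K (Rigid G) x U.o))) + R * pot K (Rigid G) (wlen U.e) α Q b D) := by
      refine wsum_le m _ _ fun w hw => ?_
      have h2 := key w D hw.le hD x hx
      rw [hw] at h2
      linarith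
    refine h1.trans ?_
    rw [wsum_add, wsum_mul, wsum_const]
    have h3 := mul_le_mul_of_nonneg_left (hcon x)
      (show 0 ≤ b ^ m * pot K (Rigid G) (wlen U.e) α Q b D from
        mul_nonneg (by positivity) (hpot D).le)
    linarith

end GWP
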