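import Pool.Agent.H55.GWP.Defs

/-! TRA: non-backtracking lists and geodesics. -/

set_option autoImplicit false
open Classical
namespace GWP

variable {V : Type*} {T : SimpleGraph V}

theorem TRA_walk : ∀ (l : List V), NB T l → ∀ (y x : V), l.head? = some y →
    l.getLast? = some x → ∃ p : T.Walk y x, p.support = l
  | [], h, _, _, _, _ => absurd h (by simp [NB])
  | [v], _, y, x, hy, hx => by
    simp only [List.head?_cons, Option.some.injEq] at hy
    simp only [List.getLast?_singleton, Option.some.injEq] at hx
    subst hy; subst hx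
    exact ⟨SimpleGraph.Walk.nil, rfl⟩
  | v :: w :: l, h, y, x, hy, hx => by
    simp only [List.head?_cons, Option.some.injEq] at hy
    subst hy
    rw [List.getLast?_cons_cons] at hx
    obtain ⟨p, hp⟩ := TRA_walk (w :: l) h.2.2 w x rfl hx
    exact ⟨SimpleGraph.Walk.cons h.1 p, by rw [SimpleGraph.Walk.support_cons, hp]⟩

theorem TRA_of_chain : ∀ (l : List V), l ≠ [] → List.IsChain T.Adj l → l.Nodup → NB T l
  | [], h, _, _ => absurd rfl h
  | [_], _, _, _ => trivial
  | v :: w :: l, _, h, hn => by
    refine ⟨h.rel, ?_, TRA_of_chain (w :: l) (by simp) h.of_cons hn.of_cons⟩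
    intro x hx hvx
    subst hvx
    have : v ∈ l := List.mem_of_mem_head? hx
    exact (List.nodup_cons.mp hn).1 (List.mem_cons_of_mem _ this)

theorem NB_nodup (hT : T.IsTree) (l : List V) (h : NB T l) : l.Nodup := by
  induction l with
  | nil => exact absurd h (by simp [NB])
  | cons v l ih =>
    cases l with
    | nil => simp
    | cons w l =>
      have ih' := ih h.2.2
      rw [List.nodup_cons]
      refine ⟨?_, ih'⟩
      intro hv
      obtain ⟨p, hp⟩ := TRA_walk (w :: l) h.2.2 w _ rfl
        (List.getLast?_eq_some_getLast (by simp))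
      have hpath : p.IsPath := by
        rw [SimpleGraph.Walk.isPath_def, hp]; exact ih'
      have hv' : v ∈ p.support := by rw [hp]; exact hv
      have h1 : (p.takeUntil v hv').IsPath := hpath.takeUntil _
      have hne : v ≠ w := h.1.ne
      have hq : (SimpleGraph.Walk.cons h.1.symm SimpleGraph.Walk.nil : T.Walk w v).IsPath := by
        simp [SimpleGraph.Walk.cons_isPath_iff, hne.symm]
      have hu := hT.IsAcyclic.path_unique ⟨_, h1⟩ ⟨_, hq⟩
      have hu' := congrArg (fun q : T.Path w v => (q : T.Walk w v).support) hu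
      simp only [SimpleGraph.Walk.support_cons, SimpleGraph.Walk.support_nil] at hu'
      have hpre := p.support_takeUntil_prefix_support hv'
      rw [hu', hp] at hpre
      obtain ⟨t, ht⟩ := hpre
      have : l.head? = some v := by
        cases l with
        | nil => simp at ht
        | cons a l => simp at ht; simp [ht.1]
      exact h.2.1 v (by rw [this]; simp) rfl

theorem NB_unique (hT : T.IsTree) (l l' : List V) (h : NB T l) (h' : NB T l')
    (hh : l.head? = l'.head?) (hl : l.getLast? = l'.getLast?) : l = l' := by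
  have hne : l ≠ [] := by rintro rfl; exact h
  have hne' : l' ≠ [] := by rintro rfl; exact h'
  obtain ⟨y, hy⟩ : ∃ y, l.head? = some y := ⟨_, List.head?_eq_some_head hne⟩
  obtain ⟨x, hx⟩ : ∃ x, l.getLast? = some x := ⟨_, List.getLast?_eq_some_getLast hne⟩
  obtain ⟨p, hp⟩ := TRA_walk l h y x hy hx
  obtain ⟨p', hp'⟩ := TRA_walk l' h' y x (hh ▸ hy) (hl ▸ hx)
  have h1 : p.IsPath := by
    rw [SimpleGraph.Walk.isPath_def, hp]; exact NB_nodup hT l h
  have h2 : p'.IsPath := by
    rw [SimpleGraph.Walk.isPath_def, hp']; exact NB_nodup hT l' h'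
  have hu := hT.IsAcyclic.path_unique ⟨p, h1⟩ ⟨p', h2⟩
  have hu' : p = p' := congrArg (fun q : T.Path y x => (q : T.Walk y x)) hu
  rw [← hp, ← hp', hu']

theorem TRA_spec (hT : T.IsTree) (x y : V) :
    ∃ p : T.Walk y x, p.IsPath ∧ tpath hT x y = p.support :=
  ⟨_, (hT.existsUnique_path y x).choose_spec.1, rfl⟩

theorem tpath_NB (hT : T.IsTree) (x y : V) : NB T (tpath hT x y) := by
  obtain ⟨p, hp, h⟩ := TRA_spec hT x y
  rw [h]
  exact TRA_of_chain _ p.support_ne_nil p.isChain_adj_support hp.support_nodup

theorem tpath_head (hT : T.IsTree) (x y : V) : (tpath hT x y).head? = some y := by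
  obtain ⟨p, hp, h⟩ := TRA_spec hT x y
  rw [h, p.support_eq_cons]; rfl

theorem tpath_last (hT : T.IsTree) (x y : V) : (tpath hT x y).getLast? = some x := by
  obtain ⟨p, hp, h⟩ := TRA_spec hT x y
  rw [h, List.getLast?_eq_some_getLast p.support_ne_nil, p.getLast_support]

theorem NB_eq_tpath (hT : T.IsTree) (l : List V) (h : NB T l) (x y : V)
    (hh : l.head? = some y) (hl : l.getLast? = some x) : l = tpath hT x y :=
  NB_unique hT _ _ h (tpath_NB hT x y) (by rw [hh, tpath_head]) (by rw [hl, tpath_last])

theorem tpath_length (hT : T.IsTree) (x y : V) :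
    (tpath hT x y).length = T.dist x y + 1 := by
  obtain ⟨p, hp, h⟩ := TRA_spec hT x y
  obtain ⟨q, hq, hql⟩ := hT.isConnected.exists_path_of_dist y x
  have hu := hT.IsAcyclic.path_unique ⟨p, hp⟩ ⟨q, hq⟩
  have hu' : p = q := congrArg (fun q : T.Path y x => (q : T.Walk y x)) hu
  rw [h, SimpleGraph.Walk.length_support, hu', hql, SimpleGraph.dist_comm]

theorem tpath_self (hT : T.IsTree) (x : V) : tpath hT x x = [x] :=
  (NB_eq_tpath hT [x] trivial x x rfl rfl).symm

theorem NB_tail (v w : V) (l : List V) (h : NB T (v :: w :: l)) : NB T (w :: l) := h.2.2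

theorem NB_append_right (l l' : List V) (h : NB T (l ++ l')) (hne : l' ≠ []) : NB T l' := by
  induction l with
  | nil => simpa using h
  | cons v l ih =>
    apply ih
    cases l with
    | nil =>
      cases l' with
      | nil => exact absurd rfl hne
      | cons w l' => exact h.2.2
    | cons w l => exact h.2.2

theorem NB_append_left (l l' : List V) (h : NB T (l ++ l')) (hne : l ≠ []) : NB T l := by
  induction l with
  | nil => exact absurd rfl hne
  | cons v l ih =>
    cases l with
    | nil => trivial
    | cons w l =>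
      refine ⟨h.1, ?_, ih h.2.2 (by simp)⟩
      intro x hx
      apply h.2.1
      cases l with
      | nil => simp at hx
      | cons a l => simpa using hx

theorem TRA_snoc : ∀ (l : List V) (u v : V), NB T (l ++ [u]) → T.Adj u v →
    (∀ x ∈ l.getLast?, x ≠ v) → NB T (l ++ [u] ++ [v])
  | [], u, v, _, h, _ => ⟨h, by simp, trivial⟩
  | [a], u, v, h, huv, hx => ⟨h.1, by simpa using hx a (by simp), huv, by simp, trivial⟩
  | a :: b :: l, u, v, h, huv, hx => by
    refine ⟨h.1, ?_, TRA_snoc (b :: l) u v h.2.2 huv (by simpa using hx)⟩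
    intro x hx'
    apply h.2.1
    cases l with
    | nil => simpa using hx'
    | cons c l => simpa using hx'

theorem NB_reverse (l : List V) (h : NB T l) : NB T l.reverse := by
  induction l with
  | nil => exact h
  | cons v l ih =>
    cases l with
    | nil => exact h
    | cons w l =>
      have ih' := ih h.2.2
      rw [List.reverse_cons] at ih'
      rw [List.reverse_cons, List.reverse_cons]
      refine TRA_snoc _ _ _ ih' h.1.symm ?_
      intro x hx
      rw [List.getLast?_reverse] at hx
      exact (h.2.1 x hx).symm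

theorem tpath_reverse (hT : T.IsTree) (x y : V) :
    (tpath hT x y).reverse = tpath hT y x := by
  apply NB_eq_tpath hT _ (NB_reverse _ (tpath_NB hT x y))
  · rw [List.head?_reverse, tpath_last]
  · rw [List.getLast?_reverse, tpath_head]

end GWP
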