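import Pool.Agent.H55.GWP.TRB
import Pool.Agent.H55.GWP.PNG

/-! VC1: if the axis of `h` and its translate by `g` have arbitrarily long overlaps, then many
elements `h^(-j) g⁻¹ h^i` are in a finite set independent of `g`.

Let `a_i = h^i p`, `b_i = g h^i p`, `D₀ = dist p (g p)`, `X = {x | x p, x a_{±N} ∈ Z}` where `Z` is
the finite set of vertices of `[p, a_{N+1}] ∪ [p, a_{-N-1}]`; precisely
`X = {x | x p ∈ Z ∧ x a_N ∈ Z} ∪ {x | x p ∈ Z ∧ x a_{-N} ∈ Z}`, finite because the stabilisers of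
`(p, a_N)` and `(p, a_{-N})` are finite (conjugate by `h^N`).
For large `B` take `m, n` with `d(a_m, b_n) + B < (|m| + |n|) τ`.  Then `(a_m | b_n)_p > (B - D₀)/2`,
and `[p, b_n]` beyond distance `D₀` from `p` is in `[g p, b_n]`; so all `a_i` with `i` of the sign
`ε` of `m` and `D₀ ≤ |i| τ ≤ (B - D₀)/2` are on `[g p, b_n]`, in this order.  Hence `g⁻¹ a_i` is on
`[p, a_n]`, between `a_{ηj}` and `a_{η(j+1)}` (`η` sign of `n`, some `j ≥ 0`), and
`x = h^(-ηj) g⁻¹ h^i` maps `p` into `[p, a_η]` and `a_{εN}` into `[p, a_{η(N+1)}]`, so `x ∈ X`. -/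

set_option autoImplicit false
open Classical
namespace GWP

variable {V : Type*} {T : SimpleGraph V}

section aux

variable (hT : T.IsTree)
include hT

theorem VC1_same (u v y z : V) (hy : T.dist u y + T.dist y v = T.dist u v)
    (hz : T.dist u z + T.dist z v = T.dist u v) :
    T.dist y z ≤ (T.dist u y - T.dist u z) + (T.dist u z - T.dist u y) := by
  have h := four_point hT y z u v
  have h1 := T.dist_comm (u := u) (v := y)
  have h2 := T.dist_comm (u := u) (v := z)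
  rcases le_max_iff.1 h with h | h <;> omega

variable {G : Type*} [Group G] [MulAction G V]
  (act : ∀ (g : G) (u v : V), T.Adj u v → T.Adj (g • u) (g • v))
include act

theorem VC1_ax (u : G) (p : V) (τ : ℕ) (hu : ∀ n : ℕ, T.dist p (u ^ n • p) = n * τ) (i m : ℕ)
    (him : i ≤ m) : T.dist (u ^ i • p) (u ^ m • p) = m * τ - i * τ := by
  have h := axis_dist hT act u p τ hu i m
  rw [zpow_natCast, zpow_natCast] at h
  rw [h, ← Nat.sub_mul]
  congr 1
  omega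

theorem VC1_line (v : G) (p : V) (τ : ℕ) (hv : ∀ n : ℕ, T.dist p (v ^ n • p) = n * τ)
    (k R : ℕ) (y : V) (hy : T.dist p y + T.dist y (v ^ k • p) = k * τ)
    (hR : T.dist p y ≤ R * τ) : T.dist p y + T.dist y (v ^ R • p) = R * τ := by
  have tri : ∀ a b c : V, T.dist a c ≤ T.dist a b + T.dist b c := fun a b c =>
    hT.connected.dist_triangle
  have h0 := hv R
  have h1 := hv k
  rcases le_total R k with h | h
  · have h2 := VC1_ax hT act v p τ hv R k h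
    have h3 : R * τ ≤ k * τ := Nat.mul_le_mul_right _ h
    have h4 := VC1_same hT p (v ^ k • p) y (v ^ R • p) (by omega) (by omega)
    have h5 := tri p y (v ^ R • p)
    omega
  · have h2 := VC1_ax hT act v p τ hv k R h
    have h3 : k * τ ≤ R * τ := Nat.mul_le_mul_right _ h
    have h4 := tri y (v ^ k • p) (v ^ R • p)
    have h5 := tri p y (v ^ R • p)
    omega

theorem VC1_shift (v : G) (p : V) (τ : ℕ) (hv : ∀ n : ℕ, T.dist p (v ^ n • p) = n * τ)
    (n j R : ℕ) (q : V) (hq : T.dist p q + T.dist q (v ^ n • p) = n * τ) (hj : j ≤ n)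
    (h1 : j * τ ≤ T.dist p q) (h2 : T.dist p q ≤ j * τ + R * τ) :
    T.dist p ((v ^ j)⁻¹ • q) + T.dist ((v ^ j)⁻¹ • q) (v ^ R • p) = R * τ := by
  have tri : ∀ a b c : V, T.dist a c ≤ T.dist a b + T.dist b c := fun a b c =>
    hT.connected.dist_triangle
  have e1 : T.dist p ((v ^ j)⁻¹ • q) = T.dist (v ^ j • p) q := by
    rw [← dist_smul' act hT (v ^ j) p ((v ^ j)⁻¹ • q), smul_inv_smul]
  have e2 : T.dist ((v ^ j)⁻¹ • q) (v ^ (n - j) • p) = T.dist q (v ^ n • p) := by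
    rw [← dist_smul' act hT (v ^ j) ((v ^ j)⁻¹ • q) (v ^ (n - j) • p), smul_inv_smul,
      smul_smul, ← pow_add, Nat.add_sub_cancel' hj]
  have h3 := hv n
  have h4 := hv j
  have h5 := VC1_ax hT act v p τ hv j n hj
  have h6 : j * τ ≤ n * τ := Nat.mul_le_mul_right _ hj
  have h7 := VC1_same hT p (v ^ n • p) (v ^ j • p) q (by omega) (by omega)
  have h8 := tri (v ^ j • p) q (v ^ n • p)
  have h9 : (n - j) * τ = n * τ - j * τ := Nat.sub_mul _ _ _
  apply VC1_line hT act v p τ hv (n - j) R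
  · omega
  · omega

theorem VC1_core (u v g : G) (p : V) (τ : ℕ) (hu : ∀ n : ℕ, T.dist p (u ^ n • p) = n * τ)
    (hv : ∀ n : ℕ, T.dist p (v ^ n • p) = n * τ) (B m n i : ℕ)
    (hB : T.dist (u ^ m • p) (g • v ^ n • p) + B < (m + n) * τ)
    (hi1 : T.dist p (g • p) < i * τ) (hi2 : 2 * (i * τ) + T.dist p (g • p) ≤ B) :
    T.dist p (g⁻¹ • u ^ i • p) + T.dist (g⁻¹ • u ^ i • p) (v ^ n • p) = n * τ ∧
      T.dist (g⁻¹ • u ^ i • p) (v ^ n • p) + i * τ = T.dist p (g • v ^ n • p) := by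
  have tri : ∀ a b c : V, T.dist a c ≤ T.dist a b + T.dist b c := fun a b c =>
    hT.connected.dist_triangle
  have e1 : T.dist p (g⁻¹ • u ^ i • p) = T.dist (g • p) (u ^ i • p) := by
    rw [← dist_smul' act hT g p (g⁻¹ • u ^ i • p), smul_inv_smul]
  have e2 : T.dist (g⁻¹ • u ^ i • p) (v ^ n • p) = T.dist (u ^ i • p) (g • v ^ n • p) := by
    rw [← dist_smul' act hT g (g⁻¹ • u ^ i • p) (v ^ n • p), smul_inv_smul]
  rw [e1, e2]
  rw [Nat.add_mul] at hB
  have h1 := hu m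
  have h2 := hv n
  have h3 := dist_smul' act hT g p (v ^ n • p)
  have h4 := tri (g • p) p (g • v ^ n • p)
  have h5 := T.dist_comm (u := g • p) (v := p)
  have h6 := tri p (u ^ m • p) (g • v ^ n • p)
  have him : i < m := by
    by_contra hc
    have : m * τ ≤ i * τ := Nat.mul_le_mul_right _ (not_lt.1 hc)
    omega
  have h7 : i * τ ≤ m * τ := Nat.mul_le_mul_right _ him.le
  have h8 := VC1_ax hT act u p τ hu i m him.le
  have h9 := hu i
  have h10 := four_point hT (u ^ i • p) (g • v ^ n • p) p (u ^ m • p)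
  have c1 := T.dist_comm (u := u ^ i • p) (v := p)
  have c2 := T.dist_comm (u := g • v ^ n • p) (v := p)
  have c3 := T.dist_comm (u := g • v ^ n • p) (v := u ^ m • p)
  have t1 := tri p (u ^ i • p) (g • v ^ n • p)
  have hA : T.dist (u ^ i • p) (g • v ^ n • p) + i * τ = T.dist p (g • v ^ n • p) := by
    rcases le_max_iff.1 h10 with h10 | h10 <;> omega
  have h11 := four_point hT (u ^ i • p) (g • p) p (g • v ^ n • p)
  have c4 := T.dist_comm (u := u ^ i • p) (v := g • p)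
  have t2 := tri (g • p) (u ^ i • p) (g • v ^ n • p)
  refine ⟨?_, hA⟩
  rcases le_max_iff.1 h11 with h11 | h11 <;> omega

theorem VC1_fin (u v : G) (p : V) (k R : ℕ)
    (hfin : {x : G | x • p = p ∧ x • u ^ k • p = u ^ k • p}.Finite) (D : ℕ)
    (hD : T.dist p (v ^ R • p) = D) :
    {x : G | T.dist p (x • p) + T.dist (x • p) (v ^ R • p) = D ∧
      T.dist p (x • u ^ k • p) + T.dist (x • u ^ k • p) (v ^ R • p) = D}.Finite := by
  set Z : Set V := {z | z ∈ tpath hT p (v ^ R • p)} with hZ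
  have hZf : Z.Finite := List.finite_toSet _
  have hsub : {x : G | T.dist p (x • p) + T.dist (x • p) (v ^ R • p) = D ∧
      T.dist p (x • u ^ k • p) + T.dist (x • u ^ k • p) (v ^ R • p) = D} ⊆
      (fun x : G => (x • p, x • u ^ k • p)) ⁻¹' (Z ×ˢ Z) := by
    rintro x ⟨h1, h2⟩
    refine ⟨?_, ?_⟩
    · exact (mem_tpath_iff hT _ _ _).2 (by rw [hD]; exact h1)
    · exact (mem_tpath_iff hT _ _ _).2 (by rw [hD]; exact h2)
  refine Set.Finite.subset ?_ hsub
  refine Set.Finite.preimage' (hZf.prod hZf) ?_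
  rintro ⟨z1, z2⟩ -
  rcases Set.eq_empty_or_nonempty ((fun x : G => (x • p, x • u ^ k • p)) ⁻¹' {(z1, z2)}) with h | h
  · rw [h]; exact Set.finite_empty
  · obtain ⟨x0, hx0⟩ := h
    simp only [Set.mem_preimage, Set.mem_singleton_iff, Prod.mk.injEq] at hx0
    refine Set.Finite.subset (hfin.image (x0 * ·)) ?_
    intro x hx
    simp only [Set.mem_preimage, Set.mem_singleton_iff, Prod.mk.injEq] at hx
    refine ⟨x0⁻¹ * x, ⟨?_, ?_⟩, by simp⟩
    · rw [mul_smul, hx.1, ← hx0.1, inv_smul_smul]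
    · rw [mul_smul, hx.2, ← hx0.2, inv_smul_smul]

end aux

theorem overlap_finite {G : Type*} [Group G] [MulAction G V] (hT : T.IsTree)
    (act : ∀ (g : G) (u v : V), T.Adj u v → T.Adj (g • u) (g • v)) (h : G) (p : V) (τ : ℕ)
    (hτ : 0 < τ) (hax : ∀ n : ℕ, T.dist p (h ^ n • p) = n * τ) (N : ℕ) (hN : 1 ≤ N)
    (hfin : {x : G | x • p = p ∧ x • h ^ N • p = h ^ N • p}.Finite) :
    ∃ X : Set G, X.Finite ∧ ∀ g : G,
      (∀ B : ℕ, ∃ m n : ℤ, T.dist (h ^ m • p) (g • h ^ n • p) + B <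
        (m.natAbs + n.natAbs) * τ) →
      ∀ W : ℕ, ∃ i₀ : ℤ, ∀ r : ℕ, r ≤ W → ∃ j : ℤ, h ^ (-j) * g⁻¹ * h ^ (i₀ + r) ∈ X := by
  have hax' : ∀ e : ℤ, e = 1 ∨ e = -1 → ∀ n : ℕ, T.dist p ((h ^ e) ^ n • p) = n * τ := by
    rintro e (rfl | rfl) n
    · rw [zpow_one]; exact hax n
    · have := axis_dist hT act h p τ hax 0 (-(n : ℤ))
      rw [zpow_zero, one_smul] at this
      rw [← zpow_natCast, ← zpow_mul, neg_one_mul, this]
      congr 1
      omega
  have hfin' : ∀ e : ℤ, e = 1 ∨ e = -1 →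
      {x : G | x • p = p ∧ x • (h ^ e) ^ N • p = (h ^ e) ^ N • p}.Finite := by
    rintro e (rfl | rfl)
    · rw [zpow_one]; exact hfin
    · have hinj : Function.Injective (fun x : G => h ^ N * x * (h ^ N)⁻¹) := by
        intro a b hab
        simpa using hab
      refine Set.Finite.subset (hfin.preimage hinj.injOn) ?_
      rintro x ⟨h1, h2⟩
      have e1 : (h ^ (-1 : ℤ)) ^ N = (h ^ N)⁻¹ := by
        rw [zpow_neg, zpow_one, inv_pow]
      rw [e1] at h2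
      refine ⟨?_, ?_⟩
      · change (h ^ N * x * (h ^ N)⁻¹) • p = p
        rw [mul_smul, mul_smul, h2, smul_inv_smul]
      · change (h ^ N * x * (h ^ N)⁻¹) • h ^ N • p = h ^ N • p
        rw [mul_smul, inv_smul_smul, mul_smul, h1]
  set X0 : ℤ → ℤ → Set G := fun e f =>
    {x : G | T.dist p (x • p) + T.dist (x • p) ((h ^ f) ^ (N + 1) • p) = (N + 1) * τ ∧
      T.dist p (x • (h ^ e) ^ N • p) + T.dist (x • (h ^ e) ^ N • p) ((h ^ f) ^ (N + 1) • p) =
        (N + 1) * τ} with hX0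
  have hX0f : ∀ e f : ℤ, e = 1 ∨ e = -1 → f = 1 ∨ f = -1 → (X0 e f).Finite := fun e f he hf =>
    VC1_fin hT act (h ^ e) (h ^ f) p N (N + 1) (hfin' e he) _ (hax' f hf (N + 1))
  refine ⟨(X0 1 1 ∪ X0 1 (-1)) ∪ (X0 (-1) 1 ∪ X0 (-1) (-1)), ?_, ?_⟩
  · exact ((hX0f 1 1 (by simp) (by simp)).union (hX0f 1 (-1) (by simp) (by simp))).union
      ((hX0f (-1) 1 (by simp) (by simp)).union (hX0f (-1) (-1) (by simp) (by simp)))
  intro g hov W
  obtain ⟨D₀, hD₀⟩ : ∃ D₀, D₀ = T.dist p (g • p) := ⟨_, rfl⟩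
  obtain ⟨m, n, hmn⟩ := hov (2 * ((D₀ + 1 + W + N) * τ) + D₀)
  have hsgn : ∀ m : ℤ, ∃ e : ℤ, (e = 1 ∨ e = -1) ∧ h ^ m = (h ^ e) ^ m.natAbs := by
    intro m
    rcases Int.natAbs_eq m with hm | hm
    · refine ⟨1, Or.inl rfl, ?_⟩
      rw [← zpow_natCast, ← zpow_mul, one_mul, ← hm]
    · refine ⟨-1, Or.inr rfl, ?_⟩
      rw [← zpow_natCast, ← zpow_mul, neg_one_mul, ← hm]
  obtain ⟨e, he, hem⟩ := hsgn m
  obtain ⟨f, hf, hfn⟩ := hsgn n
  rw [hem, hfn] at hmn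
  have hu := hax' e he
  have hv := hax' f hf
  have hcl : ∀ i : ℕ, D₀ + 1 ≤ i → i ≤ D₀ + 1 + W → ∃ j : ℕ,
      ((h ^ f) ^ j)⁻¹ * g⁻¹ * (h ^ e) ^ i ∈ X0 e f := by
    intro i hi1 hi2
    have a1 : i * τ ≤ (D₀ + 1 + W + N) * τ := Nat.mul_le_mul_right _ (by omega)
    have a2 : (i + N) * τ ≤ (D₀ + 1 + W + N) * τ := Nat.mul_le_mul_right _ (by omega)
    have a3 : i ≤ i * τ := Nat.le_mul_of_pos_right _ hτ
    have a4 : (i + N) * τ = i * τ + N * τ := Nat.add_mul _ _ _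
    obtain ⟨b1, b2⟩ := VC1_core hT act (h ^ e) (h ^ f) g p τ hu hv _ m.natAbs n.natAbs i hmn
      (by omega) (by omega)
    obtain ⟨b3, b4⟩ := VC1_core hT act (h ^ e) (h ^ f) g p τ hu hv _ m.natAbs n.natAbs (i + N)
      hmn (by omega) (by omega)
    obtain ⟨t, ht⟩ : ∃ t, t = T.dist p (g⁻¹ • (h ^ e) ^ i • p) := ⟨_, rfl⟩
    have c1 : t / τ * τ ≤ t := Nat.div_mul_le_self t τ
    have c2 : t < t / τ * τ + τ := by
      have := Nat.lt_div_mul_add hτ (a := t)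
      omega
    have c3 : t / τ ≤ n.natAbs := by
      have : t / τ * τ ≤ n.natAbs * τ := by omega
      exact Nat.le_of_mul_le_mul_right this hτ
    have c4 : (N + 1) * τ = N * τ + τ := by ring
    refine ⟨t / τ, ?_, ?_⟩
    · rw [mul_smul, mul_smul]
      exact VC1_shift hT act (h ^ f) p τ hv n.natAbs (t / τ) (N + 1) _ b1 c3 (by omega)
        (by omega)
    · rw [mul_smul, mul_smul]
      have e3 : (h ^ e) ^ i • (h ^ e) ^ N • p = (h ^ e) ^ (i + N) • p := by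
        rw [smul_smul, ← pow_add]
      rw [e3]
      exact VC1_shift hT act (h ^ f) p τ hv n.natAbs (t / τ) (N + 1) _ b3 c3 (by omega)
        (by omega)
  have hsub : X0 e f ⊆ (X0 1 1 ∪ X0 1 (-1)) ∪ (X0 (-1) 1 ∪ X0 (-1) (-1)) := by
    intro x hx
    rcases he with rfl | rfl <;> rcases hf with rfl | rfl <;> simp [hx]
  have hz : ∀ j : ℕ, ((h ^ f) ^ j)⁻¹ = h ^ (-(f * j)) := by
    intro j
    rw [zpow_neg, zpow_mul, zpow_natCast]
  rcases he with rfl | rfl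
  · refine ⟨((D₀ + 1 : ℕ) : ℤ), fun r hr => ?_⟩
    obtain ⟨j, hj⟩ := hcl (D₀ + 1 + r) (by omega) (by omega)
    refine ⟨f * j, hsub ?_⟩
    rw [hz, zpow_one, ← zpow_natCast] at hj
    push_cast at hj ⊢
    exact hj
  · refine ⟨-((D₀ + 1 + W : ℕ) : ℤ), fun r hr => ?_⟩
    obtain ⟨j, hj⟩ := hcl (D₀ + 1 + (W - r)) (by omega) (by omega)
    refine ⟨f * j, hsub ?_⟩
    rw [hz, ← zpow_natCast (h ^ (-1 : ℤ)), ← zpow_mul] at hj
    have : (-((D₀ + 1 + W : ℕ) : ℤ)) + (r : ℤ) = -1 * ((D₀ + 1 + (W - r) : ℕ) : ℤ) := by omega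
    rw [this]
    exact hj

end GWP
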