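import Pool.Agent.H55.GWP.Defs

/-! WSB: evaluation of words and word length. -/

set_option autoImplicit false
open Classical
namespace GWP

section ev
variable {S G : Type*} [Group G] (e : S → G)

theorem ev_nil : ev e [] = 1 := rfl

theorem ev_cons (s : S) (w : List S) : ev e (s :: w) = e s * ev e w := by
  simp [ev]

theorem ev_append (u v : List S) : ev e (u ++ v) = ev e u * ev e v := by
  simp [ev]

theorem ev_rev (inv : S → S) (he : ∀ s, e (inv s) = (e s)⁻¹) (w : List S) :
    ev e ((w.map inv).reverse) = (ev e w)⁻¹ := by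
  induction w with
  | nil => simp [ev]
  | cons s w ih =>
    rw [List.map_cons, List.reverse_cons, ev_append, ih, ev_cons, ev_cons, mul_inv_rev, ev_nil,
      mul_one, he]

variable (gen : ∀ g : G, ∃ w : List S, ev e w = g)

include gen in
theorem wlen_spec (g : G) : ∃ w : List S, w.length = wlen e g ∧ ev e w = g := by
  have hne : {n | ∃ w : List S, w.length = n ∧ ev e w = g}.Nonempty := by
    obtain ⟨w, hw⟩ := gen g
    exact ⟨w.length, w, rfl, hw⟩
  exact Nat.sInf_mem hne

theorem wlen_ev (w : List S) : wlen e (ev e w) ≤ w.length :=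
  Nat.sInf_le ⟨w, rfl, rfl⟩

include gen in
theorem wlen_mul (g h : G) : wlen e (g * h) ≤ wlen e g + wlen e h := by
  obtain ⟨u, hu, hu'⟩ := wlen_spec e gen g
  obtain ⟨v, hv, hv'⟩ := wlen_spec e gen h
  have := wlen_ev e (u ++ v)
  rw [ev_append, hu', hv', List.length_append, hu, hv] at this
  exact this

theorem wlen_one : wlen e (1 : G) = 0 := by
  have := wlen_ev e ([] : List S)
  rw [ev_nil, List.length_nil] at this
  omega

theorem wlen_letter (s : S) : wlen e (e s) ≤ 1 := by
  have := wlen_ev e [s]
  rw [ev_cons, ev_nil, mul_one, List.length_singleton] at this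
  exact this

include gen in
theorem wlen_ball_finite [Finite S] (n : ℕ) : {g : G | wlen e g ≤ n}.Finite := by
  have hf : {w : List S | w.length ≤ n}.Finite := by
    have : {w : List S | w.length ≤ n} = ⋃ k ∈ Set.Iic n, {w : List S | w.length = k} := by
      ext w
      simp
    rw [this]
    exact (Set.finite_Iic n).biUnion fun k _ => List.finite_length_eq S k
  refine (hf.image (ev e)).subset ?_
  intro g hg
  obtain ⟨w, hw, hw'⟩ := wlen_spec e gen g
  exact ⟨w, by rw [Set.mem_setOf_eq, hw]; exact hg, hw'⟩

end ev

end GWP
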