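import Pool.Agent.H55.GWP.WSA
import Pool.Agent.H55.GWP.WSB

/-! WSM: sums over words, evaluation, word length. -/
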